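import Pool.Agent.CRD.G.StmtsB

/-!
# CRD, area G, module STF: functions on the charts in the direction of the conic
-/

set_option autoImplicit false

open CategoryTheory Opposite Limits TensorProduct MonoidalCategory

namespace Pool.CRD.G

namespace STF_

/-- the elements which are in `A` after multiplication by a power of `v` -/
def loc {K E : Type} [Field K] [Field E] [Algebra K E] (A : Subalgebra K E) (v : E) (hv : v ∈ A) :
    Subalgebra K E where
  carrier := {x | ∃ n : ℕ, v ^ n * x ∈ A}
  mul_mem' := by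
    rintro x y ⟨n, hn⟩ ⟨m, hm⟩
    refine ⟨n + m, ?_⟩
    have h : v ^ (n + m) * (x * y) = (v ^ n * x) * (v ^ m * y) := by ring
    rw [h]
    exact mul_mem hn hm
  add_mem' := by
    rintro x y ⟨n, hn⟩ ⟨m, hm⟩
    refine ⟨n + m, ?_⟩
    have h : v ^ (n + m) * (x + y) = v ^ m * (v ^ n * x) + v ^ n * (v ^ m * y) := by ring
    rw [h]
    exact add_mem (mul_mem (pow_mem hv _) hn) (mul_mem (pow_mem hv _) hm)
  algebraMap_mem' k := ⟨0, by rw [pow_zero, one_mul]; exact A.algebraMap_mem k⟩

theorem le_loc {K E : Type} [Field K] [Field E] [Algebra K E] (A : Subalgebra K E) (v : E)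
    (hv : v ∈ A) : A ≤ loc A v hv := fun x hx => ⟨0, by rw [pow_zero, one_mul]; exact hx⟩

section

variable {K L E : Type} [Field K] [Field L] [Field E] [Algebra K L] [Algebra K E] [Algebra L E]
  [IsScalarTower K L E] (A : Subalgebra K L) (y z : E)

/-- the generators -/
def gs : Set E := {w : E | ∃ n : ℕ, w = y ^ n ∨ w = y ^ n * z}

omit [Algebra K E] [IsScalarTower K L E] in
theorem mul_gs {p q : L} (hp : p ∈ A) (hq : q ∈ A)
    (hz : z ^ 2 = algebraMap L E p + algebraMap L E q * y ^ 2) {w w' : E} (hw : w ∈ gs y z)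
    (hw' : w' ∈ gs y z) : w * w' ∈ Submodule.span A (gs y z) := by
  obtain ⟨n, rfl | rfl⟩ := hw <;> obtain ⟨m, rfl | rfl⟩ := hw'
  · exact Submodule.subset_span ⟨n + m, Or.inl (by ring)⟩
  · exact Submodule.subset_span ⟨n + m, Or.inr (by ring)⟩
  · exact Submodule.subset_span ⟨n + m, Or.inr (by ring)⟩
  · have e : y ^ n * z * (y ^ m * z) = (⟨p, hp⟩ : A) • y ^ (n + m) +
        (⟨q, hq⟩ : A) • y ^ (n + m + 2) := by
      change _ = p • y ^ (n + m) + q • y ^ (n + m + 2)
      rw [Algebra.smul_def, Algebra.smul_def]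
      linear_combination (y ^ n * y ^ m) * hz
    rw [e]
    exact add_mem (Submodule.smul_mem _ _ (Submodule.subset_span ⟨_, Or.inl rfl⟩))
      (Submodule.smul_mem _ _ (Submodule.subset_span ⟨_, Or.inl rfl⟩))

omit [Algebra K E] [IsScalarTower K L E] in
theorem mul_span {p q : L} (hp : p ∈ A) (hq : q ∈ A)
    (hz : z ^ 2 = algebraMap L E p + algebraMap L E q * y ^ 2) {w w' : E}
    (hw : w ∈ Submodule.span A (gs y z)) (hw' : w' ∈ Submodule.span A (gs y z)) :
    w * w' ∈ Submodule.span A (gs y z) := by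
  induction hw using Submodule.span_induction with
  | zero => rw [zero_mul]; exact zero_mem _
  | add a b _ _ ha hb => rw [add_mul]; exact add_mem ha hb
  | smul r a _ ha =>
    have e : r • a * w' = r • (a * w') := by
      change (r : L) • a * w' = (r : L) • (a * w')
      exact smul_mul_assoc _ _ _
    rw [e]
    exact Submodule.smul_mem _ _ ha
  | mem a ha =>
    induction hw' using Submodule.span_induction with
    | zero => rw [mul_zero]; exact zero_mem _
    | add u v _ _ hu hv => rw [mul_add]; exact add_mem hu hv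
    | smul r u _ hu =>
      have e : a * r • u = r • (a * u) := by
        change a * (r : L) • u = (r : L) • (a * u)
        exact mul_smul_comm _ _ _
      rw [e]
      exact Submodule.smul_mem _ _ hu
    | mem u hu => exact mul_gs A y z hp hq hz ha hu

omit [Algebra K E] [IsScalarTower K L E] in
theorem base_mem {a : L} (ha : a ∈ A) : algebraMap L E a ∈ Submodule.span A (gs y z) := by
  have e : algebraMap L E a = (⟨a, ha⟩ : A) • (y ^ 0 : E) := by
    change _ = a • (y ^ 0 : E)
    rw [pow_zero, Algebra.smul_def, mul_one]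
  rw [e]
  exact Submodule.smul_mem _ _ (Submodule.subset_span ⟨_, Or.inl rfl⟩)

/-- the span as a subalgebra -/
def alg {p q : L} (hp : p ∈ A) (hq : q ∈ A)
    (hz : z ^ 2 = algebraMap L E p + algebraMap L E q * y ^ 2) : Subalgebra K E where
  carrier := (Submodule.span A (gs y z) : Set E)
  mul_mem' h h' := mul_span A y z hp hq hz h h'
  add_mem' h h' := (Submodule.span A (gs y z)).add_mem h h'
  algebraMap_mem' k := by
    rw [IsScalarTower.algebraMap_apply K L E]
    exact base_mem A y z (A.algebraMap_mem k)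

theorem mem_alg {p q : L} (hp : p ∈ A) (hq : q ∈ A)
    (hz : z ^ 2 = algebraMap L E p + algebraMap L E q * y ^ 2) (w : E) :
    w ∈ alg (K := K) A y z hp hq hz ↔ w ∈ Submodule.span A (gs y z) := Iff.rfl

theorem key {p q : L} (hp : p ∈ A) (hq : q ∈ A)
    (hz : z ^ 2 = algebraMap L E p + algebraMap L E q * y ^ 2) (G : Set E)
    (hG : ∀ g ∈ G, g ∈ Submodule.span A (gs y z)) {w : E}
    (hw : w ∈ A.map (IsScalarTower.toAlgHom K L E) ⊔ Algebra.adjoin K G) :
    w ∈ Submodule.span A (gs y z) := by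
  have h : A.map (IsScalarTower.toAlgHom K L E) ⊔ Algebra.adjoin K G ≤ alg A y z hp hq hz := by
    refine sup_le ?_ (Algebra.adjoin_le ?_)
    · rintro _ ⟨a, ha, rfl⟩
      exact (mem_alg A y z hp hq hz _).2 (base_mem A y z ha)
    · intro g hg
      exact (mem_alg A y z hp hq hz _).2 (hG g hg)
  exact (mem_alg A y z hp hq hz _).1 (h hw)

end

theorem t_ca : true ∉ ca.s := by simp [ca, Cov.one]

theorem f_cb : false ∉ cb.s := by simp [cb, Cov.one]

end STF_

open STF_ in
theorem stf_proof : Stmt_STF := by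
  intro K _ c₁ c₂ S X s
  have hne := eta_ne X s.i
  refine ⟨fun z hz => ?_, fun z hz => ?_, fun z hz => ?_, fun z hz => ?_⟩
  · refine key (S.A s.i s.j) (X.eta s.i) (X.zeta s.j) (pS_mem S s) (qS_mem S s) (conic_eq X s)
      (X.gens s.i s.j ca) ?_ hz
    rintro g (⟨-, rfl | rfl⟩ | ⟨h, -⟩)
    · exact Submodule.subset_span ⟨1, Or.inl (pow_one _).symm⟩
    · exact Submodule.subset_span ⟨0, Or.inr (by rw [pow_zero, one_mul])⟩
    · exact absurd h t_ca
  · refine key (S.A s.i s.j) (X.eta s.i)⁻¹ (X.zeta s.j / X.eta s.i) (qS_mem S s) (pS_mem S s) ?_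
      (X.gens s.i s.j cb) ?_ hz
    · have h := conic_eq X s
      rw [div_pow, h]
      field_simp
      ring
    · rintro g (⟨h, -⟩ | ⟨-, rfl | rfl⟩)
      · exact absurd h f_cb
      · exact Submodule.subset_span ⟨1, Or.inl (pow_one _).symm⟩
      · exact Submodule.subset_span ⟨0, Or.inr (by rw [pow_zero, one_mul])⟩
  · have hle : X.A s.i s.j cab ≤ loc (X.A s.i s.j ca) (X.eta s.i) (eta_mem X s f_ca) := by
      refine sup_le ?_ (Algebra.adjoin_le ?_)
      · rintro _ ⟨a, ha, rfl⟩
        exact le_loc _ _ _ (X.mem_of_S ha)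
      · rintro g (⟨-, rfl | rfl⟩ | ⟨-, rfl | rfl⟩) <;> rw [SetLike.mem_coe]
        · exact le_loc _ _ _ (eta_mem X s f_ca)
        · exact le_loc _ _ _ (zeta_mem X s f_ca)
        · refine ⟨1, ?_⟩
          rw [pow_one, mul_inv_cancel₀ hne]
          exact one_mem _
        · refine ⟨1, ?_⟩
          rw [pow_one, mul_div_cancel₀ _ hne]
          exact zeta_mem X s f_ca
    exact hle hz
  · have hle : X.A s.i s.j cab ≤ loc (X.A s.i s.j cb) (X.eta s.i)⁻¹ (etainv_mem X s t_cb) := by
      refine sup_le ?_ (Algebra.adjoin_le ?_)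
      · rintro _ ⟨a, ha, rfl⟩
        exact le_loc _ _ _ (X.mem_of_S ha)
      · rintro g (⟨-, rfl | rfl⟩ | ⟨-, rfl | rfl⟩) <;> rw [SetLike.mem_coe]
        · refine ⟨1, ?_⟩
          rw [pow_one, inv_mul_cancel₀ hne]
          exact one_mem _
        · refine ⟨1, ?_⟩
          rw [pow_one, inv_mul_eq_div]
          exact zetadiv_mem X s t_cb
        · exact le_loc _ _ _ (etainv_mem X s t_cb)
        · exact le_loc _ _ _ (zetadiv_mem X s t_cb)
    exact hle hz

end Pool.CRD.G
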