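import Pool.Agent.CRD.G.StmtsD
import Pool.Agent.CRD.A0.Tr

/-!
# CRD, G, ACD: decomposition of an acyclic module into halves
-/

set_option autoImplicit false

open CategoryTheory Opposite Limits TensorProduct MonoidalCategory Pretriangulated

namespace Pool.CRD.G

namespace ACD_

section Gen

variable {K : Type} [Field K] (R : PAlg K Ch2) (k : Cov Bool)

/-- the identity of rings, general version -/
def phG : R ⟶ (inC k).op ⋙ ConicData.prC.op ⋙ R where
  app s := 𝟙 (R.obj s)
  naturality _ _ f := (Category.comp_id (R.map f)).trans (Category.id_comp (R.map f)).symm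

/-- the restriction, general version -/
noncomputable abbrev resG : PMod (ConicData.prC.op ⋙ R) ⥤ PMod R := pf (inC k) (phG R k)

/-- the charts `t` with `t.k ≤ k` -/
def Dk : LowerSet Ch3 where
  carrier := {t | t.k ≤ k}
  lower' := fun _ _ h ht => h.2.2.trans ht

variable {R k}

lemma t_le {t : Ch3} (h : t.k ≤ k) : t ≤ c3 (ConicData.prC.obj t) k := ⟨le_rfl, le_rfl, h⟩

/-- the map on sections -/
noncomputable def phF (C : PMod (ConicData.prC.op ⋙ R)) (t : Ch3ᵒᵖ)
    (x : trSub (Dk k) ((pb R ConicData.prC).obj ((resG R k).obj C)) t) : C.obj t :=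
  open Classical in
  if h : t.unop.k ≤ k then rs C (homOfLE (t_le h)).op x.1 else 0

lemma phF_pos (C : PMod (ConicData.prC.op ⋙ R)) (t : Ch3ᵒᵖ)
    (x : trSub (Dk k) ((pb R ConicData.prC).obj ((resG R k).obj C)) t) (h : t.unop.k ≤ k) :
    phF C t x = rs C (homOfLE (t_le h)).op x.1 := dif_pos h

lemma phF_neg (C : PMod (ConicData.prC.op ⋙ R)) (t : Ch3ᵒᵖ)
    (x : trSub (Dk k) ((pb R ConicData.prC).obj ((resG R k).obj C)) t) (h : ¬ t.unop.k ≤ k) :
    phF C t x = 0 := dif_neg h

/-- the map from the half -/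
noncomputable def phi (C : PMod (ConicData.prC.op ⋙ R)) :
    (tr (ConicData.prC.op ⋙ R) (Dk k)).obj ((pb R ConicData.prC).obj ((resG R k).obj C)) ⟶ C :=
  mkHom (M := trObj (Dk k) ((pb R ConicData.prC).obj ((resG R k).obj C))) (N := C)
    (fun t =>
      { toFun := fun x => phF C t x
        map_add' := fun x y => by
          by_cases h : t.unop.k ≤ k
          · rw [phF_pos C t _ h, phF_pos C t _ h, phF_pos C t _ h]
            exact rs_add C (homOfLE (t_le h)).op x.1 y.1
          · rw [phF_neg C t _ h, phF_neg C t _ h, phF_neg C t _ h, add_zero]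
        map_smul' := fun r x => by
          by_cases h : t.unop.k ≤ k
          · rw [phF_pos C t _ h, phF_pos C t _ h]
            have h1 : (PAlg.toRing (ConicData.prC.op ⋙ R)).map (homOfLE (t_le h)).op r = r :=
              congr(($(R.map_id (ConicData.prC.op.obj t))).hom r)
            refine (rs_smul C (homOfLE (t_le h)).op r x.1).trans ?_
            rw [h1]
            rfl
          · rw [phF_neg C t _ h, phF_neg C t _ h, smul_zero] })
    (fun {t t'} f x => by
      change phF C t' (⟨rs ((pb R ConicData.prC).obj ((resG R k).obj C)) f x.1,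
        trSub_rs _ _ f x.2⟩ : trSub (Dk k) ((pb R ConicData.prC).obj ((resG R k).obj C)) t') =
        rs C f (phF C t x)
      by_cases h : t.unop.k ≤ k
      · have h' : t'.unop.k ≤ k := (leOfHom f.unop).2.2.trans h
        rw [phF_pos C t' _ h', phF_pos C t _ h]
        exact (rs_comp C ((inC k).op.map (ConicData.prC.op.map f))
          (homOfLE (t_le h')).op x.1).symm.trans (rs_comp C (homOfLE (t_le h)).op f x.1)
      · rw [phF_neg C t _ h, rs_zero]
        have h2 : x.1 = 0 := x.2 h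
        by_cases h' : t'.unop.k ≤ k
        · rw [phF_pos C t' _ h']
          have h3 : rs ((pb R ConicData.prC).obj ((resG R k).obj C)) f x.1 = 0 := by
            rw [h2, rs_zero]
          exact (congrArg (rs C (homOfLE (t_le h')).op) h3).trans
            (rs_zero C (homOfLE (t_le h')).op)
        · rw [phF_neg C t' _ h'])

lemma phi_app (C : PMod (ConicData.prC.op ⋙ R)) (t : Ch3ᵒᵖ)
    (x : trSub (Dk k) ((pb R ConicData.prC).obj ((resG R k).obj C)) t) :
    (phi C).app t x = phF C t x := rfl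

/-- isomorphisms are the bijective morphisms -/
lemma isIso_of_bij {C : Type} [SmallCategory C] {R : PAlg K C} {M N : PMod R} (f : M ⟶ N)
    (h : ∀ X, Function.Bijective (f.app X)) : IsIso f := by
  have h1 : Mono f := (pmod_mono_iff f).2 fun X => (h X).1
  have h2 : Epi f := (pmod_epi_iff f).2 fun X => (h X).2
  exact isIso_of_mono_of_epi f

/-- the half of a pull back -/
lemma half_ses (U : LowerSet Ch3) (N : PMod (ConicData.prC.op ⋙ R)) :
    ∃ Ω : ShortComplex (PMod (ConicData.prC.op ⋙ R)), Ω.ShortExact ∧ Nonempty (Ω.X₂ ≅ N) ∧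
      (∀ t : Ch3, t ∈ U → Subsingleton (Ω.X₃.obj (op t))) ∧
      (∀ t : Ch3, t ∉ U → Subsingleton (Ω.X₁.obj (op t))) ∧
      Nonempty ((tr (ConicData.prC.op ⋙ R) U).obj N ≅ Ω.X₁) := by
  have hm : Mono ((trι (ConicData.prC.op ⋙ R) U).app N) := by
    refine (pmod_mono_iff _).2 fun X x y h => Subtype.ext h
  have hS : (ShortComplex.mk ((trι (ConicData.prC.op ⋙ R) U).app N)
      (cokernel.π ((trι (ConicData.prC.op ⋙ R) U).app N)) (cokernel.condition _)).ShortExact :=
    { exact := ShortComplex.exact_of_g_is_cokernel _ (cokernelIsCokernel _)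
      mono_f := hm
      epi_g := inferInstance }
  refine ⟨_, hS, ⟨Iso.refl _⟩, fun t ht => ?_, fun t ht => ?_, ⟨Iso.refl _⟩⟩
  · have h1 := exact_app _ hS.exact (op t)
    have h2 := @surj_of_epi _ _ _ _ _ _ _ _ hS.epi_g (op t)
    refine ⟨fun a b => ?_⟩
    have h3 : ∀ a, a = (0 : (cokernel ((trι (ConicData.prC.op ⋙ R) U).app N)).obj (op t)) := by
      intro a
      obtain ⟨y, rfl⟩ := h2 a
      exact (h1 y).2 ⟨(⟨y, fun h => absurd ht h⟩ : trSub U N (op t)), rfl⟩
    exact (h3 a).trans (h3 b).symm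
  · refine ⟨fun a b => ?_⟩
    have h1 : ∀ a : trSub U N (op t), a = 0 := fun a => Subtype.ext (a.2 ht)
    exact (h1 a).trans (h1 b).symm

/-- a criterion for an isomorphism from a biproduct -/
lemma isIso_desc {D : Type} [SmallCategory D] {R : PAlg K D} {A B C : PMod R} (f : A ⟶ C)
    (g : B ⟶ C) (h : ∀ t, Function.Bijective (fun x : A.obj t × B.obj t =>
      (f.app t x.1 + g.app t x.2 : C.obj t))) : IsIso (biprod.desc f g) := by
  apply isIso_of_bij
  intro t
  have tot : ∀ z : (A ⊞ B).obj t, (biprod.inl : A ⟶ A ⊞ B).app t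
      ((biprod.fst : A ⊞ B ⟶ A).app t z) + (biprod.inr : B ⟶ A ⊞ B).app t
      ((biprod.snd : A ⊞ B ⟶ B).app t z) = z := fun z =>
    congr(($(biprod.total (X := A) (Y := B))).app t z)
  have hl : ∀ a, (biprod.desc f g).app t ((biprod.inl : A ⟶ A ⊞ B).app t a) = f.app t a :=
    fun a => congr(($(biprod.inl_desc f g)).app t a)
  have hr : ∀ b, (biprod.desc f g).app t ((biprod.inr : B ⟶ A ⊞ B).app t b) = g.app t b :=
    fun b => congr(($(biprod.inr_desc f g)).app t b)
  have hd : ∀ z : (A ⊞ B).obj t, (biprod.desc f g).app t z =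
      f.app t ((biprod.fst : A ⊞ B ⟶ A).app t z) +
      g.app t ((biprod.snd : A ⊞ B ⟶ B).app t z) := by
    intro z
    conv_lhs => rw [← tot z]
    rw [map_add, hl, hr]
  constructor
  · intro z z' hz
    have h1 := (hd z).symm.trans (hz.trans (hd z'))
    have h2 := @(h t).1 (_, _) (_, _) h1
    have h3 : (biprod.fst : A ⊞ B ⟶ A).app t z = (biprod.fst : A ⊞ B ⟶ A).app t z' :=
      congrArg Prod.fst h2
    have h4 : (biprod.snd : A ⊞ B ⟶ B).app t z = (biprod.snd : A ⊞ B ⟶ B).app t z' :=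
      congrArg Prod.snd h2
    rw [← tot z, ← tot z', h3, h4]
  · intro c
    obtain ⟨⟨a, b⟩, hab⟩ := (h t).2 c
    refine ⟨(biprod.inl : A ⟶ A ⊞ B).app t a + (biprod.inr : B ⟶ A ⊞ B).app t b, ?_⟩
    rw [map_add, hl, hr]
    exact hab

lemma rsn {D : Type} [SmallCategory D] {R : PAlg K D} (M : PMod R) {X Y : Dᵒᵖ} (f : X ⟶ Y)
    (x : M.obj X) : rs M f (-x) = -rs M f x := by
  apply eq_neg_of_add_eq_zero_left
  rw [← rs_add, neg_add_cancel, rs_zero]

lemma tri (k : Cov Bool) : k = ca ∨ k = cb ∨ k = cab := by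
  by_cases h1 : false ∈ k.s
  · by_cases h2 : true ∈ k.s
    · right; right
      apply le_antisymm _ (cab_bot k)
      intro x _
      cases x
      · exact h1
      · exact h2
    · left
      apply le_antisymm (ca_top h1)
      intro x hx
      cases x
      · exact Finset.mem_singleton_self _
      · exact absurd hx h2
  · right; left
    obtain ⟨x, hx⟩ := k.ne
    have hx' : true ∈ k.s := by
      cases x
      · exact absurd hx h1
      · exact hx
    apply le_antisymm (cb_top hx')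
    intro x hx
    cases x
    · exact absurd hx h1
    · exact Finset.mem_singleton_self _

lemma nab : ¬ ca ≤ cb := fun h => by
  have := h (Finset.mem_singleton_self true)
  exact absurd (Finset.mem_singleton.1 this) (by simp)

lemma nba : ¬ cb ≤ ca := fun h => by
  have := h (Finset.mem_singleton_self false)
  exact absurd (Finset.mem_singleton.1 this) (by simp)

/-- outside the sieve -/
lemma tr_zero (U : LowerSet Ch3) (N : PMod (ConicData.prC.op ⋙ R)) (t : Ch3ᵒᵖ)
    (h : t.unop ∉ U) (x : trSub U N t) : x = 0 := Subtype.ext (x.2 h)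

/-- on the charts `(s,k)` -/
lemma phF_bij (C : PMod (ConicData.prC.op ⋙ R)) (s : Ch2) :
    Function.Bijective (phF (k := k) C (op (c3 s k))) := by
  have h0 : (op (c3 s k)).unop.k ≤ k := le_refl k
  constructor
  · intro x y hxy
    rw [phF_pos C _ x h0, phF_pos C _ y h0] at hxy
    exact Subtype.ext ((rs_id C (op (c3 s k)) x.1).symm.trans
      (hxy.trans (rs_id C (op (c3 s k)) y.1)))
  · intro y
    refine ⟨⟨y, fun h => absurd h0 h⟩, ?_⟩
    rw [phF_pos C _ _ h0]
    exact rs_id C (op (c3 s k)) y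

/-- on the charts `(s,cab)` -/
lemma phF_cab (C : PMod (ConicData.prC.op ⋙ R)) (s : Ch2) :
    ∀ y : C.obj (op (c3 s k)), ∃ x, phF (k := k) C (op (c3 s cab)) x =
      rs C (homOfLE (c3_mono (le_refl s) (cab_bot k))).op y := by
  intro y
  refine ⟨⟨y, fun h => absurd (cab_bot k) h⟩, ?_⟩
  exact phF_pos C (op (c3 s cab)) _ (cab_bot k)

theorem gen (C : PMod (ConicData.prC.op ⋙ R))
    (h : ∀ s : Ch2, Function.Bijective (fun x : C.obj (op (c3 s ca)) × C.obj (op (c3 s cb)) =>
    (show C.obj (op (c3 s cab)) from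
      rs C (homOfLE (c3_mono (le_refl s) (cab_bot ca))).op x.1 -
      rs C (homOfLE (c3_mono (le_refl s) (cab_bot cb))).op x.2))) :
    IsIso (biprod.desc (phi (k := ca) C) (phi (k := cb) C)) := by
  apply isIso_desc
  intro t
  change Function.Bijective (fun x : trSub (Dk ca) ((pb R ConicData.prC).obj
      ((resG R ca).obj C)) t × trSub (Dk cb) ((pb R ConicData.prC).obj ((resG R cb).obj C)) t =>
      phF C t x.1 + phF C t x.2)
  obtain ⟨⟨i, j, k⟩⟩ := t
  rcases tri k with rfl | rfl | rfl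
  · have hz : ∀ x : trSub (Dk cb) ((pb R ConicData.prC).obj ((resG R cb).obj C))
        (op (c3 ⟨i, j⟩ ca)), x = 0 := fun x => tr_zero _ _ _ nab x
    have hb := phF_bij (k := ca) C ⟨i, j⟩
    constructor
    · rintro ⟨x, y⟩ ⟨x', y'⟩ hxy
      obtain rfl := hz y
      obtain rfl := hz y'
      have h1 := add_right_cancel hxy
      exact congrArg (fun v => (v, 0)) (hb.1 h1)
    · intro z
      obtain ⟨x, hx⟩ := hb.2 z
      refine ⟨(x, 0), ?_⟩
      change phF C _ x + phF C _ 0 = z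
      rw [phF_neg (k := cb) C _ _ nab, add_zero]
      exact hx
  · have hz : ∀ x : trSub (Dk ca) ((pb R ConicData.prC).obj ((resG R ca).obj C))
        (op (c3 ⟨i, j⟩ cb)), x = 0 := fun x => tr_zero _ _ _ nba x
    have hb := phF_bij (k := cb) C ⟨i, j⟩
    constructor
    · rintro ⟨x, y⟩ ⟨x', y'⟩ hxy
      obtain rfl := hz x
      obtain rfl := hz x'
      have h1 := add_left_cancel hxy
      exact congrArg (fun v => (0, v)) (hb.1 h1)
    · intro z
      obtain ⟨x, hx⟩ := hb.2 z
      refine ⟨(0, x), ?_⟩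
      change phF C _ 0 + phF C _ x = z
      rw [phF_neg (k := ca) C _ _ nba, zero_add]
      exact hx
  · have hb := h ⟨i, j⟩
    constructor
    · rintro ⟨x, y⟩ ⟨x', y'⟩ hxy
      change phF C (op (c3 ⟨i, j⟩ cab)) x + phF C (op (c3 ⟨i, j⟩ cab)) y =
        phF C (op (c3 ⟨i, j⟩ cab)) x' + phF C (op (c3 ⟨i, j⟩ cab)) y' at hxy
      rw [phF_pos C _ _ (cab_bot ca), phF_pos C _ _ (cab_bot cb), phF_pos C _ _ (cab_bot ca),
        phF_pos C _ _ (cab_bot cb)] at hxy
      have h2 : ∀ v : trSub (Dk cb) ((pb R ConicData.prC).obj ((resG R cb).obj C))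
          (op (c3 ⟨i, j⟩ cab)), rs C (homOfLE (c3_mono (le_refl (⟨i, j⟩ : Ch2)) (cab_bot cb))).op
            (-v.1) = -rs C (homOfLE (c3_mono (le_refl (⟨i, j⟩ : Ch2)) (cab_bot cb))).op v.1 :=
        fun v => rsn C _ _
      have h1 := @hb.1 (x.1, -y.1) (x'.1, -y'.1) (by
        change rs C (homOfLE (c3_mono (le_refl (⟨i, j⟩ : Ch2)) (cab_bot ca))).op x.1 -
          rs C (homOfLE (c3_mono (le_refl (⟨i, j⟩ : Ch2)) (cab_bot cb))).op (-y.1) =
          rs C (homOfLE (c3_mono (le_refl (⟨i, j⟩ : Ch2)) (cab_bot ca))).op x'.1 -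
          rs C (homOfLE (c3_mono (le_refl (⟨i, j⟩ : Ch2)) (cab_bot cb))).op (-y'.1)
        rw [h2, h2, sub_neg_eq_add, sub_neg_eq_add]
        exact hxy)
      have h3 : x.1 = x'.1 := congrArg Prod.fst h1
      have h4 : y.1 = y'.1 := neg_injective (congrArg Prod.snd h1)
      exact Prod.ext (Subtype.ext h3) (Subtype.ext h4)
    · intro z
      obtain ⟨⟨x, y⟩, hx⟩ := hb.2 z
      obtain ⟨x', hx'⟩ := phF_cab (k := ca) C ⟨i, j⟩ x
      obtain ⟨y', hy'⟩ := phF_cab (k := cb) C ⟨i, j⟩ (-y)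
      refine ⟨(x', y'), ?_⟩
      change phF C (op (c3 ⟨i, j⟩ cab)) x' + phF C (op (c3 ⟨i, j⟩ cab)) y' = z
      rw [hx', hy', ← hx, rsn]
      exact (sub_eq_add_neg _ _).symm

end Gen

end ACD_

open ACD_ in
theorem acd_proof : Stmt_ACD := by
  intro K _ c₁ c₂ S C hC
  have h1 := gen (R := S.R) C hC
  refine ⟨(tr (Rp S) (Dk ca)).obj ((pbp S).obj ((res S ca).obj C)),
    (tr (Rp S) (Dk cb)).obj ((pbp S).obj ((res S cb).obj C)), ?_, ?_,
    ⟨(asIso (biprod.desc (phi (R := S.R) (k := ca) C) (phi (R := S.R) (k := cb) C))).symm⟩⟩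
  · obtain ⟨Ω, hΩ, ⟨e⟩, h3, h1, ⟨i⟩⟩ := half_ses (R := S.R) (Dk ca)
      ((pbp S).obj ((res S ca).obj C))
    refine ⟨Ω, hΩ, ⟨_, ⟨e⟩⟩, fun s k' hk' => h3 _ ?_, fun s => h1 _ nba, ⟨i⟩⟩
    rcases tri k' with rfl | rfl | rfl
    · exact le_refl ca
    · exact absurd rfl hk'
    · exact cab_bot ca
  · obtain ⟨Ω, hΩ, ⟨e⟩, h3, h1, ⟨i⟩⟩ := half_ses (R := S.R) (Dk cb)
      ((pbp S).obj ((res S cb).obj C))
    refine ⟨Ω, hΩ, ⟨_, ⟨e⟩⟩, fun s k' hk' => h3 _ ?_, fun s => h1 _ nab, ⟨i⟩⟩
    rcases tri k' with rfl | rfl | rfl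
    · exact absurd rfl hk'
    · exact le_refl cb
    · exact cab_bot cb

end Pool.CRD.G
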