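import Pool.Agent.CRD.G.StmtsD

open CategoryTheory Opposite Limits TensorProduct MonoidalCategory Pretriangulated

namespace Pool.CRD.G

namespace BRA_

variable {K : Type} [Field K] {C : Type} [SmallCategory C] {R R' : PAlg K C} (φ : R ⟶ R')

/-- multiplication by a function -/
noncomputable def sm (N : PMod R') (X : Cᵒᵖ) (r : R'.obj X) (n : N.obj X) : N.obj X :=
  @HSMul.hSMul (R'.toRing.obj X) (N.obj X) (N.obj X) _ r n

lemma sm_def (N : PMod R') (X : Cᵒᵖ) (r : R'.toRing.obj X) (n : N.obj X) :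
    r • n = sm N X r n := rfl

lemma sm_add_left (N : PMod R') (X : Cᵒᵖ) (r s : R'.obj X) (n : N.obj X) :
    sm N X (r + s) n = sm N X r n + sm N X s n := add_smul (R := R'.toRing.obj X) r s n

lemma sm_add_right (N : PMod R') (X : Cᵒᵖ) (r : R'.obj X) (m n : N.obj X) :
    sm N X r (m + n) = sm N X r m + sm N X r n := smul_add (M := R'.toRing.obj X) r m n

lemma sm_mul (N : PMod R') (X : Cᵒᵖ) (r s : R'.obj X) (n : N.obj X) :
    sm N X (r * s) n = sm N X r (sm N X s n) := mul_smul (α := R'.toRing.obj X) r s n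

lemma sm_one (N : PMod R') (X : Cᵒᵖ) (n : N.obj X) :
    sm N X 1 n = n := one_smul (M := R'.toRing.obj X) n

lemma rs_sm (N : PMod R') {X Y : Cᵒᵖ} (f : X ⟶ Y) (r : R'.obj X) (n : N.obj X) :
    rs N f (sm N X r n) = sm N Y ((R'.map f).hom r) (rs N f n) := rs_smul N f r n

lemma app_sm {M N : PMod R'} (α : M ⟶ N) (X : Cᵒᵖ) (r : R'.obj X) (n : M.obj X) :
    α.app X (sm M X r n) = sm N X r (α.app X n) :=
  map_smul (α.app X).hom (r : R'.toRing.obj X) n

/-- multiplication, additive -/
noncomputable def co₀ (N : PMod R') (X : Cᵒᵖ) : BcM φ ((rsc φ).obj N) X →+ N.obj X :=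
  bcLift φ ((rsc φ).obj N) X (fun r n => sm N X r n)
    (fun r s m => sm_add_left N X r s m)
    (fun r m n => sm_add_right N X r m n)
    (fun a r m => by
      rw [mul_comm]
      exact sm_mul N X r ((φ.app X).hom a) m)

lemma co₀_bct (N : PMod R') (X : Cᵒᵖ) (r : R'.obj X) (n : N.obj X) :
    co₀ φ N X (bct φ ((rsc φ).obj N) X r n) = sm N X r n := rfl

/-- multiplication -/
noncomputable def co (N : PMod R') (X : Cᵒᵖ) :
    BcM φ ((rsc φ).obj N) X →ₗ[R'.toRing.obj X] N.obj X :=
  { toFun := co₀ φ N X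
    map_add' := map_add _
    map_smul' := fun r x => by
      rw [RingHom.id_apply]
      refine bct_induction φ ((rsc φ).obj N) X (P := fun x => co₀ φ N X (r • x) =
        r • co₀ φ N X x) ?_ ?_ ?_ x
      · rw [smul_zero, map_zero, smul_zero]
      · intro s m
        exact sm_mul N X r s m
      · intro x y hx hy
        rw [smul_add, map_add, map_add, smul_add, hx, hy] }

lemma co_bct (N : PMod R') (X : Cᵒᵖ) (r : R'.obj X) (n : N.obj X) :
    co φ N X (bct φ ((rsc φ).obj N) X r n) = sm N X r n := rfl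

lemma co_nat (N : PMod R') {X Y : Cᵒᵖ} (f : X ⟶ Y) (x : BcM φ ((rsc φ).obj N) X) :
    co φ N Y (bcRs φ ((rsc φ).obj N) f x) = rs N f (co φ N X x) := by
  refine bct_induction φ ((rsc φ).obj N) X (P := fun x =>
    co φ N Y (bcRs φ ((rsc φ).obj N) f x) = rs N f (co φ N X x)) ?_ ?_ ?_ x
  · rw [map_zero, map_zero, map_zero, rs_zero]
  · intro s m
    exact (rs_sm N f s m).symm
  · intro x y hx hy
    rw [map_add, map_add, map_add, rs_add, hx, hy]

/-- the counit -/
noncomputable def coN (N : PMod R') : (bc φ).obj ((rsc φ).obj N) ⟶ N :=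
  mkHom (M := bcObj φ ((rsc φ).obj N)) (N := N) (fun X => co φ N X) (fun f x => co_nat φ N f x)

lemma coN_bct (N : PMod R') (X : Cᵒᵖ) (r : R'.obj X) (n : N.obj X) :
    (coN φ N).app X (bct φ ((rsc φ).obj N) X r n : BcM φ ((rsc φ).obj N) X) =
      sm N X r n := rfl

lemma bcU_app (M : PMod R) (X : Cᵒᵖ) (m : M.obj X) :
    (bcU φ M).app X m = (bct φ M X 1 m : BcM φ M X) := rfl

lemma bc_map_bct {M N : PMod R} (α : M ⟶ N) (X : Cᵒᵖ) (r : R'.obj X) (m : M.obj X) :
    ((bc φ).map α).app X (bct φ M X r m : BcM φ M X) = (bct φ N X r (α.app X m) : BcM φ N X) := rfl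

/-- extensionality for morphisms out of a base change -/
lemma bc_ext {M : PMod R} {N : PMod R'} {f g : (bc φ).obj M ⟶ N}
    (h : ∀ X r m, f.app X (bct φ M X r m : BcM φ M X) = g.app X (bct φ M X r m : BcM φ M X)) :
    f = g := by
  apply pmod_ext; intro X x
  refine bct_induction φ M X (P := fun x : BcM φ M X => f.app X x = g.app X x) ?_ ?_ ?_ x
  · exact (map_zero (f.app X).hom).trans (map_zero (g.app X).hom).symm
  · intro r m
    exact h X r m
  · intro x y hx hy
    refine (map_add (f.app X).hom x y).trans (Eq.trans ?_ (map_add (g.app X).hom x y).symm)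
    exact congr_arg₂ (· + ·) hx hy

noncomputable def unitN : 𝟭 (PMod R) ⟶ bc φ ⋙ rsc φ where
  app := bcU φ
  naturality := by
    intro M N α
    apply pmod_ext; intro X m
    rfl

noncomputable def counitN : rsc φ ⋙ bc φ ⟶ 𝟭 (PMod R') where
  app := coN φ
  naturality := by
    intro M N α
    refine bc_ext φ ?_
    intro X r m
    exact (app_sm α X r m).symm

lemma left_tri (M : PMod R) :
    (bc φ).map (bcU φ M) ≫ coN φ ((bc φ).obj M) = 𝟙 _ := by
  refine bc_ext φ ?_
  intro X r m
  have h1 : ((bc φ).map (bcU φ M)).app X (bct φ M X r m : BcM φ M X) =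
    (bct φ _ X r (bct φ M X 1 m : BcM φ M X) : BcM φ ((rsc φ).obj ((bc φ).obj M)) X) := rfl
  have h2 : (coN φ ((bc φ).obj M)).app X
    (bct φ _ X r (bct φ M X 1 m : BcM φ M X) : BcM φ ((rsc φ).obj ((bc φ).obj M)) X) =
    sm ((bc φ).obj M) X r (bct φ M X 1 m : BcM φ M X) := rfl
  have h3 : sm ((bc φ).obj M) X r (bct φ M X 1 m : BcM φ M X) = bct φ M X (r * 1) m := rfl
  rw [mul_one] at h3
  exact (congrArg (fun y => (coN φ ((bc φ).obj M)).app X y) h1).trans (h2.trans h3)

lemma right_tri (N : PMod R') :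
    bcU φ ((rsc φ).obj N) ≫ (rsc φ).map (coN φ N) = 𝟙 _ := by
  apply pmod_ext; intro X n
  have h1 : (coN φ N).app X (bct φ ((rsc φ).obj N) X 1 n : BcM φ ((rsc φ).obj N) X) =
    sm N X 1 n := rfl
  exact h1.trans (sm_one N X n)

noncomputable def adj : bc φ ⊣ rsc φ := Adjunction.mkOfUnitCounit
  { unit := unitN φ
    counit := counitN φ
    left_triangle := by
      ext1; ext1 Q
      have h := left_tri φ Q
      dsimp only [unitN, counitN, NatTrans.comp_app, Functor.whiskerRight_app,
        Functor.associator_hom_app, Functor.whiskerLeft_app, NatTrans.id_app]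
      rw [Category.id_comp]
      exact h
    right_triangle := by
      ext1; ext1 N
      have h := right_tri φ N
      dsimp only [unitN, counitN, NatTrans.comp_app, Functor.whiskerRight_app,
        Functor.associator_inv_app, Functor.whiskerLeft_app, NatTrans.id_app]
      rw [Category.id_comp]
      exact h }

end BRA_

open BRA_ in
theorem bra_proof : Stmt_BRA := by
  intro K _ C _ R R' φ
  exact ⟨adj φ, fun _ => rfl⟩

end Pool.CRD.G
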