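import Pool.Agent.CRD.G.StmtsC

/-!
# CRD, area G, module CHP: sections of a coherent module over the fibres over a chart of `S`
-/

set_option autoImplicit false

open CategoryTheory Opposite Limits TensorProduct MonoidalCategory

namespace Pool.CRD.G

namespace CHP_

section Alg

/-- base change along a ring homomorphism -/
def BC {A B M N : Type} [CommRing A] [CommRing B] (α : A →+* B) [AddCommGroup M] [AddCommGroup N]
    [Module A M] [Module B N] (f : M → N) (ha : ∀ x y, f (x + y) = f x + f y)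
    (hs : ∀ (a : A) x, f (a • x) = α a • f x) : Prop :=
  letI : Algebra A B := α.toAlgebra
  letI : Module A N := Module.compHom N α
  haveI : IsScalarTower A B N := ⟨fun a b c => by rw [Algebra.smul_def, mul_smul]; rfl⟩
  IsBaseChange B ({ toFun := f, map_add' := ha, map_smul' := hs } : M →ₗ[A] N)

theorem loc_of_bc {A B M N : Type} [CommRing A] [CommRing B] (α : A →+* B) [AddCommGroup M]
    [AddCommGroup N] [Module A M] [Module B N] (f : M → N) (ha : ∀ x y, f (x + y) = f x + f y)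
    (hs : ∀ (a : A) x, f (a • x) = α a • f x) (t : A)
    (ht : letI := α.toAlgebra; IsLocalization.Away t B) (h : BC α f ha hs) :
    (∀ z : N, ∃ (n : ℕ) (x : M), f x = α (t ^ n) • z) ∧
      (∀ x : M, f x = 0 → ∃ n : ℕ, t ^ n • x = 0) := by
  let _ : Algebra A B := α.toAlgebra
  let _ : Module A N := Module.compHom N α
  have _ : IsScalarTower A B N := ⟨fun a b c => by rw [Algebra.smul_def, mul_smul]; rfl⟩
  have _ : IsLocalization.Away t B := ht
  let m : M →ₗ[A] N := { toFun := f, map_add' := ha, map_smul' := hs }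
  have hl : IsLocalizedModule (Submonoid.powers t) m :=
    (isLocalizedModule_iff_isBaseChange (Submonoid.powers t) B m).2 h
  refine ⟨fun z => ?_, fun x hx => ?_⟩
  · obtain ⟨⟨x, ⟨_, n, rfl⟩⟩, hx⟩ := IsLocalizedModule.surj (Submonoid.powers t) m z
    exact ⟨n, x, hx.symm⟩
  · obtain ⟨⟨_, n, rfl⟩, hc⟩ := IsLocalizedModule.exists_of_eq (S := Submonoid.powers t) (f := m)
      (x₁ := x) (x₂ := 0) (by
        change f x = m 0
        rw [hx, map_zero])
    refine ⟨n, ?_⟩
    have h1 : t ^ n • x = t ^ n • (0 : M) := hc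
    rw [h1, smul_zero]

/-- inclusions of subalgebras of a field which are localisations -/
theorem isLoc {K E : Type} [Field K] [Field E] [Algebra K E] {A B : Subalgebra K E} (h : A ≤ B)
    (t : A) (ht : (t : E) ≠ 0) (hi : (t : E)⁻¹ ∈ B)
    (hs : ∀ z ∈ B, ∃ n : ℕ, (t : E) ^ n * z ∈ A) :
    letI := (Subalgebra.inclusion h).toRingHom.toAlgebra
    IsLocalization.Away t B := by
  letI := (Subalgebra.inclusion h).toRingHom.toAlgebra
  refine { map_units := ?_, surj := ?_, exists_of_eq := ?_ }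
  · rintro ⟨_, n, rfl⟩
    change IsUnit (Subalgebra.inclusion h (t ^ n))
    rw [map_pow]
    refine IsUnit.pow n (IsUnit.of_mul_eq_one ⟨(t : E)⁻¹, hi⟩ (Subtype.ext ?_))
    exact mul_inv_cancel₀ ht
  · intro z
    obtain ⟨n, hn⟩ := hs z.1 z.2
    refine ⟨(⟨_, hn⟩, ⟨t ^ n, n, rfl⟩), Subtype.ext ?_⟩
    change (z : E) * (t : E) ^ n = (t : E) ^ n * z
    exact mul_comm _ _
  · intro x y hxy
    refine ⟨1, ?_⟩
    have h1 : x = y := Subtype.ext (congrArg (fun z : B => (z : E)) hxy)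
    rw [h1]

end Alg

theorem isCart_iff {K : Type} [CommRing K] {C : Type} [SmallCategory C] {R : PAlg K C}
    (M : PMod R) {X Y : Cᵒᵖ} (f : X ⟶ Y) : IsCart M f ↔
    BC (A := R.obj X) (B := R.obj Y) (M := M.obj X) (N := M.obj Y) (R.map f).hom.toRingHom
      (fun x => rs M f x) (fun x y => rs_add M f x y) (fun r x => rs_smul M f r x) := Iff.rfl

theorem loc_cart {K : Type} [CommRing K] {C : Type} [SmallCategory C] {R : PAlg K C}
    (M : PMod R) {X Y : Cᵒᵖ} (f : X ⟶ Y) (hM : IsCart M f) (t : R.obj X)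
    (ht : letI := (R.map f).hom.toRingHom.toAlgebra; IsLocalization.Away t (R.obj Y)) :
    (∀ z : M.obj Y, ∃ (n : ℕ) (x : M.obj X), rs M f x =
      (show R.toRing.obj Y from (R.map f).hom (t ^ n)) • z) ∧
    (∀ x : M.obj X, rs M f x = 0 → ∃ n : ℕ, (show R.toRing.obj X from t ^ n) • x = 0) :=
  loc_of_bc (A := R.obj X) (B := R.obj Y) (M := M.obj X) (N := M.obj Y) _ _ _ _ t ht
    ((isCart_iff M f).1 hM)

section
variable {K : Type} [Field K] {c₁ c₂ : CurveData K} {S : SurfData c₁ c₂} {X : ConicData S}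
  (M : PMod X.R) (s : Ch2)

theorem loc_rk (hM : IsCoh X.R M) {k : Cov Bool} (t : X.A s.i s.j k) (ht : (t : X.E) ≠ 0)
    (hi : (t : X.E)⁻¹ ∈ X.A s.i s.j cab)
    (hs : ∀ z ∈ X.A s.i s.j cab, ∃ n : ℕ, (t : X.E) ^ n * z ∈ X.A s.i s.j k) :
    (∀ z : Sc M s cab, ∃ (n : ℕ) (x : Sc M s k), rk M s (cab_bot k) x =
      (⟨(t : X.E), X.A_mono le_rfl le_rfl (cab_bot k) t.2⟩ : X.A s.i s.j cab) ^ n • z) ∧
    (∀ x : Sc M s k, rk M s (cab_bot k) x = 0 → ∃ n : ℕ, t ^ n • x = 0) := by
  obtain ⟨h1, h2⟩ := loc_cart M (homOfLE (c3_mono (le_refl s) (cab_bot k))).op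
    (hM.2 (homOfLE (c3_mono (le_refl s) (cab_bot k))).op) t
    (isLoc (X.A_mono le_rfl le_rfl (cab_bot k)) t ht hi hs)
  refine ⟨fun z => ?_, fun x hx => ?_⟩
  · obtain ⟨n, x, hx⟩ := h1 z
    exact ⟨n, x, hx⟩
  · obtain ⟨n, hn⟩ := h2 x hx
    exact ⟨n, hn⟩

theorem mulr_pow (k : Cov Bool) (z : X.A s.i s.j k) (n : ℕ) (x : Sc M s k) :
    (mulr M s k z ^ n) x = z ^ n • x := by
  induction n with
  | zero => rw [pow_zero, pow_zero, one_smul]; rfl
  | succ n ih =>
    rw [pow_succ', Module.End.mul_apply, ih, pow_succ', mul_smul]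
    rfl

theorem gB_apply (x : Sc M s cab) : gB M s x = etB X s • x := rfl

theorem gB_pow (n : ℕ) (x : Sc M s cab) : (gB M s ^ n) x = etB X s ^ n • x := by
  induction n with
  | zero => rw [pow_zero, pow_zero, one_smul]; rfl
  | succ n ih =>
    rw [pow_succ', LinearEquiv.mul_apply, ih, pow_succ', mul_smul]
    rfl

theorem fge {k : Cov Bool} (u v : X.A s.i s.j k)
    (h : ∀ a : X.A s.i s.j k, (a : X.E) ∈ Submodule.span (S.A s.i s.j)
      {w : X.E | ∃ n : ℕ, w = (u : X.E) ^ n ∨ w = (u : X.E) ^ n * (v : X.E)})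
    (hM : Module.Finite (X.A s.i s.j k) (Sc M s k)) : FGe (mulr M s k u) := by
  classical
  obtain ⟨G, hG⟩ := hM.fg_top
  refine ⟨G ∪ G.image (fun g => v • g), fun x => ?_⟩
  have hT : ∀ g ∈ G, ∀ a : X.A s.i s.j k, a • g ∈ Submodule.span (S.A s.i s.j)
      {z | ∃ s' ∈ G ∪ G.image (fun g => v • g), ∃ n : ℕ, z = (mulr M s k u ^ n) s'} := by
    intro g hg a
    have h1 : ∃ he : (a : X.E) ∈ X.A s.i s.j k, (⟨(a : X.E), he⟩ : X.A s.i s.j k) • g ∈
        Submodule.span (S.A s.i s.j)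
          {z | ∃ s' ∈ G ∪ G.image (fun g => v • g), ∃ n : ℕ, z = (mulr M s k u ^ n) s'} := by
      have h2 := h a
      generalize (a : X.E) = e at h2 ⊢
      induction h2 using Submodule.span_induction with
      | zero =>
        refine ⟨zero_mem _, ?_⟩
        have e1 : (⟨0, zero_mem _⟩ : X.A s.i s.j k) = 0 := rfl
        rw [e1, zero_smul]
        exact zero_mem _
      | add p q _ _ hp hq =>
        obtain ⟨hp1, hp2⟩ := hp
        obtain ⟨hq1, hq2⟩ := hq
        refine ⟨add_mem hp1 hq1, ?_⟩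
        have e1 : (⟨p + q, add_mem hp1 hq1⟩ : X.A s.i s.j k) = ⟨p, hp1⟩ + ⟨q, hq1⟩ := rfl
        rw [e1, add_smul]
        exact add_mem hp2 hq2
      | smul b p _ hp =>
        obtain ⟨hp1, hp2⟩ := hp
        have hm : b • p ∈ X.A s.i s.j k := by
          change b.1 • p ∈ _
          rw [Algebra.smul_def]
          exact mul_mem (X.mem_of_S b.2) hp1
        refine ⟨hm, ?_⟩
        have e1 : (⟨b • p, hm⟩ : X.A s.i s.j k) = inc X s k b * ⟨p, hp1⟩ := by
          apply Subtype.ext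
          change b.1 • p = algebraMap S.L X.E b.1 * p
          rw [Algebra.smul_def]
        rw [e1, mul_smul, ← Sc_smul']
        exact Submodule.smul_mem _ _ hp2
      | mem p hp =>
        obtain ⟨n, rfl | rfl⟩ := hp
        · refine ⟨pow_mem u.2 n, Submodule.subset_span ⟨g, Finset.mem_union_left _ hg, n, ?_⟩⟩
          rw [mulr_pow]
          rfl
        · refine ⟨mul_mem (pow_mem u.2 n) v.2, Submodule.subset_span ⟨v • g,
            Finset.mem_union_right _ (Finset.mem_image_of_mem _ hg), n, ?_⟩⟩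
          rw [mulr_pow, smul_smul]
          rfl
    obtain ⟨he, h3⟩ := h1
    exact h3
  have hx : x ∈ Submodule.span (X.A s.i s.j k) (G : Set (Sc M s k)) := by
    rw [hG]; exact Submodule.mem_top
  have hP : ∀ a : X.A s.i s.j k, a • x ∈ Submodule.span (S.A s.i s.j)
      {z | ∃ s' ∈ G ∪ G.image (fun g => v • g), ∃ n : ℕ, z = (mulr M s k u ^ n) s'} := by
    induction hx using Submodule.span_induction with
    | zero => intro a; rw [smul_zero]; exact zero_mem _
    | add p q _ _ hp hq => intro a; rw [smul_add]; exact add_mem (hp a) (hq a)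
    | smul b p _ hp => intro a; rw [smul_smul]; exact hp _
    | mem p hp => exact hT p hp
  have h4 := hP 1
  rwa [one_smul] at h4

end

end CHP_

open CHP_ in
theorem chp_proof (hSTF : Stmt_STF) : Stmt_CHP := by
  intro K _ c₁ c₂ S X M hM s
  obtain ⟨s1, s2, s3, s4⟩ := hSTF K c₁ c₂ S X s
  have hne := eta_ne X s.i
  obtain ⟨f1, f2⟩ := loc_rk M s hM (etF X s) hne (etainv_mem X s t_cab) s3
  obtain ⟨t1, t2⟩ := loc_rk M s hM (yT X s) (inv_ne_zero hne)
    (by
      change ((X.eta s.i)⁻¹)⁻¹ ∈ _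
      rw [inv_inv]
      exact eta_mem X s f_cab) s4
  have hf : ∀ (z : X.A s.i s.j ca) (x : Sc M s ca), rk M s (cab_bot ca) (z • x) =
      (⟨z.1, X.A_mono le_rfl le_rfl (cab_bot ca) z.2⟩ : X.A s.i s.j cab) •
        rk M s (cab_bot ca) x := fun z x => rg_smul M (le_refl s) (cab_bot ca) z x
  have ht : ∀ (z : X.A s.i s.j cb) (x : Sc M s cb), rk M s (cab_bot cb) (z • x) =
      (⟨z.1, X.A_mono le_rfl le_rfl (cab_bot cb) z.2⟩ : X.A s.i s.j cab) •
        rk M s (cab_bot cb) x := fun z x => rg_smul M (le_refl s) (cab_bot cb) z x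
  have hcon := conic_eq X s
  refine ⟨⟨⟨?_, ?_, ?_, ?_, ?_, ?_⟩, ?_, ?_, ?_, ?_, ?_, ?_, ?_, ?_⟩, ?_, ?_⟩
  · exact fun x => hf _ _
  · intro x
    change etB X s • rk M s (cab_bot cb) (yT X s • x) = _
    rw [ht, smul_smul]
    have e1 : etB X s * (⟨(yT X s).1, X.A_mono le_rfl le_rfl (cab_bot cb) (yT X s).2⟩ :
        X.A s.i s.j cab) = 1 := Subtype.ext (mul_inv_cancel₀ hne)
    rw [e1, one_smul]
  · intro b
    obtain ⟨n, x, hx⟩ := f1 b
    refine ⟨n, x, ?_⟩
    rw [gB_pow, hx]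
    rfl
  · intro x hx
    obtain ⟨n, hn⟩ := f2 x hx
    exact ⟨n, by rw [mulr_pow]; exact hn⟩
  · intro b
    obtain ⟨n, x, hx⟩ := t1 b
    refine ⟨n, x, ?_⟩
    rw [gB_pow, hx, smul_smul, ← mul_pow]
    have e1 : etB X s * (⟨(yT X s).1, X.A_mono le_rfl le_rfl (cab_bot cb) (yT X s).2⟩ :
        X.A s.i s.j cab) = 1 := Subtype.ext (mul_inv_cancel₀ hne)
    rw [e1, one_pow, one_smul]
  · intro x hx
    obtain ⟨n, hn⟩ := t2 x hx
    exact ⟨n, by rw [mulr_pow]; exact hn⟩
  · intro x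
    change zeF X s • etF X s • x = etF X s • zeF X s • x
    rw [smul_smul, smul_smul, mul_comm]
  · intro x
    change zeT X s • yT X s • x = yT X s • zeT X s • x
    rw [smul_smul, smul_smul, mul_comm]
  · intro x
    change zeB X s • etB X s • x = etB X s • zeB X s • x
    rw [smul_smul, smul_smul, mul_comm]
  · intro x
    change zeF X s • zeF X s • x = inc X s ca (pE S s) • x +
      inc X s ca (qE S s) • etF X s • etF X s • x
    rw [smul_smul, smul_smul, smul_smul, ← add_smul]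
    congr 1
    apply Subtype.ext
    change X.zeta s.j * X.zeta s.j = algebraMap S.L X.E (pS S s) +
      algebraMap S.L X.E (qS S s) * X.eta s.i * X.eta s.i
    linear_combination hcon
  · intro x
    change zeT X s • zeT X s • x = inc X s cb (pE S s) • yT X s • yT X s • x +
      inc X s cb (qE S s) • x
    rw [smul_smul, smul_smul, smul_smul, ← add_smul]
    congr 1
    apply Subtype.ext
    change X.zeta s.j / X.eta s.i * (X.zeta s.j / X.eta s.i) = algebraMap S.L X.E (pS S s) *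
      (X.eta s.i)⁻¹ * (X.eta s.i)⁻¹ + algebraMap S.L X.E (qS S s)
    field_simp
    linear_combination hcon
  · intro x
    change zeB X s • zeB X s • x = inc X s cab (pE S s) • x +
      inc X s cab (qE S s) • etB X s • etB X s • x
    rw [smul_smul, smul_smul, smul_smul, ← add_smul]
    congr 1
    apply Subtype.ext
    change X.zeta s.j * X.zeta s.j = algebraMap S.L X.E (pS S s) +
      algebraMap S.L X.E (qS S s) * X.eta s.i * X.eta s.i
    linear_combination hcon
  · exact fun x => hf _ _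
  · intro x
    change etB X s • rk M s (cab_bot cb) (zeT X s • x) = zeB X s • rk M s (cab_bot cb) x
    rw [ht, smul_smul]
    congr 1
    apply Subtype.ext
    exact mul_div_cancel₀ _ hne
  · exact fge M s (etF X s) (zeF X s) (fun a => s1 a.1 a.2) (hM.1 (op (c3 s ca)))
  · exact fge M s (yT X s) (zeT X s) (fun a => s2 a.1 a.2) (hM.1 (op (c3 s cb)))

end Pool.CRD.G
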