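import Pool.Agent.CRD.G.KCL

/-!
# CRD, area G, CNT: a regular coherent module is a quotient of the pull back of its push forward
-/

set_option autoImplicit false

open CategoryTheory Opposite Limits TensorProduct MonoidalCategory

namespace Pool.CRD.G

namespace CNT_

open KCL_

variable {K : Type} [Field K] {c₁ c₂ : CurveData K} {S : SurfData c₁ c₂} {X : ConicData S}
  (M : PMod X.R)

theorem cou_uni (s : Ch2) (n : Gam M s) (k : Cov Bool) :
    apS (cou M) s k (uni (push M) s n k) = n.1 k := by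
  have h := cou_bt M (op (c3 s k)) 1 (show (push M).obj (X.pr.m.op.obj (op (c3 s k))) from n)
  refine h.trans ?_
  exact one_smul (X.A s.i s.j k) (n.1 k)

/-- the image of the counit -/
def rng (s : Ch2) (k : Cov Bool) : Submodule (X.A s.i s.j k) (Sc M s k) where
  carrier := {x | ∃ y, apS (cou M) s k y = x}
  zero_mem' := ⟨0, apS_zero (cou M) s k⟩
  add_mem' := by
    rintro _ _ ⟨x, rfl⟩ ⟨y, rfl⟩
    exact ⟨x + y, apS_add (cou M) s k x y⟩
  smul_mem' := by
    rintro c _ ⟨x, rfl⟩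
    exact ⟨c • x, apS_smul (cou M) s k c x⟩

variable {M} in
theorem gam_rng {s : Ch2} {m : ∀ k, Sc M s k} (hm : m ∈ Gam M s) (k : Cov Bool) :
    m k ∈ rng M s k := ⟨uni (push M) s ⟨m, hm⟩ k, cou_uni M s ⟨m, hm⟩ k⟩

theorem rk_rng {s : Ch2} {k k' : Cov Bool} (h : k' ≤ k) (x : Sc M s k) (hx : x ∈ rng M s k) :
    rk M s h x ∈ rng M s k' := by
  obtain ⟨y, rfl⟩ := hx
  exact ⟨rk _ s h y, apS_rk (cou M) s h y⟩

theorem span_rng (s : Ch2) (k : Cov Bool) (T : Set (Sc M s k)) (hT : ∀ x ∈ T, x ∈ rng M s k)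
    (x : Sc M s k) (hx : x ∈ Submodule.span (S.A s.i s.j) T) : x ∈ rng M s k := by
  induction hx using Submodule.span_induction with
  | mem x h => exact hT x h
  | zero => exact zero_mem _
  | add x y _ _ hx hy => exact add_mem hx hy
  | smul a x _ hx => exact (rng M s k).smul_mem (inc X s k a) hx

theorem mulr_pow_mem (s : Ch2) (k : Cov Bool) (z : X.A s.i s.j k) (n : ℕ) (x : Sc M s k)
    (hx : x ∈ rng M s k) : ((mulr M s k z) ^ n) x ∈ rng M s k := by
  induction n with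
  | zero => exact hx
  | succ n ih =>
    rw [pow_succ', Module.End.mul_apply]
    exact (rng M s k).smul_mem z ih

theorem pow_gB (s : Ch2) (b : Sc M s cab) (n : ℕ) (hb : (gB M s ^ n) b ∈ rng M s cab) :
    b ∈ rng M s cab := by
  induction n with
  | zero => exact hb
  | succ n ih =>
    apply ih
    rw [pow_succ'] at hb
    have h := (rng M s cab).smul_mem (yB X s) hb
    have e : yB X s • (gB M s ((gB M s ^ n) b)) = (gB M s ^ n) b := (gB M s).left_inv _
    change yB X s • (gB M s ((gB M s ^ n) b)) ∈ rng M s cab at h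
    rwa [e] at h

theorem main (hCHP : Stmt_CHP) (hGNR : Stmt_GNR) (hM : IsCoh X.R M) (s : Ch2)
    (hr : regular M s) (k : Cov Bool) (x : Sc M s k) : x ∈ rng M s k := by
  obtain ⟨hC, _, _⟩ := hCHP K c₁ c₂ S X M hM s
  obtain ⟨g1, g2⟩ := hGNR (S.A s.i s.j) (Sc M s ca) (Sc M s cb) (Sc M s cab) _ _ _ _ _
    hC.toIsP1 hr
  have A : ∀ x : Sc M s ca, x ∈ rng M s ca := by
    intro x
    refine span_rng M s ca _ ?_ x (g1 x)
    rintro _ ⟨h, hh, n, rfl⟩
    obtain ⟨m, hm, ma, _⟩ := exists_gam M h.1 h.2 hh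
    apply mulr_pow_mem
    rw [← ma]
    exact gam_rng hm ca
  have B : ∀ x : Sc M s cb, x ∈ rng M s cb := by
    intro x
    refine span_rng M s cb _ ?_ x (g2 x)
    rintro _ ⟨h, hh, n, rfl⟩
    obtain ⟨m, hm, _, mb⟩ := exists_gam M h.1 h.2 hh
    apply mulr_pow_mem
    rw [← mb]
    exact gam_rng hm cb
  rcases cov_bool_cases k with rfl | rfl | rfl
  · exact A x
  · exact B x
  · obtain ⟨n, y, hy⟩ := hC.f1 x
    apply pow_gB M s x n
    rw [hy]
    exact rk_rng M _ y (A y)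

end CNT_

theorem cnt_proof (hCHP : Stmt_CHP) (hGNR : Stmt_GNR) (hFTU : Stmt_FTU) (hFTG : Stmt_FTG) :
    Stmt_CNT := by
  intro K _ c₁ c₂ S X M hM hr
  refine ⟨?_, ?_⟩
  · rw [pmod_epi_iff]
    intro t x
    exact CNT_.main M hCHP hGNR hM ⟨t.unop.i, t.unop.j⟩ (hr _) t.unop.k x
  · intro Z i w hS s
    have : Mono i := hS.mono_f
    refine KCL_.ker_main hFTU hFTG (cou M) s ?_ Z i w hS.exact
    intro m hm
    refine ⟨(⟨m, hm⟩ : Gam M s), fun k => CNT_.cou_uni M s ⟨m, hm⟩ k, ?_⟩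
    intro n hn
    let n' : Gam M s := n
    have h : ∀ k, n'.1 k = m k := fun k => (CNT_.cou_uni M s n' k).symm.trans (hn k)
    exact (Subtype.ext (funext h) : n' = ⟨m, hm⟩)

end Pool.CRD.G
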