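import Pool.Agent.CRD.G.StmtsD
import Pool.Agent.CRD.A0.FFB

/-!
# CRD, area G, module DFF: a criterion for full faithfulness on the bounded derived category
-/

set_option autoImplicit false

open CategoryTheory Opposite Limits Pretriangulated

namespace Pool.CRD.G

namespace DFF_

section abs

variable {A B : Type 1} [Category.{0} A] [Category.{0} B] [Abelian A] [Abelian B]
  [HasDerivedCategory.{1} A] [HasDerivedCategory.{1} B]

/-- bounded -/
def Bd (X : DerivedCategory A) : Prop := ∃ a b : ℤ, X.IsGE a ∧ X.IsLE b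

lemma bd_db (X : DerivedCategory.Bounded A) : Bd X.obj := by
  obtain ⟨⟨a, ha⟩, ⟨b, hb⟩⟩ := X.property
  exact ⟨a, b, ha, hb⟩

lemma bd_mD (F : A ⥤ B) [ExF F] (X : DerivedCategory A) (h : Bd X) : Bd ((mD F).obj X) := by
  obtain ⟨a, b, ha, hb⟩ := h
  exact ⟨a, b, mD_isGE F X a, mD_isLE F X b⟩

/-- a bounded object as an object of the bounded derived category -/
noncomputable def toB (X : DerivedCategory A) (h : Bd X) : DerivedCategory.Bounded A :=
  ⟨X, by
    obtain ⟨a, b, ha, hb⟩ := h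
    exact ⟨⟨a, ha⟩, ⟨b, hb⟩⟩⟩

lemma bd_sg (M : A) (n : ℤ) : Bd (((DerivedCategory.singleFunctor A 0).obj M)⟦n⟧) :=
  ⟨-n, -n, DerivedCategory.TStructure.t.isGE_shift _ 0 n (-n) (by omega),
    DerivedCategory.TStructure.t.isLE_shift _ 0 n (-n) (by omega)⟩

end abs

section nat

variable {T T' : Type*} [Category T] [Category T']

/-- bijectivity of functors on morphisms -/
def BijF (G : T ⥤ T') (X Y : T) : Prop := Function.Bijective (fun f : X ⟶ Y => G.map f)

lemma BijF.comp {T'' : Type*} [Category T''] {G : T ⥤ T'} {H : T' ⥤ T''} {X Y : T}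
    (h1 : BijF G X Y) (h2 : BijF H (G.obj X) (G.obj Y)) : BijF (G ⋙ H) X Y := by
  have h3 : Function.Bijective ((fun f : G.obj X ⟶ G.obj Y => H.map f) ∘
    (fun f : X ⟶ Y => G.map f)) := Function.Bijective.comp h2 h1
  exact h3

lemma BijF.of_iso {G H : T ⥤ T'} (e : G ≅ H) {X Y : T} (h : BijF G X Y) : BijF H X Y := by
  have key : ∀ f : X ⟶ Y, H.map f = e.inv.app X ≫ G.map f ≫ e.hom.app Y := by
    intro f
    rw [e.hom.naturality, Iso.inv_hom_id_app_assoc]
  constructor
  · intro f g hfg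
    dsimp only at hfg
    rw [key, key, cancel_epi, cancel_mono] at hfg
    exact h.1 hfg
  · intro u
    obtain ⟨f, hf⟩ := h.2 (e.hom.app X ≫ u ≫ e.inv.app Y)
    refine ⟨f, ?_⟩
    dsimp only at hf ⊢
    rw [key, hf]
    simp

lemma BijF.of_comp {T'' : Type*} [Category T''] {G : T ⥤ T'} {H : T' ⥤ T''} {X Y : T}
    (h : BijF (G ⋙ H) X Y) (h2 : BijF H (G.obj X) (G.obj Y)) : BijF G X Y := by
  unfold BijF at h h2 ⊢
  exact (Function.Bijective.of_comp_iff' h2 _).1 h

end nat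

variable {K : Type} [Field K] {C C' : Type} [SmallCategory C] [SmallCategory C'] {R : PAlg K C}
  {R' : PAlg K C'} [R.Good] [R'.Good]

instance exf (R : PAlg K C) [R.Good] : ExF (IsCoh R).ι where
  add := inferInstance
  lim := inferInstance
  colim := inferInstance

lemma bij_ι (hFFD : Pool.CRD.Stmt_FFD) (hE : Effac R) (X Y : DerivedCategory (Coh R)) (hX : Bd X)
    (hY : Bd Y) : BijF (mD (IsCoh R).ι) X Y := by
  obtain ⟨h1, h2, -⟩ := hFFD K C R hE
  constructor
  · intro f g hfg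
    have h3 : (ιD R).map (ObjectProperty.homMk f : toB X hX ⟶ toB Y hY) =
      (ιD R).map (ObjectProperty.homMk g : toB X hX ⟶ toB Y hY) := hfg
    have h4 := (ιD R).map_injective h3
    exact congrArg (fun t => t.hom) h4
  · intro u
    obtain ⟨f, hf⟩ := (ιD R).map_surjective (X := toB X hX) (Y := toB Y hY) u
    exact ⟨f.hom, hf⟩

/-- the comparison -/
noncomputable def thD (F : PMod R ⥤ PMod R') [ExF F]
    (h : ∀ M, IsCoh R M → IsCoh R' (F.obj M)) [ExF (cohF F h)] :
    mD (IsCoh R).ι ⋙ mD F ≅ mD (cohF F h) ⋙ mD (IsCoh R').ι :=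
  FunL.compD (IsCoh R).ι F ≪≫ FunL.natDIso (cohFι F h).symm ≪≫
    (FunL.compD (cohF F h) (IsCoh R').ι).symm

end DFF_

open DFF_ in
theorem dff_proof (hFFD : Pool.CRD.Stmt_FFD) (hFFB : Pool.CRD.Stmt_FFB) : Stmt_DFF := by
  intro K _ C C' _ _ R R' _ _ F _ h _ hE hE' hF
  have hbij : ∀ (M N : Coh R) (n : ℤ),
      BijF (mD (cohF F h)) ((DerivedCategory.singleFunctor (Coh R) 0).obj M)
        (((DerivedCategory.singleFunctor (Coh R) 0).obj N)⟦n⟧) := by
    intro M N n
    have b1 : Bd ((DerivedCategory.singleFunctor (Coh R) 0).obj M) :=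
      ⟨0, 0, inferInstance, inferInstance⟩
    have b2 := bd_sg N n
    refine BijF.of_comp (H := mD (IsCoh R').ι) ?_ (bij_ι hFFD hE' _ _ (bd_mD _ _ b1) (bd_mD _ _ b2))
    refine BijF.of_iso (thD F h) ?_
    refine BijF.comp (bij_ι hFFD hE _ _ b1 b2) ?_
    have h1 : FFB_.Bij F (((mD (IsCoh R).ι).obj
        ((DerivedCategory.singleFunctor (Coh R) 0).obj M))⟦-n⟧) ((sg R).obj N.obj) :=
      hF _ N.obj N.property
    have h2 := h1.shift F n
    refine h2.iso F ?_ ?_
    · exact (shiftFunctorCompIsoId (DPM R) (-n) n (by omega)).app _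
    · exact (shiftFunctor (DPM R) n).mapIso
        (((IsCoh R).ι.mapDerivedCategorySingleFunctor 0).app N).symm ≪≫
          (((mD (IsCoh R).ι).commShiftIso n).app _).symm
  have hb := hFFB (Coh R) (Coh R') (cohF F h) hbij
  refine ⟨⟨fun {X Y} f => ?_⟩, ⟨fun {X Y} f g hfg => ?_⟩⟩
  · obtain ⟨g, hg⟩ := (hb X.obj Y.obj (bd_db X) (bd_db Y)).2 f.hom
    exact ⟨ObjectProperty.homMk g, ObjectProperty.hom_ext _ hg⟩
  · exact ObjectProperty.hom_ext _ ((hb X.obj Y.obj (bd_db X) (bd_db Y)).1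
      (congrArg (fun t => t.hom) hfg))

end Pool.CRD.G
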