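import Pool.Agent.CRD.G.StmtsD

set_option autoImplicit false

open CategoryTheory Opposite Limits TensorProduct MonoidalCategory Pretriangulated

namespace Pool.CRD.G

namespace DOR_

open FunL

section Abs

variable {A B : Type 1} [Category.{0} A] [Category.{0} B] [Abelian A] [Abelian B]
  [HasDerivedCategory.{1} A] [HasDerivedCategory.{1} B] (F : A ⥤ B) [ExF F]

/-- no morphism from the image of a bounded object to `Y` -/
def Orth (Y : DerivedCategory B) : Prop :=
  ∀ (x : DerivedCategory.Bounded A) (f : (mD F).obj x.obj ⟶ Y), f = 0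

lemma orth_iso {Y Z : DerivedCategory B} (e : Y ≅ Z) (h : Orth F Y) : Orth F Z := by
  intro x f
  have h1 := h x (f ≫ e.inv)
  rw [← cancel_mono e.inv, h1, zero_comp]

lemma orth_shift {Y : DerivedCategory B} (n : ℤ) (h : Orth F Y) : Orth F (Y⟦n⟧) := by
  intro x f
  have h1 := h (x⟦-n⟧) ((mD F).map
    (((DerivedCategory.Bounded.ι (C := A)).commShiftIso (-n)).hom.app x) ≫
    ((mD F).commShiftIso (-n)).hom.app x.obj ≫ f⟦-n⟧' ≫ (shiftShiftNeg Y n).hom)
  rw [← Category.assoc, ← Category.assoc] at h1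
  have h2 : ((mD F).map
    (((DerivedCategory.Bounded.ι (C := A)).commShiftIso (-n)).hom.app x) ≫
    ((mD F).commShiftIso (-n)).hom.app x.obj) ≫ f⟦-n⟧' = 0 := by
    rw [← cancel_mono (shiftShiftNeg Y n).hom, zero_comp]
    exact h1
  have h3 : f⟦-n⟧' = 0 := by
    rw [← cancel_epi ((mD F).map
      (((DerivedCategory.Bounded.ι (C := A)).commShiftIso (-n)).hom.app x) ≫
      ((mD F).commShiftIso (-n)).hom.app x.obj), comp_zero]
    exact h2
  apply (shiftFunctor (DerivedCategory B) (-n)).map_injective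
  rw [h3, Functor.map_zero]

lemma orth_tri {T : Triangle (DerivedCategory B)} (hT : T ∈ distTriang _) (h1 : Orth F T.obj₁)
    (h3 : Orth F T.obj₃) : Orth F T.obj₂ := by
  intro x f
  obtain ⟨g, hg⟩ := Triangle.coyoneda_exact₂ T hT f (h3 x _)
  rw [hg, h1 x g, zero_comp]

lemma iso_cancel {T : Type 1} [Category.{1} T] [Preadditive T] {X X' Y Y' : T} (e : X ≅ X')
    (e' : Y ≅ Y') (g : X ⟶ Y) (h : e.inv ≫ g ≫ e'.hom = 0) : g = 0 := by
  rw [← cancel_epi e.inv, ← cancel_mono e'.hom, Category.assoc, h, comp_zero, zero_comp]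

end Abs

section

variable {K : Type} [Field K] {C C' : Type} [SmallCategory C] [SmallCategory C'] {R : PAlg K C}
    {R' : PAlg K C'} [R.Good] [R'.Good] (F : PMod R ⥤ PMod R') [ExF F]
    (hF : ∀ M, IsCoh R M → IsCoh R' (F.obj M)) [ExF (cohF F hF)]

/-- the derived functors of `F` and of its restriction to coherent modules -/
noncomputable def cpr (x : DerivedCategory (Coh R)) :
    (mD (IsCoh R').ι).obj ((mD (cohF F hF)).obj x) ≅ (mD F).obj ((mD (IsCoh R).ι).obj x) :=
  (compD (cohF F hF) (IsCoh R').ι).app x ≪≫ (natDIso (cohFι F hF)).app x ≪≫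
    ((compD (IsCoh R).ι F).app x).symm

end

end DOR_

open DOR_

theorem dor_proof (hFFD : Pool.CRD.Stmt_FFD) (hDVS : Pool.CRD.Stmt_DVS) : Stmt_DOR := by
  intro K _ C C' _ _ R R' _ _ F G _ _ hF hG _ _ hEff h0 x y f
  obtain ⟨-, hfaith, -⟩ := hFFD K C' R' hEff
  -- single modules
  have hsing : ∀ N : Coh R, Orth (cohF F hF)
      ((mD (cohF G hG)).obj ((DerivedCategory.singleFunctor (Coh R) 0).obj N)) := by
    intro N x f
    let g : (mB (cohF F hF)).obj x ⟶ (mB (cohF G hG)).obj ((sB R).obj N) :=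
      (DerivedCategory.Bounded.ι (C := Coh R')).preimage f
    have hg : (ιD R').map g = 0 :=
      iso_cancel (cpr F hF x.obj) (cpr G hG _ ≪≫
          (mD G).mapIso (((IsCoh R).ι.mapDerivedCategorySingleFunctor 0).app N) ≪≫
          (G.mapDerivedCategorySingleFunctor 0).app N.obj) ((ιD R').map g)
        (h0 ((mD (IsCoh R).ι).obj x.obj) N.obj N.property _)
    have hg0 : g = 0 := by
      apply hfaith.map_injective
      rw [hg, Functor.map_zero]
    have h2 : (DerivedCategory.Bounded.ι (C := Coh R')).map g = f := Functor.map_preimage _ _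
    exact (h2.symm.trans (congrArg (DerivedCategory.Bounded.ι (C := Coh R')).map hg0)).trans
      (Functor.map_zero _ _ _)
  have key : ∀ y : DerivedCategory (Coh R), (∃ a c : ℤ, y.IsGE a ∧ y.IsLE c) →
      Orth (cohF F hF) ((mD (cohF G hG)).obj y) := by
    intro y hy
    refine hDVS (Coh R) ⊤ (fun y => Orth (cohF F hF) ((mD (cohF G hG)).obj y)) ⟨?_⟩ ?_ ?_ ?_ ?_ y hy
      (fun _ => trivial)
    · intro y z e h
      exact orth_iso _ ((mD (cohF G hG)).mapIso e) h
    · intro y h n
      exact orth_iso _ (((mD (cohF G hG)).commShiftIso n).app y).symm (orth_shift _ n h)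
    · intro T hT h1 h3
      exact orth_tri _ ((mD (cohF G hG)).map_distinguished T hT) h1 h3
    · intro y hy x f
      exact ((mD (cohF G hG)).map_isZero hy).eq_of_tgt _ _
    · intro N _
      exact hsing N
  obtain ⟨⟨a, ha⟩, ⟨c, hc⟩⟩ := y.property
  apply (DerivedCategory.Bounded.ι (C := Coh R')).map_injective
  rw [Functor.map_zero]
  exact key y.obj ⟨a, c, ha, hc⟩ x _

end Pool.CRD.G
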