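import Pool.Agent.CRD.G.StmtsC

/-!
# CRD, area G, module DSC: descent of coherence along `X → S`
-/

set_option autoImplicit false

open CategoryTheory Opposite Limits TensorProduct MonoidalCategory

namespace Pool.CRD.G

namespace DSC_

section alg

/-- additive maps out of a base change -/
noncomputable def BTadd {A B : Type} [CommRing A] [CommRing B] (f : A →+* B) {M P : Type}
    [AddCommGroup M] [Module A M] [AddCommGroup P] (g : B → M → P)
    (h1 : ∀ r s m, g (r + s) m = g r m + g s m) (h2 : ∀ r m n, g r (m + n) = g r m + g r n)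
    (h3 : ∀ (a : A) r m, g (f a * r) m = g r (a • m)) : BT f M →+ P :=
  letI := f.toAlgebra
  TensorProduct.liftAddHom
    (AddMonoidHom.mk' (fun r => AddMonoidHom.mk' (fun m => g r m) (fun m n => h2 r m n))
      (fun r s => by ext m; exact h1 r s m))
    (fun a r m => h3 a r m)

lemma BTadd_bt {A B : Type} [CommRing A] [CommRing B] (f : A →+* B) {M P : Type}
    [AddCommGroup M] [Module A M] [AddCommGroup P] (g : B → M → P)
    (h1 : ∀ r s m, g (r + s) m = g r m + g s m) (h2 : ∀ r m n, g r (m + n) = g r m + g r n)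
    (h3 : ∀ (a : A) r m, g (f a * r) m = g r (a • m)) (b : B) (m : M) :
    BTadd f g h1 h2 h3 (bt f b m) = g b m := rfl

/-- a retraction of a ring homomorphism -/
structure Ret {A B : Type} [CommRing A] [CommRing B] (f : A →+* B) (r : B → A) : Prop where
  add : ∀ x y, r (x + y) = r x + r y
  mul : ∀ a x, r (f a * x) = a * r x
  one : ∀ a, r (f a) = a

variable {A B A' B' : Type} [CommRing A] [CommRing B] [CommRing A'] [CommRing B']
    {f : A →+* B} {f' : A' →+* B'}

/-- the retraction on modules -/
noncomputable def ret {r : B → A} (hr : Ret f r) (M : Type) [AddCommGroup M] [Module A M] :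
    BT f M →+ M :=
  BTadd f (fun b m => r b • m) (fun b c m => by rw [hr.add, add_smul])
    (fun b m n => smul_add _ _ _) (fun a b m => by rw [hr.mul, smul_smul, mul_comm])

lemma ret_bt {r : B → A} (hr : Ret f r) {M : Type} [AddCommGroup M] [Module A M] (b : B) (m : M) :
    ret hr M (bt f b m) = r b • m := rfl

/-- finiteness descends -/
lemma fin_desc {r : B → A} (hr : Ret f r) {M : Type} [AddCommGroup M] [Module A M]
    (h : Module.Finite B (BT f M)) : Module.Finite A M := by
  classical
  -- every element of `BT` is in the `B`-span of `1 ⊗ n`, `n` in a finite set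
  have h1 : ∀ x : BT f M, ∃ s : Finset M, x ∈ Submodule.span B ((fun m => bt f 1 m) '' (s : Set M)) := by
    intro x
    refine bt_induction f (P := fun x => ∃ s : Finset M,
      x ∈ Submodule.span B ((fun m => bt f 1 m) '' (s : Set M))) ?_ ?_ ?_ x
    · exact ⟨∅, zero_mem _⟩
    · intro b m
      refine ⟨{m}, ?_⟩
      have e : bt f b m = b • bt f 1 m := by rw [smul_bt, mul_one]
      rw [e]
      exact Submodule.smul_mem _ _ (Submodule.subset_span ⟨m, by simp, rfl⟩)
    · rintro x y ⟨s, hs⟩ ⟨t, ht⟩
      refine ⟨s ∪ t, add_mem ?_ ?_⟩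
      · exact Submodule.span_mono (Set.image_mono (by simp)) hs
      · exact Submodule.span_mono (Set.image_mono (by simp)) ht
  obtain ⟨T, hT⟩ := h.fg_top
  choose s hs using h1
  let U : Finset M := T.biUnion s
  have h2 : ∀ x : BT f M, x ∈ Submodule.span B ((fun m => bt f 1 m) '' (U : Set M)) := by
    intro x
    have hx : x ∈ Submodule.span B (T : Set (BT f M)) := by rw [hT]; trivial
    refine Submodule.span_le.2 ?_ hx
    intro y hy
    refine Submodule.span_mono (Set.image_mono ?_) (hs y)
    intro m hm
    exact Finset.mem_coe.2 (Finset.mem_biUnion.2 ⟨y, hy, hm⟩)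
  refine ⟨⟨U, ?_⟩⟩
  rw [eq_top_iff]
  rintro n -
  have h3 : ∀ x ∈ Submodule.span B ((fun m => bt f 1 m) '' (U : Set M)),
      ∀ b : B, ret hr M (b • x) ∈ Submodule.span A (U : Set M) := by
    intro x hx
    induction hx using Submodule.span_induction with
    | mem x hx =>
      obtain ⟨m, hm, rfl⟩ := hx
      intro b
      change ret hr M (b • bt f 1 m) ∈ _
      rw [smul_bt, ret_bt]
      exact Submodule.smul_mem _ _ (Submodule.subset_span hm)
    | zero => intro b; rw [smul_zero, map_zero]; exact zero_mem _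
    | add x y _ _ hx hy => intro b; rw [smul_add, map_add]; exact add_mem (hx b) (hy b)
    | smul c x _ hx => intro b; rw [smul_smul]; exact hx _
  have h4 := h3 _ (h2 (bt f 1 n)) 1
  rw [one_smul, ret_bt] at h4
  have e1 : r 1 = 1 := by rw [← map_one f, hr.one]
  rwa [e1, one_smul] at h4

variable (a : A →+* A') (b : B →+* B') (h : ∀ x, b (f x) = f' (a x))
    {M M' : Type} [AddCommGroup M] [AddCommGroup M'] [Module A M] [Module A' M']
    (ρ : M →+ M') (hρ : ∀ (r : A) (m : M), ρ (r • m) = a r • ρ m)

/-- cartesian squares descend -/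
lemma bc_desc {r' : B' → A'} (hr : Ret f' r')
    (hb : Function.Bijective (BTlift₀ b (BTmap (f := f) (f' := f') a b h ρ hρ)
      (BTmap_smul a b h ρ hρ))) :
    Function.Bijective (BTlift₀ a ρ hρ) := by
  let I : BT a M →+ BT b (BT f M) := BTadd a (fun x m => bt b (f' x) (bt f 1 m))
    (fun x y m => by rw [map_add, bt_add_left])
    (fun x m n => by rw [bt_add_right, bt_add_right])
    (fun c x m => by
      rw [map_mul, ← h, ← bt_smul_right, smul_bt, mul_one, bt_smul_right, mul_one])
  let R0 : B' → BT f M →+ BT a M := fun y => BTadd f (fun z m => bt a (r' (y * b z)) m)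
    (fun x y m => by rw [map_add, mul_add, hr.add, bt_add_left])
    (fun x m n => by rw [bt_add_right])
    (fun c x m => by
      rw [map_mul, h, ← mul_assoc, mul_comm y, mul_assoc, hr.mul, ← bt_smul_right])
  let Rr : BT b (BT f M) →+ BT a M := BTadd b (fun y v => R0 y v)
    (fun x y v => by
      refine bt_induction f (P := fun v => R0 (x + y) v = R0 x v + R0 y v) ?_ ?_ ?_ v
      · rw [map_zero, map_zero, map_zero, add_zero]
      · intro z m
        change bt a (r' ((x + y) * b z)) m = bt a (r' (x * b z)) m + bt a (r' (y * b z)) m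
        rw [add_mul, hr.add, bt_add_left]
      · intro u w hu hw
        rw [map_add, map_add, map_add, hu, hw]
        abel)
    (fun y v w => map_add _ _ _)
    (fun c y v => by
      refine bt_induction f (P := fun v => R0 (b c * y) v = R0 y (c • v)) ?_ ?_ ?_ v
      · rw [map_zero, smul_zero, map_zero]
      · intro z m
        rw [smul_bt]
        change bt a (r' (b c * y * b z)) m = bt a (r' (y * b (c * z))) m
        rw [map_mul]
        congr 2
        ring
      · intro u w hu hw
        rw [map_add, smul_add, map_add, hu, hw])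
  have e1 : ∀ x, Rr (I x) = x := by
    intro x
    refine bt_induction a (P := fun x => Rr (I x) = x) ?_ ?_ ?_ x
    · rw [map_zero, map_zero]
    · intro y m
      change bt a (r' (f' y * b 1)) m = bt a y m
      rw [map_one, mul_one, hr.one]
    · intro u w hu hw
      rw [map_add, map_add, hu, hw]
  have e2 : ∀ x, BTlift₀ b (BTmap (f := f) (f' := f') a b h ρ hρ) (BTmap_smul a b h ρ hρ) (I x) =
      bt f' 1 (BTlift₀ a ρ hρ x) := by
    intro x
    refine bt_induction a (P := fun x => BTlift₀ b (BTmap (f := f) (f' := f') a b h ρ hρ)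
      (BTmap_smul a b h ρ hρ) (I x) = bt f' 1 (BTlift₀ a ρ hρ x)) ?_ ?_ ?_ x
    · rw [map_zero, map_zero, map_zero]
      have := bt_add_right f' (1 : B') (0 : M') 0
      rw [add_zero] at this
      exact (left_eq_add.1 this).symm
    · intro y m
      change (f' y) • BTmap (f := f) (f' := f') a b h ρ hρ (bt f 1 m) = bt f' 1 (y • ρ m)
      rw [BTmap_bt, smul_bt, map_one, mul_one, bt_smul_right, mul_one]
    · intro u w hu hw
      rw [map_add, map_add, map_add, hu, hw, bt_add_right]
  have e3 : ∀ x, BTlift₀ a ρ hρ (Rr x) = ret hr M'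
      (BTlift₀ b (BTmap (f := f) (f' := f') a b h ρ hρ) (BTmap_smul a b h ρ hρ) x) := by
    intro x
    refine bt_induction b (P := fun x => BTlift₀ a ρ hρ (Rr x) = ret hr M'
      (BTlift₀ b (BTmap (f := f) (f' := f') a b h ρ hρ) (BTmap_smul a b h ρ hρ) x)) ?_ ?_ ?_ x
    · rw [map_zero, map_zero, map_zero, map_zero]
    · intro y v
      refine bt_induction f (P := fun v => BTlift₀ a ρ hρ (Rr (bt b y v)) = ret hr M'
        (BTlift₀ b (BTmap (f := f) (f' := f') a b h ρ hρ) (BTmap_smul a b h ρ hρ) (bt b y v)))
        ?_ ?_ ?_ v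
      · have := bt_add_right b y (0 : BT f M) 0
        rw [add_zero] at this
        rw [left_eq_add.1 this, map_zero, map_zero, map_zero, map_zero]
      · intro z m
        change (r' (y * b z)) • ρ m = ret hr M' (y • BTmap (f := f) (f' := f') a b h ρ hρ
          (bt f z m))
        rw [BTmap_bt, smul_bt, ret_bt]
      · intro u w hu hw
        rw [bt_add_right, map_add, map_add, map_add, map_add, hu, hw]
    · intro u w hu hw
      rw [map_add, map_add, map_add, map_add, hu, hw]
  constructor
  · rw [injective_iff_map_eq_zero]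
    intro x hx
    have h1 := e2 x
    rw [hx] at h1
    have h2 : bt f' (1 : B') (0 : M') = 0 := by
      have := bt_add_right f' (1 : B') (0 : M') 0
      rw [add_zero] at this
      exact left_eq_add.1 this
    rw [h2] at h1
    have h3 : I x = 0 := hb.1 (by rw [h1, map_zero])
    rw [← e1 x, h3, map_zero]
  · intro y
    obtain ⟨z, hz⟩ := hb.2 (bt f' 1 y)
    refine ⟨Rr z, ?_⟩
    rw [e3, hz, ret_bt]
    have e1 : r' 1 = 1 := by rw [← map_one f', hr.one]
    rw [e1, one_smul]

end alg

section cart
variable {K : Type} [CommRing K] {C : Type} [SmallCategory C] {R : PAlg K C}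

noncomputable abbrev mI (M : PMod R) (X : Cᵒᵖ) : Module (R.obj X) (M.obj X) :=
  inferInstanceAs (Module (R.toRing.obj X) (M.obj X))

/-- restriction as an additive map -/
noncomputable def rsA (M : PMod R) {X Y : Cᵒᵖ} (f : X ⟶ Y) : M.obj X →+ M.obj Y :=
  AddMonoidHom.mk' (rs M f) (rs_add M f)

lemma cart_iff (M : PMod R) {X Y : Cᵒᵖ} (f : X ⟶ Y) :
    IsCart M f ↔ letI := mI M X; letI := mI M Y
      Function.Bijective (BTlift₀ (R.map f).hom.toRingHom (M := M.obj X) (P := M.obj Y) (rsA M f)
        (fun r m => rs_smul M f r m)) := by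
  let _ : Algebra (R.obj X) (R.obj Y) := (R.map f).hom.toRingHom.toAlgebra
  let _ : Module (R.obj X) (M.obj X) := inferInstanceAs (Module (R.toRing.obj X) (M.obj X))
  let _ : Module (R.obj Y) (M.obj Y) := inferInstanceAs (Module (R.toRing.obj Y) (M.obj Y))
  let _ : Module (R.obj X) (M.obj Y) := Module.compHom (M.obj Y) (R.map f).hom.toRingHom
  have : IsScalarTower (R.obj X) (R.obj Y) (M.obj Y) :=
    ⟨fun a b c => by rw [Algebra.smul_def, mul_smul]; rfl⟩
  have key : ∀ z, cmp (R.obj Y) ({ toFun := fun x => M.map f x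
                                   map_add' := fun x y => map_add (M.map f).hom x y
                                   map_smul' := fun r x => M.map_smul f r x } :
        M.obj X →ₗ[R.obj X] M.obj Y) z =
      BTlift₀ (R.map f).hom.toRingHom (M := M.obj X) (P := M.obj Y) (rsA M f)
        (fun r m => rs_smul M f r m) z := by
    intro z
    induction z using TensorProduct.induction_on with
    | zero => rw [map_zero]; exact (map_zero _).symm
    | tmul x y => rfl
    | add x y hx hy => rw [map_add, hx, hy]; exact (map_add _ _ _).symm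
  have key2 : (⇑(cmp (R.obj Y) ({ toFun := fun x => M.map f x
                                  map_add' := fun x y => map_add (M.map f).hom x y
                                  map_smul' := fun r x => M.map_smul f r x } :
        M.obj X →ₗ[R.obj X] M.obj Y))) =
      ⇑(BTlift₀ (R.map f).hom.toRingHom (M := M.obj X) (P := M.obj Y) (rsA M f)
        (fun r m => rs_smul M f r m)) := funext key
  change Function.Bijective (⇑(cmp (R.obj Y) ({ toFun := fun x => M.map f x
                                                map_add' := fun x y => map_add (M.map f).hom x y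
                                                map_smul' := fun r x => M.map_smul f r x } :
        M.obj X →ₗ[R.obj X] M.obj Y))) ↔ _
  rw [key2]
  exact Iff.rfl

end cart

section gen
variable {K : Type} [Field K] {C D : Type} [SmallCategory C] [SmallCategory D]
  {R₁ : PAlg K C} {R₂ : PAlg K D}

/-- cartesian arrows descend -/
lemma cart_desc (g : DMor R₁ R₂) (N : PMod R₁) {X Y : Dᵒᵖ} (f : X ⟶ Y)
    {r' : R₂.obj Y → R₁.obj (g.m.op.obj Y)} (hr : Ret (g.hom Y) r')
    (h : IsCart (g.bcObj N) f) : IsCart N (g.m.op.map f) := by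
  rw [cart_iff] at h ⊢
  refine bc_desc (A := R₁.obj (g.m.op.obj X)) (B := R₂.obj X) (A' := R₁.obj (g.m.op.obj Y))
    (B' := R₂.obj Y) (f := g.hom X) (f' := g.hom Y) (R₁.map (g.m.op.map f)).hom.toRingHom
    (R₂.map f).hom.toRingHom (g.hom_nat f) (M := N.obj (g.m.op.obj X))
    (M' := N.obj (g.m.op.obj Y)) (rsA N (g.m.op.map f))
    (fun r m => rs_smul N (g.m.op.map f) r m) (r' := r') hr ?_
  have e : (⇑(BTlift₀ (R₂.map f).hom.toRingHom (M := BT (g.hom X) (N.obj (g.m.op.obj X)))
      (P := BT (g.hom Y) (N.obj (g.m.op.obj Y))) (g.bcRs N f)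
      (fun r m => BTmap_smul _ _ _ _ _ r m))) =
    ⇑(BTlift₀ (R₂.map f).hom.toRingHom (M := (g.bcObj N).obj X) (P := (g.bcObj N).obj Y)
      (rsA (g.bcObj N) f) (fun r m => rs_smul (g.bcObj N) f r m)) := rfl
  have h' : Function.Bijective (⇑(BTlift₀ (R₂.map f).hom.toRingHom (M := (g.bcObj N).obj X)
      (P := (g.bcObj N).obj Y) (rsA (g.bcObj N) f) (fun r m => rs_smul (g.bcObj N) f r m))) := h
  rw [← e] at h'
  exact h'

end gen


end DSC_



open DSC_

theorem dsc_proof (hSPL : Stmt_SPL) : Stmt_DSC := by
  intro K _ c₁ c₂ S X N hN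
  have hret : ∀ s : Ch2, ∃ r : X.A s.i s.j ca → S.A s.i s.j, Ret (inc X s ca) r := by
    intro s
    obtain ⟨r, hr⟩ := (hSPL K c₁ c₂ S X s).1 ca
    refine ⟨r, fun x y => map_add r x y, fun a x => ?_, hr⟩
    exact map_smul r a x
  refine ⟨?_, ?_⟩
  · rintro ⟨s⟩
    obtain ⟨r, hr⟩ := hret s
    exact fin_desc (A := S.R.obj (op s)) (B := X.R.obj (op (c3 s ca)))
      (f := X.pr.hom (op (c3 s ca))) (r := r) hr (M := N.obj (op s)) (hN.1 (op (c3 s ca)))
  · rintro ⟨s⟩ ⟨s'⟩ φ
    obtain ⟨r, hr⟩ := hret s'
    have hs : s' ≤ s := leOfHom φ.unop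
    have h1 := hN.2 (homOfLE (c3_mono hs (le_refl ca))).op
    have h2 := cart_desc X.pr N (homOfLE (c3_mono hs (le_refl ca))).op (r' := r) hr h1
    exact h2

end Pool.CRD.G
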