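import Pool.Agent.CRD.G.StmtsA

/-!
# CRD, area G, module E0C
-/

open CategoryTheory Opposite Limits TensorProduct

namespace Pool.CRD.G

theorem e0c_proof : Stmt_E0C := by
  intro K L _ _ _ A p q a b hp hq h1
  have hP : ∀ v : E0 A p q a b,
      ((p * (a * v.1.1 - b * q * v.1.2), - (b * v.1.1 + a * p * v.1.2)) : L × L) ∈
        E0 A p q a b := by
    intro v
    obtain ⟨⟨v1, v2⟩, m1, m2, m3, m4⟩ := v
    refine ⟨mul_mem hp m3, neg_mem m4, ?_, ?_⟩
    · have e : a * (p * (a * v1 - b * q * v2)) - b * q * (-(b * v1 + a * p * v2)) = v1 := by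
        linear_combination v1 * h1
      change a * (p * (a * v1 - b * q * v2)) - b * q * (-(b * v1 + a * p * v2)) ∈ A
      rw [e]; exact m1
    · have e : b * (p * (a * v1 - b * q * v2)) + a * p * (-(b * v1 + a * p * v2)) = -(p * v2) := by
        linear_combination (-(p * v2)) * h1
      change b * (p * (a * v1 - b * q * v2)) + a * p * (-(b * v1 + a * p * v2)) ∈ A
      rw [e]; exact neg_mem (mul_mem hp m2)
  have hQ : ∀ v : E0 A p q a b,
      ((q * (b * v.1.1 + a * p * v.1.2), a * v.1.1 - b * q * v.1.2) : L × L) ∈
        E0 A p q a b := by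
    intro v
    obtain ⟨⟨v1, v2⟩, m1, m2, m3, m4⟩ := v
    refine ⟨mul_mem hq m4, m3, ?_, ?_⟩
    · have e : a * (q * (b * v1 + a * p * v2)) - b * q * (a * v1 - b * q * v2) = q * v2 := by
        linear_combination (q * v2) * h1
      change a * (q * (b * v1 + a * p * v2)) - b * q * (a * v1 - b * q * v2) ∈ A
      rw [e]; exact mul_mem hq m2
    · have e : b * (q * (b * v1 + a * p * v2)) + a * p * (a * v1 - b * q * v2) = v1 := by
        linear_combination v1 * h1
      change b * (q * (b * v1 + a * p * v2)) + a * p * (a * v1 - b * q * v2) ∈ A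
      rw [e]; exact m1
  let P : Module.End A (E0 A p q a b) :=
    { toFun := fun v => ⟨_, hP v⟩
      map_add' := fun x y => by
        apply Subtype.ext
        apply Prod.ext
        · change p * (a * (x.1.1 + y.1.1) - b * q * (x.1.2 + y.1.2)) =
            p * (a * x.1.1 - b * q * x.1.2) + p * (a * y.1.1 - b * q * y.1.2)
          ring
        · change -(b * (x.1.1 + y.1.1) + a * p * (x.1.2 + y.1.2)) =
            -(b * x.1.1 + a * p * x.1.2) + -(b * y.1.1 + a * p * y.1.2)
          ring
      map_smul' := fun c x => by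
        apply Subtype.ext
        apply Prod.ext
        · change p * (a * ((c : L) * x.1.1) - b * q * ((c : L) * x.1.2)) =
            (c : L) * (p * (a * x.1.1 - b * q * x.1.2))
          ring
        · change -(b * ((c : L) * x.1.1) + a * p * ((c : L) * x.1.2)) =
            (c : L) * -(b * x.1.1 + a * p * x.1.2)
          ring }
  let Q : Module.End A (E0 A p q a b) :=
    { toFun := fun v => ⟨_, hQ v⟩
      map_add' := fun x y => by
        apply Subtype.ext
        apply Prod.ext
        · change q * (b * (x.1.1 + y.1.1) + a * p * (x.1.2 + y.1.2)) =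
            q * (b * x.1.1 + a * p * x.1.2) + q * (b * y.1.1 + a * p * y.1.2)
          ring
        · change a * (x.1.1 + y.1.1) - b * q * (x.1.2 + y.1.2) =
            (a * x.1.1 - b * q * x.1.2) + (a * y.1.1 - b * q * y.1.2)
          ring
      map_smul' := fun c x => by
        apply Subtype.ext
        apply Prod.ext
        · change q * (b * ((c : L) * x.1.1) + a * p * ((c : L) * x.1.2)) =
            (c : L) * (q * (b * x.1.1 + a * p * x.1.2))
          ring
        · change a * ((c : L) * x.1.1) - b * q * ((c : L) * x.1.2) =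
            (c : L) * (a * x.1.1 - b * q * x.1.2)
          ring }
  refine ⟨P, Q, fun v => rfl, fun v => rfl, ⟨fun x => ?_, fun x => ?_, fun x => ?_⟩⟩
  · apply Subtype.ext
    apply Prod.ext
    · change p * (a * (p * (a * x.1.1 - b * q * x.1.2)) - b * q *
        (-(b * x.1.1 + a * p * x.1.2))) = p * x.1.1
      linear_combination (p * x.1.1) * h1
    · change -(b * (p * (a * x.1.1 - b * q * x.1.2)) + a * p *
        (-(b * x.1.1 + a * p * x.1.2))) = p * x.1.2
      linear_combination (p * x.1.2) * h1
  · apply Subtype.ext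
    apply Prod.ext
    · change q * (b * (q * (b * x.1.1 + a * p * x.1.2)) + a * p *
        (a * x.1.1 - b * q * x.1.2)) = q * x.1.1
      linear_combination (q * x.1.1) * h1
    · change a * (q * (b * x.1.1 + a * p * x.1.2)) - b * q *
        (a * x.1.1 - b * q * x.1.2) = q * x.1.2
      linear_combination (q * x.1.2) * h1
  · apply Subtype.ext
    apply Prod.ext
    · change p * (a * (q * (b * x.1.1 + a * p * x.1.2)) - b * q *
        (a * x.1.1 - b * q * x.1.2)) =
        -(q * (b * (p * (a * x.1.1 - b * q * x.1.2)) + a * p *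
        (-(b * x.1.1 + a * p * x.1.2))))
      ring
    · change -(b * (q * (b * x.1.1 + a * p * x.1.2)) + a * p *
        (a * x.1.1 - b * q * x.1.2)) =
        -(a * (p * (a * x.1.1 - b * q * x.1.2)) - b * q *
        (-(b * x.1.1 + a * p * x.1.2)))
      ring

end Pool.CRD.G
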