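import Pool.Agent.CRD.G.StmtsA

/-!
# CRD, area G: module E0G (the lattice `E_0` is of rank two in the strong sense)
-/

open CategoryTheory Opposite Limits TensorProduct

namespace Pool.CRD.G

namespace E0G_

section
variable {K L : Type} [Field K] [Field L] [Algebra K L] (A : Subalgebra K L) (p q a b : L)

theorem fin_E0 (hN : IsNoetherianRing A) : Module.Finite A (E0 A p q a b) := by
  let j : E0 A p q a b →ₗ[A] (A × A) :=
    { toFun := fun v => (⟨v.1.1, v.2.1⟩, ⟨v.1.2, v.2.2.1⟩)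
      map_add' := fun _ _ => rfl
      map_smul' := fun _ _ => rfl }
  have hj : Function.Injective j := by
    intro v w h
    have h1 := congrArg (fun x : A × A => (x.1 : L)) h
    have h2 := congrArg (fun x : A × A => (x.2 : L)) h
    exact Subtype.ext (Prod.ext h1 h2)
  exact Module.Finite.of_injective j hj

/-- a finite dual basis -/
theorem dual_basis {R M : Type} [CommRing R] [AddCommGroup M] [Module R M]
    (hf : Module.Finite R M) (hp : Module.Projective R M) :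
    ∃ (n : ℕ) (ε : Fin n → M) (φ : Fin n → (M →ₗ[R] R)), ∀ x, ∑ k, φ k x • ε k = x := by
  obtain ⟨n, g, hg⟩ := Module.Finite.exists_fin' R M
  obtain ⟨s, hs⟩ := Module.projective_lifting_property g LinearMap.id hg
  refine ⟨n, fun i => g (Pi.single i 1), fun i => LinearMap.proj i ∘ₗ s, fun x => ?_⟩
  have h1 : ∀ i, (LinearMap.proj i ∘ₗ s) x • g (Pi.single i 1) = g (Pi.single i (s x i)) := by
    intro i
    rw [← map_smul]
    congr 1
    rw [← Pi.single_smul, smul_eq_mul, mul_one]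
    rfl
  rw [Finset.sum_congr rfl fun i _ => h1 i, ← map_sum, Finset.univ_sum_single]
  exact LinearMap.congr_fun hs x

variable {p q a b}

/-- a common denominator -/
theorem denom (hp : p ∈ A) (hq : q ∈ A)
    (hfr : ∀ z : L, ∃ c ∈ A, ∃ d ∈ A, d ≠ 0 ∧ z = c / d) :
    ∃ d : L, d ∈ A ∧ d ≠ 0 ∧ ((d, 0) : L × L) ∈ E0 A p q a b ∧
      ((0, d) : L × L) ∈ E0 A p q a b := by
  obtain ⟨c1, hc1, d1, hd1, hd1', e1⟩ := hfr a
  obtain ⟨c2, hc2, d2, hd2, hd2', e2⟩ := hfr b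
  have ha : a * (d1 * d2) ∈ A := by
    have h : a * (d1 * d2) = c1 * d2 := by rw [e1]; field_simp
    rw [h]; exact mul_mem hc1 hd2
  have hb : b * (d1 * d2) ∈ A := by
    have h : b * (d1 * d2) = c2 * d1 := by rw [e2]; field_simp
    rw [h]; exact mul_mem hc2 hd1
  refine ⟨d1 * d2, mul_mem hd1 hd2, mul_ne_zero hd1' hd2', ⟨mul_mem hd1 hd2, zero_mem A, ?_, ?_⟩,
    ⟨zero_mem A, mul_mem hd1 hd2, ?_, ?_⟩⟩
  · change a * (d1 * d2) - b * q * 0 ∈ A
    rw [mul_zero, sub_zero]; exact ha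
  · change b * (d1 * d2) + a * p * 0 ∈ A
    rw [mul_zero, add_zero]; exact hb
  · change a * 0 - b * q * (d1 * d2) ∈ A
    have h : a * 0 - b * q * (d1 * d2) = - (q * (b * (d1 * d2))) := by ring
    rw [h]; exact neg_mem (mul_mem hq hb)
  · change b * 0 + a * p * (d1 * d2) ∈ A
    have h : b * 0 + a * p * (d1 * d2) = p * (a * (d1 * d2)) := by ring
    rw [h]; exact mul_mem hp ha

/-- functionals on `E_0` are restrictions of functionals on `L²` -/
theorem func (hp : p ∈ A) (hq : q ∈ A)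
    (hfr : ∀ z : L, ∃ c ∈ A, ∃ d ∈ A, d ≠ 0 ∧ z = c / d) (φ : E0 A p q a b →ₗ[A] A) :
    ∃ α β : L, ∀ v : E0 A p q a b, (φ v : L) = α * v.1.1 + β * v.1.2 := by
  obtain ⟨d, hdA, hd, h1, h2⟩ := denom A (a := a) (b := b) hp hq hfr
  refine ⟨(φ ⟨_, h1⟩ : L) / d, (φ ⟨_, h2⟩ : L) / d, fun v => ?_⟩
  have h3 : (⟨d, hdA⟩ : A) • v = (⟨v.1.1, v.2.1⟩ : A) • (⟨_, h1⟩ : E0 A p q a b) +
      (⟨v.1.2, v.2.2.1⟩ : A) • (⟨_, h2⟩ : E0 A p q a b) := by
    apply Subtype.ext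
    apply Prod.ext
    · change d * v.1.1 = v.1.1 * d + v.1.2 * 0
      ring
    · change d * v.1.2 = v.1.1 * 0 + v.1.2 * d
      ring
  have h4 : ((φ ((⟨d, hdA⟩ : A) • v) : A) : L) = ((φ ((⟨v.1.1, v.2.1⟩ : A) •
      (⟨_, h1⟩ : E0 A p q a b) + (⟨v.1.2, v.2.2.1⟩ : A) • (⟨_, h2⟩ : E0 A p q a b)) : A) : L) := by
    rw [h3]
  rw [map_add, map_smul, map_smul, map_smul] at h4
  have h5 : d * (φ v : L) = v.1.1 * (φ ⟨_, h1⟩ : L) + v.1.2 * (φ ⟨_, h2⟩ : L) := h4
  field_simp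
  linear_combination h5

end

end E0G_

open E0G_ in
theorem e0g_proof : Stmt_E0G := by
  intro K L _ _ _ _ A p q a b hp hq hp0 hq0 hab hN hfr hproj P Q hP hQ hC
  have hfin := fin_E0 A p q a b hN
  obtain ⟨n, ε, φ, hb⟩ := dual_basis hfin hproj
  have hfun : ∀ ψ : E0 A p q a b →ₗ[A] A, ∃ α β : L, ∀ v : E0 A p q a b,
      (ψ v : L) = α * v.1.1 + β * v.1.2 := fun ψ => func A hp hq hfr ψ
  choose α β hαβ using fun k => hfun (φ k)
  obtain ⟨d, hdA, hd, h1, h2⟩ := denom A (a := a) (b := b) hp hq hfr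
  have hb1 : ∀ v : E0 A p q a b, ∑ k, (α k * v.1.1 + β k * v.1.2) * (ε k).1.1 = v.1.1 := by
    intro v
    have h3 := congrArg (fun x : E0 A p q a b => x.1.1) (hb v)
    have h4 : (∑ k, φ k v • ε k : E0 A p q a b).1.1 =
        ∑ k, (α k * v.1.1 + β k * v.1.2) * (ε k).1.1 := by
      rw [AddSubmonoidClass.coe_finsetSum, Prod.fst_sum]
      refine Finset.sum_congr rfl fun k _ => ?_
      rw [← hαβ k v]
      rfl
    rw [← h4]; exact h3
  have hb2 : ∀ v : E0 A p q a b, ∑ k, (α k * v.1.1 + β k * v.1.2) * (ε k).1.2 = v.1.2 := by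
    intro v
    have h3 := congrArg (fun x : E0 A p q a b => x.1.2) (hb v)
    have h4 : (∑ k, φ k v • ε k : E0 A p q a b).1.2 =
        ∑ k, (α k * v.1.1 + β k * v.1.2) * (ε k).1.2 := by
      rw [AddSubmonoidClass.coe_finsetSum, Prod.snd_sum]
      refine Finset.sum_congr rfl fun k _ => ?_
      rw [← hαβ k v]
      rfl
    rw [← h4]; exact h3
  have s11 : ∑ k, α k * (ε k).1.1 = 1 := by
    have h3 := hb1 ⟨_, h1⟩
    have h4 : ∑ k, (α k * d + β k * 0) * (ε k).1.1 = d * ∑ k, α k * (ε k).1.1 := by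
      rw [Finset.mul_sum]; exact Finset.sum_congr rfl fun k _ => by ring
    have h5 : d * ∑ k, α k * (ε k).1.1 = d * 1 := by rw [← h4, mul_one]; exact h3
    exact mul_left_cancel₀ hd h5
  have s12 : ∑ k, α k * (ε k).1.2 = 0 := by
    have h3 := hb2 ⟨_, h1⟩
    have h4 : ∑ k, (α k * d + β k * 0) * (ε k).1.2 = d * ∑ k, α k * (ε k).1.2 := by
      rw [Finset.mul_sum]; exact Finset.sum_congr rfl fun k _ => by ring
    have h5 : d * ∑ k, α k * (ε k).1.2 = d * 0 := by rw [← h4, mul_zero]; exact h3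
    exact mul_left_cancel₀ hd h5
  have s21 : ∑ k, β k * (ε k).1.1 = 0 := by
    have h3 := hb1 ⟨_, h2⟩
    have h4 : ∑ k, (α k * 0 + β k * d) * (ε k).1.1 = d * ∑ k, β k * (ε k).1.1 := by
      rw [Finset.mul_sum]; exact Finset.sum_congr rfl fun k _ => by ring
    have h5 : d * ∑ k, β k * (ε k).1.1 = d * 0 := by rw [← h4, mul_zero]; exact h3
    exact mul_left_cancel₀ hd h5
  have s22 : ∑ k, β k * (ε k).1.2 = 1 := by
    have h3 := hb2 ⟨_, h2⟩
    have h4 : ∑ k, (α k * 0 + β k * d) * (ε k).1.2 = d * ∑ k, β k * (ε k).1.2 := by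
      rw [Finset.mul_sum]; exact Finset.sum_congr rfl fun k _ => by ring
    have h5 : d * ∑ k, β k * (ε k).1.2 = d * 1 := by rw [← h4, mul_one]; exact h3
    exact mul_left_cancel₀ hd h5
  -- traces
  have htr : ∀ (T : E0 A p q a b → E0 A p q a b) (t11 t12 t21 t22 : L),
      (∀ v, (T v).1.1 = t11 * v.1.1 + t12 * v.1.2) →
      (∀ v, (T v).1.2 = t21 * v.1.1 + t22 * v.1.2) →
      ((∑ k, φ k (T (ε k)) : A) : L) = t11 + t22 := by
    intro T t11 t12 t21 t22 hT1 hT2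
    rw [AddSubmonoidClass.coe_finsetSum]
    calc ∑ k, ((φ k (T (ε k)) : A) : L) = ∑ k, (t11 * (α k * (ε k).1.1) +
          t12 * (α k * (ε k).1.2) + t21 * (β k * (ε k).1.1) + t22 * (β k * (ε k).1.2)) := by
          refine Finset.sum_congr rfl fun k _ => ?_
          rw [hαβ, hT1, hT2]; ring
      _ = t11 * ∑ k, α k * (ε k).1.1 + t12 * ∑ k, α k * (ε k).1.2 +
          t21 * ∑ k, β k * (ε k).1.1 + t22 * ∑ k, β k * (ε k).1.2 := by
          rw [Finset.sum_add_distrib, Finset.sum_add_distrib, Finset.sum_add_distrib,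
            Finset.mul_sum, Finset.mul_sum, Finset.mul_sum, Finset.mul_sum]
      _ = t11 + t22 := by rw [s11, s12, s21, s22]; ring
  have hP1 : ∀ v : E0 A p q a b, (P v).1.1 = p * (a * v.1.1 - b * q * v.1.2) := fun v => by
    rw [hP v]
  have hP2 : ∀ v : E0 A p q a b, (P v).1.2 = - (b * v.1.1 + a * p * v.1.2) := fun v => by
    rw [hP v]
  have hQ1 : ∀ v : E0 A p q a b, (Q v).1.1 = q * (b * v.1.1 + a * p * v.1.2) := fun v => by
    rw [hQ v]
  have hQ2 : ∀ v : E0 A p q a b, (Q v).1.2 = a * v.1.1 - b * q * v.1.2 := fun v => by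
    rw [hQ v]
  refine { toIsCliff := hC, basis := ⟨n, ε, φ, hb, ?_, ?_, ?_, ?_⟩, swap := ?_ }
  · apply Subtype.ext
    rw [htr (fun v => v) 1 0 0 1 (fun v => by ring) (fun v => by ring)]
    rw [show (2 : A) = 1 + 1 from one_add_one_eq_two.symm]
    rfl
  · apply Subtype.ext
    rw [htr (fun v => P v) (p * a) (-(p * b * q)) (-b) (-(a * p))
      (fun v => by rw [hP1]; ring) (fun v => by rw [hP2]; ring)]
    simp; ring
  · apply Subtype.ext
    rw [htr (fun v => Q v) (q * b) (q * a * p) a (-(b * q))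
      (fun v => by rw [hQ1]; ring) (fun v => by rw [hQ2]; ring)]
    simp; ring
  · apply Subtype.ext
    rw [htr (fun v => P (Q v)) 0 (p * q) (-1) 0
      (fun v => by rw [hP1, hQ1, hQ2]; linear_combination (p * q * v.1.2) * hab)
      (fun v => by rw [hP2, hQ1, hQ2]; linear_combination (-v.1.1) * hab)]
    simp
  · intro ψ w y
    obtain ⟨s, t, hst⟩ := hfun ψ
    have eφ : ∀ (c : A) (v : E0 A p q a b), (c • v).1.1 = (c : L) * v.1.1 ∧
        (c • v).1.2 = (c : L) * v.1.2 := fun c v => ⟨rfl, rfl⟩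
    have c1 : (((⟨p, hp⟩ : A) * ⟨q, hq⟩ * ψ w : A) : L) = p * q * (s * w.1.1 + t * w.1.2) := by
      rw [← hst w]; rfl
    have c0 : ((2 * (⟨p, hp⟩ : A) * ⟨q, hq⟩ * ψ y : A) : L) =
        2 * p * q * (s * y.1.1 + t * y.1.2) := by
      rw [← hst y]
      push_cast
      rfl
    have c2 : (((⟨q, hq⟩ : A) * ψ (P w) : A) : L) = q * (s * (P w).1.1 + t * (P w).1.2) := by
      rw [← hst (P w)]; rfl
    have c3 : (((⟨p, hp⟩ : A) * ψ (Q w) : A) : L) = p * (s * (Q w).1.1 + t * (Q w).1.2) := by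
      rw [← hst (Q w)]; rfl
    apply Subtype.ext
    apply Prod.ext
    · change ((2 * (⟨p, hp⟩ : A) * ⟨q, hq⟩ * ψ y : A) : L) * w.1.1 =
        (((⟨p, hp⟩ : A) * ⟨q, hq⟩ * ψ w : A) : L) * y.1.1 +
        (((⟨q, hq⟩ : A) * ψ (P w) : A) : L) * (P y).1.1 +
        (((⟨p, hp⟩ : A) * ψ (Q w) : A) : L) * (Q y).1.1 -
        (ψ (P (Q w)) : L) * (P (Q y)).1.1
      rw [c0, c1, c2, c3, hst]
      simp only [hP1, hP2, hQ1, hQ2]
      linear_combination (p * q * (-s * y.1.1 * w.1.1 -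
        (p * a ^ 2 + q * b ^ 2 + 2) * t * y.1.2 * w.1.1 + t * w.1.2 * y.1.1 +
        p * q * (p * a ^ 2 + q * b ^ 2) * s * y.1.2 * w.1.2)) * hab
    · change ((2 * (⟨p, hp⟩ : A) * ⟨q, hq⟩ * ψ y : A) : L) * w.1.2 =
        (((⟨p, hp⟩ : A) * ⟨q, hq⟩ * ψ w : A) : L) * y.1.2 +
        (((⟨q, hq⟩ : A) * ψ (P w) : A) : L) * (P y).1.2 +
        (((⟨p, hp⟩ : A) * ψ (Q w) : A) : L) * (Q y).1.2 -
        (ψ (P (Q w)) : L) * (P (Q y)).1.2
      rw [c0, c1, c2, c3, hst]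
      simp only [hP1, hP2, hQ1, hQ2]
      linear_combination (-(p * a ^ 2 + q * b ^ 2 + 2) * p * q * s * y.1.1 * w.1.2 -
        p * q * t * y.1.2 * w.1.2 + p * q * s * w.1.1 * y.1.2 +
        (p * a ^ 2 + q * b ^ 2) * t * w.1.1 * y.1.1) * hab

end Pool.CRD.G
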