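import Pool.Agent.CRD.G.StmtsA

/-!
# CRD / G / E0K: the lattice `E_0` is the kernel of a map between finite free modules
-/

open CategoryTheory Opposite Limits TensorProduct

namespace Pool.CRD.G

/-- the map `A^4 → A^2` -/
def E0K_phi {A : Type} [CommRing A] (d a' b' p q : A) : (Fin 4 → A) →ₗ[A] (Fin 2 → A) where
  toFun c := ![d * c 1 - a' * c 0 + b' * q * c 3, d * c 2 - b' * c 0 - a' * p * c 3]
  map_add' x y := by
    ext i
    fin_cases i
    · change d * (x 1 + y 1) - a' * (x 0 + y 0) + b' * q * (x 3 + y 3) =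
        (d * x 1 - a' * x 0 + b' * q * x 3) + (d * y 1 - a' * y 0 + b' * q * y 3)
      ring
    · change d * (x 2 + y 2) - b' * (x 0 + y 0) - a' * p * (x 3 + y 3) =
        (d * x 2 - b' * x 0 - a' * p * x 3) + (d * y 2 - b' * y 0 - a' * p * y 3)
      ring
  map_smul' r x := by
    ext i
    fin_cases i
    · change d * (r * x 1) - a' * (r * x 0) + b' * q * (r * x 3) =
        r * (d * x 1 - a' * x 0 + b' * q * x 3)
      ring
    · change d * (r * x 2) - b' * (r * x 0) - a' * p * (r * x 3) =
        r * (d * x 2 - b' * x 0 - a' * p * x 3)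
      ring

theorem e0k_proof : Stmt_E0K := by
  intro K L _ _ _ A p q a b hp hq _ hfr
  obtain ⟨a1, ha1, d1, hd1, hd1', hae⟩ := hfr a
  obtain ⟨b1, hb1, d2, hd2, hd2', hbe⟩ := hfr b
  have hda : (d1 * d2) * a = a1 * d2 := by
    rw [hae]; field_simp
  have hdb : (d1 * d2) * b = b1 * d1 := by
    rw [hbe]; field_simp
  have hd : d1 * d2 ≠ 0 := mul_ne_zero hd1' hd2'
  let d : A := ⟨d1 * d2, mul_mem hd1 hd2⟩
  let a' : A := ⟨a1 * d2, mul_mem ha1 hd2⟩
  let b' : A := ⟨b1 * d1, mul_mem hb1 hd1⟩
  let p' : A := ⟨p, hp⟩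
  let q' : A := ⟨q, hq⟩
  refine ⟨4, 2, E0K_phi d a' b' p' q', ⟨?_⟩⟩
  have hker : ∀ c : Fin 4 → A, c ∈ LinearMap.ker (E0K_phi d a' b' p' q') ↔
      ((c 1 : L) = a * c 0 - b * q * c 3 ∧ (c 2 : L) = b * c 0 + a * p * c 3) := by
    intro c
    rw [LinearMap.mem_ker]
    have h1 : E0K_phi d a' b' p' q' c = 0 ↔
        (d * c 1 - a' * c 0 + b' * q' * c 3 = 0 ∧ d * c 2 - b' * c 0 - a' * p' * c 3 = 0) := by
      constructor
      · intro h
        exact ⟨congrFun h 0, congrFun h 1⟩
      · rintro ⟨h, h'⟩
        ext i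
        fin_cases i
        · exact congrArg Subtype.val h
        · exact congrArg Subtype.val h'
    rw [h1]
    have e1 : (d * c 1 - a' * c 0 + b' * q' * c 3 = 0) ↔ (c 1 : L) = a * c 0 - b * q * c 3 := by
      rw [← Subtype.coe_inj]
      change (d1 * d2) * (c 1 : L) - (a1 * d2) * (c 0 : L) + (b1 * d1) * q * (c 3 : L) = 0 ↔ _
      rw [← hda, ← hdb]
      constructor
      · intro h
        apply mul_left_cancel₀ hd
        linear_combination h
      · intro h
        rw [h]; ring
    have e2 : (d * c 2 - b' * c 0 - a' * p' * c 3 = 0) ↔ (c 2 : L) = b * c 0 + a * p * c 3 := by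
      rw [← Subtype.coe_inj]
      change (d1 * d2) * (c 2 : L) - (b1 * d1) * (c 0 : L) - (a1 * d2) * p * (c 3 : L) = 0 ↔ _
      rw [← hda, ← hdb]
      constructor
      · intro h
        apply mul_left_cancel₀ hd
        linear_combination h
      · intro h
        rw [h]; ring
    rw [e1, e2]
  exact
    { toFun := fun v => ⟨![⟨v.1.1, v.2.1⟩, ⟨a * v.1.1 - b * q * v.1.2, v.2.2.2.1⟩,
          ⟨b * v.1.1 + a * p * v.1.2, v.2.2.2.2⟩, ⟨v.1.2, v.2.2.1⟩],
          (hker _).2 ⟨rfl, rfl⟩⟩
      map_add' := by
        intro x y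
        apply Subtype.ext
        funext i
        apply Subtype.ext
        fin_cases i
        · rfl
        · change a * (x.1.1 + y.1.1) - b * q * (x.1.2 + y.1.2) =
            (a * x.1.1 - b * q * x.1.2) + (a * y.1.1 - b * q * y.1.2)
          ring
        · change b * (x.1.1 + y.1.1) + a * p * (x.1.2 + y.1.2) =
            (b * x.1.1 + a * p * x.1.2) + (b * y.1.1 + a * p * y.1.2)
          ring
        · rfl
      map_smul' := by
        intro r x
        apply Subtype.ext
        funext i
        apply Subtype.ext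
        fin_cases i
        · rfl
        · change a * ((r : L) * x.1.1) - b * q * ((r : L) * x.1.2) =
            (r : L) * (a * x.1.1 - b * q * x.1.2)
          ring
        · change b * ((r : L) * x.1.1) + a * p * ((r : L) * x.1.2) =
            (r : L) * (b * x.1.1 + a * p * x.1.2)
          ring
        · rfl
      invFun := fun c => ⟨((c.1 0 : L), (c.1 3 : L)), (c.1 0).2, (c.1 3).2, by
          have h := (hker c.1).1 c.2
          change a * (c.1 0 : L) - b * q * (c.1 3 : L) ∈ A
          rw [← h.1]; exact (c.1 1).2, by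
          have h := (hker c.1).1 c.2
          change b * (c.1 0 : L) + a * p * (c.1 3 : L) ∈ A
          rw [← h.2]; exact (c.1 2).2⟩
      left_inv := by
        intro v
        rfl
      right_inv := by
        intro c
        have h := (hker c.1).1 c.2
        apply Subtype.ext
        funext i
        apply Subtype.ext
        fin_cases i
        · rfl
        · exact h.1.symm
        · exact h.2.symm
        · rfl }

end Pool.CRD.G
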