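import Pool.Agent.CRD.G.StmtsC

/-!
# CRD, area G, EFF: a coherent module without cohomology on the fibres is `p^* N ⊗ ℓ`
-/

set_option autoImplicit false

open CategoryTheory Opposite Limits TensorProduct MonoidalCategory

namespace Pool.CRD.G

theorem eff_proof (hFTL : Stmt_FTL) (hFTT : Stmt_FTT) (hFTI : Stmt_FTI) (hFTC : Stmt_FTC)
    (hDSC : Stmt_DSC) (hTWB : Stmt_TWB) (hSYM : Stmt_SYM) : Stmt_EFF := by
  intro K _ _ _ c₁ c₂ S _ X a b I L' hI cI cL' ⟨e⟩ M cM hM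
  have hb : ∀ s k, Function.Bijective
      (fun x : Sc (X.pbS.obj (push (M ⊗ L'))) s k => apS (cou (M ⊗ L')) s k x) := by
    intro s k
    obtain ⟨N, i1, i2, hN⟩ := hFTL K c₁ c₂ S X a b I hI cI M cM s (hM s).1 (hM s).2
    have h1 := hFTT K c₁ c₂ S X (lbX I) M L' s N hN
    have h2 := hFTI K c₁ c₂ S X _ _ (𝟙_ (PMod X.R)) (M ⊗ L') s N h1 ⟨e⟩ ⟨Iso.refl _⟩
    exact hFTC K c₁ c₂ S X (M ⊗ L') s N h2 k
  have : Mono (cou (M ⊗ L')) := by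
    rw [pmod_mono_iff]
    intro t
    exact (hb ⟨t.unop.i, t.unop.j⟩ t.unop.k).1
  have : Epi (cou (M ⊗ L')) := by
    rw [pmod_epi_iff]
    intro t
    exact (hb ⟨t.unop.i, t.unop.j⟩ t.unop.k).2
  have : IsIso (cou (M ⊗ L')) := isIso_of_mono_of_epi _
  have c1 : IsCoh X.R (M ⊗ L') := hTWB K Ch3 X.R M L' cM cL'
  have c2 : IsCoh X.R (X.pbS.obj (push (M ⊗ L'))) :=
    (IsCoh X.R).prop_of_iso (asIso (cou (M ⊗ L'))).symm c1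
  obtain ⟨β⟩ := hSYM K Ch3 X.R L' (lbX I)
  exact ⟨push (M ⊗ L'), hDSC K c₁ c₂ S X _ c2,
    ⟨whiskerRightIso (asIso (cou (M ⊗ L'))) (lbX I) ≪≫ α_ M L' (lbX I) ≪≫
      whiskerLeftIso M (β ≪≫ e) ≪≫ ρ_ M⟩⟩

end Pool.CRD.G
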