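import Pool.Agent.CRD.G.StmtsD
import Pool.Agent.CRD.D1.StmtsB
import Pool.Agent.CRD.B.Stmts

/-!
# CRD, area G: effaceability
-/

set_option autoImplicit false

open CategoryTheory Opposite Limits Pretriangulated

namespace Pool.CRD.G

/-- EFS -/
theorem efs_proof (hAMX : D1.Stmt_AMX) (hSEF : Pool.CRD.Stmt_SEF) : Stmt_EFS := by
  intro K _ _ _ c₁ c₂ S _
  obtain ⟨⟨Am, _⟩, _⟩ := hAMX K c₁ c₂ S
  exact hSEF K K (Bool × Bool) Ch2 S.R Am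

/-- EFX -/
theorem efx_proof (hAMX : D1.Stmt_AMX) (hSEF : Pool.CRD.Stmt_SEF) : Stmt_EFX := by
  intro K _ _ _ c₁ c₂ S X _
  obtain ⟨_, h⟩ := hAMX K c₁ c₂ S
  obtain ⟨Am, _⟩ := h X
  exact hSEF K K (Bool × Bool × Bool) Ch3 X.R Am

end Pool.CRD.G
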