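import Pool.Agent.CRD.G.StmtsB

/-!
# CRD, area G, module EIN: `ℓ` is invertible on every chart
-/

set_option autoImplicit false

open CategoryTheory Opposite Limits

namespace Pool.CRD.G

namespace EIN_

variable {K : Type} [Field K] {c₁ c₂ : CurveData K} {S : SurfData c₁ c₂} (X : ConicData S)
  (a b : S.L) (s : Ch2)

instance (k : Cov Bool) : IsScalarTower (S.A s.i s.j) (X.A s.i s.j k) X.E where
  smul_assoc c r m := by
    change (algebraMap S.L X.E c.1 * (r : X.E)) * m = _
    rw [mul_assoc, ← Algebra.smul_def]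
    rfl

noncomputable instance modEll (k : Cov Bool) : Module (S.A s.i s.j) (ell X a b s k) :=
  Submodule.module' _

instance towEll (k : Cov Bool) :
    IsScalarTower (S.A s.i s.j) (X.A s.i s.j k) (ell X a b s k) where
  smul_assoc c r m := Subtype.ext (smul_assoc c r (m : X.E))

lemma emb_add (v w : S.L × S.L) : emb X a b s (v + w) = emb X a b s v + emb X a b s w := by
  simp only [emb, Prod.fst_add, Prod.snd_add, map_add]
  ring

lemma emb_smul (c : S.L) (v : S.L × S.L) :
    emb X a b s (c • v) = algebraMap S.L X.E c * emb X a b s v := by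
  simp only [emb, Prod.smul_fst, Prod.smul_snd, smul_eq_mul, map_mul]
  ring

/-- the map into the sections over a chart -/
noncomputable def ii (k : Cov Bool) : EL (S := S) a b s →ₗ[S.A s.i s.j] ell X a b s k where
  toFun v := ⟨gam X s k * emb X a b s v, Submodule.subset_span ⟨v, v.2, rfl⟩⟩
  map_add' v w := Subtype.ext (by
    change gam X s k * emb X a b s ((v : S.L × S.L) + w) = gam X s k * emb X a b s v +
      gam X s k * emb X a b s w
    rw [emb_add, mul_add])
  map_smul' c v := Subtype.ext (by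
    change gam X s k * emb X a b s ((c : S.L) • (v : S.L × S.L)) =
      c • (gam X s k * emb X a b s v)
    rw [emb_smul]
    have e2 : ∀ z : X.E, c • z = algebraMap S.L X.E (c : S.L) * z := fun z => by
      rw [← Algebra.smul_def]; rfl
    rw [e2]
    ring)

lemma ii_val (k : Cov Bool) (v : EL (S := S) a b s) :
    (ii X a b s k v : X.E) = gam X s k * emb X a b s v := rfl

variable {X a b s}

lemma sum_val {k : Cov Bool} (e : X.A s.i s.j k) (c : ℕ →₀ EL (S := S) a b s) :
    ((c.sum fun n x => (e ^ n) • ii X a b s k x : ell X a b s k) : X.E) =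
      c.sum fun n v => (e : X.E) ^ n * (gam X s k * emb X a b s v) := by
  simp only [Finsupp.sum]
  rw [AddSubmonoidClass.coe_finsetSum]
  refine Finset.sum_congr rfl fun n _ => ?_
  rfl

/-- projectivity of the sections over a chart -/
lemma chart [CharZero K] (hSUM : Stmt_SUM) {k : Cov Bool} (e z : X.A s.i s.j k)
    (p q : S.A s.i s.j) (P Q : Module.End (S.A s.i s.j) (EL (S := S) a b s))
    (hp : IsUnit p) (hq : IsUnit q)
    (hz : z ^ 2 = algebraMap (S.A s.i s.j) (X.A s.i s.j k) p +
      algebraMap (S.A s.i s.j) (X.A s.i s.j k) q * e ^ 2)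
    (hspan : ∀ w ∈ X.A s.i s.j k, w ∈ Submodule.span (S.A s.i s.j)
      {w : X.E | ∃ n : ℕ, w = (e : X.E) ^ n ∨ w = (e : X.E) ^ n * (z : X.E)})
    (hc : IsCliff p q P Q)
    (hact : ∀ v : EL (S := S) a b s, (z : X.E) * (gam X s k * emb X a b s v) =
      gam X s k * emb X a b s (P v) + (e : X.E) * (gam X s k * emb X a b s (Q v)))
    (hell : ∀ x, x ∈ ell X a b s k → ∃ c : ℕ →₀ EL (S := S) a b s,
      x = c.sum fun n v => (e : X.E) ^ n * (gam X s k * emb X a b s v))
    (hinj : ∀ c : ℕ →₀ EL (S := S) a b s,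
      (c.sum fun n v => (e : X.E) ^ n * (gam X s k * emb X a b s v)) = 0 → c = 0)
    (hproj : Module.Projective (S.A s.i s.j) (EL (S := S) a b s)) :
    Module.Projective (X.A s.i s.j k) (ell X a b s k) := by
  refine hSUM (S.A s.i s.j) (X.A s.i s.j k) p q e z (ell X a b s k) (EL (S := S) a b s) P Q
    (ii X a b s k) ?_ hp hq hz ?_ hc ?_ ?_ hproj
  · have h2 : IsUnit (2 : K) := isUnit_iff_ne_zero.2 two_ne_zero
    have := h2.map (algebraMap K (S.A s.i s.j))
    rwa [map_ofNat] at this
  · rw [eq_top_iff]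
    rintro w -
    have hw := hspan w.1 w.2
    -- transport the span
    let f : (X.A s.i s.j k) →ₗ[S.A s.i s.j] X.E :=
      { toFun := fun r => (r : X.E)
        map_add' := fun _ _ => rfl
        map_smul' := fun c r => by
          change algebraMap S.L X.E c.1 * (r : X.E) = c • (r : X.E)
          rw [← Algebra.smul_def]; rfl }
    have hf : Function.Injective f := Subtype.val_injective
    have himg : {w : X.E | ∃ n : ℕ, w = (e : X.E) ^ n ∨ w = (e : X.E) ^ n * (z : X.E)} =
        f '' {w | ∃ n : ℕ, w = e ^ n ∨ w = e ^ n * z} := by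
      ext w
      constructor
      · rintro ⟨n, rfl | rfl⟩
        · exact ⟨e ^ n, ⟨n, Or.inl rfl⟩, rfl⟩
        · exact ⟨e ^ n * z, ⟨n, Or.inr rfl⟩, rfl⟩
      · rintro ⟨_, ⟨n, rfl | rfl⟩, rfl⟩
        · exact ⟨n, Or.inl rfl⟩
        · exact ⟨n, Or.inr rfl⟩
    rw [himg, Submodule.span_image] at hw
    obtain ⟨w', hw', e'⟩ := hw
    rwa [hf e'] at hw'
  · intro v
    exact Subtype.ext (hact v)
  · constructor
    · intro c d h
      have h1 := congrArg Subtype.val h
      rw [sum_val, sum_val] at h1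
      have h2 := hinj (c - d) (by
        rw [Finsupp.sum_sub_index]
        · rw [h1, sub_self]
        · intro n v w
          change (e : X.E) ^ n * (gam X s k * emb X a b s ((v : S.L × S.L) - w)) = _
          have : emb X a b s ((v : S.L × S.L) - w) = emb X a b s v - emb X a b s w := by
            simp only [emb, Prod.fst_sub, Prod.snd_sub, map_sub]; ring
          rw [this, mul_sub, mul_sub])
      exact sub_eq_zero.1 h2
    · rintro ⟨x, hx⟩
      obtain ⟨c, hc⟩ := hell x hx
      refine ⟨c, Subtype.ext ?_⟩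
      rw [sum_val]
      exact hc.symm

end EIN_

open EIN_

theorem ein_proof (hSUM : Stmt_SUM) (hINV : Stmt_INV) (hE0C : Stmt_E0C) (hEPR : Stmt_EPR)
    (hELS : Stmt_ELS) (hSTF : Stmt_STF) (hFRX : Stmt_FRX) (hTHE : Stmt_THE) (hEMO : Stmt_EMO) :
    Stmt_EIN := by
  intro K _ _ _ c₁ c₂ S X a b hab s k
  obtain ⟨st1, st2, -, -⟩ := hSTF K c₁ c₂ S X s
  obtain ⟨he1, he2, he3, he4⟩ := hTHE K c₁ c₂ S X a b hab s
  obtain ⟨fr1, fr2⟩ := hFRX K c₁ c₂ S X
  obtain ⟨P, Q, hP, hQ, hPQ⟩ := hE0C K S.L (S.A s.i s.j) (pS S s) (qS S s) (aS S a s) (bS S b s)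
    (pS_mem S s) (qS_mem S s) he1
  have hpr := hEPR K c₁ c₂ S a b hab s
  have hη : X.eta s.i ≠ 0 := eta_ne X s.i
  -- the basic identity
  have hz : ∀ v : EL (S := S) a b s,
      X.zeta s.j * emb X a b s v = emb X a b s (P v) + X.eta s.i * emb X a b s (Q v) := by
    intro v
    have e1 : ((P v : EL (S := S) a b s) : S.L × S.L) = _ := hP v
    have e2 : ((Q v : EL (S := S) a b s) : S.L × S.L) = _ := hQ v
    rw [e1, e2]
    exact he3 v
  -- injectivity
  have hinj : ∀ (φ : ℕ → ℤ), Function.Injective φ → ∀ c : ℕ →₀ EL (S := S) a b s,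
      (c.sum fun n v => X.eta s.i ^ φ n * emb X a b s v) = 0 → c = 0 := by
    intro φ hφ c hc
    have h1 := he4 ((Finsupp.mapRange (fun v : EL (S := S) a b s => (v : S.L × S.L)) rfl
        c).embDomain ⟨φ, hφ⟩) (by
      rw [Finsupp.sum_embDomain, Finsupp.sum_mapRange_index]
      · exact hc
      · intro n
        simp [emb])
    ext n : 1
    have h2 := DFunLike.congr_fun h1 (φ n)
    have h3 : (⟨φ, hφ⟩ : ℕ ↪ ℤ) n = φ n := rfl
    rw [← h3, Finsupp.embDomain_apply_self, Finsupp.mapRange_apply] at h2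
    exact Subtype.ext h2
  have hpu : IsUnit (⟨pS S s, pS_mem S s⟩ : S.A s.i s.j) :=
    IsUnit.of_mul_eq_one ⟨_, pinv_mem S s⟩ (Subtype.ext (mul_inv_cancel₀ (pS_ne S s)))
  have hq0 : qS S s ≠ 0 := by
    have := h1_ne S s.i
    have := h2_ne S s.j
    have := x1_ne S
    have := x2_ne S
    simp only [qS]
    exact mul_ne_zero (neg_ne_zero.2 (div_ne_zero (by assumption) (by assumption)))
      (pow_ne_zero 2 (div_ne_zero (by assumption) (by assumption)))
  have hqu : IsUnit (⟨qS S s, qS_mem S s⟩ : S.A s.i s.j) :=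
    IsUnit.of_mul_eq_one ⟨_, qinv_mem S s⟩ (Subtype.ext (mul_inv_cancel₀ hq0))
  have hceq := conic_eq X s
  -- a nonzero element
  have hne : ∀ k', ell X a b s k' ≠ ⊥ := by
    intro k' hbot
    obtain ⟨α, hα, β, hβ, hβ0, eα⟩ := fr1 s (aS S a s)
    obtain ⟨γ, hγ, δ, hδ, hδ0, eγ⟩ := fr1 s (bS S b s)
    have hv : ((β * δ, 0) : S.L × S.L) ∈ EL (S := S) a b s := by
      refine ⟨mul_mem hβ hδ, zero_mem _, ?_, ?_⟩
      · change aS S a s * (β * δ) - bS S b s * qS S s * 0 ∈ _
        rw [eα, mul_zero, sub_zero]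
        have : α / β * (β * δ) = α * δ := by field_simp
        rw [this]; exact mul_mem hα hδ
      · change bS S b s * (β * δ) + aS S a s * pS S s * 0 ∈ _
        rw [eγ, mul_zero, add_zero]
        have : γ / δ * (β * δ) = γ * β := by field_simp
        rw [this]; exact mul_mem hγ hβ
    have hx : gam X s k' * emb X a b s (β * δ, 0) ∈ ell X a b s k' :=
      Submodule.subset_span ⟨_, hv, rfl⟩
    rw [hbot, Submodule.mem_bot] at hx
    have hg : gam X s k' ≠ 0 := by
      unfold gam
      split_ifs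
      · exact one_ne_zero
      · exact inv_ne_zero hη
    have h0 := (mul_eq_zero.1 hx).resolve_left hg
    simp only [emb, map_zero, zero_mul, add_zero] at h0
    exact (mul_ne_zero hβ0 hδ0) ((map_eq_zero _).1 h0)
  -- the two basic charts
  have hca : Module.Projective (X.A s.i s.j ca) (ell X a b s ca) := by
    have hg : gam X s ca = 1 := by rw [gam, if_pos f_ca]
    refine chart hSUM (etF X s) (zeF X s) _ _ P Q hpu hqu ?_ ?_ hPQ ?_ ?_ ?_ hpr
    · exact Subtype.ext hceq
    · exact st1
    · intro v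
      rw [hg, one_mul, one_mul, one_mul]
      exact hz v
    · intro x hx
      obtain ⟨c, hc⟩ := ((hELS K c₁ c₂ S X a b hab s x).1).1 hx
      refine ⟨c, ?_⟩
      rw [hc, hg]
      simp only [one_mul]
      rfl
    · intro c hc
      refine hinj (fun n => (n : ℤ)) Nat.cast_injective c ?_
      rw [hg] at hc
      simp only [one_mul] at hc
      simp only [zpow_natCast]
      exact hc
  have hng : false ∉ cb.s := by
    intro h
    have := Finset.mem_singleton.1 h
    exact Bool.false_ne_true this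
  have hcb : Module.Projective (X.A s.i s.j cb) (ell X a b s cb) := by
    have hg : gam X s cb = (X.eta s.i)⁻¹ := by rw [gam, if_neg hng]
    refine chart hSUM (yT X s) (zeT X s) _ _ Q P hqu hpu ?_ ?_ ⟨hPQ.QQ, hPQ.PP, ?_⟩ ?_ ?_ ?_ hpr
    · apply Subtype.ext
      change (X.zeta s.j / X.eta s.i) ^ 2 = algebraMap S.L X.E (qS S s) +
        algebraMap S.L X.E (pS S s) * (X.eta s.i)⁻¹ ^ 2
      rw [div_pow, hceq]
      field_simp
      ring
    · exact st2
    · intro x
      exact neg_eq_iff_eq_neg.1 (hPQ.PQ x).symm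
    · intro v
      rw [hg]
      change X.zeta s.j / X.eta s.i * ((X.eta s.i)⁻¹ * emb X a b s v) =
        (X.eta s.i)⁻¹ * emb X a b s (Q v) + (X.eta s.i)⁻¹ * ((X.eta s.i)⁻¹ * emb X a b s (P v))
      have := hz v
      field_simp
      linear_combination this
    · intro x hx
      obtain ⟨c, hc⟩ := ((hELS K c₁ c₂ S X a b hab s x).2.1).1 hx
      refine ⟨c, ?_⟩
      rw [hc, hg]
      refine Finset.sum_congr rfl fun n _ => ?_
      change (X.eta s.i)⁻¹ ^ (n + 1) * _ = (X.eta s.i)⁻¹ ^ n * ((X.eta s.i)⁻¹ * _)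
      rw [pow_succ, mul_assoc]
    · intro c hc
      refine hinj (fun n => -((n : ℤ) + 1)) ?_ c ?_
      · intro m n h
        simp only at h
        omega
      · rw [← hc, hg]
        refine Finset.sum_congr rfl fun n _ => ?_
        change X.eta s.i ^ (-((n : ℤ) + 1)) * _ = (X.eta s.i)⁻¹ ^ n * ((X.eta s.i)⁻¹ * _)
        rw [zpow_neg, ← inv_zpow, zpow_add₀ (inv_ne_zero hη), zpow_natCast, zpow_one, mul_assoc]
  -- the general chart
  have key : ∀ k0, k ≤ k0 → Module.Projective (X.A s.i s.j k0) (ell X a b s k0) →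
      ∃ (n : ℕ) (v w : Fin n → X.E), (∀ l, v l ∈ ell X a b s k) ∧
      (∀ l, ∀ x ∈ ell X a b s k, w l * x ∈ X.A s.i s.j k) ∧ ∑ l, v l * w l = 1 := by
    intro k0 hk hp
    obtain ⟨n, v, w, hv, hw, hs⟩ := hINV K X.E (X.A s.i s.j k0) (ell X a b s k0)
      (fr2 (c3 s k0)) hp (hne k0)
    obtain ⟨em1, em2⟩ := hEMO K c₁ c₂ S X a b hab s s k0 k le_rfl hk
    refine ⟨n, v, w, fun l => em1 _ (hv l), fun l x hx => ?_, hs⟩
    have hx' := em2 x hx
    clear hx
    induction hx' using Submodule.span_induction with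
    | mem x h => exact X.A_mono le_rfl le_rfl hk (hw l x h)
    | zero => rw [mul_zero]; exact zero_mem _
    | add x y _ _ h1 h2 =>
      rw [mul_add]
      exact add_mem h1 h2
    | smul c x _ h =>
      have e : w l * (c • x) = (c : X.E) * (w l * x) := by
        change w l * ((c : X.E) * x) = _
        ring
      rw [e]
      exact mul_mem c.2 h
  obtain ⟨t, ht⟩ := k.ne
  cases t with
  | false => exact key ca (ca_top ht) hca
  | true => exact key cb (cb_top ht) hcb

end Pool.CRD.G
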