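import Pool.Agent.CRD.G.StmtsB

/-!
# CRD, area G, module ELS: the structure of `ℓ` on the charts over `s`
-/

set_option autoImplicit false

open CategoryTheory Opposite Limits

namespace Pool.CRD.G

namespace ELS_

variable {K : Type} [Field K] {c₁ c₂ : CurveData K} {S : SurfData c₁ c₂} (X : ConicData S)
  (a b : S.L) (s : Ch2)

lemma emb_add (v w : S.L × S.L) : emb X a b s (v + w) = emb X a b s v + emb X a b s w := by
  simp only [emb, Prod.fst_add, Prod.snd_add, map_add]
  ring

lemma emb_zero : emb X a b s 0 = 0 := by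
  simp [emb]

lemma emb_smul (c : S.L) (v : S.L × S.L) :
    emb X a b s (c • v) = algebraMap S.L X.E c * emb X a b s v := by
  simp only [emb, Prod.smul_fst, Prod.smul_snd, smul_eq_mul, map_mul]
  ring

/-- sums of `u n * emb v` -/
def W {ι : Type} (u : ι → X.E) : AddSubmonoid X.E :=
  AddSubmonoid.closure {x | ∃ n, ∃ v ∈ EL (S := S) a b s, x = u n * emb X a b s v}

variable {X a b s}

lemma W_mem {ι : Type} {u : ι → X.E} (n : ι) {v : S.L × S.L} (hv : v ∈ EL (S := S) a b s) :
    u n * emb X a b s v ∈ W X a b s u :=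
  AddSubmonoid.subset_closure ⟨n, v, hv, rfl⟩

lemma W_iff {ι : Type} (u : ι → X.E) (x : X.E) :
    x ∈ W X a b s u ↔ ∃ c : ι →₀ EL (S := S) a b s,
      x = c.sum fun n v => u n * emb X a b s v := by
  classical
  constructor
  · intro hx
    induction hx using AddSubmonoid.closure_induction with
    | mem x h =>
      obtain ⟨n, v, hv, rfl⟩ := h
      refine ⟨Finsupp.single n ⟨v, hv⟩, ?_⟩
      rw [Finsupp.sum_single_index]
      change u n * emb X a b s 0 = 0
      rw [emb_zero, mul_zero]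
    | zero => exact ⟨0, by simp⟩
    | add x y _ _ h1 h2 =>
      obtain ⟨c, rfl⟩ := h1
      obtain ⟨d, rfl⟩ := h2
      refine ⟨c + d, ?_⟩
      rw [Finsupp.sum_add_index']
      · intro n
        change u n * emb X a b s 0 = 0
        rw [emb_zero, mul_zero]
      · intro n v w
        change u n * emb X a b s ((v : S.L × S.L) + w) = _
        rw [emb_add, mul_add]
  · rintro ⟨c, rfl⟩
    exact sum_mem fun n _ => W_mem n (c n).2

/-- multipliers -/
def Mul' {ι : Type} (u : ι → X.E) (z : X.E) : Prop :=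
  ∀ n, ∀ v ∈ EL (S := S) a b s, z * (u n * emb X a b s v) ∈ W X a b s u

lemma Mul'.mem {ι : Type} {u : ι → X.E} {z : X.E} (hz : Mul' (a := a) (b := b) (s := s) u z)
    {x : X.E} (hx : x ∈ W X a b s u) : z * x ∈ W X a b s u := by
  induction hx using AddSubmonoid.closure_induction with
  | mem x h =>
    obtain ⟨n, v, hv, rfl⟩ := h
    exact hz n v hv
  | zero => rw [mul_zero]; exact zero_mem _
  | add x y _ _ h1 h2 => rw [mul_add]; exact add_mem h1 h2

lemma Mul'.mul {ι : Type} {u : ι → X.E} {z w : X.E}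
    (hz : Mul' (a := a) (b := b) (s := s) u z) (hw : Mul' (a := a) (b := b) (s := s) u w) :
    Mul' (a := a) (b := b) (s := s) u (z * w) := by
  intro n v hv
  rw [mul_assoc]
  exact hz.mem (hw n v hv)

lemma Mul'.one {ι : Type} {u : ι → X.E} : Mul' (a := a) (b := b) (s := s) u 1 := by
  intro n v hv
  rw [one_mul]
  exact W_mem n hv

lemma Mul'.pow {ι : Type} {u : ι → X.E} {z : X.E}
    (hz : Mul' (a := a) (b := b) (s := s) u z) (m : ℕ) :
    Mul' (a := a) (b := b) (s := s) u (z ^ m) := by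
  induction m with
  | zero => rw [pow_zero]; exact Mul'.one
  | succ k ih => rw [pow_succ]; exact ih.mul hz

/-- multipliers from a spanning set -/
lemma Mul'.span {ι : Type} {u : ι → X.E} {G : Set X.E}
    (hG : ∀ z ∈ G, Mul' (a := a) (b := b) (s := s) u z) (z : X.E)
    (hz : z ∈ Submodule.span (S.A s.i s.j) G) : Mul' (a := a) (b := b) (s := s) u z := by
  induction hz using Submodule.span_induction with
  | mem z h => exact hG z h
  | zero => intro n v hv; rw [zero_mul]; exact zero_mem _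
  | add z w _ _ h1 h2 =>
    intro n v hv
    rw [add_mul]
    exact add_mem (h1 n v hv) (h2 n v hv)
  | smul c z _ h =>
    have key : Mul' (a := a) (b := b) (s := s) u (algebraMap S.L X.E (c : S.L)) := by
      intro n v hv
      have e : algebraMap S.L X.E (c : S.L) * (u n * emb X a b s v) =
          u n * emb X a b s ((c : S.L) • v) := by
        rw [emb_smul]; ring
      rw [e]
      exact W_mem n ((EL (S := S) a b s).smul_mem c hv)
    have e2 : c • z = algebraMap S.L X.E (c : S.L) * z := by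
      rw [← Algebra.smul_def]; rfl
    rw [e2]
    exact key.mul h

lemma ell_le {ι : Type} {u : ι → X.E} {k : Cov Bool}
    (hA : ∀ z ∈ X.A s.i s.j k, Mul' (a := a) (b := b) (s := s) u z)
    (hg : ∀ v ∈ EL (S := S) a b s, gam X s k * emb X a b s v ∈ W X a b s u) {x : X.E}
    (hx : x ∈ ell X a b s k) : x ∈ W X a b s u := by
  unfold ell at hx
  induction hx using Submodule.span_induction with
  | mem z h =>
    obtain ⟨v, hv, rfl⟩ := h
    exact hg v hv
  | zero => exact zero_mem _
  | add z w _ _ h1 h2 => exact add_mem h1 h2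
  | smul c z _ h => exact (hA c.1 c.2).mem h

lemma le_ell {ι : Type} {u : ι → X.E} {k : Cov Bool}
    (hu : ∀ n, ∃ w ∈ X.A s.i s.j k, u n = w * gam X s k) {x : X.E}
    (hx : x ∈ W X a b s u) : x ∈ ell X a b s k := by
  induction hx using AddSubmonoid.closure_induction with
  | mem x h =>
    obtain ⟨n, v, hv, rfl⟩ := h
    obtain ⟨w, hw, e⟩ := hu n
    rw [e, mul_assoc]
    have h1 : gam X s k * emb X a b s v ∈ ell X a b s k :=
      Submodule.subset_span ⟨v, hv, rfl⟩
    exact (ell X a b s k).smul_mem (⟨w, hw⟩ : X.A s.i s.j k) h1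
  | zero => exact zero_mem _
  | add x y _ _ h1 h2 => exact add_mem h1 h2

end ELS_

open ELS_

theorem els_proof (hSTF : Stmt_STF) (hTHE : Stmt_THE) (hE0C : Stmt_E0C) : Stmt_ELS := by
  intro K _ c₁ c₂ S X a b hab s x
  obtain ⟨st1, st2, st3, -⟩ := hSTF K c₁ c₂ S X s
  obtain ⟨he1, he2, he3, -⟩ := hTHE K c₁ c₂ S X a b hab s
  obtain ⟨P, Q, hP, hQ, -⟩ := hE0C K S.L (S.A s.i s.j) (pS S s) (qS S s) (aS S a s) (bS S b s)
    (pS_mem S s) (qS_mem S s) he1
  have hη : X.eta s.i ≠ 0 := eta_ne X s.i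
  -- the basic identity
  have hz : ∀ v ∈ EL (S := S) a b s, ∃ v1 ∈ EL (S := S) a b s, ∃ v2 ∈ EL (S := S) a b s,
      X.zeta s.j * emb X a b s v = emb X a b s v1 + X.eta s.i * emb X a b s v2 := by
    intro v hv
    refine ⟨_, (P ⟨v, hv⟩).2, _, (Q ⟨v, hv⟩).2, ?_⟩
    rw [hP ⟨v, hv⟩, hQ ⟨v, hv⟩]
    exact he3 v
  refine ⟨?_, ?_, ?_⟩
  · -- chart `ca`
    rw [← W_iff (fun n : ℕ => X.eta s.i ^ n) x]
    have mη : Mul' (a := a) (b := b) (s := s) (fun n : ℕ => X.eta s.i ^ n) (X.eta s.i) := by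
      intro n v hv
      have e : X.eta s.i * (X.eta s.i ^ n * emb X a b s v) =
          (fun n : ℕ => X.eta s.i ^ n) (n + 1) * emb X a b s v := by
        change _ = X.eta s.i ^ (n + 1) * _
        ring
      rw [e]
      exact W_mem (u := fun n : ℕ => X.eta s.i ^ n) (n + 1) hv
    have mζ : Mul' (a := a) (b := b) (s := s) (fun n : ℕ => X.eta s.i ^ n) (X.zeta s.j) := by
      intro n v hv
      obtain ⟨v1, h1, v2, h2, e⟩ := hz v hv
      have e : X.zeta s.j * (X.eta s.i ^ n * emb X a b s v) =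
          (fun n : ℕ => X.eta s.i ^ n) n * emb X a b s v1 +
          (fun n : ℕ => X.eta s.i ^ n) (n + 1) * emb X a b s v2 := by
        change _ = X.eta s.i ^ n * _ + X.eta s.i ^ (n + 1) * _
        linear_combination (X.eta s.i ^ n) * e
      rw [e]
      exact add_mem (W_mem (u := fun n : ℕ => X.eta s.i ^ n) n h1)
        (W_mem (u := fun n : ℕ => X.eta s.i ^ n) (n + 1) h2)
    constructor
    · refine ell_le ?_ ?_
      · intro z hz
        refine Mul'.span ?_ z (st1 z hz)
        rintro z ⟨n, rfl | rfl⟩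
        · exact mη.pow n
        · exact (mη.pow n).mul mζ
      · intro v hv
        have : gam X s ca = (fun n : ℕ => X.eta s.i ^ n) 0 := by
          change _ = X.eta s.i ^ 0
          rw [pow_zero, gam, if_pos f_ca]
        rw [this]
        exact W_mem (u := fun n : ℕ => X.eta s.i ^ n) 0 hv
    · refine le_ell ?_
      intro n
      refine ⟨X.eta s.i ^ n, pow_mem (eta_mem X s f_ca) n, ?_⟩
      rw [gam, if_pos f_ca, mul_one]
  · -- chart `cb`
    rw [← W_iff (fun n : ℕ => (X.eta s.i)⁻¹ ^ (n + 1)) x]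
    have mη : Mul' (a := a) (b := b) (s := s) (fun n : ℕ => (X.eta s.i)⁻¹ ^ (n + 1))
        (X.eta s.i)⁻¹ := by
      intro n v hv
      have e : (X.eta s.i)⁻¹ * ((X.eta s.i)⁻¹ ^ (n + 1) * emb X a b s v) =
          (fun n : ℕ => (X.eta s.i)⁻¹ ^ (n + 1)) (n + 1) * emb X a b s v := by
        change _ = (X.eta s.i)⁻¹ ^ (n + 1 + 1) * _
        ring
      rw [e]
      exact W_mem (u := fun n : ℕ => (X.eta s.i)⁻¹ ^ (n + 1)) (n + 1) hv
    have mζ : Mul' (a := a) (b := b) (s := s) (fun n : ℕ => (X.eta s.i)⁻¹ ^ (n + 1))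
        (X.zeta s.j / X.eta s.i) := by
      intro n v hv
      obtain ⟨v1, h1, v2, h2, e⟩ := hz v hv
      have e' : X.zeta s.j / X.eta s.i * ((X.eta s.i)⁻¹ ^ (n + 1) * emb X a b s v) =
          (fun n : ℕ => (X.eta s.i)⁻¹ ^ (n + 1)) (n + 1) * emb X a b s v1 +
          (fun n : ℕ => (X.eta s.i)⁻¹ ^ (n + 1)) n * emb X a b s v2 := by
        change _ = (X.eta s.i)⁻¹ ^ (n + 1 + 1) * _ + (X.eta s.i)⁻¹ ^ (n + 1) * _
        have e3 : (X.eta s.i)⁻¹ * X.eta s.i = 1 := inv_mul_cancel₀ hη
        rw [div_eq_mul_inv]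
        linear_combination ((X.eta s.i)⁻¹ ^ (n + 1) * (X.eta s.i)⁻¹) * e +
          ((X.eta s.i)⁻¹ ^ (n + 1) * emb X a b s v2) * e3
      rw [e']
      exact add_mem (W_mem (u := fun n : ℕ => (X.eta s.i)⁻¹ ^ (n + 1)) (n + 1) h1)
        (W_mem (u := fun n : ℕ => (X.eta s.i)⁻¹ ^ (n + 1)) n h2)
    have hng : false ∉ cb.s := by
      intro h
      have := Finset.mem_singleton.1 h
      exact Bool.false_ne_true this
    constructor
    · refine ell_le ?_ ?_
      · intro z hz
        refine Mul'.span ?_ z (st2 z hz)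
        rintro z ⟨n, rfl | rfl⟩
        · exact mη.pow n
        · exact (mη.pow n).mul mζ
      · intro v hv
        have : gam X s cb = (fun n : ℕ => (X.eta s.i)⁻¹ ^ (n + 1)) 0 := by
          change _ = (X.eta s.i)⁻¹ ^ (0 + 1)
          rw [zero_add, pow_one, gam, if_neg hng]
        rw [this]
        exact W_mem (u := fun n : ℕ => (X.eta s.i)⁻¹ ^ (n + 1)) 0 hv
    · refine le_ell ?_
      intro n
      refine ⟨(X.eta s.i)⁻¹ ^ n, pow_mem (etainv_mem X s t_cb) n, ?_⟩
      rw [gam, if_neg hng, pow_succ]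
  · -- chart `cab`
    rw [← W_iff (fun n : ℤ => X.eta s.i ^ n) x]
    have mη : Mul' (a := a) (b := b) (s := s) (fun n : ℤ => X.eta s.i ^ n) (X.eta s.i) := by
      intro n v hv
      have e : X.eta s.i * (X.eta s.i ^ n * emb X a b s v) =
          (fun n : ℤ => X.eta s.i ^ n) (n + 1) * emb X a b s v := by
        change _ = X.eta s.i ^ (n + 1) * _
        rw [zpow_add₀ hη, zpow_one]
        ring
      rw [e]
      exact W_mem (u := fun n : ℤ => X.eta s.i ^ n) (n + 1) hv
    have mηi : Mul' (a := a) (b := b) (s := s) (fun n : ℤ => X.eta s.i ^ n) (X.eta s.i)⁻¹ := by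
      intro n v hv
      have e : (X.eta s.i)⁻¹ * (X.eta s.i ^ n * emb X a b s v) =
          (fun n : ℤ => X.eta s.i ^ n) (n - 1) * emb X a b s v := by
        change _ = X.eta s.i ^ (n - 1) * _
        rw [zpow_sub₀ hη, zpow_one, div_eq_mul_inv]
        ring
      rw [e]
      exact W_mem (u := fun n : ℤ => X.eta s.i ^ n) (n - 1) hv
    have mζ : Mul' (a := a) (b := b) (s := s) (fun n : ℤ => X.eta s.i ^ n) (X.zeta s.j) := by
      intro n v hv
      obtain ⟨v1, h1, v2, h2, e⟩ := hz v hv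
      have e : X.zeta s.j * (X.eta s.i ^ n * emb X a b s v) =
          (fun n : ℤ => X.eta s.i ^ n) n * emb X a b s v1 +
          (fun n : ℤ => X.eta s.i ^ n) (n + 1) * emb X a b s v2 := by
        change _ = X.eta s.i ^ n * _ + X.eta s.i ^ (n + 1) * _
        rw [zpow_add₀ hη, zpow_one]
        linear_combination (X.eta s.i ^ n) * e
      rw [e]
      exact add_mem (W_mem (u := fun n : ℤ => X.eta s.i ^ n) n h1)
        (W_mem (u := fun n : ℤ => X.eta s.i ^ n) (n + 1) h2)
    have mca : ∀ z ∈ X.A s.i s.j ca,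
        Mul' (a := a) (b := b) (s := s) (fun n : ℤ => X.eta s.i ^ n) z := by
      intro z hz
      refine Mul'.span ?_ z (st1 z hz)
      rintro z ⟨n, rfl | rfl⟩
      · exact mη.pow n
      · exact (mη.pow n).mul mζ
    constructor
    · refine ell_le ?_ ?_
      · intro z hz
        obtain ⟨n, hn⟩ := st3 z hz
        have e : z = (X.eta s.i)⁻¹ ^ n * (X.eta s.i ^ n * z) := by
          rw [← mul_assoc, ← mul_pow, inv_mul_cancel₀ hη, one_pow, one_mul]
        rw [e]
        exact (mηi.pow n).mul (mca _ hn)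
      · intro v hv
        have : gam X s cab = (fun n : ℤ => X.eta s.i ^ n) 0 := by
          change _ = X.eta s.i ^ (0 : ℤ)
          rw [zpow_zero, gam, if_pos f_cab]
        rw [this]
        exact W_mem (u := fun n : ℤ => X.eta s.i ^ n) 0 hv
    · refine le_ell ?_
      intro n
      refine ⟨X.eta s.i ^ n, ?_, ?_⟩
      · cases n with
        | ofNat m =>
          rw [Int.ofNat_eq_natCast, zpow_natCast]
          exact pow_mem (eta_mem X s f_cab) m
        | negSucc m =>
          rw [zpow_negSucc, ← inv_pow]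
          exact pow_mem (etainv_mem X s t_cab) (m + 1)
      · rw [gam, if_pos f_cab, mul_one]

end Pool.CRD.G
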