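import Pool.Agent.CRD.G.StmtsB

/-!
# CRD, area G, module EMO: the lattices `ℓ` grow with the charts
-/

open CategoryTheory Opposite Limits TensorProduct MonoidalCategory

namespace Pool.CRD.G

namespace EMO_

variable {K : Type} [Field K] {c₁ c₂ : CurveData K}

section S
variable (S : SurfData c₁ c₂)

/-- quotient of the functions `h₁` -/
def m1 (s s' : Ch2) : S.L := S.h₁ s'.i / S.h₁ s.i
/-- quotient of the functions `h₂` -/
def m2 (s s' : Ch2) : S.L := S.h₂ s'.j / S.h₂ s.j

variable {S} {s s' : Ch2}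

lemma m1_ne : m1 S s s' ≠ 0 := div_ne_zero (h1_ne S _) (h1_ne S _)
lemma m2_ne : m2 S s s' ≠ 0 := div_ne_zero (h2_ne S _) (h2_ne S _)

lemma m1_mem (h : s' ≤ s) : m1 S s s' ∈ S.A s'.i s'.j := by
  refine (le_sup_left : _ ≤ S.A s'.i s'.j) ⟨_, (c₁.h_div h.1).2, ?_⟩
  simp [m1, SurfData.h₁]

lemma m1inv_mem (h : s' ≤ s) : (m1 S s s')⁻¹ ∈ S.A s'.i s'.j := by
  refine (le_sup_left : _ ≤ S.A s'.i s'.j) ⟨_, (c₁.h_div h.1).1, ?_⟩
  simp [m1, SurfData.h₁]

lemma m2_mem (h : s' ≤ s) : m2 S s s' ∈ S.A s'.i s'.j := by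
  refine (le_sup_right : _ ≤ S.A s'.i s'.j) ⟨_, (c₂.h_div h.2).2, ?_⟩
  simp [m2, SurfData.h₂]

lemma m2inv_mem (h : s' ≤ s) : (m2 S s s')⁻¹ ∈ S.A s'.i s'.j := by
  refine (le_sup_right : _ ≤ S.A s'.i s'.j) ⟨_, (c₂.h_div h.2).1, ?_⟩
  simp [m2, SurfData.h₂]

variable (S s s')

lemma ap_eq (a : S.L) : aS S a s' * pS S s' = m2 S s s' * (aS S a s * pS S s) := by
  have := h2_ne S s.j
  have := h2_ne S s'.j
  have := x2_ne S
  simp only [aS, pS, m2]
  field_simp

lemma bq_eq (b : S.L) : bS S b s' * qS S s' * m1 S s s' = m2 S s s' * (bS S b s * qS S s) := by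
  have := h1_ne S s.i
  have := h1_ne S s'.i
  have := h2_ne S s.j
  have := h2_ne S s'.j
  have := x2_ne S
  simp only [bS, qS, m2, m1]
  field_simp

lemma a_eq (a : S.L) : aS S a s' * m1 S s s' = m1 S s s' / m2 S s s' * aS S a s := by
  have := h1_ne S s.i
  have := h2_ne S s.j
  have := h2_ne S s'.j
  simp only [aS, m2, m1]
  field_simp

lemma b_eq (b : S.L) : bS S b s' = m1 S s s' / m2 S s s' * bS S b s := by
  have := h1_ne S s.i
  have := h2_ne S s.j
  have := h2_ne S s'.j
  simp only [bS, m2, m1]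
  field_simp

/-- `mu` -/
def mu : S.L := m2 S s s' / (m1 S s s' / m2 S s s')

lemma mu_ne : mu S s s' ≠ 0 := div_ne_zero m2_ne (div_ne_zero m1_ne m2_ne)

lemma E1 (a b c d : S.L) : aS S a s' * c - bS S b s' * qS S s' * (d / mu S s s') =
    (m2 S s s')⁻¹ * (aS S a s * c - bS S b s * qS S s * d) := by
  have := h1_ne S s.i
  have := h1_ne S s'.i
  have := h2_ne S s.j
  have := h2_ne S s'.j
  have := x2_ne S
  simp only [aS, bS, qS, mu, m2, m1]
  field_simp

lemma E2 (a b c d : S.L) : bS S b s' * c + aS S a s' * pS S s' * (d / mu S s s') =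
    m1 S s s' * (m2 S s s')⁻¹ * (bS S b s * c + aS S a s * pS S s * d) := by
  have := h1_ne S s.i
  have := h1_ne S s'.i
  have := h2_ne S s.j
  have := h2_ne S s'.j
  have := x2_ne S
  simp only [aS, bS, pS, mu, m2, m1]
  field_simp

end S

section X
variable {S : SurfData c₁ c₂} (X : ConicData S) (s s' : Ch2)

lemma eta_eq : X.eta s'.i = algebraMap S.L X.E (m1 S s s') * X.eta s.i := by
  have h : algebraMap S.L X.E (S.h₁ s.i) ≠ 0 := by simpa using h1_ne S s.i
  simp only [ConicData.eta, m1, map_div₀]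
  field_simp

lemma zeta_eq : X.zeta s'.j = algebraMap S.L X.E (m2 S s s') * X.zeta s.j := by
  have h : algebraMap S.L X.E (S.h₂ s.j) ≠ 0 := by simpa using h2_ne S s.j
  simp only [ConicData.zeta, m2, map_div₀]
  field_simp

lemma theta_eq (a b : S.L) : theta X a b s' =
    algebraMap S.L X.E (mu S s s') * theta X a b s := by
  have e1 : X.zeta s'.j - algebraMap S.L X.E (aS S a s' * pS S s') -
      algebraMap S.L X.E (bS S b s' * qS S s') * X.eta s'.i =
      algebraMap S.L X.E (m2 S s s') * (X.zeta s.j - algebraMap S.L X.E (aS S a s * pS S s) -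
      algebraMap S.L X.E (bS S b s * qS S s) * X.eta s.i) := by
    have h1 : algebraMap S.L X.E (bS S b s' * qS S s') * algebraMap S.L X.E (m1 S s s') =
        algebraMap S.L X.E (m2 S s s') * algebraMap S.L X.E (bS S b s * qS S s) := by
      rw [← map_mul, bq_eq, map_mul]
    have h2 : algebraMap S.L X.E (aS S a s' * pS S s') =
        algebraMap S.L X.E (m2 S s s') * algebraMap S.L X.E (aS S a s * pS S s) := by
      rw [ap_eq S s s' a, map_mul]
    rw [zeta_eq X s s', eta_eq X s s', h2]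
    linear_combination (-(X.eta s.i)) * h1
  have e2 : algebraMap S.L X.E (aS S a s') * X.eta s'.i - algebraMap S.L X.E (bS S b s') =
      algebraMap S.L X.E (m1 S s s' / m2 S s s') *
        (algebraMap S.L X.E (aS S a s) * X.eta s.i - algebraMap S.L X.E (bS S b s)) := by
    have h1 : algebraMap S.L X.E (aS S a s') * algebraMap S.L X.E (m1 S s s') =
        algebraMap S.L X.E (m1 S s s' / m2 S s s') * algebraMap S.L X.E (aS S a s) := by
      rw [← map_mul, a_eq, map_mul]
    have h2 : algebraMap S.L X.E (bS S b s') =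
        algebraMap S.L X.E (m1 S s s' / m2 S s s') * algebraMap S.L X.E (bS S b s) := by
      rw [b_eq S s s' b, map_mul]
    rw [eta_eq X s s', h2]
    linear_combination (X.eta s.i) * h1
  unfold theta
  rw [e1, e2, mul_div_mul_comm, ← map_div₀]
  rfl

lemma emb_eq (a b : S.L) (v : S.L × S.L) :
    emb X a b s v = emb X a b s' (v.1, v.2 / mu S s s') := by
  have h : algebraMap S.L X.E (mu S s s') ≠ 0 := by simpa using mu_ne S s s'
  unfold emb
  rw [theta_eq X s s' a b, map_div₀]
  field_simp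

lemma emb_smul (a b : S.L) (t : S.L) (v : S.L × S.L) :
    emb X a b s (t • v) = algebraMap S.L X.E t * emb X a b s v := by
  unfold emb
  simp only [Prod.smul_fst, Prod.smul_snd, smul_eq_mul, map_mul]
  ring

/-- the quotients of the factors `gam` are units on the smaller chart -/
lemma gam_eq {k k' : Cov Bool} (h : s' ≤ s) (hk : k' ≤ k) : ∃ g g' : X.E,
    g ∈ X.A s'.i s'.j k' ∧ g' ∈ X.A s'.i s'.j k' ∧ gam X s k = g * gam X s' k' ∧
      gam X s' k' = g' * gam X s k := by
  classical
  have hm1 : algebraMap S.L X.E (m1 S s s') ≠ 0 := by simpa using m1_ne (S := S) (s := s) (s' := s')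
  have he := eta_ne X s.i
  have he' := eta_ne X s'.i
  have heq := eta_eq X s s'
  have hM := X.mem_of_S (k := k') (m1_mem (S := S) h)
  have hMi := X.mem_of_S (k := k') (m1inv_mem (S := S) h)
  by_cases h1 : false ∈ k.s
  · have h2 : false ∈ k'.s := hk h1
    refine ⟨1, 1, one_mem _, one_mem _, ?_, ?_⟩
    · unfold gam
      rw [if_pos h1, if_pos h2, mul_one]
    · unfold gam
      rw [if_pos h1, if_pos h2, mul_one]
  · have h3 : true ∈ k.s := by
      obtain ⟨x, hx⟩ := k.ne
      cases x
      · exact absurd hx h1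
      · exact hx
    by_cases h2 : false ∈ k'.s
    · refine ⟨(X.eta s.i)⁻¹, X.eta s.i, ?_, ?_, ?_, ?_⟩
      · exact X.A_mono h.1 h.2 hk (etainv_mem X s h3)
      · have h5 := mul_mem hMi (eta_mem X s' h2)
        have h6 : algebraMap S.L X.E (m1 S s s')⁻¹ * X.eta s'.i = X.eta s.i := by
          rw [heq, map_inv₀]
          field_simp
        rwa [h6] at h5
      · unfold gam
        rw [if_neg h1, if_pos h2, mul_one]
      · unfold gam
        rw [if_neg h1, if_pos h2, mul_inv_cancel₀ he]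
    · refine ⟨algebraMap S.L X.E (m1 S s s'), algebraMap S.L X.E (m1 S s s')⁻¹, hM, hMi, ?_, ?_⟩
      · unfold gam
        rw [if_neg h1, if_neg h2, heq]
        field_simp
      · unfold gam
        rw [if_neg h1, if_neg h2, heq, map_inv₀]
        field_simp

end X

end EMO_

open EMO_ in
theorem emo_proof (hLOS : Stmt_LOS) : Stmt_EMO := by
  intro K _ c₁ c₂ S X a b _ s s' k k' hs hk
  obtain ⟨g, g', hg, hg', e1, e2⟩ := gam_eq X s s' hs hk
  constructor
  · -- part 1
    intro x hx
    refine Submodule.span_induction (p := fun x _ => x ∈ ell X a b s' k') ?_ ?_ ?_ ?_ hx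
    · rintro x ⟨v, hv, rfl⟩
      obtain ⟨v1, v2, v3, v4⟩ := hv
      have hw : ((v.1, v.2 / mu S s s') : S.L × S.L) ∈ EL (S := S) a b s' := by
        have hmu : (mu S s s')⁻¹ ∈ S.A s'.i s'.j := by
          have h5 := mul_mem (mul_mem (m1_mem (S := S) hs) (m2inv_mem (S := S) hs))
            (m2inv_mem (S := S) hs)
          have h6 : (mu S s s')⁻¹ = m1 S s s' * (m2 S s s')⁻¹ * (m2 S s s')⁻¹ := by
            unfold mu
            rw [inv_div, div_div, div_eq_mul_inv, mul_inv, mul_assoc]
          rwa [h6]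
        refine ⟨S.A_mono hs.1 hs.2 v1, ?_, ?_, ?_⟩
        · change v.2 / mu S s s' ∈ S.A s'.i s'.j
          rw [div_eq_mul_inv]
          exact mul_mem (S.A_mono hs.1 hs.2 v2) hmu
        · change aS S a s' * v.1 - bS S b s' * qS S s' * (v.2 / mu S s s') ∈ S.A s'.i s'.j
          rw [E1]
          exact mul_mem (m2inv_mem hs) (S.A_mono hs.1 hs.2 v3)
        · change bS S b s' * v.1 + aS S a s' * pS S s' * (v.2 / mu S s s') ∈ S.A s'.i s'.j
          rw [E2]
          exact mul_mem (mul_mem (m1_mem hs) (m2inv_mem hs)) (S.A_mono hs.1 hs.2 v4)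
      rw [emb_eq X s s' a b v, e1, mul_assoc]
      exact Submodule.smul_mem (ell X a b s' k') (⟨g, hg⟩ : X.A s'.i s'.j k')
        (Submodule.subset_span ⟨_, hw, rfl⟩)
    · exact Submodule.zero_mem _
    · intro x y _ _ hx hy
      exact Submodule.add_mem _ hx hy
    · intro c x _ hx
      exact Submodule.smul_mem (ell X a b s' k')
        (⟨(c : X.E), X.A_mono hs.1 hs.2 hk c.2⟩ : X.A s'.i s'.j k') hx
  · -- part 2
    intro x hx
    have hle : ell X a b s' k' ≤ Submodule.span (X.A s'.i s'.j k') (ell X a b s k : Set X.E) := by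
      unfold ell
      refine Submodule.span_le.2 ?_
      rintro x ⟨v, hv, rfl⟩
      obtain ⟨v1, v2, v3, v4⟩ := hv
      obtain ⟨u, hu, hu0, hui, hloc, -⟩ := hLOS K c₁ c₂ S X s s' hs
      have hmu : mu S s s' ∈ S.A s'.i s'.j := by
        have h5 := mul_mem (mul_mem (m2_mem (S := S) hs) (m2_mem (S := S) hs))
          (m1inv_mem (S := S) hs)
        have h6 : mu S s s' = m2 S s s' * m2 S s s' * (m1 S s s')⁻¹ := by
          unfold mu
          rw [div_div_eq_mul_div, div_eq_mul_inv]
        rwa [h6]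
      have w2 : mu S s s' * v.2 ∈ S.A s'.i s'.j := mul_mem hmu v2
      have w3 : aS S a s * v.1 - bS S b s * qS S s * (mu S s s' * v.2) ∈ S.A s'.i s'.j := by
        have h5 := E1 S s s' a b v.1 (mu S s s' * v.2)
        rw [mul_div_cancel_left₀ _ (mu_ne S s s')] at h5
        have h6 : aS S a s * v.1 - bS S b s * qS S s * (mu S s s' * v.2) =
            m2 S s s' * (aS S a s' * v.1 - bS S b s' * qS S s' * v.2) := by
          rw [h5]
          exact (mul_inv_cancel_left₀ (m2_ne (S := S) (s := s) (s' := s')) _).symm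
        rw [h6]
        exact mul_mem (m2_mem hs) v3
      have w4 : bS S b s * v.1 + aS S a s * pS S s * (mu S s s' * v.2) ∈ S.A s'.i s'.j := by
        have h5 := E2 S s s' a b v.1 (mu S s s' * v.2)
        rw [mul_div_cancel_left₀ _ (mu_ne S s s')] at h5
        have h6 : bS S b s * v.1 + aS S a s * pS S s * (mu S s s' * v.2) =
            m2 S s s' * (m1 S s s')⁻¹ * (bS S b s' * v.1 + aS S a s' * pS S s' * v.2) := by
          rw [h5]
          have n1 := m1_ne (S := S) (s := s) (s' := s')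
          have n2 := m2_ne (S := S) (s := s) (s' := s')
          field_simp
        rw [h6]
        exact mul_mem (mul_mem (m2_mem hs) (m1inv_mem hs)) v4
      obtain ⟨n1, h1⟩ := hloc _ v1
      obtain ⟨n2, h2⟩ := hloc _ w2
      obtain ⟨n3, h3⟩ := hloc _ w3
      obtain ⟨n4, h4⟩ := hloc _ w4
      have up : ∀ (n N : ℕ) (z : S.L), n ≤ N → u ^ n * z ∈ S.A s.i s.j →
          u ^ N * z ∈ S.A s.i s.j := by
        intro n N z hn hz
        obtain ⟨r, rfl⟩ := Nat.exists_eq_add_of_le hn
        have : u ^ (n + r) * z = u ^ r * (u ^ n * z) := by ring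
        rw [this]
        exact mul_mem (pow_mem hu r) hz
      have hN : ∃ N, n1 ≤ N ∧ n2 ≤ N ∧ n3 ≤ N ∧ n4 ≤ N := ⟨n1 + n2 + n3 + n4, by omega, by omega,
        by omega, by omega⟩
      obtain ⟨N, hN1, hN2, hN3, hN4⟩ := hN
      have hw : (u ^ N • ((v.1, mu S s s' * v.2) : S.L × S.L)) ∈ EL (S := S) a b s := by
        refine ⟨up n1 N _ hN1 h1, up n2 N _ hN2 h2, ?_, ?_⟩
        · have h5 := up n3 N _ hN3 h3
          have h6 : aS S a s * (u ^ N * v.1) - bS S b s * qS S s * (u ^ N * (mu S s s' * v.2)) =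
              u ^ N * (aS S a s * v.1 - bS S b s * qS S s * (mu S s s' * v.2)) := by ring
          change aS S a s * (u ^ N * v.1) - bS S b s * qS S s * (u ^ N * (mu S s s' * v.2)) ∈
            S.A s.i s.j
          rw [h6]
          exact h5
        · have h5 := up n4 N _ hN4 h4
          have h6 : bS S b s * (u ^ N * v.1) + aS S a s * pS S s * (u ^ N * (mu S s s' * v.2)) =
              u ^ N * (bS S b s * v.1 + aS S a s * pS S s * (mu S s s' * v.2)) := by ring
          change bS S b s * (u ^ N * v.1) + aS S a s * pS S s * (u ^ N * (mu S s s' * v.2)) ∈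
            S.A s.i s.j
          rw [h6]
          exact h5
      have huX : algebraMap S.L X.E u ≠ 0 := by simpa using hu0
      have hcoef : g' * algebraMap S.L X.E (u⁻¹ ^ N) ∈ X.A s'.i s'.j k' :=
        mul_mem hg' (X.mem_of_S (pow_mem hui N))
      have e3 : emb X a b s' v = emb X a b s (v.1, mu S s s' * v.2) := by
        rw [emb_eq X s s' a b (v.1, mu S s s' * v.2)]
        simp only
        rw [mul_div_cancel_left₀ _ (mu_ne S s s')]
      have e4 : gam X s' k' * emb X a b s' v =
          (⟨g' * algebraMap S.L X.E (u⁻¹ ^ N), hcoef⟩ : X.A s'.i s'.j k') •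
            (gam X s k * emb X a b s (u ^ N • ((v.1, mu S s s' * v.2) : S.L × S.L))) := by
        have h7 : algebraMap S.L X.E (u⁻¹ ^ N) * algebraMap S.L X.E (u ^ N) = 1 := by
          rw [← map_mul, ← mul_pow, inv_mul_cancel₀ hu0, one_pow, map_one]
        rw [Subalgebra.smul_def, smul_eq_mul, emb_smul, e3, e2]
        linear_combination (-(g' * gam X s k * emb X a b s (v.1, mu S s s' * v.2))) * h7
      rw [SetLike.mem_coe, e4]
      exact Submodule.smul_mem _ _ (Submodule.subset_span (Submodule.subset_span ⟨_, hw, rfl⟩))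
    exact hle hx

end Pool.CRD.G
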