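import Pool.Agent.CRD.G.StmtsB

/-!
# CRD, area G: the lattice `E_0` over a chart of `S` is projective
-/

set_option autoImplicit false

open CategoryTheory Opposite Limits TensorProduct MonoidalCategory

namespace Pool.CRD.G

namespace EPR_

section
variable {K : Type} [Field K]

theorem finType (c : CurveData K) (t : Cov Bool) : Algebra.FiniteType K (c.A t) := by
  rw [← Subalgebra.fg_iff_finiteType]
  rcases cov_bool_cases t with rfl | rfl | rfl
  · exact c.fg_a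
  · exact c.fg_b
  · rw [c.cab_a]
    exact Subalgebra.FG.sup c.fg_a ⟨{c.w⁻¹}, by simp⟩

/-- the elements which are fractions of regular functions -/
def fr {L : Type} [Field L] [Algebra K L] (A : Subalgebra K L) : Subalgebra K L where
  carrier := {z | ∃ c ∈ A, ∃ d ∈ A, d ≠ 0 ∧ z = c / d}
  mul_mem' := by
    rintro _ _ ⟨c, hc, d, hd, h0, rfl⟩ ⟨c', hc', d', hd', h0', rfl⟩
    exact ⟨c * c', mul_mem hc hc', d * d', mul_mem hd hd', mul_ne_zero h0 h0',
      by rw [div_mul_div_comm]⟩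
  add_mem' := by
    rintro _ _ ⟨c, hc, d, hd, h0, rfl⟩ ⟨c', hc', d', hd', h0', rfl⟩
    exact ⟨c * d' + d * c', add_mem (mul_mem hc hd') (mul_mem hd hc'), d * d', mul_mem hd hd',
      mul_ne_zero h0 h0', by rw [div_add_div _ _ h0 h0']⟩
  algebraMap_mem' k := ⟨algebraMap K L k, A.algebraMap_mem k, 1, A.one_mem, one_ne_zero,
    by rw [div_one]⟩

theorem fr_all {c₁ c₂ : CurveData K} (S : SurfData c₁ c₂) (s : Ch2) (z : S.L) :
    ∃ c ∈ S.A s.i s.j, ∃ d ∈ S.A s.i s.j, d ≠ 0 ∧ z = c / d := by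
  have h1 : ∀ x : c₁.F, S.e₁ x ∈ fr (S.A s.i s.j) := by
    intro x
    obtain ⟨p, hp, q, hq, h0, rfl⟩ := c₁.frac s.i x
    refine ⟨S.e₁ p, (le_sup_left : _ ≤ S.A s.i s.j) ⟨p, hp, rfl⟩, S.e₁ q,
      (le_sup_left : _ ≤ S.A s.i s.j) ⟨q, hq, rfl⟩, ?_, map_div₀ _ _ _⟩
    exact fun h => h0 ((map_eq_zero S.e₁).1 h)
  have h2 : ∀ x : c₂.F, S.e₂ x ∈ fr (S.A s.i s.j) := by
    intro x
    obtain ⟨p, hp, q, hq, h0, rfl⟩ := c₂.frac s.j x
    refine ⟨S.e₂ p, (le_sup_right : _ ≤ S.A s.i s.j) ⟨p, hp, rfl⟩, S.e₂ q,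
      (le_sup_right : _ ≤ S.A s.i s.j) ⟨q, hq, rfl⟩, ?_, map_div₀ _ _ _⟩
    exact fun h => h0 ((map_eq_zero S.e₂).1 h)
  have h3 : ∀ t : TensorProduct K c₁.F c₂.F,
      Algebra.TensorProduct.productMap S.e₁ S.e₂ t ∈ fr (S.A s.i s.j) := by
    intro t
    induction t using TensorProduct.induction_on with
    | zero => rw [map_zero]; exact zero_mem _
    | tmul x y =>
      rw [Algebra.TensorProduct.productMap_apply_tmul]
      exact mul_mem (h1 x) (h2 y)
    | add x y hx hy => rw [map_add]; exact add_mem hx hy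
  obtain ⟨p, q, hq, rfl⟩ := S.frac z
  obtain ⟨c, hc, d, hd, h0, hp⟩ := h3 p
  obtain ⟨c', hc', d', hd', h0', hq'⟩ := h3 q
  have hc0 : c' ≠ 0 := by
    intro h
    apply hq
    rw [hq', h, zero_div]
  refine ⟨c * d', mul_mem hc hd', d * c', mul_mem hd hc', mul_ne_zero h0 hc0, ?_⟩
  rw [hp, hq', div_div_div_eq]

/-- the functions of the first curve on the chart of the product -/
def i₁ {c₁ c₂ : CurveData K} (S : SurfData c₁ c₂) (s : Ch2) :
    c₁.A s.i →ₐ[K] S.A s.i s.j :=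
  (S.e₁.comp (c₁.A s.i).val).codRestrict _ fun x =>
    (le_sup_left : _ ≤ S.A s.i s.j) ⟨x.1, x.2, rfl⟩

/-- the functions of the second curve on the chart of the product -/
def i₂ {c₁ c₂ : CurveData K} (S : SurfData c₁ c₂) (s : Ch2) :
    c₂.A s.j →ₐ[K] S.A s.i s.j :=
  (S.e₂.comp (c₂.A s.j).val).codRestrict _ fun x =>
    (le_sup_right : _ ≤ S.A s.i s.j) ⟨x.1, x.2, rfl⟩

theorem bij {c₁ c₂ : CurveData K} (S : SurfData c₁ c₂) (s : Ch2) :
    Function.Bijective (Algebra.TensorProduct.productMap (i₁ S s) (i₂ S s)) := by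
  have hcomp : (S.A s.i s.j).val.comp (Algebra.TensorProduct.productMap (i₁ S s) (i₂ S s)) =
      (Algebra.TensorProduct.productMap S.e₁ S.e₂).comp
        (Algebra.TensorProduct.map (c₁.A s.i).val (c₂.A s.j).val) := by
    apply Algebra.TensorProduct.ext'
    intro x y
    rw [AlgHom.comp_apply, AlgHom.comp_apply, Algebra.TensorProduct.productMap_apply_tmul,
      Algebra.TensorProduct.map_tmul, Algebra.TensorProduct.productMap_apply_tmul]
    rfl
  constructor
  · have h1 : Function.Injective (Algebra.TensorProduct.map (c₁.A s.i).val (c₂.A s.j).val) :=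
      TensorProduct.map_injective_of_flat_flat (c₁.A s.i).val.toLinearMap
        (c₂.A s.j).val.toLinearMap Subtype.val_injective Subtype.val_injective
    intro x y hxy
    apply h1
    apply S.inj
    have h2 := AlgHom.congr_fun hcomp x
    have h3 := AlgHom.congr_fun hcomp y
    rw [AlgHom.comp_apply, AlgHom.comp_apply] at h2 h3
    rw [← h2, ← h3, hxy]
  · have h1 : S.A s.i s.j ≤
        ((S.A s.i s.j).val.comp (Algebra.TensorProduct.productMap (i₁ S s) (i₂ S s))).range := by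
      refine sup_le ?_ ?_
      · rintro _ ⟨x, hx, rfl⟩
        refine ⟨(⟨x, hx⟩ : c₁.A s.i) ⊗ₜ 1,
          (AlgHom.congr_fun hcomp ((⟨x, hx⟩ : c₁.A s.i) ⊗ₜ 1)).trans ?_⟩
        rw [AlgHom.comp_apply, Algebra.TensorProduct.map_tmul,
          Algebra.TensorProduct.productMap_apply_tmul]
        simp
      · rintro _ ⟨x, hx, rfl⟩
        refine ⟨1 ⊗ₜ (⟨x, hx⟩ : c₂.A s.j),
          (AlgHom.congr_fun hcomp (1 ⊗ₜ (⟨x, hx⟩ : c₂.A s.j))).trans ?_⟩
        rw [AlgHom.comp_apply, Algebra.TensorProduct.map_tmul,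
          Algebra.TensorProduct.productMap_apply_tmul]
        simp
    intro z
    obtain ⟨t, ht⟩ := h1 z.2
    exact ⟨t, Subtype.ext ht⟩

end

end EPR_

open EPR_ in
theorem epr_proof (hE0K : Stmt_E0K) (hPRF : Stmt_PRF) (_hFRX : Stmt_FRX) : Stmt_EPR := by
  intro K _ _ c₁ c₂ S a b hab s
  have hh1 := h1_ne S s.i
  have hh2 := h2_ne S s.j
  have hx2 := x2_ne S
  have hpq : pS S s * aS S a s ^ 2 + qS S s * bS S b s ^ 2 = 1 := by
    unfold pS qS aS bS
    field_simp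
    linear_combination hab
  obtain ⟨m, n, φ, ⟨e⟩⟩ := hE0K K S.L (S.A s.i s.j) (pS S s) (qS S s) (aS S a s) (bS S b s)
    (pS_mem S s) (qS_mem S s) hpq (fr_all S s)
  haveI := c₁.ded s.i
  haveI := c₂.ded s.j
  haveI := finType c₁ s.i
  haveI := finType c₂ s.j
  haveI := hPRF K (c₁.A s.i) (c₂.A s.j) (S.A s.i s.j) (i₁ S s) (i₂ S s) (bij S s) m n φ
  exact Module.Projective.of_equiv e.symm

end Pool.CRD.G
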