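import Pool.Agent.CRD.G.StmtsD

/-!
# CRD, area G, module EXB
-/

set_option autoImplicit false

open CategoryTheory Opposite Limits TensorProduct MonoidalCategory Pretriangulated

namespace Pool.CRD.G

/-- EXB: the pull back functors are exact -/
theorem exb_proof (hFLX : Stmt_FLX) (hPBI : Stmt_PBI) (hBCF : Pool.CRD.Stmt_BCF) : Stmt_EXB := by
  intro K _ c₁ c₂ S X
  have h1 : ExF (bcX X) := hBCF K Ch3 (Rp S) X.R (phX X) (fun t => hFLX K c₁ c₂ S X t)
  refine ⟨h1, ?_⟩
  obtain ⟨e⟩ := hPBI K c₁ c₂ S X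
  have h2 : ExF (pbp S ⋙ bcX X) := inferInstance
  exact ⟨inferInstance, preservesFiniteLimits_of_natIso e.symm,
    preservesFiniteColimits_of_natIso e.symm⟩

end Pool.CRD.G
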