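import Pool.Agent.CRD.G.StmtsC
import Pool.Agent.CRD.Cnc.Twc

set_option autoImplicit false

open CategoryTheory Opposite Limits TensorProduct MonoidalCategory

namespace Pool.CRD.G

namespace FGA_

variable {K : Type} [Field K] {c₁ c₂ : CurveData K} {S : SurfData c₁ c₂} {X : ConicData S}

lemma apS_rk {M N : PMod X.R} (φ : M ⟶ N) (s : Ch2) {k k' : Cov Bool} (h : k' ≤ k)
    (x : Sc M s k) : rk N s h (apS φ s k x) = apS φ s k' (rk M s h x) :=
  (rs_nat φ (homOfLE (c3_mono (le_refl s) h)).op (out M s k x)).symm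

/-- a morphism on sections, linear over the functions on the chart of `S` -/
noncomputable def apL {M N : PMod X.R} (φ : M ⟶ N) (s : Ch2) (k : Cov Bool) :
    Sc M s k →ₗ[S.A s.i s.j] Sc N s k where
  toFun x := apS φ s k x
  map_add' x y := map_add (φ.app (op (c3 s k))).hom (out M s k x) (out M s k y)
  map_smul' a x := map_smul (φ.app (op (c3 s k))).hom (toR X (c3 s k) (inc X s k a))
    (out M s k x)

/-- global sections -/
noncomputable abbrev HH (M : PMod X.R) (s : Ch2) : Submodule (S.A s.i s.j) (Sc M s ca × Sc M s cb) :=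
  H0 (rk M s (cab_bot ca)) (rk M s (cab_bot cb))

/-- a morphism on global sections -/
noncomputable def hL {M N : PMod X.R} (φ : M ⟶ N) (s : Ch2) :
    HH M s →ₗ[S.A s.i s.j] HH N s where
  toFun h := ⟨(apS φ s ca h.1.1, apS φ s cb h.1.2), by
    change rk N s (cab_bot ca) (apS φ s ca h.1.1) = rk N s (cab_bot cb) (apS φ s cb h.1.2)
    rw [apS_rk, apS_rk]
    exact congrArg (apS φ s cab) h.2⟩
  map_add' x y := Subtype.ext (Prod.ext ((apL φ s ca).map_add x.1.1 y.1.1)
    ((apL φ s cb).map_add x.1.2 y.1.2))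
  map_smul' a x := Subtype.ext (Prod.ext ((apL φ s ca).map_smul a x.1.1)
    ((apL φ s cb).map_smul a x.1.2))

lemma fin_of_iso {M N : PMod X.R} (e : M ≅ N) (s : Ch2) (h : (HH M s).FG) : (HH N s).FG := by
  have h1 : Module.Finite (S.A s.i s.j) (HH M s) := Module.Finite.iff_fg.2 h
  have h2 : Function.Surjective (hL e.hom s) := by
    rintro ⟨⟨x, y⟩, hxy⟩
    have key : ∀ (k : Cov Bool) (z : Sc N s k), apS e.hom s k (apS e.inv s k z) = z := by
      intro k z
      have := congrArg (fun f : N ⟶ N => (f.app (op (c3 s k))).hom (out N s k z)) e.inv_hom_id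
      exact this
    exact ⟨hL e.inv s ⟨(x, y), hxy⟩, Subtype.ext (Prod.ext (key ca x) (key cb y))⟩
  exact Module.Finite.iff_fg.1 (Module.Finite.of_surjective _ h2)


/-- global sections of a submodule of a sum -/
lemma fin_of_mono {M N₁ N₂ : PMod X.R} (φ : M ⟶ N₁ ⊞ N₂) [Mono φ] (s : Ch2)
    (hn : IsNoetherianRing (S.A s.i s.j)) (h₁ : (HH N₁ s).FG) (h₂ : (HH N₂ s).FG) :
    (HH M s).FG := by
  have h1 : Module.Finite (S.A s.i s.j) (HH N₁ s) := Module.Finite.iff_fg.2 h₁
  have h2 : Module.Finite (S.A s.i s.j) (HH N₂ s) := Module.Finite.iff_fg.2 h₂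
  have hinj : Function.Injective ((hL (φ ≫ biprod.fst) s).prod (hL (φ ≫ biprod.snd) s)) := by
    rw [injective_iff_map_eq_zero]
    rintro ⟨⟨x, y⟩, hxy⟩ h0
    have key : ∀ (k : Cov Bool) (z : Sc M s k), apS (φ ≫ biprod.fst) s k z = 0 →
        apS (φ ≫ biprod.snd) s k z = 0 → z = 0 := by
      intro k z hz1 hz2
      have e1 : φ = (φ ≫ biprod.fst) ≫ biprod.inl + (φ ≫ biprod.snd) ≫ biprod.inr := by
        rw [Category.assoc, Category.assoc, ← Preadditive.comp_add, biprod.total,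
          Category.comp_id]
      refine inj_of_mono φ (op (c3 s k)) (Eq.trans ?_ (map_zero (φ.app (op (c3 s k))).hom).symm)
      refine (congrArg (fun f : M ⟶ N₁ ⊞ N₂ => (f.app (op (c3 s k))).hom (out M s k z)) e1).trans ?_
      change ((biprod.inl : N₁ ⟶ N₁ ⊞ N₂).app (op (c3 s k))).hom (apS (φ ≫ biprod.fst) s k z) +
        ((biprod.inr : N₂ ⟶ N₁ ⊞ N₂).app (op (c3 s k))).hom (apS (φ ≫ biprod.snd) s k z) = 0
      rw [hz1, hz2]
      exact (congrArg₂ (· + ·) (map_zero _) (map_zero _)).trans (add_zero _)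
    have h3 := congrArg Prod.fst h0
    have h4 := congrArg Prod.snd h0
    have h5 := congrArg (fun z => (z : Sc N₁ s ca × Sc N₁ s cb)) (congrArg Subtype.val h3)
    have h6 := congrArg (fun z => (z : Sc N₂ s ca × Sc N₂ s cb)) (congrArg Subtype.val h4)
    refine Subtype.ext (Prod.ext ?_ ?_)
    · exact key ca x (congrArg Prod.fst h5) (congrArg Prod.fst h6)
    · exact key cb y (congrArg Prod.snd h5) (congrArg Prod.snd h6)
  exact Module.Finite.iff_fg.1 (Module.Finite.of_injective _ hinj)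

end FGA_

open FGA_

theorem fga_proof (hCHP : Stmt_CHP) (hFGN : Stmt_FGN) (hSEX : Stmt_SEX) (hKOS : Stmt_KOS) :
    Stmt_FGA := by
  intro K _ c₁ c₂ S _ X M hM s
  have hn : IsNoetherianRing (S.A s.i s.j) :=
    (inferInstance : S.R.Good).noeth (op s)
  obtain ⟨d₀, hd₀⟩ := hSEX K c₁ c₂ S X M hM
  have key : ∀ n : ℕ, ∀ d e : ℤ, d₀ ≤ d + n → (HH ((WH X d e).twObj M) s).FG := by
    intro n
    induction n with
    | zero =>
      intro d e hd
      have hc : IsCoh X.R ((WH X d e).twObj M) := isCoh_tw (WH X d e) hM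
      obtain ⟨hcon, hf, ht⟩ := hCHP K c₁ c₂ S X _ hc s
      exact hFGN (S.A s.i s.j) _ _ _ _ _ _ _ _ hcon.toIsP1 hf ht
        (hd₀ d e (by simpa using hd) s)
    | succ n ih =>
      intro d e hd
      obtain ⟨Ω, hΩ, ⟨i₁⟩, ⟨i₂⟩, -⟩ := hKOS K c₁ c₂ S X M d e
      have hm : Mono Ω.f := hΩ.mono_f
      have h1 := ih (d + 1) e (by push_cast at hd ⊢; omega)
      have h2 := ih (d + 1) (e + 1) (by push_cast at hd ⊢; omega)
      have hmono : Mono (Ω.f ≫ i₂.hom) := mono_comp _ _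
      exact fin_of_iso i₁ s (fin_of_mono (Ω.f ≫ i₂.hom) s hn h1 h2)
  have h0 := key (d₀.toNat) 0 0 (by omega)
  have hW : WH X 0 0 = 1 := by
    unfold WH
    rw [zpow_zero, zpow_zero, one_mul]
  rw [hW] at h0
  exact fin_of_iso (UCoc.twOne.app M) s h0

end Pool.CRD.G
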