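import Pool.Agent.CRD.G.StmtsA

open CategoryTheory Opposite Limits TensorProduct

namespace Pool.CRD.G

namespace FGN_

section One

variable {A : Type} [CommRing A] {F : Type} [AddCommGroup F] [Module A F]

/-- the sum of the `e^n N`, `n < k` -/
def Fk (e : Module.End A F) (N : Submodule A F) : ℕ → Submodule A F
  | 0 => ⊥
  | k + 1 => Fk e N k ⊔ N.map (e ^ k)

theorem Fk_mono (e : Module.End A F) (N : Submodule A F) : Monotone (Fk e N) :=
  monotone_nat_of_le_succ fun _ => le_sup_left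

theorem mem_Fk (e : Module.End A F) (N : Submodule A F) {h : F} (hh : h ∈ N) (k : ℕ) :
    (e ^ k) h ∈ Fk e N (k + 1) :=
  Submodule.mem_sup_right (Submodule.mem_map_of_mem hh)

theorem Fk_e (e : Module.End A F) (N : Submodule A F) (k : ℕ) :
    ∀ x ∈ Fk e N k, e x ∈ Fk e N (k + 1) := by
  induction k with
  | zero =>
    intro x hx
    have h0 : x = 0 := by simpa [Fk] using hx
    rw [h0, map_zero]
    exact zero_mem _
  | succ k ih =>
    intro x hx
    obtain ⟨a, ha, b, hb, rfl⟩ := Submodule.mem_sup.1 hx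
    obtain ⟨n, hn, rfl⟩ := hb
    rw [map_add]
    refine add_mem (Fk_mono e N (Nat.le_succ _) (ih a ha)) ?_
    have h1 : e ((e ^ k) n) = (e ^ (k + 1)) n := by
      rw [pow_succ', Module.End.mul_apply]
    rw [h1]
    exact mem_Fk e N hn (k + 1)

theorem Fk_pow (e : Module.End A F) (N : Submodule A F) (k j : ℕ) {x : F} (hx : x ∈ Fk e N k) :
    (e ^ j) x ∈ Fk e N (k + j) := by
  induction j with
  | zero => simpa using hx
  | succ j ih =>
    rw [pow_succ', Module.End.mul_apply]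
    exact Fk_e e N (k + j) _ ih

theorem Fk_fg (e : Module.End A F) (N : Submodule A F) (hN : N.FG) (k : ℕ) : (Fk e N k).FG := by
  induction k with
  | zero => exact Submodule.fg_bot
  | succ k ih => exact ih.sup (hN.map _)

/-- the `A[e]`-module generated by a set -/
def Ge (e : Module.End A F) (N : Submodule A F) : Submodule A F :=
  Submodule.span A {z | ∃ h ∈ N, ∃ n : ℕ, z = (e ^ n) h}

theorem Ge_mono (e : Module.End A F) {N N' : Submodule A F} (h : N ≤ N') : Ge e N ≤ Ge e N' := by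
  apply Submodule.span_mono
  rintro z ⟨x, hx, n, rfl⟩
  exact ⟨x, h hx, n, rfl⟩

theorem Ge_pow (e : Module.End A F) (N : Submodule A F) (m : ℕ) {x : F} (hx : x ∈ Ge e N) :
    (e ^ m) x ∈ Ge e N := by
  induction hx using Submodule.span_induction with
  | mem z hz =>
    obtain ⟨h, hh, n, rfl⟩ := hz
    refine Submodule.subset_span ⟨h, hh, m + n, ?_⟩
    rw [pow_add, Module.End.mul_apply]
  | zero =>
    rw [map_zero]
    exact zero_mem _
  | add a b _ _ ha hb =>
    rw [map_add]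
    exact add_mem ha hb
  | smul c a _ ha =>
    rw [map_smul]
    exact Submodule.smul_mem _ _ ha

theorem exists_Fk (e : Module.End A F) (N : Submodule A F) {x : F} (hx : x ∈ Ge e N) :
    ∃ k, x ∈ Fk e N k := by
  induction hx using Submodule.span_induction with
  | mem z hz =>
    obtain ⟨h, hh, n, rfl⟩ := hz
    exact ⟨n + 1, mem_Fk e N hh n⟩
  | zero => exact ⟨0, zero_mem _⟩
  | add a b _ _ ha hb =>
    obtain ⟨i, hi⟩ := ha
    obtain ⟨j, hj⟩ := hb
    exact ⟨max i j, add_mem (Fk_mono e N (le_max_left i j) hi) (Fk_mono e N (le_max_right i j) hj)⟩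
  | smul c a _ ha =>
    obtain ⟨i, hi⟩ := ha
    exact ⟨i, Submodule.smul_mem _ _ hi⟩

end One

section Two

variable {A : Type} [CommRing A] {F M : Type} [AddCommGroup F] [Module A F]
  [AddCommGroup M] [Module A M]

/-- finitely many elements of `H` suffice for one element -/
theorem one_fin (e : Module.End A F) (H : Submodule A M) (π : M →ₗ[A] F) {x : F}
    (hx : x ∈ Submodule.span A {z | ∃ h ∈ H, ∃ n : ℕ, z = (e ^ n) (π h)}) :
    ∃ N : Submodule A M, N ≤ H ∧ N.FG ∧ x ∈ Ge e (N.map π) := by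
  induction hx using Submodule.span_induction with
  | mem z hz =>
    obtain ⟨h, hh, n, rfl⟩ := hz
    refine ⟨Submodule.span A {h}, ?_, Submodule.fg_span_singleton h, ?_⟩
    · rw [Submodule.span_singleton_le_iff_mem]
      exact hh
    · exact Submodule.subset_span
        ⟨π h, Submodule.mem_map_of_mem (Submodule.mem_span_singleton_self h), n, rfl⟩
  | zero => exact ⟨⊥, bot_le, Submodule.fg_bot, zero_mem _⟩
  | add a b _ _ ha hb =>
    obtain ⟨N, h1, h2, h3⟩ := ha
    obtain ⟨N', h1', h2', h3'⟩ := hb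
    exact ⟨N ⊔ N', sup_le h1 h1', h2.sup h2',
      add_mem (Ge_mono e (Submodule.map_mono le_sup_left) h3)
        (Ge_mono e (Submodule.map_mono le_sup_right) h3')⟩
  | smul c a _ ha =>
    obtain ⟨N, h1, h2, h3⟩ := ha
    exact ⟨N, h1, h2, Submodule.smul_mem _ _ h3⟩

theorem set_fin (e : Module.End A F) (H : Submodule A M) (π : M →ₗ[A] F)
    (hx : ∀ x : F, x ∈ Submodule.span A {z | ∃ h ∈ H, ∃ n : ℕ, z = (e ^ n) (π h)})
    (S : Finset F) :
    ∃ N : Submodule A M, N ≤ H ∧ N.FG ∧ ∀ s ∈ S, s ∈ Ge e (N.map π) := by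
  classical
  induction S using Finset.induction_on with
  | empty => exact ⟨⊥, bot_le, Submodule.fg_bot, fun s hs => absurd hs (Finset.notMem_empty s)⟩
  | insert a S _ ih =>
    obtain ⟨N, h1, h2, h3⟩ := ih
    obtain ⟨N', h1', h2', h3'⟩ := one_fin e H π (hx a)
    refine ⟨N ⊔ N', sup_le h1 h1', h2.sup h2', fun s hs => ?_⟩
    rcases Finset.mem_insert.1 hs with rfl | hs
    · exact Ge_mono e (Submodule.map_mono le_sup_right) h3'
    · exact Ge_mono e (Submodule.map_mono le_sup_left) (h3 s hs)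

theorem all_fin (e : Module.End A F) (H : Submodule A M) (π : M →ₗ[A] F)
    (hx : ∀ x : F, x ∈ Submodule.span A {z | ∃ h ∈ H, ∃ n : ℕ, z = (e ^ n) (π h)})
    (hF : FGe e) :
    ∃ N : Submodule A M, N ≤ H ∧ N.FG ∧ ∀ x : F, x ∈ Ge e (N.map π) := by
  obtain ⟨S, hS⟩ := hF
  obtain ⟨N, h1, h2, h3⟩ := set_fin e H π hx S
  refine ⟨N, h1, h2, fun x => ?_⟩
  have hle : Submodule.span A {z | ∃ s ∈ S, ∃ n : ℕ, z = (e ^ n) s} ≤ Ge e (N.map π) := by
    rw [Submodule.span_le]
    rintro z ⟨s, hs, n, rfl⟩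
    exact Ge_pow e _ n (h3 s hs)
  exact hle (hS x)

end Two

section P1

variable {A : Type} [CommRing A] {F T B : Type} [AddCommGroup F] [AddCommGroup T] [AddCommGroup B]
  [Module A F] [Module A T] [Module A B]

theorem symm_pow (g : B ≃ₗ[A] B) (n : ℕ) (b : B) : (g.symm ^ n) ((g ^ n) b) = b := by
  induction n generalizing b with
  | zero => simp
  | succ n ih =>
    rw [pow_succ, pow_succ', LinearEquiv.mul_apply, LinearEquiv.mul_apply,
      LinearEquiv.symm_apply_apply]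
    exact ih b

theorem swap {e : Module.End A F} {y : Module.End A T} {g : B ≃ₗ[A] B} {f : F →ₗ[A] B}
    {t : T →ₗ[A] B} (h : IsP1 e y g f t) : IsP1 y e g.symm t f where
  fe x := by
    rw [← h.ty x, LinearEquiv.symm_apply_apply]
  ty x := by
    rw [h.fe x, LinearEquiv.symm_apply_apply]
  f1 b := by
    obtain ⟨n, x, hx⟩ := h.t1 b
    exact ⟨n, x, by rw [hx, symm_pow]⟩
  f2 := h.t2
  t1 b := by
    obtain ⟨n, x, hx⟩ := h.f1 b
    exact ⟨n, x, by rw [← hx, symm_pow]⟩
  t2 := h.f2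

theorem f_pow {e : Module.End A F} {y : Module.End A T} {g : B ≃ₗ[A] B} {f : F →ₗ[A] B}
    {t : T →ₗ[A] B} (h : IsP1 e y g f t) (n : ℕ) (x : F) : (g ^ n) (f x) = f ((e ^ n) x) := by
  induction n with
  | zero => simp
  | succ n ih =>
    rw [pow_succ', LinearEquiv.mul_apply, ih, pow_succ', Module.End.mul_apply, h.fe]

theorem t_pow {e : Module.End A F} {y : Module.End A T} {g : B ≃ₗ[A] B} {f : F →ₗ[A] B}
    {t : T →ₗ[A] B} (h : IsP1 e y g f t) (n : ℕ) (x : T) : (g ^ n) (t ((y ^ n) x)) = t x := by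
  induction n with
  | zero => simp
  | succ n ih =>
    rw [pow_succ, LinearEquiv.mul_apply, pow_succ', Module.End.mul_apply, h.ty, ih]

/-- sections over the second chart, multiplied by a power of the coordinate -/
theorem lift_T {e : Module.End A F} {y : Module.End A T} {g : B ≃ₗ[A] B} {f : F →ₗ[A] B}
    {t : T →ₗ[A] B} (h : IsP1 e y g f t) (N : Submodule A (F × T)) (hN : N ≤ H0 f t) (k : ℕ) :
    ∀ z ∈ Fk y (N.map (LinearMap.snd A F T)) k,
      ∃ w ∈ Fk e (N.map (LinearMap.fst A F T)) (k + 1), (g ^ k) (t z) = f w := by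
  induction k with
  | zero =>
    intro z hz
    have h0 : z = 0 := by simpa [Fk] using hz
    exact ⟨0, zero_mem _, by rw [h0]; simp⟩
  | succ k ih =>
    intro z hz
    obtain ⟨a, ha, b, hb, rfl⟩ := Submodule.mem_sup.1 hz
    obtain ⟨n, hn, rfl⟩ := hb
    obtain ⟨q, hq, rfl⟩ := hn
    obtain ⟨w, hw, hw2⟩ := ih a ha
    have hq1 : f q.1 = t q.2 := hN hq
    have hqm : (e ^ 0) q.1 ∈ Fk e (N.map (LinearMap.fst A F T)) (0 + 1) :=
      mem_Fk e _ (Submodule.mem_map_of_mem (f := LinearMap.fst A F T) hq) 0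
    have hqm2 : q.1 ∈ Fk e (N.map (LinearMap.fst A F T)) (k + 1) := by
      refine Fk_mono e _ (by omega : 0 + 1 ≤ k + 1) ?_
      simpa using hqm
    refine ⟨e (w + q.1), Fk_e e _ _ _ (add_mem hw hqm2), ?_⟩
    rw [h.fe, map_add, map_add, map_add, pow_succ', LinearEquiv.mul_apply, hw2,
      LinearEquiv.mul_apply, LinearMap.snd_apply, t_pow h, hq1, ← map_add]

theorem bdd [IsNoetherianRing A] {e : Module.End A F} {y : Module.End A T} {g : B ≃ₗ[A] B}
    {f : F →ₗ[A] B} {t : T →ₗ[A] B} (h : IsP1 e y g f t) (N : Submodule A (F × T))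
    (hN : N ≤ H0 f t) (hfg : N.FG)
    (hF : ∀ x : F, ∃ k, x ∈ Fk e (N.map (LinearMap.fst A F T)) k)
    (hT : ∀ z : T, ∃ k, z ∈ Fk y (N.map (LinearMap.snd A F T)) k) :
    ∃ K, ∀ x z, f x = t z → x ∈ Fk e (N.map (LinearMap.fst A F T)) K := by
  have hnoe : IsNoetherian A N := isNoetherian_of_fg_of_noetherian N hfg
  let D : ℕ → Submodule A N := fun k =>
    (Fk e (N.map (LinearMap.fst A F T)) k).comap
      ((e ^ k) ∘ₗ (LinearMap.fst A F T) ∘ₗ N.subtype)
  have hDm : ∀ (k : ℕ) (p : N), p ∈ D k ↔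
      (e ^ k) (p : F × T).1 ∈ Fk e (N.map (LinearMap.fst A F T)) k := fun k p => Iff.rfl
  have hmono : Monotone D := by
    refine monotone_nat_of_le_succ fun k p hp => ?_
    rw [hDm] at hp ⊢
    rw [pow_succ', Module.End.mul_apply]
    exact Fk_e e _ k _ hp
  obtain ⟨K, hK⟩ := monotone_stabilizes_iff_noetherian.mpr hnoe ⟨D, hmono⟩
  have hall : ∀ n, D n ≤ D K := by
    intro n
    have h1 : D n ≤ D (max n K) := hmono (le_max_left n K)
    have h2 : D K = D (max n K) := hK (max n K) (le_max_right n K)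
    rw [h2]
    exact h1
  refine ⟨K + 1, ?_⟩
  have key : ∀ i : ℕ, ∀ x z, f x = t z →
      x ∈ Fk e (N.map (LinearMap.fst A F T)) (K + 1 + i) →
      x ∈ Fk e (N.map (LinearMap.fst A F T)) (K + 1) := by
    intro i
    induction i with
    | zero => exact fun x z _ hx => hx
    | succ i ih =>
      intro x z hxz hx
      apply ih x z hxz
      obtain ⟨a, ha, b, hb, rfl⟩ := Submodule.mem_sup.1 hx
      obtain ⟨p', hp', rfl⟩ := hb
      obtain ⟨p, hp, rfl⟩ := hp'
      obtain ⟨m, hm⟩ := hT z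
      obtain ⟨w, hw, hw2⟩ := lift_T h N hN m z hm
      have h0 : f ((e ^ m) (a + (e ^ (K + 1 + i)) p.1) - w) = 0 := by
        rw [map_sub, ← f_pow h, ← hw2, sub_eq_zero]
        exact congrArg (g ^ m) hxz
      obtain ⟨j, hj⟩ := h.f2 _ h0
      have h1 : (e ^ (j + m + (K + 1 + i))) p.1 = (e ^ j) w - (e ^ (j + m)) a := by
        rw [map_sub, sub_eq_zero, ← Module.End.mul_apply, ← pow_add, map_add,
          ← Module.End.mul_apply, ← pow_add] at hj
        rw [← hj]
        abel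
      have h2 : (e ^ (j + m + (K + 1 + i))) p.1 ∈
          Fk e (N.map (LinearMap.fst A F T)) (j + m + (K + 1 + i)) := by
        rw [h1]
        refine sub_mem ?_ ?_
        · exact Fk_mono e _ (by omega) (Fk_pow e _ (m + 1) j hw)
        · exact Fk_mono e _ (by omega) (Fk_pow e _ (K + 1 + i) (j + m) ha)
      have h3 : (⟨p, hp⟩ : N) ∈ D (K + 1 + i) :=
        hmono (by omega : K ≤ K + 1 + i) (hall _ ((hDm _ ⟨p, hp⟩).2 h2))
      exact add_mem ha ((hDm _ _).1 h3)
  intro x z hxz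
  obtain ⟨k, hk⟩ := hF x
  exact key k x z hxz (Fk_mono e _ (by omega) hk)

end P1

end FGN_

open FGN_ in
theorem fgn_proof (hGNR : Stmt_GNR) : Stmt_FGN := by
  intro A _ _ F T B _ _ _ _ _ _ e y g f t h hF hT hR
  obtain ⟨g1, g2⟩ := hGNR A F T B e y g f t h hR
  obtain ⟨N1, a1, b1, c1⟩ := all_fin e (H0 f t) (LinearMap.fst A F T) g1 hF
  obtain ⟨N2, a2, b2, c2⟩ := all_fin y (H0 f t) (LinearMap.snd A F T) g2 hT
  have hN : N1 ⊔ N2 ≤ H0 f t := sup_le a1 a2
  have hfg : (N1 ⊔ N2).FG := b1.sup b2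
  have hF' : ∀ x : F, ∃ k, x ∈ Fk e ((N1 ⊔ N2).map (LinearMap.fst A F T)) k := fun x =>
    exists_Fk e _ (Ge_mono e (Submodule.map_mono le_sup_left) (c1 x))
  have hT' : ∀ x : T, ∃ k, x ∈ Fk y ((N1 ⊔ N2).map (LinearMap.snd A F T)) k := fun x =>
    exists_Fk y _ (Ge_mono y (Submodule.map_mono le_sup_right) (c2 x))
  obtain ⟨K, hK⟩ := bdd h (N1 ⊔ N2) hN hfg hF' hT'
  -- the other chart
  let c : (F × T) ≃ₗ[A] (T × F) := LinearEquiv.prodComm A F T
  have hmf : ((N1 ⊔ N2).map c.toLinearMap).map (LinearMap.fst A T F) =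
      (N1 ⊔ N2).map (LinearMap.snd A F T) := by
    rw [← Submodule.map_comp]
    rfl
  have hms : ((N1 ⊔ N2).map c.toLinearMap).map (LinearMap.snd A T F) =
      (N1 ⊔ N2).map (LinearMap.fst A F T) := by
    rw [← Submodule.map_comp]
    rfl
  have hN' : (N1 ⊔ N2).map c.toLinearMap ≤ H0 t f := by
    rintro _ ⟨p, hp, rfl⟩
    have h1 : f p.1 = t p.2 := hN hp
    exact h1.symm
  obtain ⟨K', hK'⟩ := bdd (swap h) ((N1 ⊔ N2).map c.toLinearMap) hN' (hfg.map _)
    (by rw [hmf]; exact hT') (by rw [hms]; exact hF')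
  rw [hmf] at hK'
  have hle : H0 f t ≤ (Fk e ((N1 ⊔ N2).map (LinearMap.fst A F T)) K).prod
      (Fk y ((N1 ⊔ N2).map (LinearMap.snd A F T)) K') := by
    intro p hp
    have hp1 : f p.1 = t p.2 := hp
    exact ⟨hK p.1 p.2 hp1, hK' p.2 p.1 hp1.symm⟩
  have hfg2 : ((Fk e ((N1 ⊔ N2).map (LinearMap.fst A F T)) K).prod
      (Fk y ((N1 ⊔ N2).map (LinearMap.snd A F T)) K')).FG :=
    (Fk_fg e _ (hfg.map _) K).prod (Fk_fg y _ (hfg.map _) K')
  have hno : IsNoetherian A ((Fk e ((N1 ⊔ N2).map (LinearMap.fst A F T)) K).prod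
      (Fk y ((N1 ⊔ N2).map (LinearMap.snd A F T)) K')) :=
    isNoetherian_of_fg_of_noetherian _ hfg2
  exact isNoetherian_submodule.1 hno _ hle

end Pool.CRD.G
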