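import Pool.Agent.CRD.G.StmtsC
import Pool.Agent.CRD.Fib.XFR

/-!
# CRD, area G, module FLX
-/

set_option autoImplicit false

open CategoryTheory Opposite Limits TensorProduct MonoidalCategory

namespace Pool.CRD.G

/-- FLX: the charts of `X` are flat over the charts of `S` -/
theorem flx_proof (_hSTF : Stmt_STF) (_hIDP : Stmt_IDP) : Stmt_FLX := by
  intro K _ c₁ c₂ S X t
  letI := (X.prA t.unop).toRingHom.toAlgebra
  have h : Module.Free (S.A t.unop.i t.unop.j) (X.A t.unop.i t.unop.j t.unop.k) :=
    FB.xfr_proof K c₁ c₂ S X t.unop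
  have h2 : Module.Flat (S.A t.unop.i t.unop.j) (X.A t.unop.i t.unop.j t.unop.k) := inferInstance
  exact h2

end Pool.CRD.G
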