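import Pool.Agent.CRD.G.KCL

/-!
# CRD, area G, FTC: for a module which is fibrewise `N ⊗ O` the counit is bijective
-/

set_option autoImplicit false

open CategoryTheory Opposite Limits TensorProduct MonoidalCategory

namespace Pool.CRD.G

namespace FTC_

open KCL_

variable {K : Type} [Field K] {c₁ c₂ : CurveData K} {S : SurfData c₁ c₂} {X : ConicData S}
  (M : PMod X.R) (s : Ch2)

/-- pure tensor in the pull back of the push forward -/
noncomputable def btS (k : Cov Bool) (z : X.A s.i s.j k) (m : Gam M s) :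
    Sc (X.pbS.obj (push M)) s k :=
  into (X.pbS.obj (push M)) s k
    (bt (X.pr.hom (op (c3 s k))) z (show (push M).obj (X.pr.m.op.obj (op (c3 s k))) from m) :
      BT (X.pr.hom (op (c3 s k))) ((push M).obj (X.pr.m.op.obj (op (c3 s k)))))

theorem cou_btS (k : Cov Bool) (z : X.A s.i s.j k) (m : Gam M s) :
    apS (cou M) s k (btS M s k z m) = z • m.1 k :=
  cou_bt M (op (c3 s k)) z (show (push M).obj (X.pr.m.op.obj (op (c3 s k))) from m)

theorem btS_add_left (k : Cov Bool) (z z' : X.A s.i s.j k) (m : Gam M s) :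
    btS M s k (z + z') m = btS M s k z m + btS M s k z' m :=
  bt_add_left (X.pr.hom (op (c3 s k))) z z'
    (show (push M).obj (X.pr.m.op.obj (op (c3 s k))) from m)

theorem btS_add_right (k : Cov Bool) (z : X.A s.i s.j k) (m m' : Gam M s) :
    btS M s k z (m + m') = btS M s k z m + btS M s k z m' :=
  bt_add_right (X.pr.hom (op (c3 s k))) z
    (show (push M).obj (X.pr.m.op.obj (op (c3 s k))) from m)
    (show (push M).obj (X.pr.m.op.obj (op (c3 s k))) from m')

theorem btS_smul (k : Cov Bool) (a : S.A s.i s.j) (z : X.A s.i s.j k) (m : Gam M s) :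
    btS M s k z (a • m) = btS M s k (inc X s k a * z) m :=
  bt_smul_right (X.pr.hom (op (c3 s k))) z a
    (show (push M).obj (X.pr.m.op.obj (op (c3 s k))) from m)

theorem btS_ind (k : Cov Bool) {P : Sc (X.pbS.obj (push M)) s k → Prop} (h0 : P 0)
    (h1 : ∀ z m, P (btS M s k z m)) (h2 : ∀ x y, P x → P y → P (x + y))
    (x : Sc (X.pbS.obj (push M)) s k) : P x :=
  bt_induction (X.pr.hom (op (c3 s k))) (M := (push M).obj (X.pr.m.op.obj (op (c3 s k))))
    (P := P) h0 h1 h2 x

/-- forget the type synonym -/
def unS (k : Cov Bool) (z : Sc (𝟙_ (PMod X.R)) s k) : X.A s.i s.j k := z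

theorem unS_one (k : Cov Bool) (z : Sc (𝟙_ (PMod X.R)) s k) : z = unS s k z • one1 X s k :=
  (mul_one (unS s k z)).symm

theorem unS_smul (k : Cov Bool) (a : S.A s.i s.j) (z : Sc (𝟙_ (PMod X.R)) s k) :
    unS s k (a • z) = inc X s k a * unS s k z := rfl

theorem unS_smul_one (k : Cov Bool) (z : X.A s.i s.j k) :
    unS s k (z • one1 X s k) = z := mul_one z

variable {N : Type} [AddCommGroup N] [Module (S.A s.i s.j) N] (T : FT (𝟙_ (PMod X.R)) M s N)

/-- the global sections of `M` -/
noncomputable def phi : N →ₗ[S.A s.i s.j] Gam M s where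
  toFun n := ⟨fun k => T.u k n (one1 X s k), fun k k' h => T.nat k k' h n (one1 X s k)⟩
  map_add' n m := Subtype.ext (funext fun k => by
    have h := LinearMap.congr_fun (map_add (T.u k) n m) (one1 X s k)
    exact h)
  map_smul' a n := Subtype.ext (funext fun k => by
    have h := LinearMap.congr_fun (map_smul (T.u k) a n) (one1 X s k)
    exact h)

/-- the comparison map -/
noncomputable def psi (k : Cov Bool) :
    N ⊗[S.A s.i s.j] Sc (𝟙_ (PMod X.R)) s k →+ Sc (X.pbS.obj (push M)) s k :=
  TensorProduct.liftAddHom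
    { toFun := fun n =>
        { toFun := fun z => btS M s k (unS s k z) (phi M s T n)
          map_zero' := by
            have h := btS_add_left M s k 0 0 (phi M s T n)
            rw [add_zero] at h
            exact left_eq_add.1 h
          map_add' := fun x y => btS_add_left M s k x y (phi M s T n) }
      map_zero' := by
        ext z
        have h := btS_add_right M s k (unS s k z) 0 0
        rw [add_zero] at h
        have h2 := left_eq_add.1 h
        change btS M s k (unS s k z) (phi M s T 0) = 0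
        rw [map_zero]
        exact h2
      map_add' := fun n m => by
        ext z
        change btS M s k (unS s k z) (phi M s T (n + m)) = _
        rw [map_add, btS_add_right]
        rfl }
    (fun a n z => by
      change btS M s k (unS s k z) (phi M s T (a • n)) = btS M s k (unS s k (a • z)) (phi M s T n)
      rw [map_smul, btS_smul, unS_smul])

theorem psi_tmul (k : Cov Bool) (n : N) (z : Sc (𝟙_ (PMod X.R)) s k) :
    psi M s T k (n ⊗ₜ z) = btS M s k (unS s k z) (phi M s T n) := rfl

theorem cou_psi (k : Cov Bool) (x : N ⊗[S.A s.i s.j] Sc (𝟙_ (PMod X.R)) s k) :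
    apS (cou M) s k (psi M s T k x) = TensorProduct.lift (T.u k) x := by
  induction x using TensorProduct.induction_on with
  | zero => rw [map_zero, map_zero, apS_zero]
  | tmul n z =>
    rw [psi_tmul, cou_btS, TensorProduct.lift.tmul]
    conv_rhs => rw [unS_one s k z, T.lin]
    rfl
  | add x y hx hy => rw [map_add, map_add, apS_add, hx, hy]

theorem psi_surj (hFTG : Stmt_FTG) (k : Cov Bool) : Function.Surjective (psi M s T k) := by
  intro x
  refine btS_ind M s k (P := fun x => ∃ y, psi M s T k y = x) ⟨0, map_zero _⟩ ?_ ?_ x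
  · intro z m
    obtain ⟨n, hn, _⟩ := (hFTG K c₁ c₂ S X M s N T).2 m.1 m.2
    refine ⟨n ⊗ₜ (z • one1 X s k), ?_⟩
    rw [psi_tmul, unS_smul_one]
    congr 1
    exact Subtype.ext (funext hn)
  · rintro _ _ ⟨x, rfl⟩ ⟨y, rfl⟩
    exact ⟨x + y, map_add _ _ _⟩

end FTC_

open FTC_ in
theorem ftc_proof (hFTG : Stmt_FTG) : Stmt_FTC := by
  intro K _ c₁ c₂ S X M s N _ _ ⟨T⟩ k
  constructor
  · intro x y hxy
    obtain ⟨x', rfl⟩ := psi_surj M s T hFTG k x
    obtain ⟨y', rfl⟩ := psi_surj M s T hFTG k y
    have h : TensorProduct.lift (T.u k) x' = TensorProduct.lift (T.u k) y' := by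
      rw [← cou_psi, ← cou_psi]
      exact hxy
    rw [(T.bij k).1 h]
  · intro y
    obtain ⟨x, hx⟩ := (T.bij k).2 y
    exact ⟨psi M s T k x, (cou_psi M s T k x).trans hx⟩

end Pool.CRD.G
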