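import Pool.Agent.CRD.G.StmtsC

/-!
# CRD, area G, module FTG: cohomology of a module which is fibrewise `N ⊗ O`
-/

set_option autoImplicit false

open CategoryTheory Opposite Limits TensorProduct MonoidalCategory

namespace Pool.CRD.G

namespace FTG_

section abs

variable {A N F T B MF MT MB : Type} [CommRing A] [AddCommGroup N] [Module A N]
  [AddCommGroup F] [Module A F] [AddCommGroup T] [Module A T] [AddCommGroup B] [Module A B]
  [AddCommGroup MF] [Module A MF] [AddCommGroup MT] [Module A MT] [AddCommGroup MB] [Module A MB]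

/-- two linear maps on `N ⊗ F ≃ M` agree if they agree on the `u n x` -/
theorem ext_u {M P : Type} [AddCommGroup M] [Module A M] [AddCommGroup P] [Module A P]
    (u : N →ₗ[A] F →ₗ[A] M) (hu : Function.Surjective (TensorProduct.lift u))
    (g h : M →ₗ[A] P) (H : ∀ n x, g (u n x) = h (u n x)) : g = h := by
  have h1 : g ∘ₗ TensorProduct.lift u = h ∘ₗ TensorProduct.lift u := by
    refine TensorProduct.ext' fun n x => ?_
    rw [LinearMap.comp_apply, LinearMap.comp_apply, TensorProduct.lift.tmul]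
    exact H n x
  refine LinearMap.ext fun m => ?_
  obtain ⟨w, rfl⟩ := hu m
  exact LinearMap.congr_fun h1 w

/-- a linear map on `N ⊗ F ≃ M` -/
theorem exists_u {M P : Type} [AddCommGroup M] [Module A M] [AddCommGroup P] [Module A P]
    (u : N →ₗ[A] F →ₗ[A] M) (hu : Function.Bijective (TensorProduct.lift u))
    (v : N →ₗ[A] F →ₗ[A] P) : ∃ g : M →ₗ[A] P, ∀ n x, g (u n x) = v n x := by
  let e := LinearEquiv.ofBijective (TensorProduct.lift u) hu
  refine ⟨TensorProduct.lift v ∘ₗ e.symm.toLinearMap, fun n x => ?_⟩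
  have h1 : e (n ⊗ₜ[A] x) = u n x := TensorProduct.lift.tmul _ _
  rw [← h1, LinearMap.comp_apply, LinearEquiv.coe_coe, LinearEquiv.symm_apply_apply,
    TensorProduct.lift.tmul]

theorem bij_compl {F' M : Type} [AddCommGroup F'] [Module A F'] [AddCommGroup M] [Module A M]
    (u : N →ₗ[A] F →ₗ[A] M) (e : F' ≃ₗ[A] F) (hu : Function.Bijective (TensorProduct.lift u)) :
    Function.Bijective (TensorProduct.lift (u.compl₂ e.toLinearMap)) := by
  have h1 : TensorProduct.lift (u.compl₂ e.toLinearMap) =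
      TensorProduct.lift u ∘ₗ (LinearEquiv.lTensor N e).toLinearMap :=
    TensorProduct.ext' fun n x => rfl
  rw [h1, LinearMap.coe_comp]
  exact hu.comp (LinearEquiv.lTensor N e).bijective

theorem main (f : F →ₗ[A] B) (t : T →ₗ[A] B) (iF : A →ₗ[A] F) (iT : A →ₗ[A] T)
    (ρ : (F × T) →ₗ[A] A) (σF : B →ₗ[A] F) (σT : B →ₗ[A] T)
    (h1 : ρ (iF 1, iT 1) = 1) (h2 : ∀ b, f (σF b) - t (σT b) = b)
    (h3 : ∀ x y, iF (ρ (x, y)) + σF (f x - t y) = x)
    (h4 : ∀ x y, iT (ρ (x, y)) + σT (f x - t y) = y)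
    (uF : N →ₗ[A] F →ₗ[A] MF) (uT : N →ₗ[A] T →ₗ[A] MT) (uB : N →ₗ[A] B →ₗ[A] MB)
    (bF : Function.Bijective (TensorProduct.lift uF))
    (bT : Function.Bijective (TensorProduct.lift uT))
    (bB : Function.Bijective (TensorProduct.lift uB))
    (fM : MF →ₗ[A] MB) (tM : MT →ₗ[A] MB)
    (hf : ∀ n x, fM (uF n x) = uB n (f x)) (ht : ∀ n x, tM (uT n x) = uB n (t x)) :
    (∀ b, ∃ x y, b = fM x + tM y) ∧
      (∀ x y, fM x = tM y → ∃ n, x = uF n (iF 1) ∧ y = uT n (iT 1)) ∧
      ∀ n n', uF n (iF 1) = uF n' (iF 1) → uT n (iT 1) = uT n' (iT 1) → n = n' := by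
  obtain ⟨SF, hSF⟩ := exists_u uB bB (uF.compl₂ σF)
  obtain ⟨ST, hST⟩ := exists_u uB bB (uT.compl₂ σT)
  obtain ⟨RF, hRF⟩ := exists_u uF bF
    ((LinearMap.lsmul A N).flip.compl₂ (ρ ∘ₗ LinearMap.inl A F T))
  obtain ⟨RT, hRT⟩ := exists_u uT bT
    ((LinearMap.lsmul A N).flip.compl₂ (ρ ∘ₗ LinearMap.inr A F T))
  have hSF' : ∀ n x, SF (uB n x) = uF n (σF x) := hSF
  have hST' : ∀ n x, ST (uB n x) = uT n (σT x) := hST
  have hRF' : ∀ n x, RF (uF n x) = ρ (x, 0) • n := hRF
  have hRT' : ∀ n x, RT (uT n x) = ρ (0, x) • n := hRT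
  have k2 : fM ∘ₗ SF - tM ∘ₗ ST = LinearMap.id := by
    refine ext_u uB bB.2 _ _ fun n b => ?_
    simp only [LinearMap.sub_apply, LinearMap.comp_apply, LinearMap.id_apply]
    rw [hSF', hST', hf, ht, ← map_sub, h2]
  have e1 : ∀ n (a : A), a • uF n (iF 1) = uF n (iF a) := by
    intro n a
    rw [← map_smul, ← map_smul, smul_eq_mul, mul_one]
  have e2 : ∀ n (a : A), a • uT n (iT 1) = uT n (iT a) := by
    intro n a
    rw [← map_smul, ← map_smul, smul_eq_mul, mul_one]
  have k3 : uF.flip (iF 1) ∘ₗ RF + SF ∘ₗ fM = LinearMap.id := by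
    refine ext_u uF bF.2 _ _ fun n x => ?_
    simp only [LinearMap.add_apply, LinearMap.comp_apply, LinearMap.id_apply,
      LinearMap.flip_apply]
    have := h3 x 0
    rw [map_zero, sub_zero] at this
    rw [hRF', hf, hSF', map_smul, LinearMap.smul_apply, e1, ← map_add, this]
  have k3' : uF.flip (iF 1) ∘ₗ RT - SF ∘ₗ tM = 0 := by
    refine ext_u uT bT.2 _ _ fun n x => ?_
    simp only [LinearMap.sub_apply, LinearMap.comp_apply, LinearMap.zero_apply,
      LinearMap.flip_apply]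
    have := h3 0 x
    rw [map_zero, zero_sub, map_neg, ← sub_eq_add_neg] at this
    rw [hRT', ht, hSF', map_smul, LinearMap.smul_apply, e1, ← map_sub, this, map_zero]
  have k4 : uT.flip (iT 1) ∘ₗ RF + ST ∘ₗ fM = 0 := by
    refine ext_u uF bF.2 _ _ fun n x => ?_
    simp only [LinearMap.add_apply, LinearMap.comp_apply, LinearMap.zero_apply,
      LinearMap.flip_apply]
    have := h4 x 0
    rw [map_zero, sub_zero] at this
    rw [hRF', hf, hST', map_smul, LinearMap.smul_apply, e2, ← map_add, this, map_zero]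
  have k4' : uT.flip (iT 1) ∘ₗ RT - ST ∘ₗ tM = LinearMap.id := by
    refine ext_u uT bT.2 _ _ fun n x => ?_
    simp only [LinearMap.sub_apply, LinearMap.comp_apply, LinearMap.id_apply,
      LinearMap.flip_apply]
    have := h4 0 x
    rw [map_zero, zero_sub, map_neg, ← sub_eq_add_neg] at this
    rw [hRT', ht, hST', map_smul, LinearMap.smul_apply, e2, ← map_sub, this]
  refine ⟨fun b => ⟨SF b, -ST b, ?_⟩, fun x y hxy => ⟨RF x + RT y, ?_, ?_⟩, ?_⟩
  · have := LinearMap.congr_fun k2 b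
    simp only [LinearMap.sub_apply, LinearMap.comp_apply, LinearMap.id_apply] at this
    rw [map_neg, ← sub_eq_add_neg, this]
  · have h5 := LinearMap.congr_fun k3 x
    have h6 := LinearMap.congr_fun k3' y
    simp only [LinearMap.add_apply, LinearMap.sub_apply, LinearMap.comp_apply,
      LinearMap.id_apply, LinearMap.zero_apply, LinearMap.flip_apply] at h5 h6
    rw [map_add, LinearMap.add_apply, sub_eq_zero.1 h6, ← hxy, h5]
  · have h5 := LinearMap.congr_fun k4 x
    have h6 := LinearMap.congr_fun k4' y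
    simp only [LinearMap.add_apply, LinearMap.sub_apply, LinearMap.comp_apply,
      LinearMap.id_apply, LinearMap.zero_apply, LinearMap.flip_apply] at h5 h6
    rw [map_add, LinearMap.add_apply, eq_neg_of_add_eq_zero_left h5, hxy, neg_add_eq_sub, h6]
  · intro n n' h5 h6
    have key : ∀ n, RF (uF n (iF 1)) + RT (uT n (iT 1)) = n := by
      intro n
      rw [hRF', hRT', ← add_smul, ← map_add, Prod.mk_add_mk, add_zero, zero_add, h1, one_smul]
    rw [← key n, h5, h6, key]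

end abs

theorem unit_rs {K : Type} [Field K] {C : Type} [SmallCategory C] (R : PAlg K C) {X Y : Cᵒᵖ}
    (f : X ⟶ Y) (x : (𝟙_ (PMod R)).obj X) :
    rs (𝟙_ (PMod R)) f x = (R.toRing.map f (x : R.toRing.obj X) : R.toRing.obj Y) := rfl

variable {K : Type} [Field K] {c₁ c₂ : CurveData K} {S : SurfData c₁ c₂} (X : ConicData S)

/-- functions as sections of the structure sheaf -/
noncomputable def fr (s : Ch2) (k : Cov Bool) :
    X.A s.i s.j k ≃ₗ[S.A s.i s.j] Sc (𝟙_ (PMod X.R)) s k where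
  toFun x := into (𝟙_ (PMod X.R)) s k (toR X (c3 s k) x)
  invFun x := x
  left_inv _ := rfl
  right_inv _ := rfl
  map_add' _ _ := rfl
  map_smul' _ _ := rfl

theorem fr_apply (s : Ch2) (k : Cov Bool) (x : X.A s.i s.j k) :
    fr X s k x = into (𝟙_ (PMod X.R)) s k (toR X (c3 s k) x) := rfl

theorem rk_fr (s : Ch2) {k k' : Cov Bool} (h : k' ≤ k) (x : X.A s.i s.j k) :
    rk (𝟙_ (PMod X.R)) s h (fr X s k x) =
      fr X s k' ⟨x.1, X.A_mono (le_refl s).1 (le_refl s).2 h x.2⟩ := by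
  rw [rk_apply, fr_apply, fr_apply]
  unfold rg
  refine congrArg (into _ s k') ?_
  refine (unit_rs X.R (homOfLE (c3_mono (le_refl s) h)).op _).trans ?_
  exact map_toR (c3_mono (le_refl s) h) x

theorem fr_one (s : Ch2) (k : Cov Bool) : fr X s k 1 = one1 X s k := rfl

end FTG_

open FTG_ in
theorem ftg_proof (hSPL : Stmt_SPL) : Stmt_FTG := by
  intro K _ c₁ c₂ S X M s N _ _ T
  obtain ⟨-, ρ, σ, h1, h2, h3⟩ := hSPL K c₁ c₂ S X s
  have hone : ∀ k, fr X s k (inc X s k 1) = one1 X s k := fun k => by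
    rw [map_one, fr_one]
  have hrk : ∀ (k : Cov Bool) (h : cab ≤ k) (x : X.A s.i s.j k) (b : X.A s.i s.j cab),
      (b : X.E) = (x : X.E) →
      (fr X s cab).symm (rk (𝟙_ (PMod X.R)) s h (fr X s k x)) = b := by
    intro k h x b hb
    rw [rk_fr, LinearEquiv.symm_apply_apply]
    exact Subtype.ext hb.symm
  obtain ⟨r1, r2, r3⟩ := main
    ((fr X s cab).symm.toLinearMap ∘ₗ rk (𝟙_ (PMod X.R)) s (cab_bot ca) ∘ₗ
      (fr X s ca).toLinearMap)
    ((fr X s cab).symm.toLinearMap ∘ₗ rk (𝟙_ (PMod X.R)) s (cab_bot cb) ∘ₗ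
      (fr X s cb).toLinearMap)
    (Algebra.linearMap (S.A s.i s.j) (X.A s.i s.j ca))
    (Algebra.linearMap (S.A s.i s.j) (X.A s.i s.j cb))
    ρ (LinearMap.fst _ _ _ ∘ₗ σ) (LinearMap.snd _ _ _ ∘ₗ σ) (h1 1)
    (fun b => by
      simp only [LinearMap.comp_apply, LinearEquiv.coe_coe, LinearMap.fst_apply,
        LinearMap.snd_apply]
      rw [hrk ca _ _ ⟨((σ b).1 : X.A s.i s.j ca), X.A_mono (le_refl s).1 (le_refl s).2
          (cab_bot ca) (σ b).1.2⟩ rfl,
        hrk cb _ _ ⟨((σ b).2 : X.A s.i s.j cb), X.A_mono (le_refl s).1 (le_refl s).2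
          (cab_bot cb) (σ b).2.2⟩ rfl]
      exact Subtype.ext (h2 b))
    (fun x y => by
      simp only [LinearMap.comp_apply, LinearEquiv.coe_coe, LinearMap.fst_apply]
      rw [hrk ca _ x ⟨x, X.A_mono (le_refl s).1 (le_refl s).2 (cab_bot ca) x.2⟩ rfl,
        hrk cb _ y ⟨y, X.A_mono (le_refl s).1 (le_refl s).2 (cab_bot cb) y.2⟩ rfl]
      exact (h3 (x, y) _ rfl).1)
    (fun x y => by
      simp only [LinearMap.comp_apply, LinearEquiv.coe_coe, LinearMap.snd_apply]
      rw [hrk ca _ x ⟨x, X.A_mono (le_refl s).1 (le_refl s).2 (cab_bot ca) x.2⟩ rfl,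
        hrk cb _ y ⟨y, X.A_mono (le_refl s).1 (le_refl s).2 (cab_bot cb) y.2⟩ rfl]
      exact (h3 (x, y) _ rfl).2)
    ((T.u ca).compl₂ (fr X s ca).toLinearMap) ((T.u cb).compl₂ (fr X s cb).toLinearMap)
    ((T.u cab).compl₂ (fr X s cab).toLinearMap)
    (bij_compl _ _ (T.bij ca)) (bij_compl _ _ (T.bij cb)) (bij_compl _ _ (T.bij cab))
    (rk M s (cab_bot ca)) (rk M s (cab_bot cb))
    (fun n x => by
      simp only [LinearMap.comp_apply, LinearEquiv.coe_coe, LinearMap.compl₂_apply]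
      rw [T.nat ca cab (cab_bot ca), LinearEquiv.apply_symm_apply])
    (fun n x => by
      simp only [LinearMap.comp_apply, LinearEquiv.coe_coe, LinearMap.compl₂_apply]
      rw [T.nat cb cab (cab_bot cb), LinearEquiv.apply_symm_apply])
  have hu : ∀ k n, ((T.u k).compl₂ (fr X s k).toLinearMap) n
      (Algebra.linearMap (S.A s.i s.j) (X.A s.i s.j k) 1) = T.u k n (one1 X s k) := by
    intro k n
    rw [← hone]
    rfl
  refine ⟨r1, fun m hm => ?_⟩
  have ha : rk M s (cab_bot ca) (m ca) = m cab := hm ca cab (cab_bot ca)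
  have hb : rk M s (cab_bot cb) (m cb) = m cab := hm cb cab (cab_bot cb)
  obtain ⟨n, hn1, hn2⟩ := r2 (m ca) (m cb) (ha.trans hb.symm)
  rw [hu] at hn1 hn2
  refine ⟨n, fun k => ?_, fun n' hn' => r3 n' n ?_ ?_⟩
  · rcases cov_bool_cases k with rfl | rfl | rfl
    · exact hn1.symm
    · exact hn2.symm
    · rw [← ha, hn1, T.nat ca cab (cab_bot ca), ← fr_one X s ca, rk_fr, ← fr_one X s cab]
      rfl
  · rw [hu, hu]
    exact (hn' ca).trans hn1
  · rw [hu, hu]
    exact (hn' cb).trans hn2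

end Pool.CRD.G
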