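import Pool.Agent.CRD.G.StmtsC

/-!
# CRD, area G, module FTI
-/

set_option autoImplicit false

open CategoryTheory Opposite Limits TensorProduct MonoidalCategory

namespace Pool.CRD.G

namespace FTI_

variable {K : Type} [Field K] {c₁ c₂ : CurveData K} {S : SurfData c₁ c₂} {X : ConicData S}

/-- a morphism on sections -/
noncomputable def apL {M M' : PMod X.R} (f : M ⟶ M') (s : Ch2) (k : Cov Bool) :
    Sc M s k →ₗ[X.A s.i s.j k] Sc M' s k where
  toFun x := apS f s k x
  map_add' x y := (f.app (op (c3 s k))).hom.map_add x y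
  map_smul' z x := (f.app (op (c3 s k))).hom.map_smul z x

/-- an isomorphism on sections -/
noncomputable def isoL {M M' : PMod X.R} (e : M ≅ M') (s : Ch2) (k : Cov Bool) :
    Sc M s k ≃ₗ[X.A s.i s.j k] Sc M' s k :=
  { apL e.hom s k with
    invFun := apL e.inv s k
    left_inv := fun x => by
      change (e.hom ≫ e.inv).app (op (c3 s k)) x = x
      rw [e.hom_inv_id]; rfl
    right_inv := fun x => by
      change (e.inv ≫ e.hom).app (op (c3 s k)) x = x
      rw [e.inv_hom_id]; rfl }

lemma apL_rk {M M' : PMod X.R} (f : M ⟶ M') (s : Ch2) {k k' : Cov Bool} (h : k' ≤ k)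
    (x : Sc M s k) : rk M' s h (apL f s k x) = apL f s k' (rk M s h x) :=
  (rs_nat f (homOfLE (c3_mono (le_refl s) h)).op x).symm

end FTI_

open FTI_

/-- FTI: transport along isomorphisms -/
theorem fti_proof : Stmt_FTI := by
  intro K _ c₁ c₂ S X L M L' M' s N _ _ ⟨T⟩ ⟨eL⟩ ⟨eM⟩
  let φ : ∀ k, Sc L s k ≃ₗ[S.A s.i s.j] Sc L' s k :=
    fun k => (isoL eL s k).restrictScalars (S.A s.i s.j)
  let ψ : ∀ k, Sc M s k ≃ₗ[S.A s.i s.j] Sc M' s k :=
    fun k => (isoL eM s k).restrictScalars (S.A s.i s.j)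
  refine ⟨{ u := fun k => (T.u k).compr₂ (ψ k).toLinearMap |>.compl₂ (φ k).symm.toLinearMap
            lin := ?_, nat := ?_, bij := ?_ }⟩
  · intro k n z x
    change ψ k (T.u k n ((φ k).symm (z • x))) = z • ψ k (T.u k n ((φ k).symm x))
    have h1 : (φ k).symm (z • x) = z • (φ k).symm x := (isoL eL s k).symm.map_smul z x
    rw [h1, T.lin]
    exact (isoL eM s k).map_smul z _
  · intro k k' h n x
    change rk M' s h (ψ k (T.u k n ((φ k).symm x))) = ψ k' (T.u k' n ((φ k').symm (rk L' s h x)))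
    have h1 : rk M' s h (ψ k (T.u k n ((φ k).symm x))) =
        ψ k' (rk M s h (T.u k n ((φ k).symm x))) := apL_rk eM.hom s h _
    have h2 : rk L s h ((φ k).symm x) = (φ k').symm (rk L' s h x) := apL_rk eL.inv s h x
    rw [h1, T.nat, h2]
  · intro k
    have h1 : (TensorProduct.lift ((T.u k).compr₂ (ψ k).toLinearMap |>.compl₂
        (φ k).symm.toLinearMap) : N ⊗[S.A s.i s.j] Sc L' s k → Sc M' s k) =
        (ψ k) ∘ (TensorProduct.lift (T.u k)) ∘
        (TensorProduct.congr (LinearEquiv.refl (S.A s.i s.j) N) (φ k).symm) := by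
      have h2 : TensorProduct.lift ((T.u k).compr₂ (ψ k).toLinearMap |>.compl₂
          (φ k).symm.toLinearMap) = (ψ k).toLinearMap ∘ₗ (TensorProduct.lift (T.u k)) ∘ₗ
          (TensorProduct.congr (LinearEquiv.refl (S.A s.i s.j) N) (φ k).symm).toLinearMap := by
        apply TensorProduct.ext'
        intro n x
        rfl
      rw [h2]
      rfl
    rw [h1]
    exact (ψ k).bijective.comp ((T.bij k).comp (LinearEquiv.bijective _))

end Pool.CRD.G
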