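import Pool.Agent.CRD.G.StmtsC

/-!
# CRD, area G, module FTL: a coherent module without cohomology on the fibres is fibrewise `N ⊗ ℓ`
-/

open CategoryTheory Opposite Limits TensorProduct MonoidalCategory

namespace Pool.CRD.G

namespace FTL_

variable {K : Type} [Field K] {c₁ c₂ : CurveData K} {S : SurfData c₁ c₂} {X : ConicData S}
  {L M : PMod X.R} {s : Ch2} {k : Cov Bool}

/-- the functions with which a linear map commutes -/
def LL (φ : Sc L s k →ₗ[S.A s.i s.j] Sc M s k) : Subring (X.A s.i s.j k) where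
  carrier := {z | ∀ x, φ (z • x) = z • φ x}
  mul_mem' {a b} ha hb x := by
    rw [mul_smul, ha, hb, ← mul_smul]
  one_mem' x := by rw [one_smul, one_smul]
  add_mem' {a b} ha hb x := by
    rw [add_smul, map_add, ha, hb, ← add_smul]
  zero_mem' x := by rw [zero_smul, zero_smul, map_zero]
  neg_mem' {a} ha x := by
    rw [neg_smul, map_neg, ha, ← neg_smul]

lemma mem_LL (φ : Sc L s k →ₗ[S.A s.i s.j] Sc M s k) (z : X.A s.i s.j k) :
    z ∈ LL φ ↔ ∀ x, φ (z • x) = z • φ x := Iff.rfl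

lemma inc_mem (φ : Sc L s k →ₗ[S.A s.i s.j] Sc M s k) (a : S.A s.i s.j) : inc X s k a ∈ LL φ := by
  intro x
  rw [← Sc_smul', ← Sc_smul', map_smul]

/-- if the generators of a span are in the ring -/
lemma span_mem (φ : Sc L s k →ₗ[S.A s.i s.j] Sc M s k) (G : Set X.E)
    (hG : ∀ w ∈ G, ∃ h : w ∈ X.A s.i s.j k, (⟨w, h⟩ : X.A s.i s.j k) ∈ LL φ)
    (w : X.E) (hw : w ∈ Submodule.span (S.A s.i s.j) G) :
    ∃ h : w ∈ X.A s.i s.j k, (⟨w, h⟩ : X.A s.i s.j k) ∈ LL φ := by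
  induction hw using Submodule.span_induction with
  | mem w hw => exact hG w hw
  | zero => exact ⟨zero_mem _, (LL φ).zero_mem⟩
  | add x y _ _ hx hy =>
    obtain ⟨h1, h1'⟩ := hx
    obtain ⟨h2, h2'⟩ := hy
    exact ⟨add_mem h1 h2, (LL φ).add_mem h1' h2'⟩
  | smul a x _ hx =>
    obtain ⟨h1, h1'⟩ := hx
    have e : a • x = algebraMap S.L X.E a.1 * x := Algebra.smul_def _ _
    have h2 : a • x ∈ X.A s.i s.j k := by
      rw [e]; exact mul_mem (X.mem_of_S a.2) h1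
    refine ⟨h2, ?_⟩
    have e2 : (⟨a • x, h2⟩ : X.A s.i s.j k) = inc X s k a * ⟨x, h1⟩ := Subtype.ext e
    rw [e2]
    exact (LL φ).mul_mem (inc_mem φ a) h1'

lemma LLca (hSTF : Stmt_STF) (φ : Sc L s ca →ₗ[S.A s.i s.j] Sc M s ca)
    (h1 : etF X s ∈ LL φ) (h2 : zeF X s ∈ LL φ) (z : X.A s.i s.j ca) : z ∈ LL φ := by
  obtain ⟨h, -, -, -⟩ := hSTF K c₁ c₂ S X s
  obtain ⟨h3, h4⟩ := span_mem φ _ (by
    rintro w ⟨n, rfl | rfl⟩
    · exact ⟨pow_mem (eta_mem X s f_ca) n, (LL φ).pow_mem h1 n⟩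
    · exact ⟨mul_mem (pow_mem (eta_mem X s f_ca) n) (zeta_mem X s f_ca),
        (LL φ).mul_mem ((LL φ).pow_mem h1 n) h2⟩) z.1 (h z.1 z.2)
  exact h4

lemma LLcb (hSTF : Stmt_STF) (φ : Sc L s cb →ₗ[S.A s.i s.j] Sc M s cb)
    (h1 : yT X s ∈ LL φ) (h2 : zeT X s ∈ LL φ) (z : X.A s.i s.j cb) : z ∈ LL φ := by
  obtain ⟨-, h, -, -⟩ := hSTF K c₁ c₂ S X s
  obtain ⟨h3, h4⟩ := span_mem φ _ (by
    rintro w ⟨n, rfl | rfl⟩
    · exact ⟨pow_mem (etainv_mem X s t_cb) n, (LL φ).pow_mem h1 n⟩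
    · exact ⟨mul_mem (pow_mem (etainv_mem X s t_cb) n) (zetadiv_mem X s t_cb),
        (LL φ).mul_mem ((LL φ).pow_mem h1 n) h2⟩) z.1 (h z.1 z.2)
  exact h4

lemma LLcab (hSTF : Stmt_STF) (φ : Sc L s cab →ₗ[S.A s.i s.j] Sc M s cab)
    (h1 : etB X s ∈ LL φ) (h2 : zeB X s ∈ LL φ) (z : X.A s.i s.j cab) : z ∈ LL φ := by
  obtain ⟨h, -, h', -⟩ := hSTF K c₁ c₂ S X s
  have h5 : yB X s ∈ LL φ := by
    intro x
    have h6 := h1 (yB X s • x)
    rw [smul_smul, etB_yB, one_smul] at h6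
    rw [h6, smul_smul, yB_etB, one_smul]
  obtain ⟨n, hn⟩ := h' z.1 z.2
  obtain ⟨h3, h4⟩ := span_mem φ _ (by
    rintro w ⟨n, rfl | rfl⟩
    · exact ⟨pow_mem (eta_mem X s f_cab) n, (LL φ).pow_mem h1 n⟩
    · exact ⟨mul_mem (pow_mem (eta_mem X s f_cab) n) (zeta_mem X s f_cab),
        (LL φ).mul_mem ((LL φ).pow_mem h1 n) h2⟩) _ (h _ hn)
  have h7 : z = yB X s ^ n * ⟨_, h3⟩ := by
    apply Subtype.ext
    change (z : X.E) = (X.eta s.i)⁻¹ ^ n * (X.eta s.i ^ n * z.1)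
    rw [← mul_assoc, ← mul_pow, inv_mul_cancel₀ (eta_ne X s.i), one_pow, one_mul]
  rw [h7]
  exact (LL φ).mul_mem ((LL φ).pow_mem h5 n) h4

lemma rk_id (M : PMod X.R) (h : k ≤ k) (x : Sc M s k) : rk M s h x = x := rg_id M x

lemma ex_ca {A N F F' : Type} [CommRing A] [AddCommGroup N] [Module A N] [AddCommGroup F]
    [Module A F] [AddCommGroup F'] [Module A F'] (u : N ⊗[A] F ≃ₗ[A] F') :
    Function.Bijective (TensorProduct.lift ((TensorProduct.mk A N F).compr₂ u.toLinearMap)) := by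
  have : TensorProduct.lift ((TensorProduct.mk A N F).compr₂ u.toLinearMap) = u.toLinearMap := by
    apply TensorProduct.ext'
    intro x y
    rw [TensorProduct.lift.tmul]
    rfl
  rw [this]
  exact u.bijective

lemma unit_p (S : SurfData c₁ c₂) (s : Ch2) : IsUnit (pE S s) := by
  refine IsUnit.of_mul_eq_one ⟨_, pinv_mem S s⟩ ?_
  exact Subtype.ext (mul_inv_cancel₀ (pS_ne S s))

lemma unit_q (S : SurfData c₁ c₂) (s : Ch2) : IsUnit (qE S s) := by
  refine IsUnit.of_mul_eq_one ⟨_, qinv_mem S s⟩ ?_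
  refine Subtype.ext (mul_inv_cancel₀ ?_)
  change qS S s ≠ 0
  unfold qS
  exact mul_ne_zero (neg_ne_zero.2 (div_ne_zero (x1_ne S) (x2_ne S)))
    (pow_ne_zero 2 (div_ne_zero (h2_ne S s.j) (h1_ne S s.i)))

lemma unit_2 [CharZero K] (S : SurfData c₁ c₂) (s : Ch2) : IsUnit (2 : S.A s.i s.j) := by
  have h : IsUnit (2 : K) := isUnit_iff_ne_zero.2 two_ne_zero
  have h2 := h.map (algebraMap K (S.A s.i s.j))
  rwa [map_ofNat] at h2

end FTL_

open FTL_ in
theorem ftl_proof (hCHP : Stmt_CHP) (hLFO : Stmt_LFO) (hGDL : Stmt_GDL) (hSTF : Stmt_STF) :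
    Stmt_FTL := by
  intro K _ _ _ c₁ c₂ S _ X a b I hI hIc M hM s h0 h1
  obtain ⟨hL, -, -⟩ := hCHP K c₁ c₂ S X (lbX I) hIc s
  obtain ⟨hC, -, -⟩ := hCHP K c₁ c₂ S X M hM s
  obtain ⟨g0, g1, g2⟩ := hGDL K c₁ c₂ S X a b I hI s
  obtain ⟨N, i1, i2, uF, uT, uB, e1, e2, e3, e4, e5, e6, e7, e8⟩ := hLFO (S.A s.i s.j) (pE S s)
    (qE S s) _ _ _ _ _ _ _ _ _ _ _ _ _ _ _ _ _ _ _ _ _ _ (unit_2 S s) (unit_p S s)
    (unit_q S s) hL g0 g1 hC h0 h1 g2
  refine ⟨N, i1, i2, ?_⟩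
  have H : ∀ k : Cov Bool, ∃ u : N →ₗ[S.A s.i s.j] Sc (lbX I) s k →ₗ[S.A s.i s.j] Sc M s k,
      (∀ (n : N) (z : X.A s.i s.j k) (x : Sc (lbX I) s k), u n (z • x) = z • u n x) ∧
      (∀ (n : N) (x : Sc (lbX I) s k),
        rk M s (cab_bot k) (u n x) = uB (n ⊗ₜ rk (lbX I) s (cab_bot k) x)) ∧
      Function.Bijective (TensorProduct.lift u :
        N ⊗[S.A s.i s.j] Sc (lbX I) s k →ₗ[S.A s.i s.j] Sc M s k) := by
    intro k
    rcases cov_bool_cases k with rfl | rfl | rfl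
    · refine ⟨(TensorProduct.mk _ _ _).compr₂ uF.toLinearMap, fun n z => ?_, ?_, ex_ca uF⟩
      · exact LLca hSTF _ (fun x => e1 n x) (fun x => e2 n x) z
      · intro n x
        exact (e7 n x).symm
    · refine ⟨(TensorProduct.mk _ _ _).compr₂ uT.toLinearMap, fun n z => ?_, ?_, ex_ca uT⟩
      · exact LLcb hSTF _ (fun x => e3 n x) (fun x => e4 n x) z
      · intro n x
        exact (e8 n x).symm
    · refine ⟨(TensorProduct.mk _ _ _).compr₂ uB.toLinearMap, fun n z => ?_, ?_, ex_ca uB⟩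
      · exact LLcab hSTF _ (fun x => e5 n x) (fun x => e6 n x) z
      · intro n x
        rw [rk_id, rk_id]
        rfl
  choose u hl hr hb using H
  refine ⟨⟨u, hl, ?_, hb⟩⟩
  intro k k' h n x
  have hcab : ∀ (n : N) (x : Sc (lbX I) s cab), u cab n x = uB (n ⊗ₜ x) := by
    intro n x
    have := hr cab n x
    rwa [rk_id, rk_id] at this
  have hk : k = k' ∨ k' = cab := by
    rcases cov_bool_cases k' with h' | h' | h'
    · left
      subst h'
      apply Cov.ext'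
      apply Finset.Subset.antisymm h
      intro x hx
      obtain ⟨y, hy⟩ := k.ne
      have hy' := h hy
      rw [Finset.mem_singleton.1 hx]
      rw [Finset.mem_singleton.1 hy'] at hy
      exact hy
    · left
      subst h'
      apply Cov.ext'
      apply Finset.Subset.antisymm h
      intro x hx
      obtain ⟨y, hy⟩ := k.ne
      have hy' := h hy
      rw [Finset.mem_singleton.1 hx]
      rw [Finset.mem_singleton.1 hy'] at hy
      exact hy
    · right; exact h'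
  rcases hk with rfl | rfl
  · rw [rk_id, rk_id]
  · rw [hcab]
    exact hr k n x

end Pool.CRD.G

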