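import Pool.Agent.CRD.G.StmtsC

/-!
# CRD, area G, module FTT: tensoring with a third module
-/

set_option autoImplicit false

open CategoryTheory Opposite Limits TensorProduct MonoidalCategory

namespace Pool.CRD.G

namespace FTT_

section alg

variable {A R : Type} [CommRing A] [CommRing R] [Algebra A R]
  {N L L' M : Type} [AddCommGroup N] [Module A N]
  [AddCommGroup L] [Module A L] [Module R L] [IsScalarTower A R L]
  [AddCommGroup L'] [Module A L'] [Module R L'] [IsScalarTower A R L']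
  [AddCommGroup M] [Module A M] [Module R M] [IsScalarTower A R M]

/-- the map `L ⊗ N → M`, linear over the big ring -/
noncomputable def uR (u : N →ₗ[A] L →ₗ[A] M) (lin : ∀ n (z : R) x, u n (z • x) = z • u n x) :
    L ⊗[A] N →ₗ[R] M :=
  AlgebraTensorModule.lift
    { toFun := fun x => u.flip x
      map_add' := fun x y => map_add _ _ _
      map_smul' := fun z x => by
        ext n
        exact lin n z x }

lemma uR_tmul (u : N →ₗ[A] L →ₗ[A] M) (lin : ∀ n (z : R) x, u n (z • x) = z • u n x) (x : L)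
    (n : N) : uR u lin (x ⊗ₜ n) = u n x := rfl

lemma uR_bij (u : N →ₗ[A] L →ₗ[A] M) (lin : ∀ n (z : R) x, u n (z • x) = z • u n x)
    (hu : Function.Bijective (TensorProduct.lift u)) : Function.Bijective (uR u lin) := by
  have h : ∀ t, uR u lin t = TensorProduct.lift u (TensorProduct.comm A L N t) := by
    intro t
    induction t using TensorProduct.induction_on with
    | zero => rw [map_zero, map_zero, map_zero]
    | tmul x n => rfl
    | add x y hx hy => rw [map_add, map_add, map_add, hx, hy]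
  have h2 : (uR u lin : L ⊗[A] N → M) = TensorProduct.lift u ∘ (TensorProduct.comm A L N) :=
    funext h
  rw [h2]
  exact hu.comp (TensorProduct.comm A L N).bijective

/-- the chain of isomorphisms -/
noncomputable def chain (u : N →ₗ[A] L →ₗ[A] M) (lin : ∀ n (z : R) x, u n (z • x) = z • u n x)
    (hu : Function.Bijective (TensorProduct.lift u)) :
    N ⊗[A] (L ⊗[R] L') ≃+ (M ⊗[R] L') :=
  (TensorProduct.comm A N (L ⊗[R] L')).toAddEquiv.trans
    (((AlgebraTensorModule.congr (TensorProduct.comm R L L') (LinearEquiv.refl A N)).toAddEquiv).trans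
      ((AlgebraTensorModule.assoc A R R L' L N).toAddEquiv.trans
        ((LinearEquiv.lTensor L' (LinearEquiv.ofBijective (uR u lin) (uR_bij u lin hu))).toAddEquiv.trans
          (TensorProduct.comm R L' M).toAddEquiv)))

lemma chain_tmul (u : N →ₗ[A] L →ₗ[A] M) (lin : ∀ n (z : R) x, u n (z • x) = z • u n x)
    (hu : Function.Bijective (TensorProduct.lift u)) (n : N) (x : L) (x' : L') :
    chain (L' := L') u lin hu (n ⊗ₜ (x ⊗ₜ x')) = u n x ⊗ₜ x' := rfl


variable {P P' : Type} [AddCommGroup P] [Module A P] [Module R P] [IsScalarTower A R P]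
  [AddCommGroup P'] [Module A P'] [Module R P'] [IsScalarTower A R P']

/-- `u n` as a linear map over the big ring -/
def uRn (u : N →ₗ[A] L →ₗ[A] M) (lin : ∀ n (z : R) x, u n (z • x) = z • u n x) (n : N) :
    L →ₗ[R] M where
  toFun x := u n x
  map_add' x y := map_add _ _ _
  map_smul' z x := lin n z x

/-- the new pairing, with a fixed element of `N` -/
noncomputable def un (u : N →ₗ[A] L →ₗ[A] M) (lin : ∀ n (z : R) x, u n (z • x) = z • u n x)
    (e : L ⊗[R] L' ≃ₗ[R] P) (e' : M ⊗[R] L' ≃ₗ[R] P') (n : N) : P →ₗ[R] P' :=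
  e'.toLinearMap ∘ₗ (LinearMap.rTensor L' (uRn u lin n)) ∘ₗ e.symm.toLinearMap

lemma un_e (u : N →ₗ[A] L →ₗ[A] M) (lin : ∀ n (z : R) x, u n (z • x) = z • u n x)
    (e : L ⊗[R] L' ≃ₗ[R] P) (e' : M ⊗[R] L' ≃ₗ[R] P') (n : N) (x : L) (x' : L') :
    un u lin e e' n (e (x ⊗ₜ x')) = e' (u n x ⊗ₜ x') := by
  unfold un
  rw [LinearMap.comp_apply, LinearMap.comp_apply, LinearEquiv.coe_coe, LinearEquiv.coe_coe,
    LinearEquiv.symm_apply_apply]
  rfl

lemma P_ind (e : L ⊗[R] L' ≃ₗ[R] P) {Q : P → Prop} (h0 : Q 0) (ht : ∀ x x', Q (e (x ⊗ₜ x')))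
    (ha : ∀ x y, Q x → Q y → Q (x + y)) (p : P) : Q p := by
  obtain ⟨t, rfl⟩ := e.surjective p
  induction t using TensorProduct.induction_on with
  | zero => rw [map_zero]; exact h0
  | tmul x x' => exact ht x x'
  | add x y hx hy => rw [map_add]; exact ha _ _ hx hy

/-- the new pairing -/
noncomputable def uu (u : N →ₗ[A] L →ₗ[A] M) (lin : ∀ n (z : R) x, u n (z • x) = z • u n x)
    (e : L ⊗[R] L' ≃ₗ[R] P) (e' : M ⊗[R] L' ≃ₗ[R] P') : N →ₗ[A] P →ₗ[A] P' where
  toFun n := (un u lin e e' n).restrictScalars A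
  map_add' n m := by
    ext p
    refine P_ind e (Q := fun p => (un u lin e e' (n + m)) p =
      un u lin e e' n p + un u lin e e' m p) ?_ ?_ ?_ p
    · rw [map_zero, map_zero, map_zero, add_zero]
    · intro x x'
      rw [un_e, un_e, un_e, map_add, LinearMap.add_apply, TensorProduct.add_tmul, map_add]
    · intro x y hx hy
      rw [map_add, map_add, map_add, hx, hy]
      abel
  map_smul' a n := by
    ext p
    refine P_ind e (Q := fun p => (un u lin e e' (a • n)) p =
      a • un u lin e e' n p) ?_ ?_ ?_ p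
    · rw [map_zero, map_zero, smul_zero]
    · intro x x'
      have h1 : a • e' (u n x ⊗ₜ x') = e' ((a • u n x) ⊗ₜ x') := by
        rw [← algebraMap_smul R a (u n x), ← TensorProduct.smul_tmul', e'.map_smul,
          algebraMap_smul]
      rw [un_e, un_e, h1, map_smul, LinearMap.smul_apply]
    · intro x y hx hy
      rw [map_add, map_add, hx, hy, smul_add]

lemma uu_e (u : N →ₗ[A] L →ₗ[A] M) (lin : ∀ n (z : R) x, u n (z • x) = z • u n x)
    (e : L ⊗[R] L' ≃ₗ[R] P) (e' : M ⊗[R] L' ≃ₗ[R] P') (n : N) (x : L) (x' : L') :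
    uu u lin e e' n (e (x ⊗ₜ x')) = e' (u n x ⊗ₜ x') := un_e u lin e e' n x x'

lemma uu_lin (u : N →ₗ[A] L →ₗ[A] M) (lin : ∀ n (z : R) x, u n (z • x) = z • u n x)
    (e : L ⊗[R] L' ≃ₗ[R] P) (e' : M ⊗[R] L' ≃ₗ[R] P') (n : N) (z : R) (p : P) :
    uu u lin e e' n (z • p) = z • uu u lin e e' n p := (un u lin e e' n).map_smul z p

lemma uu_bij (u : N →ₗ[A] L →ₗ[A] M) (lin : ∀ n (z : R) x, u n (z • x) = z • u n x)
    (hu : Function.Bijective (TensorProduct.lift u))
    (e : L ⊗[R] L' ≃ₗ[R] P) (e' : M ⊗[R] L' ≃ₗ[R] P') :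
    Function.Bijective (TensorProduct.lift (uu u lin e e')) := by
  let e1 : N ⊗[A] (L ⊗[R] L') ≃ₗ[A] N ⊗[A] P :=
    LinearEquiv.lTensor N (e.restrictScalars A)
  have h : ∀ t, TensorProduct.lift (uu u lin e e') (e1 t) = e' (chain (L' := L') u lin hu t) := by
    intro t
    induction t using TensorProduct.induction_on with
    | zero => rw [map_zero, map_zero, map_zero, map_zero]
    | tmul n y =>
      have h2 : e1 (n ⊗ₜ y) = n ⊗ₜ e y := rfl
      rw [h2, TensorProduct.lift.tmul]
      induction y using TensorProduct.induction_on with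
      | zero => rw [map_zero, map_zero, TensorProduct.tmul_zero, map_zero, map_zero]
      | tmul x x' => rw [uu_e, chain_tmul]
      | add x y hx hy => rw [map_add, map_add, TensorProduct.tmul_add, map_add, map_add, hx rfl, hy rfl]
    | add x y hx hy => rw [map_add, map_add, map_add, map_add, hx, hy]
  have h3 : (TensorProduct.lift (uu u lin e e') : N ⊗[A] P → P') =
      e' ∘ (chain (L' := L') u lin hu) ∘ e1.symm := by
    funext t
    have h4 := h (e1.symm t)
    rw [LinearEquiv.apply_symm_apply] at h4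
    exact h4
  rw [h3]
  exact e'.bijective.comp ((chain (L' := L') u lin hu).bijective.comp e1.symm.bijective)

end alg

section sheaf

variable {K : Type} [Field K] {c₁ c₂ : CurveData K} {S : SurfData c₁ c₂} {X : ConicData S}

/-- sections of the tensor product -/
noncomputable def eT (L L' : PMod X.R) (s : Ch2) (k : Cov Bool) :
    (Sc L s k) ⊗[X.A s.i s.j k] (Sc L' s k) ≃ₗ[X.A s.i s.j k] Sc (L ⊗ L') s k where
  toFun t := t
  invFun t := t
  map_add' _ _ := rfl
  map_smul' _ _ := rfl
  left_inv _ := rfl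
  right_inv _ := rfl

lemma rk_eT (L L' : PMod X.R) (s : Ch2) {k k' : Cov Bool} (h : k' ≤ k) (x : Sc L s k)
    (x' : Sc L' s k) :
    rk (L ⊗ L') s h (eT L L' s k (x ⊗ₜ x')) = eT L L' s k' (rk L s h x ⊗ₜ rk L' s h x') := rfl

end sheaf

end FTT_

open FTT_ in
theorem ftt_proof : Stmt_FTT := by
  intro K _ c₁ c₂ S X L M L' s N _ _ ⟨T⟩
  refine ⟨{ u := fun k => uu (T.u k) (T.lin k) (eT L L' s k) (eT M L' s k),
            lin := ?_, nat := ?_, bij := ?_ }⟩
  · intro k n z x
    exact uu_lin _ _ _ _ n z x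
  · intro k k' h n x
    refine P_ind (eT L L' s k) (Q := fun x =>
      rk (M ⊗ L') s h (uu (T.u k) (T.lin k) (eT L L' s k) (eT M L' s k) n x) =
      uu (T.u k') (T.lin k') (eT L L' s k') (eT M L' s k') n (rk (L ⊗ L') s h x)) ?_ ?_ ?_ x
    · rw [map_zero, map_zero, map_zero, map_zero]
    · intro x x'
      rw [uu_e, rk_eT, rk_eT, uu_e, T.nat]
    · intro x y hx hy
      rw [map_add, map_add, map_add, map_add, hx, hy]
  · intro k
    exact uu_bij _ _ (T.bij k) _ _

end Pool.CRD.G
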