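import Pool.Agent.CRD.G.StmtsC

/-!
# CRD, area G, FTU: the pull back of `N` is fibrewise `N ⊗ O`
-/

set_option autoImplicit false

open CategoryTheory Opposite Limits TensorProduct MonoidalCategory

namespace Pool.CRD.G

namespace FTU_

variable {K : Type} [Field K] {c₁ c₂ : CurveData K} {S : SurfData c₁ c₂} {X : ConicData S}
  (N : PMod S.R) (s : Ch2)

/-- pure tensor in the pull back -/
noncomputable def btN (k : Cov Bool) (z : X.A s.i s.j k) (n : Ss N s) : Sc (X.pbS.obj N) s k :=
  into (X.pbS.obj N) s k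
    (bt (X.pr.hom (op (c3 s k))) z (show N.obj (X.pr.m.op.obj (op (c3 s k))) from n) :
      BT (X.pr.hom (op (c3 s k))) (N.obj (X.pr.m.op.obj (op (c3 s k)))))

theorem btN_add_left (k : Cov Bool) (z z' : X.A s.i s.j k) (n : Ss N s) :
    btN N s k (z + z') n = btN N s k z n + btN N s k z' n :=
  bt_add_left (X.pr.hom (op (c3 s k))) z z' (show N.obj (X.pr.m.op.obj (op (c3 s k))) from n)

theorem btN_add_right (k : Cov Bool) (z : X.A s.i s.j k) (n n' : Ss N s) :
    btN N s k z (n + n') = btN N s k z n + btN N s k z n' :=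
  bt_add_right (X.pr.hom (op (c3 s k))) z (show N.obj (X.pr.m.op.obj (op (c3 s k))) from n)
    (show N.obj (X.pr.m.op.obj (op (c3 s k))) from n')

theorem smul_btN (k : Cov Bool) (y z : X.A s.i s.j k) (n : Ss N s) :
    y • btN N s k z n = btN N s k (y * z) n := rfl

theorem btN_smul (k : Cov Bool) (a : S.A s.i s.j) (z : X.A s.i s.j k) (n : Ss N s) :
    btN N s k z (a • n) = btN N s k (inc X s k a * z) n :=
  bt_smul_right (X.pr.hom (op (c3 s k))) z a
    (show N.obj (X.pr.m.op.obj (op (c3 s k))) from n)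

/-- forget the type synonym -/
def unS (k : Cov Bool) (z : Sc (𝟙_ (PMod X.R)) s k) : X.A s.i s.j k := z

/-- the comparison -/
noncomputable def uu (k : Cov Bool) : Ss N s →ₗ[S.A s.i s.j]
    Sc (𝟙_ (PMod X.R)) s k →ₗ[S.A s.i s.j] Sc (X.pbS.obj N) s k where
  toFun n :=
    { toFun := fun x => btN N s k (unS s k x) n
      map_add' := fun x y => btN_add_left N s k (unS s k x) (unS s k y) n
      map_smul' := fun a x => (smul_btN N s k (inc X s k a) (unS s k x) n).symm }
  map_add' n m := by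
    ext x
    exact btN_add_right N s k (unS s k x) n m
  map_smul' a n := by
    ext x
    exact btN_smul N s k a (unS s k x) n

theorem uu_apply (k : Cov Bool) (n : Ss N s) (x : Sc (𝟙_ (PMod X.R)) s k) :
    uu N s k n x = btN N s k (unS s k x) n := rfl

theorem rk_btN {k k' : Cov Bool} (h : k' ≤ k) (z : X.A s.i s.j k) (n : Ss N s) :
    rk (X.pbS.obj N) s h (btN N s k z n) =
      btN N s k' ⟨z.1, X.A_mono (le_refl _) (le_refl _) h z.2⟩ n := by
  have h1 := X.pr.bcRs_bt N (homOfLE (c3_mono (le_refl s) h)).op z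
    (show N.obj (X.pr.m.op.obj (op (c3 s k))) from n)
  refine h1.trans ?_
  have h2 : rs N (X.pr.m.op.map (homOfLE (c3_mono (le_refl s) h)).op)
      (show N.obj (X.pr.m.op.obj (op (c3 s k))) from n) = n := rs_id N _ n
  rw [h2]
  rfl

theorem lift_uu (k : Cov Bool) (x : Ss N s ⊗[S.A s.i s.j] Sc (𝟙_ (PMod X.R)) s k) :
    TensorProduct.lift (uu N s k) x = (show Sc (X.pbS.obj N) s k from
      (TensorProduct.comm (S.A s.i s.j) (Ss N s) (Sc (𝟙_ (PMod X.R)) s k) x)) := by
  induction x using TensorProduct.induction_on with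
  | zero => rw [map_zero, map_zero]; rfl
  | tmul n z => rfl
  | add x y hx hy => rw [map_add, hx, hy, map_add]; rfl

theorem uu_bij (k : Cov Bool) : Function.Bijective
    (TensorProduct.lift (uu (X := X) N s k)) := by
  have h := (TensorProduct.comm (S.A s.i s.j) (Ss N s) (Sc (𝟙_ (PMod X.R)) s k)).bijective
  constructor
  · intro x y hxy
    rw [lift_uu, lift_uu] at hxy
    exact h.1 hxy
  · intro y
    obtain ⟨x, hx⟩ := h.2 (show Sc (𝟙_ (PMod X.R)) s k ⊗[S.A s.i s.j] Ss N s from y)
    exact ⟨x, (lift_uu N s k x).trans hx⟩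

end FTU_

open FTU_ in
theorem ftu_proof : Stmt_FTU := by
  intro K _ c₁ c₂ S X N s
  refine ⟨⟨uu N s, fun k n z x => (smul_btN N s k z (unS s k x) n).symm, ?_, uu_bij N s⟩, ?_⟩
  · intro k k' h n x
    exact rk_btN N s h (unS s k x) n
  · intro k n
    rfl

end Pool.CRD.G
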