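import Pool.Agent.CRD.G.StmtsC

/-!
# CRD, area G, module FTZ
-/

set_option autoImplicit false

open CategoryTheory Opposite Limits TensorProduct MonoidalCategory

namespace Pool.CRD.G

namespace FTZ_

variable {K : Type} [Field K] {c₁ c₂ : CurveData K} {S : SurfData c₁ c₂} {X : ConicData S}

/-- the differential of the Cech complex on the fibres -/
noncomputable def dif (M : PMod X.R) (s : Ch2) :
    (Sc M s ca × Sc M s cb) →ₗ[S.A s.i s.j] Sc M s cab :=
  (rk M s (cab_bot ca)).comp (LinearMap.fst _ _ _) - (rk M s (cab_bot cb)).comp (LinearMap.snd _ _ _)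

lemma dif_apply (M : PMod X.R) (s : Ch2) (x : Sc M s ca × Sc M s cb) :
    dif M s x = rk M s (cab_bot ca) x.1 - rk M s (cab_bot cb) x.2 := rfl

lemma dif_bij_iff (M : PMod X.R) (s : Ch2) :
    Function.Bijective (dif M s) ↔ h0z M s ∧ h1z M s := by
  constructor
  · intro h
    refine ⟨fun x y hxy => ?_, fun b => ?_⟩
    · have h1 : dif M s (x, y) = dif M s 0 := by
        rw [map_zero, dif_apply]
        exact sub_eq_zero.2 hxy
      have h2 := h.1 h1
      exact ⟨congrArg Prod.fst h2, congrArg Prod.snd h2⟩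
    · obtain ⟨⟨x, y⟩, h1⟩ := h.2 b
      refine ⟨x, -y, ?_⟩
      rw [map_neg, ← h1, dif_apply, sub_eq_add_neg]
  · rintro ⟨h0, h1⟩
    constructor
    · rw [injective_iff_map_eq_zero]
      rintro ⟨x, y⟩ h
      obtain ⟨h2, h3⟩ := h0 x y (sub_eq_zero.1 h)
      rw [h2, h3]; rfl
    · intro b
      obtain ⟨x, y, h⟩ := h1 b
      refine ⟨(x, -y), ?_⟩
      rw [dif_apply, map_neg, sub_neg_eq_add, h]

end FTZ_

open FTZ_

/-- FTZ: vanishing of cohomology is preserved -/
theorem ftz_proof : Stmt_FTZ := by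
  intro K _ c₁ c₂ S X L M s N _ _ ⟨T⟩ h0 h1
  have hL : Function.Bijective (dif L s) := (dif_bij_iff L s).2 ⟨h0, h1⟩
  rw [← dif_bij_iff]
  let dL := LinearEquiv.ofBijective (dif L s) hL
  let e : ∀ k, N ⊗[S.A s.i s.j] Sc L s k ≃ₗ[S.A s.i s.j] Sc M s k :=
    fun k => LinearEquiv.ofBijective (TensorProduct.lift (T.u k)) (T.bij k)
  let p := TensorProduct.prodRight (S.A s.i s.j) (S.A s.i s.j) N (Sc L s ca) (Sc L s cb)
  have key : (dif M s) ∘ₗ ((e ca).prodCongr (e cb)).toLinearMap ∘ₗ p.toLinearMap =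
      (e cab).toLinearMap ∘ₗ
        (TensorProduct.congr (LinearEquiv.refl (S.A s.i s.j) N) dL).toLinearMap := by
    apply TensorProduct.ext'
    rintro n ⟨x, y⟩
    change rk M s (cab_bot ca) (T.u ca n x) - rk M s (cab_bot cb) (T.u cb n y) =
      T.u cab n (rk L s (cab_bot ca) x - rk L s (cab_bot cb) y)
    rw [T.nat, T.nat, map_sub]
  have h2 : Function.Bijective ((dif M s) ∘ (((e ca).prodCongr (e cb)) ∘ p)) := by
    have h3 : (dif M s) ∘ (((e ca).prodCongr (e cb)) ∘ p) =
        (e cab) ∘ (TensorProduct.congr (LinearEquiv.refl (S.A s.i s.j) N) dL) := by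
      funext x
      exact congrArg (fun f => f x) key
    rw [h3]
    exact (e cab).bijective.comp (LinearEquiv.bijective _)
  exact (Function.Bijective.of_comp_iff (dif M s)
    (((e ca).prodCongr (e cb)).bijective.comp p.bijective)).1 h2

end Pool.CRD.G
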