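import Pool.Agent.CRD.G.StmtsC

/-!
# CRD, area G, module GDL: the line bundle `ℓ` on the fibres
-/

set_option autoImplicit false

open CategoryTheory Opposite Limits TensorProduct MonoidalCategory

namespace Pool.CRD.G

namespace GDL_

/-! ### transport of `IsGood2` -/

section transport

variable {A : Type} [CommRing A] {p q : A} {E E' : Type} [AddCommGroup E] [Module A E]
  [AddCommGroup E'] [Module A E']

theorem good2_transport (e : E ≃ₗ[A] E') {P Q : Module.End A E} {P' Q' : Module.End A E'}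
    (hP : ∀ x, P' (e x) = e (P x)) (hQ : ∀ x, Q' (e x) = e (Q x)) (h : IsGood2 p q P Q) :
    IsGood2 p q P' Q' := by
  have hP' : ∀ y, P' y = e (P (e.symm y)) := fun y => by
    rw [← hP, e.apply_symm_apply]
  have hQ' : ∀ y, Q' y = e (Q (e.symm y)) := fun y => by
    rw [← hQ, e.apply_symm_apply]
  obtain ⟨n, ε, φ, hb, h0, h1, h2, h3⟩ := h.basis
  refine { PP := ?_, QQ := ?_, PQ := ?_, basis := ?_, swap := ?_ }
  · intro x
    rw [hP', hP', e.symm_apply_apply, h.PP, map_smul, e.apply_symm_apply]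
  · intro x
    rw [hQ', hQ', e.symm_apply_apply, h.QQ, map_smul, e.apply_symm_apply]
  · intro x
    rw [hP', hQ', hQ', hP', e.symm_apply_apply, e.symm_apply_apply, h.PQ, map_neg]
  · refine ⟨n, fun k => e (ε k), fun k => (φ k).comp e.symm.toLinearMap, ?_, ?_, ?_, ?_, ?_⟩
    · intro x
      have h4 := congrArg e (hb (e.symm x))
      rw [map_sum, e.apply_symm_apply] at h4
      simpa using h4
    · simpa using h0
    · simpa [hP'] using h1
    · simpa [hQ'] using h2
    · simpa [hP', hQ'] using h3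
  · intro ψ w y
    have h4 := congrArg e (h.swap (ψ.comp e.toLinearMap) (e.symm w) (e.symm y))
    simp only [map_sub, map_add, map_smul, LinearMap.comp_apply, LinearEquiv.coe_coe,
      e.apply_symm_apply] at h4
    rw [h4, hP' w, hQ' w, hQ' y, hP' y, hP' (e (Q (e.symm w)))]
    simp only [e.symm_apply_apply]
    rw [hP' (e (Q (e.symm y))), e.symm_apply_apply]

end transport

/-! ### sums of multiples of powers of `η` -/

section sums

variable {K : Type} [Field K] {c₁ c₂ : CurveData K} {S : SurfData c₁ c₂} (X : ConicData S)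
  (a b : S.L) (s : Ch2)

/-- the embedding of the lattice, additive -/
noncomputable def em : EL (S := S) a b s →+ X.E where
  toFun v := emb X a b s v
  map_zero' := by
    change emb X a b s 0 = 0
    simp [emb]
  map_add' v w := by
    change emb X a b s ((v : S.L × S.L) + w) = _
    simp only [emb, Prod.fst_add, Prod.snd_add, map_add]
    ring

theorem em_smul (c : S.A s.i s.j) (v : EL (S := S) a b s) :
    em X a b s (c • v) = algebraMap S.L X.E (c : S.L) * em X a b s v := by
  change emb X a b s ((c : S.L) • (v : S.L × S.L)) = algebraMap S.L X.E (c : S.L) * emb X a b s v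
  simp only [emb, Prod.smul_fst, Prod.smul_snd, smul_eq_mul, map_mul]
  ring

/-- sum of multiples of powers of `η` -/
noncomputable def Ph : (ℤ →₀ EL (S := S) a b s) →+ X.E :=
  Finsupp.liftAddHom (fun n : ℤ => (AddMonoidHom.mulLeft (X.eta s.i ^ n)).comp (em X a b s))

theorem Ph_apply (c : ℤ →₀ EL (S := S) a b s) :
    Ph X a b s c = c.sum fun n v => X.eta s.i ^ n * emb X a b s v := rfl

theorem Ph_single (n : ℤ) (v : EL (S := S) a b s) :
    Ph X a b s (Finsupp.single n v) = X.eta s.i ^ n * emb X a b s v := by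
  rw [Ph_apply, Finsupp.sum_single_index]
  change X.eta s.i ^ n * em X a b s 0 = 0
  rw [map_zero, mul_zero]

variable {X a b s}

theorem Ph_inj (h4 : ∀ c : ℤ →₀ (S.L × S.L),
    (c.sum fun n v => X.eta s.i ^ n * emb X a b s v) = 0 → c = 0)
    (c d : ℤ →₀ EL (S := S) a b s) (h : Ph X a b s c = Ph X a b s d) : c = d := by
  rw [← sub_eq_zero] at h ⊢
  rw [← map_sub] at h
  generalize c - d = e at h ⊢
  let e' : ℤ →₀ (S.L × S.L) :=
    Finsupp.mapRange (fun v : EL (S := S) a b s => (v : S.L × S.L)) rfl e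
  have h5 : (e'.sum fun n v => X.eta s.i ^ n * emb X a b s v) = 0 := by
    rw [Finsupp.sum_mapRange_index]
    · exact h
    · intro n
      change X.eta s.i ^ n * em X a b s 0 = 0
      rw [map_zero, mul_zero]
  have h6 := h4 e' h5
  ext1 n
  have h7 := DFunLike.congr_fun h6 n
  apply Subtype.ext
  exact h7

/-- multiplication by `η` shifts -/
theorem eta_Ph (c : ℤ →₀ EL (S := S) a b s) :
    X.eta s.i * Ph X a b s c =
      Ph X a b s (c.embDomain (Equiv.addRight (1 : ℤ)).toEmbedding) := by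
  rw [Ph_apply, Ph_apply, Finsupp.sum_embDomain]
  unfold Finsupp.sum
  rw [Finset.mul_sum]
  refine Finset.sum_congr rfl (fun n _ => ?_)
  change _ = X.eta s.i ^ (n + 1) * _
  rw [zpow_add₀ (eta_ne X s.i), zpow_one]
  ring

theorem embDomain_shift (c : ℤ →₀ EL (S := S) a b s) (n : ℤ) :
    c.embDomain (Equiv.addRight (1 : ℤ)).toEmbedding (n + 1) = c n :=
  Finsupp.embDomain_apply_self (Equiv.addRight (1 : ℤ)).toEmbedding c n

section ell
variable (hE : ∀ x : X.E,
    (x ∈ ell X a b s ca ↔ ∃ c : ℕ →₀ EL (S := S) a b s,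
      x = c.sum fun n v => X.eta s.i ^ n * emb X a b s v) ∧
    (x ∈ ell X a b s cb ↔ ∃ c : ℕ →₀ EL (S := S) a b s,
      x = c.sum fun n v => (X.eta s.i)⁻¹ ^ (n + 1) * emb X a b s v) ∧
    (x ∈ ell X a b s cab ↔ ∃ c : ℤ →₀ EL (S := S) a b s,
      x = c.sum fun n v => X.eta s.i ^ n * emb X a b s v))
include hE

theorem mem_ca (x : X.E) : x ∈ ell X a b s ca ↔ ∃ c : ℤ →₀ EL (S := S) a b s,
    (∀ n < 0, c n = 0) ∧ x = Ph X a b s c := by
  constructor
  · intro hx
    obtain ⟨c, hc⟩ := (hE x).1.1 hx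
    refine ⟨c.embDomain Nat.castEmbedding, ?_, ?_⟩
    · intro n hn
      apply Finsupp.embDomain_of_notMem_range
      rintro ⟨m, hm⟩
      have : (m : ℤ) = n := hm
      omega
    · rw [Ph_apply, Finsupp.sum_embDomain, hc]
      refine Finsupp.sum_congr (fun n _ => ?_)
      change _ = X.eta s.i ^ (n : ℤ) * _
      rw [zpow_natCast]
  · rintro ⟨c, hc, rfl⟩
    rw [Ph_apply]
    refine Submodule.sum_mem _ (fun n hn => ?_)
    have hn0 : 0 ≤ n := by
      by_contra hcon
      exact (Finsupp.mem_support_iff.1 hn) (hc n (by omega))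
    obtain ⟨m, rfl⟩ := Int.eq_ofNat_of_zero_le hn0
    refine (hE _).1.2 ⟨Finsupp.single m (c m), ?_⟩
    rw [Finsupp.sum_single_index]
    · change X.eta s.i ^ (m : ℤ) * _ = _
      rw [zpow_natCast]
    change X.eta s.i ^ m * em X a b s 0 = 0
    rw [map_zero, mul_zero]

theorem mem_cb (x : X.E) : x ∈ ell X a b s cb ↔ ∃ c : ℤ →₀ EL (S := S) a b s,
    (∀ n, 0 ≤ n → c n = 0) ∧ x = Ph X a b s c := by
  have hz : ∀ m : ℕ, X.eta s.i ^ (-((m : ℤ) + 1)) = (X.eta s.i)⁻¹ ^ (m + 1) := by
    intro m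
    rw [zpow_neg, inv_pow]
    exact_mod_cast rfl
  constructor
  · intro hx
    obtain ⟨c, hc⟩ := (hE x).2.1.1 hx
    let j : ℕ ↪ ℤ := ⟨fun m => -((m : ℤ) + 1), fun m n h => by
      have : -((m : ℤ) + 1) = -((n : ℤ) + 1) := h
      omega⟩
    refine ⟨c.embDomain j, ?_, ?_⟩
    · intro n hn
      apply Finsupp.embDomain_of_notMem_range
      rintro ⟨m, hm⟩
      have : -((m : ℤ) + 1) = n := hm
      omega
    · rw [Ph_apply, Finsupp.sum_embDomain, hc]
      refine Finsupp.sum_congr (fun n _ => ?_)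
      change _ = X.eta s.i ^ (-((n : ℤ) + 1)) * _
      rw [hz]
  · rintro ⟨c, hc, rfl⟩
    rw [Ph_apply]
    refine Submodule.sum_mem _ (fun n hn => ?_)
    have hn0 : n < 0 := by
      by_contra hcon
      exact (Finsupp.mem_support_iff.1 hn) (hc n (by omega))
    obtain ⟨m, hm⟩ := Int.eq_ofNat_of_zero_le (show 0 ≤ -n - 1 by omega)
    have hn1 : n = -((m : ℤ) + 1) := by omega
    subst hn1
    refine (hE _).2.1.2 ⟨Finsupp.single m (c (-((m : ℤ) + 1))), ?_⟩
    rw [Finsupp.sum_single_index]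
    · change X.eta s.i ^ (-((m : ℤ) + 1)) * _ = _
      rw [hz]
    change (X.eta s.i)⁻¹ ^ (m + 1) * em X a b s 0 = 0
    rw [map_zero, mul_zero]

theorem mem_cab (x : X.E) : x ∈ ell X a b s cab ↔ ∃ c : ℤ →₀ EL (S := S) a b s,
    x = Ph X a b s c := (hE x).2.2

/-- `η ℓ(cb) ∩ ℓ(ca)` -/
theorem mem_EE (h4 : ∀ c : ℤ →₀ (S.L × S.L),
    (c.sum fun n v => X.eta s.i ^ n * emb X a b s v) = 0 → c = 0) (x : X.E) :
    (x ∈ ell X a b s ca ∧ ∃ y ∈ ell X a b s cb, x = X.eta s.i * y) ↔
      ∃ v : EL (S := S) a b s, x = em X a b s v := by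
  constructor
  · rintro ⟨hx, y, hy, hxy⟩
    obtain ⟨c, hc, hxc⟩ := (mem_ca hE x).1 hx
    obtain ⟨d, hd, hyd⟩ := (mem_cb hE y).1 hy
    rw [hyd, eta_Ph, hxc] at hxy
    have h5 := Ph_inj h4 _ _ hxy
    have h6 : c = Finsupp.single 0 (c 0) := by
      ext1 n
      rcases lt_trichotomy n 0 with h | h | h
      · rw [hc n h, Finsupp.single_eq_of_ne (by omega)]
      · rw [h, Finsupp.single_eq_same]
      · rw [Finsupp.single_eq_of_ne (by omega), h5]
        have h7 := embDomain_shift d (n - 1)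
        rw [sub_add_cancel] at h7
        rw [h7]
        exact hd _ (by omega)
    refine ⟨c 0, ?_⟩
    rw [hxc, h6, Ph_single, zpow_zero, one_mul]
    simp [em]
  · rintro ⟨v, rfl⟩
    refine ⟨(mem_ca hE _).2 ⟨Finsupp.single 0 v, ?_, ?_⟩, (X.eta s.i)⁻¹ * em X a b s v,
      (mem_cb hE _).2 ⟨Finsupp.single (-1) v, ?_, ?_⟩, ?_⟩
    · intro n hn
      rw [Finsupp.single_eq_of_ne (by omega)]
    · rw [Ph_single, zpow_zero, one_mul]; rfl
    · intro n hn
      rw [Finsupp.single_eq_of_ne (by omega)]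
    · rw [Ph_single, zpow_neg, zpow_one]; rfl
    · rw [← mul_assoc, mul_inv_cancel₀ (eta_ne X s.i), one_mul]

end ell

end sums

section sc

variable {K : Type} [Field K] {c₁ c₂ : CurveData K} {S : SurfData c₁ c₂} {X : ConicData S}
  (I : FracD (K := K) (F := X.E) (fun t : Ch3 => X.A t.i t.j t.k)) (s : Ch2)

/-- the value of a section -/
def vl (k : Cov Bool) (x : Sc (lbX I) s k) : X.E := ((show I.I (c3 s k) from x) : X.E)

/-- section with a given value -/
def mk (k : Cov Bool) (x : X.E) (hx : x ∈ I.I (c3 s k)) : Sc (lbX I) s k :=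
  (show I.I (c3 s k) from ⟨x, hx⟩)

theorem vl_mk (k : Cov Bool) (x : X.E) (hx : x ∈ I.I (c3 s k)) : vl I s k (mk I s k x hx) = x :=
  rfl

theorem vl_inj (k : Cov Bool) {x y : Sc (lbX I) s k} (h : vl I s k x = vl I s k y) : x = y :=
  Subtype.ext h

theorem vl_mem (k : Cov Bool) (x : Sc (lbX I) s k) : vl I s k x ∈ I.I (c3 s k) :=
  (show I.I (c3 s k) from x).2

theorem vl_zero (k : Cov Bool) : vl I s k 0 = 0 := rfl

theorem vl_add (k : Cov Bool) (x y : Sc (lbX I) s k) :
    vl I s k (x + y) = vl I s k x + vl I s k y := rfl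

theorem vl_smul (k : Cov Bool) (z : X.A s.i s.j k) (x : Sc (lbX I) s k) :
    vl I s k (z • x) = (z : X.E) * vl I s k x := rfl

theorem vl_smul' (k : Cov Bool) (z : S.A s.i s.j) (x : Sc (lbX I) s k) :
    vl I s k (z • x) = algebraMap S.L X.E (z : S.L) * vl I s k x := rfl

theorem vl_rk {k k' : Cov Bool} (h : k' ≤ k) (x : Sc (lbX I) s k) :
    vl I s k' (rk (lbX I) s h x) = vl I s k x := rfl

theorem vl_gB (x : Sc (lbX I) s cab) :
    vl I s cab (gB (lbX I) s x) = X.eta s.i * vl I s cab x := rfl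

end sc

end GDL_

open GDL_ in
theorem gdl_proof (hELS : Stmt_ELS) (hTHE : Stmt_THE) (hE0C : Stmt_E0C) (hE0G : Stmt_E0G)
    (hEPR : Stmt_EPR) (hFRX : Stmt_FRX) : Stmt_GDL := by
  intro K _ _ _ c₁ c₂ S _ X a b I hI s
  obtain ⟨hab, hII⟩ := hI
  have hE := hELS K c₁ c₂ S X a b hab s
  obtain ⟨he1, he2, he3, he4⟩ := hTHE K c₁ c₂ S X a b hab s
  have hI' : ∀ k, I.I (c3 s k) = ell X a b s k := fun k => hII (c3 s k)
  have mem' : ∀ (k : Cov Bool) (x : Sc (lbX I) s k), vl I s k x ∈ ell X a b s k := by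
    intro k x
    have h := vl_mem I s k x
    rw [hI' k] at h
    exact h
  refine ⟨?_, ?_, ?_⟩
  · intro x y hxy
    have h1 : vl I s ca x = vl I s cb y := by
      have h2 := congrArg (vl I s cab) hxy
      rw [vl_rk, vl_rk] at h2
      exact h2
    obtain ⟨c, hc, hxc⟩ := (mem_ca hE _).1 (mem' ca x)
    obtain ⟨d, hd, hyd⟩ := (mem_cb hE _).1 (mem' cb y)
    have h3 : c = d := Ph_inj he4 _ _ (by rw [← hxc, ← hyd, h1])
    have h4 : c = 0 := by
      ext1 n
      rcases lt_or_ge n 0 with h | h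
      · exact hc n h
      · rw [h3]; exact hd n h
    have h5 : vl I s ca x = 0 := by rw [hxc, h4, map_zero]
    exact ⟨vl_inj I s ca (by rw [h5, vl_zero]), vl_inj I s cb (by rw [← h1, h5, vl_zero])⟩
  · intro z
    obtain ⟨c, hc⟩ := (mem_cab hE _).1 (mem' cab z)
    have h1 : Ph X a b s (c.filter (fun n => 0 ≤ n)) ∈ I.I (c3 s ca) := by
      rw [hI' ca]
      refine (mem_ca hE _).2 ⟨_, ?_, rfl⟩
      intro n hn
      rw [Finsupp.filter_apply, if_neg (by omega)]
    have h2 : Ph X a b s (c.filter (fun n => ¬ 0 ≤ n)) ∈ I.I (c3 s cb) := by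
      rw [hI' cb]
      refine (mem_cb hE _).2 ⟨_, ?_, rfl⟩
      intro n hn
      rw [Finsupp.filter_apply, if_neg (by omega)]
    refine ⟨mk I s ca _ h1, mk I s cb _ h2, ?_⟩
    apply vl_inj I s cab
    rw [vl_add, vl_rk, vl_rk, vl_mk, vl_mk, ← map_add, Finsupp.filter_add_filter_not, hc]
  · intro P Q hPQ hmul
    obtain ⟨P₀, Q₀, hP₀, hQ₀, hcl⟩ := hE0C K S.L (S.A s.i s.j) (pS S s) (qS S s) (aS S a s)
      (bS S b s) (pS_mem S s) (qS_mem S s) he1
    have hnoeth : IsNoetherianRing (S.A s.i s.j) := (inferInstance : S.R.Good).noeth (op s)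
    have hqne : qS S s ≠ 0 := by
      unfold qS
      exact mul_ne_zero (neg_ne_zero.2 (div_ne_zero (x1_ne S) (x2_ne S)))
        (pow_ne_zero 2 (div_ne_zero (h2_ne S s.j) (h1_ne S s.i)))
    have hgood : IsGood2 (pE S s) (qE S s) P₀ Q₀ :=
      hE0G K S.L (S.A s.i s.j) (pS S s) (qS S s) (aS S a s) (bS S b s) (pS_mem S s) (qS_mem S s)
        (pS_ne S s) hqne he1 hnoeth ((hFRX K c₁ c₂ S X).1 s) (hEPR K c₁ c₂ S a b hab s)
        P₀ Q₀ hP₀ hQ₀ hcl
    -- the isomorphism
    have hEE : ∀ x : Sc (lbX I) s ca, x ∈ EE (gB (lbX I) s) (rk (lbX I) s (cab_bot ca))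
        (rk (lbX I) s (cab_bot cb)) ↔ ∃ v : EL (S := S) a b s, vl I s ca x = em X a b s v := by
      intro x
      rw [← mem_EE hE he4]
      constructor
      · rintro ⟨y, hy⟩
        refine ⟨mem' ca x, vl I s cb y, mem' cb y, ?_⟩
        have h2 := congrArg (vl I s cab) hy
        rw [vl_rk, vl_gB, vl_rk] at h2
        exact h2
      · rintro ⟨-, y, hy, hxy⟩
        have hy' : y ∈ I.I (c3 s cb) := by rw [hI' cb]; exact hy
        refine ⟨mk I s cb y hy', ?_⟩
        apply vl_inj I s cab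
        rw [vl_rk, vl_gB, vl_rk, vl_mk, hxy]
    have hemI : ∀ v : EL (S := S) a b s, em X a b s v ∈ I.I (c3 s ca) := by
      intro v
      rw [hI' ca]
      exact ((mem_EE hE he4 _).2 ⟨v, rfl⟩).1
    let j : EL (S := S) a b s →ₗ[S.A s.i s.j] EE (gB (lbX I) s) (rk (lbX I) s (cab_bot ca))
        (rk (lbX I) s (cab_bot cb)) :=
      { toFun := fun v => ⟨mk I s ca (em X a b s v) (hemI v), (hEE _).2 ⟨v, rfl⟩⟩
        map_add' := fun v w => by
          apply Subtype.ext
          apply vl_inj I s ca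
          exact map_add (em X a b s) v w
        map_smul' := fun c v => by
          apply Subtype.ext
          apply vl_inj I s ca
          exact em_smul X a b s c v }
    have hjv : ∀ v, vl I s ca (j v : Sc (lbX I) s ca) = em X a b s v := fun v => rfl
    have hsing : ∀ v w : EL (S := S) a b s, em X a b s v + X.eta s.i * em X a b s w =
        Ph X a b s (Finsupp.single 0 v + Finsupp.single 1 w) := by
      intro v w
      rw [map_add, Ph_single, Ph_single, zpow_zero, one_mul, zpow_one]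
      rfl
    have hem_inj : ∀ v w : EL (S := S) a b s, em X a b s v = em X a b s w → v = w := by
      intro v w h
      have h1 : Ph X a b s (Finsupp.single 0 v) = Ph X a b s (Finsupp.single 0 w) := by
        rw [Ph_single, Ph_single, zpow_zero, one_mul, one_mul]
        exact h
      have h2 := DFunLike.congr_fun (Ph_inj he4 _ _ h1) 0
      simpa using h2
    have hbij : Function.Bijective j := by
      constructor
      · intro v w h
        apply hem_inj
        rw [← hjv v, ← hjv w, h]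
      · rintro ⟨x, hx⟩
        obtain ⟨v, hv⟩ := (hEE x).1 hx
        refine ⟨v, ?_⟩
        apply Subtype.ext
        apply vl_inj I s ca
        exact hv.symm
    have hPQj : ∀ v, P (j v) = j (P₀ v) ∧ Q (j v) = j (Q₀ v) := by
      intro v
      obtain ⟨w₁, hw₁⟩ := hbij.2 (P (j v))
      obtain ⟨w₂, hw₂⟩ := hbij.2 (Q (j v))
      have h1 := congrArg (vl I s ca) (hmul (j v))
      rw [← hw₁, ← hw₂] at h1
      have h2 : X.zeta s.j * em X a b s v = em X a b s w₁ + X.eta s.i * em X a b s w₂ := h1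
      have h3 : X.zeta s.j * em X a b s v = em X a b s (P₀ v) + X.eta s.i * em X a b s (Q₀ v) := by
        have h4 := he3 (v : S.L × S.L)
        rw [← hP₀ v, ← hQ₀ v] at h4
        exact h4
      rw [h3, hsing, hsing] at h2
      have h4 := Ph_inj he4 _ _ h2
      have h5 := DFunLike.congr_fun h4 0
      have h6 := DFunLike.congr_fun h4 1
      simp at h5 h6
      rw [← hw₁, ← hw₂, h5, h6]
      exact ⟨rfl, rfl⟩
    exact good2_transport (LinearEquiv.ofBijective j hbij) (fun v => (hPQj v).1)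
      (fun v => (hPQj v).2) hgood

end Pool.CRD.G
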