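import Pool.Agent.CRD.G.StmtsD
import Pool.Agent.CRD.B.Stmts

set_option autoImplicit false

open CategoryTheory Opposite Limits TensorProduct MonoidalCategory Pretriangulated

namespace Pool.CRD.G

namespace GNA_

section

variable {K : Type} [Field K] {C : Type} [SmallCategory C] {R : PAlg K C} [R.Good]
  (P : ObjectProperty (Db R)) [P.IsClosedUnderIsomorphisms]

lemma coh_iso {M N : PMod R} (e : M ≅ N) (h : IsCoh R M) : IsCoh R N :=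
  (IsCoh R).prop_of_iso e h

lemma p_iso {M N : PMod R} (e : M ≅ N) (hM : IsCoh R M) (hN : IsCoh R N)
    (h : P ((sB R).obj ⟨M, hM⟩)) : P ((sB R).obj ⟨N, hN⟩) :=
  P.prop_of_iso ((sB R).mapIso ((IsCoh R).isoMk (X := ⟨M, hM⟩) (Y := ⟨N, hN⟩) e)) h

/-- the split sequence -/
lemma split (N₁ N₂ : PMod R) :
    (ShortComplex.mk (biprod.inl : N₁ ⟶ N₁ ⊞ N₂) (biprod.snd : N₁ ⊞ N₂ ⟶ N₂)
      biprod.inl_snd).ShortExact :=
  ShortComplex.Splitting.shortExact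
    { r := biprod.fst
      s := biprod.inr
      f_r := biprod.inl_fst
      s_g := biprod.inr_snd
      id := biprod.total }

lemma coh_biprod {N₁ N₂ : PMod R} (h₁ : IsCoh R N₁) (h₂ : IsCoh R N₂) : IsCoh R (N₁ ⊞ N₂) :=
  isCoh_ext _ (split N₁ N₂) h₁ h₂

/-- the step of the induction -/
lemma step (hTTH : Stmt_TTH) (hP : P.IsTriangulated) (hPi : P.IsClosedUnderIsomorphisms)
    (Ω : ShortComplex (PMod R)) (hΩ : Ω.ShortExact) (N₁ N₂ N₂' N₃ : PMod R)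
    (i₁ : Ω.X₁ ≅ N₁) (i₂ : Ω.X₂ ≅ N₂ ⊞ N₂') (i₃ : Ω.X₃ ≅ N₃) (h₁ : IsCoh R N₁)
    (h₂ : IsCoh R N₂) (h₂' : IsCoh R N₂') (h₃ : IsCoh R N₃) (p₂ : P ((sB R).obj ⟨N₂, h₂⟩))
    (p₂' : P ((sB R).obj ⟨N₂', h₂'⟩)) (p₃ : P ((sB R).obj ⟨N₃, h₃⟩)) :
    P ((sB R).obj ⟨N₁, h₁⟩) := by
  have c12 := coh_biprod h₂ h₂'
  have c3 : IsCoh R Ω.X₃ := coh_iso i₃.symm h₃
  have c2 : IsCoh R Ω.X₂ := coh_iso i₂.symm c12
  have c1 : IsCoh R Ω.X₁ := coh_iso i₁.symm h₁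
  have p12 : P ((sB R).obj ⟨_, c12⟩) :=
    (hTTH K C R P hP hPi _ (split N₂ N₂') h₂ c12 h₂').2.2 p₂ p₂'
  have p2 : P ((sB R).obj ⟨Ω.X₂, c2⟩) := p_iso P i₂.symm _ _ p12
  have p3 : P ((sB R).obj ⟨Ω.X₃, c3⟩) := p_iso P i₃.symm _ _ p₃
  have p1 : P ((sB R).obj ⟨Ω.X₁, c1⟩) := (hTTH K C R P hP hPi Ω hΩ c1 c2 c3).2.1 p2 p3
  exact p_iso P i₁ _ _ p1

lemma p_one {N N' : PMod R} {c : UCoc R} (hN : N' = c.twObj N) (hc : c = 1) (h : IsCoh R N)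
    (h' : IsCoh R N') (p : P ((sB R).obj ⟨N', h'⟩)) : P ((sB R).obj ⟨N, h⟩) := by
  subst hc
  subst hN
  exact p_iso P (UCoc.twOne.app N) _ _ p

end

end GNA_

open GNA_

theorem gna_proof (hSEX : Stmt_SEX) (hGRG : Stmt_GRG) (hKOS : Stmt_KOS) (hTTH : Stmt_TTH)
    (_hTWK : Pool.CRD.Stmt_TWK) : Stmt_GNA := by
  intro K _ _ _ c₁ c₂ S _ X _ a b I L' hI hlb hL' hiso P hP hPi hN1 hN2 M hM
  obtain ⟨d₀, hd₀⟩ := hSEX K c₁ c₂ S X M hM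
  have key : ∀ n : ℕ, ∀ d e : ℤ, d₀ ≤ d + n → ∀ h : IsCoh X.R ((WH X d e).twObj M),
      P ((sB X.R).obj ⟨(WH X d e).twObj M, h⟩) := by
    intro n
    induction n with
    | zero =>
      intro d e hd h
      exact hGRG K c₁ c₂ S X a b I L' hI hlb hL' hiso P hP hPi hN1 hN2 _ h
        (hd₀ d e (by simpa using hd))
    | succ n ih =>
      intro d e hd h
      obtain ⟨Ω, hΩ, ⟨i₁⟩, ⟨i₂⟩, ⟨i₃⟩⟩ := hKOS K c₁ c₂ S X M d e
      have ht : ∀ d e : ℤ, IsCoh X.R ((WH X d e).twObj M) := fun d e => isCoh_tw _ hM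
      exact step P hTTH hP hPi Ω hΩ _ _ _ _ i₁ i₂ i₃ h (ht _ _) (ht _ _) (ht _ _)
        (ih (d + 1) e (by push_cast at hd ⊢; omega) (ht _ _))
        (ih (d + 1) (e + 1) (by push_cast at hd ⊢; omega) (ht _ _))
        (ih (d + 2) (e + 1) (by push_cast at hd ⊢; omega) (ht _ _))
  have hW : WH X 0 0 = 1 := by
    unfold WH
    rw [zpow_zero, zpow_zero, one_mul]
  exact p_one P rfl hW hM _ (key (d₀.toNat) 0 0 (by omega) (isCoh_tw _ hM))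

end Pool.CRD.G
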