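import Pool.Agent.CRD.G.StmtsA

/-!
# CRD, area G: GNR (a regular module on the projective line is generated by global sections)
-/

open CategoryTheory Opposite Limits TensorProduct

namespace Pool.CRD.G

namespace GNR_

variable {A : Type} [CommRing A] {F T B : Type} [AddCommGroup F] [AddCommGroup T] [AddCommGroup B]
  [Module A F] [Module A T] [Module A B]

lemma span_stable {M N : Type} [AddCommGroup M] [Module A M] (e : Module.End A M) (P : N → M)
    (Q : N → Prop) :
    ∀ x, x ∈ Submodule.span A {z | ∃ h, Q h ∧ ∃ n : ℕ, z = (e ^ n) (P h)} →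
      e x ∈ Submodule.span A {z | ∃ h, Q h ∧ ∃ n : ℕ, z = (e ^ n) (P h)} := by
  intro x hx
  induction hx using Submodule.span_induction with
  | mem z hz =>
    obtain ⟨h, hQ, n, rfl⟩ := hz
    refine Submodule.subset_span ⟨h, hQ, n + 1, ?_⟩
    rw [pow_succ', Module.End.mul_apply]
  | zero => rw [map_zero]; exact zero_mem _
  | add x y _ _ hx hy => rw [map_add]; exact add_mem hx hy
  | smul a x _ hx => rw [map_smul]; exact Submodule.smul_mem _ _ hx

variable {e : Module.End A F} {y : Module.End A T} {g : B ≃ₗ[A] B} {f : F →ₗ[A] B} {t : T →ₗ[A] B}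

lemma fpow (h : IsP1 e y g f t) (n : ℕ) (x : F) : f ((e ^ n) x) = (g ^ n) (f x) := by
  induction n with
  | zero => simp
  | succ n ih =>
    rw [pow_succ', Module.End.mul_apply, h.fe, ih, pow_succ', LinearEquiv.mul_apply]

lemma tpow (h : IsP1 e y g f t) (n : ℕ) (x : T) : (g ^ n) (t ((y ^ n) x)) = t x := by
  induction n with
  | zero => simp
  | succ n ih =>
    rw [pow_succ' y, Module.End.mul_apply, pow_succ g, LinearEquiv.mul_apply, h.ty, ih]

theorem first (h : IsP1 e y g f t) (hr : Reg g f t) (n : ℕ) : ∀ (x : F) (z : T),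
    f x = (g ^ n) (t z) →
    x ∈ Submodule.span A {z | ∃ h ∈ H0 f t, ∃ n : ℕ, z = (e ^ n) h.1} := by
  induction n with
  | zero =>
    intro x z hx
    refine Submodule.subset_span ⟨(x, z), ?_, 0, by simp⟩
    change f x = t z
    simpa using hx
  | succ n ih =>
    intro x z hx
    obtain ⟨x', y', hb⟩ := hr (g.symm (f x))
    have h1 : f x = g (f x') + t y' := by
      have := congrArg g hb
      simpa using this
    have h2 : (x - e x', y') ∈ H0 f t := by
      change f (x - e x') = t y'
      rw [map_sub, h.fe, h1]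
      abel
    have h3 : f x' = (g ^ n) (t (z - (y ^ (n + 1)) y')) := by
      apply g.injective
      have h4 : g ((g ^ n) (t ((y ^ (n + 1)) y'))) = t y' := by
        rw [← LinearEquiv.mul_apply, ← pow_succ', tpow h]
      rw [map_sub, map_sub, map_sub, h4, ← LinearEquiv.mul_apply, ← pow_succ', ← hx, h1]
      abel
    have h5 := ih x' _ h3
    have h6 : e x' ∈ Submodule.span A {z | ∃ h ∈ H0 f t, ∃ n : ℕ, z = (e ^ n) h.1} :=
      span_stable e (fun h : F × T => h.1) (fun h => h ∈ H0 f t) x' h5
    have h7 : x = (x - e x') + e x' := by abel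
    rw [h7]
    refine add_mem (Submodule.subset_span ⟨_, h2, 0, by simp⟩) h6

theorem second (h : IsP1 e y g f t) (hr : Reg g f t) (n : ℕ) : ∀ (x : T) (z : F),
    (g ^ n) (t x) = f z →
    x ∈ Submodule.span A {z | ∃ h ∈ H0 f t, ∃ n : ℕ, z = (y ^ n) h.2} := by
  induction n with
  | zero =>
    intro x z hx
    refine Submodule.subset_span ⟨(z, x), ?_, 0, by simp⟩
    change f z = t x
    exact (by simpa using hx : t x = f z).symm
  | succ n ih =>
    intro x z hx
    obtain ⟨x₀, y', hb⟩ := hr (t x)
    have hty : ∀ w, g.symm (t w) = t (y w) := by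
      intro w
      rw [LinearEquiv.symm_apply_eq, h.ty]
    have h2 : (x₀, x - y y') ∈ H0 f t := by
      change f x₀ = t (x - y y')
      rw [map_sub, hb, hty]
      abel
    have h3 : (g ^ n) (t y') = f (z - (e ^ (n + 1)) x₀) := by
      rw [map_sub, fpow h, ← hx, hb, map_add, hty, pow_succ g, LinearEquiv.mul_apply,
        LinearEquiv.mul_apply, h.ty]
      abel
    have h5 := ih y' _ h3
    have h6 : y y' ∈ Submodule.span A {z | ∃ h ∈ H0 f t, ∃ n : ℕ, z = (y ^ n) h.2} :=
      span_stable y (fun h : F × T => h.2) (fun h => h ∈ H0 f t) y' h5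
    have h7 : x = (x - y y') + y y' := by abel
    rw [h7]
    refine add_mem (Submodule.subset_span ⟨_, h2, 0, by simp⟩) h6

end GNR_

theorem gnr_proof : Stmt_GNR := by
  intro A _ F T B _ _ _ _ _ _ e y g f t h hr
  refine ⟨fun x => ?_, fun x => ?_⟩
  · obtain ⟨n, z, hz⟩ := h.t1 (f x)
    exact GNR_.first h hr n x z hz
  · obtain ⟨n, z, hz⟩ := h.f1 (t x)
    exact GNR_.second h hr n x z hz

end Pool.CRD.G
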