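import Pool.Agent.CRD.G.StmtsD

/-!
# CRD, area G, GRG: regular modules are generated by the two subcategories
-/

open CategoryTheory Opposite Limits TensorProduct MonoidalCategory Pretriangulated

namespace Pool.CRD.G

theorem grg_proof (hCNT : Stmt_CNT) (hPUC : Stmt_PUC) (hEFF : Stmt_EFF) (hPCO : Stmt_PCO)
    (hTTH : Stmt_TTH) : Stmt_GRG := by
  intro K _ _ _ c₁ c₂ S _ X _ a b I L' hI hl hL' hinv P hP hPiso hN1 hN2 M hM hreg
  have hpu : IsCoh S.R (push M) := hPUC K c₁ c₂ S X M hM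
  have hpp : IsCoh X.R (X.pbS.obj (push M)) := hPCO K c₁ c₂ S X _ hpu
  obtain ⟨hepi, hker⟩ := hCNT K c₁ c₂ S X M hM hreg
  haveI := hepi
  let Ω : ShortComplex (PMod X.R) := ShortComplex.mk (kernel.ι (cou M)) (cou M)
    (kernel.condition (cou M))
  have hΩ : Ω.ShortExact :=
    { exact := ShortComplex.exact_kernel _
      mono_f := by dsimp [Ω]; infer_instance
      epi_g := by dsimp [Ω]; infer_instance }
  haveI : Mono Ω.f := hΩ.mono_f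
  have hZ : IsCoh X.R Ω.X₁ := isCoh_ker Ω hΩ.exact hpp hM
  obtain ⟨N, hN, ⟨e⟩⟩ := hEFF K c₁ c₂ S X a b I L' hI hl hL' hinv Ω.X₁ hZ
    (hker Ω.X₁ Ω.f Ω.zero hΩ)
  have hc : IsCoh X.R (X.pbS.obj N ⊗ lbX I) :=
    (IsCoh X.R).prop_of_iso e.symm hZ
  have hPZ : P ((sB X.R).obj ⟨Ω.X₁, hZ⟩) :=
    P.prop_of_iso ((sB X.R).mapIso (ObjectProperty.isoMk _ e)) (hN2 N hN hc)
  exact (hTTH K _ X.R P hP hPiso Ω hΩ hZ hpp hM).1 hPZ (hN1 _ hpu hpp)

end Pool.CRD.G
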