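import Pool.Agent.CRD.G.StmtsC

/-!
# CRD, area G, HPL: `p^* N ⊗ ℓ` has no cohomology on the fibres
-/

set_option autoImplicit false

open CategoryTheory Opposite Limits TensorProduct MonoidalCategory

namespace Pool.CRD.G

theorem hpl_proof (hGDL : Stmt_GDL) (hFTU : Stmt_FTU) (hFTT : Stmt_FTT) (hFTI : Stmt_FTI)
    (hFTZ : Stmt_FTZ) : Stmt_HPL := by
  intro K _ _ _ c₁ c₂ S _ X a b I hI N s
  obtain ⟨T, _⟩ := hFTU K c₁ c₂ S X N s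
  have h1 := hFTT K c₁ c₂ S X (𝟙_ (PMod X.R)) (X.pbS.obj N) (lbX I) s (Ss N s) ⟨T⟩
  have h2 := hFTI K c₁ c₂ S X _ _ (lbX I) (X.pbS.obj N ⊗ lbX I) s (Ss N s) h1 ⟨λ_ (lbX I)⟩
    ⟨Iso.refl _⟩
  obtain ⟨g1, g2, _⟩ := hGDL K c₁ c₂ S X a b I hI s
  exact hFTZ K c₁ c₂ S X _ _ s (Ss N s) h2 g1 g2

end Pool.CRD.G
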