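import Pool.Agent.CRD.G.StmtsB

/-!
# CRD, area G, module IDP: independence of the powers of `η` and of `1, ζ`
-/

set_option autoImplicit false

open CategoryTheory Opposite Limits TensorProduct MonoidalCategory

namespace Pool.CRD.G

namespace IDP_

theorem laurent {L E : Type} [Field L] [Field E] [Algebra L E] {t : E} (ht : Transcendental L t)
    (c : ℤ →₀ L) (h : (c.sum fun n a => algebraMap L E a * t ^ n) = 0) : c = 0 := by
  classical
  have ht0 : t ≠ 0 := by
    rintro rfl
    exact ht isAlgebraic_zero
  obtain ⟨N, hN⟩ : ∃ N : ℕ, ∀ n ∈ c.support, 0 ≤ n + (N : ℤ) := by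
    refine ⟨c.support.sup Int.natAbs, fun n hn => ?_⟩
    have := Finset.le_sup (f := Int.natAbs) hn
    omega
  let P : Polynomial L := c.sum fun n a => Polynomial.monomial (n + (N : ℤ)).toNat a
  have hP : Polynomial.aeval t P = 0 := by
    have e : Polynomial.aeval t P = (c.sum fun n a => algebraMap L E a * t ^ n) * t ^ N := by
      change Polynomial.aeval t (c.sum fun n a => Polynomial.monomial (n + (N : ℤ)).toNat a) = _
      rw [Finsupp.sum, Finsupp.sum, map_sum, Finset.sum_mul]
      refine Finset.sum_congr rfl fun n hn => ?_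
      rw [Polynomial.aeval_monomial, mul_assoc, ← zpow_natCast t N, ← zpow_add₀ ht0,
        ← zpow_natCast t (n + (N : ℤ)).toNat, Int.toNat_of_nonneg (hN n hn)]
    rw [e, h, zero_mul]
  have hP0 : P = 0 := by
    by_contra hne
    exact ht ⟨P, hne, hP⟩
  ext m
  by_contra hm
  have hms : m ∈ c.support := Finsupp.mem_support_iff.2 hm
  have hc : P.coeff (m + (N : ℤ)).toNat = c m := by
    change (c.sum fun n a => Polynomial.monomial (n + (N : ℤ)).toNat a).coeff _ = _
    rw [Finsupp.sum, Polynomial.finsetSum_coeff, Finset.sum_eq_single_of_mem m hms]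
    · rw [Polynomial.coeff_monomial, if_pos rfl]
    · intro n hn hnm
      rw [Polynomial.coeff_monomial, if_neg]
      intro h1
      have h2 := hN n hn
      have h3 := hN m hms
      omega
  rw [hP0, Polynomial.coeff_zero] at hc
  exact hm hc.symm

end IDP_

open IDP_ in
theorem idp_proof : Stmt_IDP := by
  intro K _ c₁ c₂ S X s c d h
  have a1 : algebraMap S.L X.E (S.h₁ s.i) ≠ 0 := by simpa using h1_ne S s.i
  have a2 : algebraMap S.L X.E (S.h₂ s.j) ≠ 0 := by simpa using h2_ne S s.j
  have htr : Transcendental S.L (X.eta s.i) := by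
    intro halg
    refine X.tr ?_
    have e : X.η = algebraMap S.L X.E (S.h₁ s.i)⁻¹ * X.eta s.i := by
      unfold ConicData.eta
      rw [map_inv₀]
      field_simp
    rw [e]
    exact (isAlgebraic_algebraMap _).mul halg
  have hη : X.η ∈ IntermediateField.adjoin S.L {X.η} :=
    IntermediateField.subset_adjoin _ _ rfl
  have heta : X.eta s.i ∈ IntermediateField.adjoin S.L {X.η} :=
    mul_mem (IntermediateField.algebraMap_mem _ _) hη
  have hsum : ∀ c : ℤ →₀ S.L, (c.sum fun n a => algebraMap S.L X.E a * X.eta s.i ^ n) ∈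
      IntermediateField.adjoin S.L {X.η} := fun c =>
    sum_mem fun n _ => mul_mem (IntermediateField.algebraMap_mem _ _) (zpow_mem heta n)
  have h2 := X.indep ⟨_, hsum c⟩ ⟨_, mul_mem (hsum d)
    (IntermediateField.algebraMap_mem (IntermediateField.adjoin S.L {X.η}) (S.h₂ s.j))⟩ (by
      change (c.sum fun n a => algebraMap S.L X.E a * X.eta s.i ^ n) +
        (d.sum fun n a => algebraMap S.L X.E a * X.eta s.i ^ n) *
          algebraMap S.L X.E (S.h₂ s.j) * X.ζ = 0
      rw [mul_assoc]
      exact h)
  obtain ⟨h3, h4⟩ := h2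
  have h3' := congrArg Subtype.val h3
  have h4' := congrArg Subtype.val h4
  refine ⟨laurent htr c h3', laurent htr d ?_⟩
  exact (mul_eq_zero.1 h4').resolve_right a2

end Pool.CRD.G
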