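import Pool.Agent.CRD.G.StmtsA

/-!
# CRD, area G, module INV
-/

open CategoryTheory Opposite Limits TensorProduct

namespace Pool.CRD.G

theorem inv_proof : Stmt_INV := by
  intro K F _ _ _ A I hfrac hproj hI
  classical
  obtain ⟨x, hx, hx0⟩ := Submodule.exists_mem_ne_zero_of_ne_bot hI
  obtain ⟨s, hs⟩ := Module.projective_def'.1 hproj
  have hs' : ∀ y : I, Finsupp.linearCombination A id (s y) = y := fun y => LinearMap.congr_fun hs y
  have key : ∀ (y v : I), ((s ⟨x, hx⟩ v : A) : F) / x * (y : F) = (s y v : A) := by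
    intro y v
    obtain ⟨c, hc, d, hd, hd0, hcd⟩ := hfrac ((y : F) / x)
    have h1 : (⟨d, hd⟩ : A) • y = (⟨c, hc⟩ : A) • (⟨x, hx⟩ : I) := by
      apply Subtype.ext
      change d * (y : F) = c * x
      rw [div_eq_div_iff hx0 hd0] at hcd
      rw [mul_comm d, hcd]
    have h2 := congrArg (fun f => ((f v : A) : F)) (congrArg s h1)
    simp only [map_smul] at h2
    have h3 : d * ((s y v : A) : F) = c * ((s ⟨x, hx⟩ v : A) : F) := h2
    have h4 : (y : F) = c / d * x := by rw [← hcd, div_mul_cancel₀ _ hx0]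
    rw [h4]
    field_simp
    rw [mul_comm, ← h3]
  have hsum : ∑ u ∈ (s ⟨x, hx⟩).support, (u : F) * (((s ⟨x, hx⟩ u : A) : F) / x) = 1 := by
    have h1 := congrArg (fun u : I => (u : F)) (hs' ⟨x, hx⟩)
    simp only [Finsupp.linearCombination_apply, Finsupp.sum, id, AddSubmonoidClass.coe_finset_sum]
      at h1
    have h2 : ∑ u ∈ (s ⟨x, hx⟩).support, ((s ⟨x, hx⟩ u : A) : F) * (u : F) = x := h1
    have h3 : ∀ u ∈ (s ⟨x, hx⟩).support, (u : F) * (((s ⟨x, hx⟩ u : A) : F) / x) =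
        ((s ⟨x, hx⟩ u : A) : F) * (u : F) / x := by
      intro u _
      ring
    rw [Finset.sum_congr rfl h3, ← Finset.sum_div, h2, div_self hx0]
  let e := (s ⟨x, hx⟩).support.equivFin
  refine ⟨(s ⟨x, hx⟩).support.card, fun k => ((e.symm k : I) : F),
    fun k => ((s ⟨x, hx⟩ (e.symm k) : A) : F) / x, fun k => (e.symm k : I).2,
    fun k y hy => ?_, ?_⟩
  · change ((s ⟨x, hx⟩ (e.symm k) : A) : F) / x * y ∈ A
    have := key ⟨y, hy⟩ (e.symm k)
    change ((s ⟨x, hx⟩ (e.symm k) : A) : F) / x * y = _ at this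
    rw [this]
    exact SetLike.coe_mem _
  · rw [← hsum, ← Finset.sum_coe_sort (s ⟨x, hx⟩).support]
    exact Equiv.sum_comp e.symm (fun u : (s ⟨x, hx⟩).support =>
      ((u : I) : F) * (((s ⟨x, hx⟩ u : A) : F) / x))

end Pool.CRD.G
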