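import Pool.Agent.CRD.G.StmtsC

/-!
# CRD, area G: KOS, the Koszul complex of the sections `1`, `η`
-/

open CategoryTheory Opposite Limits TensorProduct MonoidalCategory

namespace Pool.CRD.G

namespace KOS_

section Gen

variable {K : Type} [CommRing K] {C : Type} [SmallCategory C] {R : PAlg K C}

lemma tcomm {X : Cᵒᵖ} (r s : R.toRing.obj X) : r * s = s * r :=
  mul_comm (G := R.obj X) r s

/-- multiplication by a section `s` of `c`, between twists `c₁`, `c₂ = c₁ c` -/
noncomputable def mT {c c₁ c₂ : UCoc R} (s : LSec c)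
    (h : ∀ {X Y : Cᵒᵖ} (f : X ⟶ Y), c₂.v f = c₁.v f * c.v f) (M : PMod R) :
    c₁.twObj M ⟶ c₂.twObj M :=
  mkHom (M := c₁.twObj M) (N := c₂.twObj M)
    (fun X => { toFun := fun x => (s.a X • x : M.obj X)
                map_add' := fun x y => smul_add _ _ _
                map_smul' := fun r x => by
                  change s.a X • (r • x) = r • (s.a X • x)
                  rw [smul_smul, smul_smul, tcomm] })
    (fun {X Y} f (x : M.obj X) => by
      change (s.a Y • (c₁.v f • rs M f x) : M.obj Y) = c₂.v f • rs M f (s.a X • x)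
      rw [rs_smul, smul_smul, smul_smul, h f, mul_assoc, s.compat f, tcomm])

lemma mT_app {c c₁ c₂ : UCoc R} (s : LSec c)
    (h : ∀ {X Y : Cᵒᵖ} (f : X ⟶ Y), c₂.v f = c₁.v f * c.v f) (M : PMod R) (X : Cᵒᵖ)
    (x : M.obj X) : (mT s h M).app X x = (s.a X • x : M.obj X) := rfl

/-! ### elements of a biproduct -/

lemma bip_total {M N : PMod R} {X : Cᵒᵖ} (z : (M ⊞ N : PMod R).obj X) :
    (biprod.inl : M ⟶ M ⊞ N).app X ((biprod.fst : M ⊞ N ⟶ M).app X z) +
      (biprod.inr : N ⟶ M ⊞ N).app X ((biprod.snd : M ⊞ N ⟶ N).app X z) = z := by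
  have h := biprod.total (X := M) (Y := N)
  have h1 := congrArg (fun (φ : M ⊞ N ⟶ M ⊞ N) => φ.app X z) h
  exact h1

lemma bip_ext {M N : PMod R} {X : Cᵒᵖ} {z z' : (M ⊞ N : PMod R).obj X}
    (h1 : (biprod.fst : M ⊞ N ⟶ M).app X z = (biprod.fst : M ⊞ N ⟶ M).app X z')
    (h2 : (biprod.snd : M ⊞ N ⟶ N).app X z = (biprod.snd : M ⊞ N ⟶ N).app X z') : z = z' := by
  rw [← bip_total z, ← bip_total z', h1, h2]

lemma inl_fst_app {M N : PMod R} {X : Cᵒᵖ} (x : M.obj X) :
    (biprod.fst : M ⊞ N ⟶ M).app X ((biprod.inl : M ⟶ M ⊞ N).app X x) = x :=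
  congrArg (fun (φ : M ⟶ M) => φ.app X x) (biprod.inl_fst (X := M) (Y := N))

lemma inl_snd_app {M N : PMod R} {X : Cᵒᵖ} (x : M.obj X) :
    (biprod.snd : M ⊞ N ⟶ N).app X ((biprod.inl : M ⟶ M ⊞ N).app X x) = 0 :=
  congrArg (fun (φ : M ⟶ N) => φ.app X x) (biprod.inl_snd (X := M) (Y := N))

lemma inr_fst_app {M N : PMod R} {X : Cᵒᵖ} (x : N.obj X) :
    (biprod.fst : M ⊞ N ⟶ M).app X ((biprod.inr : N ⟶ M ⊞ N).app X x) = 0 :=
  congrArg (fun (φ : N ⟶ M) => φ.app X x) (biprod.inr_fst (X := M) (Y := N))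

lemma inr_snd_app {M N : PMod R} {X : Cᵒᵖ} (x : N.obj X) :
    (biprod.snd : M ⊞ N ⟶ N).app X ((biprod.inr : N ⟶ M ⊞ N).app X x) = x :=
  congrArg (fun (φ : N ⟶ N) => φ.app X x) (biprod.inr_snd (X := M) (Y := N))

lemma fst_lift_app {M N P : PMod R} (f : P ⟶ M) (g : P ⟶ N) {X : Cᵒᵖ} (x : P.obj X) :
    (biprod.fst : M ⊞ N ⟶ M).app X ((biprod.lift f g).app X x) = f.app X x :=
  congrArg (fun (φ : P ⟶ M) => φ.app X x) (biprod.lift_fst f g)

lemma snd_lift_app {M N P : PMod R} (f : P ⟶ M) (g : P ⟶ N) {X : Cᵒᵖ} (x : P.obj X) :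
    (biprod.snd : M ⊞ N ⟶ N).app X ((biprod.lift f g).app X x) = g.app X x :=
  congrArg (fun (φ : P ⟶ N) => φ.app X x) (biprod.lift_snd f g)

lemma inl_desc_app {M N P : PMod R} (f : M ⟶ P) (g : N ⟶ P) {X : Cᵒᵖ} (x : M.obj X) :
    (biprod.desc f g).app X ((biprod.inl : M ⟶ M ⊞ N).app X x) = f.app X x :=
  congrArg (fun (φ : M ⟶ P) => φ.app X x) (biprod.inl_desc f g)

lemma inr_desc_app {M N P : PMod R} (f : M ⟶ P) (g : N ⟶ P) {X : Cᵒᵖ} (x : N.obj X) :
    (biprod.desc f g).app X ((biprod.inr : N ⟶ M ⊞ N).app X x) = g.app X x :=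
  congrArg (fun (φ : N ⟶ P) => φ.app X x) (biprod.inr_desc f g)

lemma desc_app {M N P : PMod R} (f : M ⟶ P) (g : N ⟶ P) {X : Cᵒᵖ} (z : (M ⊞ N : PMod R).obj X) :
    (biprod.desc f g).app X z = f.app X ((biprod.fst : M ⊞ N ⟶ M).app X z) +
      g.app X ((biprod.snd : M ⊞ N ⟶ N).app X z) := by
  have h := congrArg ((biprod.desc f g).app X) (bip_total z)
  rw [← h, map_add, inl_desc_app, inr_desc_app]

/-- the Koszul complex -/
theorem koszul {c c' c₁ c₂ c₃ c₄ : UCoc R} (a : LSec c) (b : LSec c')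
    (h12 : ∀ {X Y : Cᵒᵖ} (f : X ⟶ Y), c₂.v f = c₁.v f * c.v f)
    (h13 : ∀ {X Y : Cᵒᵖ} (f : X ⟶ Y), c₃.v f = c₁.v f * c'.v f)
    (h24 : ∀ {X Y : Cᵒᵖ} (f : X ⟶ Y), c₄.v f = c₂.v f * c'.v f)
    (h34 : ∀ {X Y : Cᵒᵖ} (f : X ⟶ Y), c₄.v f = c₃.v f * c.v f)
    (hab : ∀ X, a.a X = 1 ∨ b.a X = 1) (M : PMod R) :
    ∃ w : biprod.lift (mT a h12 M) (mT b h13 M) ≫ biprod.desc (mT b h24 M) (-mT a h34 M) = 0,
      (ShortComplex.mk _ _ w).ShortExact := by
  have w : biprod.lift (mT a h12 M) (mT b h13 M) ≫ biprod.desc (mT b h24 M) (-mT a h34 M) = 0 := by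
    rw [biprod.lift_desc]
    apply pmod_ext
    intro X (x : M.obj X)
    change (b.a X • (a.a X • x) + (-(a.a X • (b.a X • x))) : M.obj X) = 0
    rw [smul_smul, smul_smul, tcomm, add_neg_cancel]
  have e1 : ∀ (X : Cᵒᵖ) (x : M.obj X) (y : M.obj X) (z : (c₂.twObj M ⊞ c₃.twObj M : PMod R).obj X),
      (biprod.fst : c₂.twObj M ⊞ c₃.twObj M ⟶ _).app X z = x →
      (biprod.snd : c₂.twObj M ⊞ c₃.twObj M ⟶ _).app X z = y →
      (biprod.desc (mT b h24 M) (-mT a h34 M)).app X z = (b.a X • x - a.a X • y : M.obj X) := by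
    intro X x y z hx hy
    rw [desc_app, hx, hy]
    change (b.a X • x + -(a.a X • y) : M.obj X) = _
    rw [sub_eq_add_neg]
  refine ⟨w, { exact := (pmod_exact_iff _).2 (fun X z => ?_), mono_f := (pmod_mono_iff _).2 ?_,
               epi_g := (pmod_epi_iff _).2 ?_ }⟩
  · constructor
    · intro hz
      obtain ⟨u, hu⟩ : ∃ u : M.obj X, (biprod.fst : c₂.twObj M ⊞ c₃.twObj M ⟶ _).app X z = u :=
        ⟨_, rfl⟩
      obtain ⟨v, hv⟩ : ∃ v : M.obj X, (biprod.snd : c₂.twObj M ⊞ c₃.twObj M ⟶ _).app X z = v :=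
        ⟨_, rfl⟩
      have h1 : (b.a X • u - a.a X • v : M.obj X) = 0 := (e1 X u v z hu hv).symm.trans hz
      rw [sub_eq_zero] at h1
      rcases hab X with h | h
      · rw [h, one_smul] at h1
        refine ⟨(u : M.obj X), bip_ext ?_ ?_⟩
        · refine (fst_lift_app (mT a h12 M) (mT b h13 M) (X := X) u).trans ?_
          rw [hu]
          change (a.a X • u : M.obj X) = u
          rw [h, one_smul]
        · refine (snd_lift_app (mT a h12 M) (mT b h13 M) (X := X) u).trans ?_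
          rw [hv]
          exact h1
      · rw [h, one_smul] at h1
        refine ⟨(v : M.obj X), bip_ext ?_ ?_⟩
        · refine (fst_lift_app (mT a h12 M) (mT b h13 M) (X := X) v).trans ?_
          rw [hu]
          exact h1.symm
        · refine (snd_lift_app (mT a h12 M) (mT b h13 M) (X := X) v).trans ?_
          rw [hv]
          change (b.a X • v : M.obj X) = v
          rw [h, one_smul]
    · rintro ⟨x, rfl⟩
      exact congrArg (fun (φ : c₁.twObj M ⟶ c₄.twObj M) => φ.app X x) w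
  · intro X (x : M.obj X) (y : M.obj X) hxy
    have h1 : (a.a X • x : M.obj X) = a.a X • y := by
      have := congrArg ((biprod.fst : c₂.twObj M ⊞ c₃.twObj M ⟶ _).app X) hxy
      exact (fst_lift_app (mT a h12 M) (mT b h13 M) (X := X) x).symm.trans (this.trans
        (fst_lift_app (mT a h12 M) (mT b h13 M) (X := X) y))
    have h2 : (b.a X • x : M.obj X) = b.a X • y := by
      have := congrArg ((biprod.snd : c₂.twObj M ⊞ c₃.twObj M ⟶ _).app X) hxy
      exact (snd_lift_app (mT a h12 M) (mT b h13 M) (X := X) x).symm.trans (this.trans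
        (snd_lift_app (mT a h12 M) (mT b h13 M) (X := X) y))
    rcases hab X with h | h
    · rwa [h, one_smul, one_smul] at h1
    · rwa [h, one_smul, one_smul] at h2
  · intro X (y : M.obj X)
    rcases hab X with h | h
    · refine ⟨(biprod.inr : _ ⟶ c₂.twObj M ⊞ c₃.twObj M).app X (-y : M.obj X), ?_⟩
      refine (e1 X 0 (-y) _ (inr_fst_app _) (inr_snd_app _)).trans ?_
      rw [h, one_smul, smul_zero, sub_neg_eq_add, zero_add]
    · refine ⟨(biprod.inl : _ ⟶ c₂.twObj M ⊞ c₃.twObj M).app X (y : M.obj X), ?_⟩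
      refine (e1 X y 0 _ (inl_fst_app _) (inl_snd_app _)).trans ?_
      rw [h, one_smul, smul_zero, sub_zero]

end Gen

section Geo

variable {K : Type} [Field K] {c₁ c₂ : CurveData K} {S : SurfData c₁ c₂} (X : ConicData S)

/-- the section `1` of `wi` -/
noncomputable def secA : LSec X.wi where
  a t := (⟨1 / X.wgen t.unop, by
    unfold ConicData.wgen
    split_ifs with h
    · rw [div_one]; exact one_mem _
    · rw [one_div]
      have hst : true ∈ t.unop.k.s := by
        obtain ⟨b, hb⟩ := t.unop.k.ne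
        cases b
        · exact absurd hb h
        · exact hb
      exact etainv_mem X ⟨t.unop.i, t.unop.j⟩ hst⟩ : X.A t.unop.i t.unop.j t.unop.k)
  compat {t t'} f := by
    apply Subtype.ext
    change X.wgen t.unop / X.wgen t'.unop * (1 / X.wgen t.unop) = 1 / X.wgen t'.unop
    have h1 := X.wgen_ne t.unop
    have h2 := X.wgen_ne t'.unop
    field_simp

lemma eta_h (t : Ch3) : X.eta t.i * hgen X t = X.η := by
  have h : algebraMap S.L X.E (S.h₁ t.i) ≠ 0 := by simpa using h1_ne S t.i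
  unfold ConicData.eta hgen
  field_simp

/-- the section `η` of `wi * hi` -/
noncomputable def secB : LSec (X.wi * hi X) where
  a t := (⟨X.eta t.unop.i / X.wgen t.unop, by
    unfold ConicData.wgen
    split_ifs with h
    · rw [div_one]
      exact eta_mem X ⟨t.unop.i, t.unop.j⟩ h
    · rw [div_self (X.eta_ne _)]; exact one_mem _⟩ : X.A t.unop.i t.unop.j t.unop.k)
  compat {t t'} f := by
    apply Subtype.ext
    change X.wgen t.unop / X.wgen t'.unop * (hgen X t.unop / hgen X t'.unop) *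
      (X.eta t.unop.i / X.wgen t.unop) = X.eta t'.unop.i / X.wgen t'.unop
    have h1 := X.wgen_ne t.unop
    have h2 := X.wgen_ne t'.unop
    have h3 := hgen_ne X t.unop
    have h4 := hgen_ne X t'.unop
    have h5 := (eta_h X t.unop).trans (eta_h X t'.unop).symm
    field_simp
    linear_combination h5

lemma sec_one (t : Ch3ᵒᵖ) : (secA X).a t = 1 ∨ (secB X).a t = 1 := by
  by_cases h : false ∈ t.unop.k.s
  · left
    apply Subtype.ext
    change 1 / X.wgen t.unop = 1
    unfold ConicData.wgen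
    rw [if_pos h, div_one]
  · right
    apply Subtype.ext
    change X.eta t.unop.i / X.wgen t.unop = 1
    unfold ConicData.wgen
    rw [if_neg h, div_self (X.eta_ne _)]

end Geo

end KOS_

/-- KOS: the Koszul complex of the sections `1`, `η` -/
theorem kos_proof : Stmt_KOS := by
  intro K _ c₁ c₂ S X M d e
  have h12 : WH X (d + 1) e = WH X d e * X.wi := by
    unfold WH
    rw [zpow_add_one, mul_right_comm]
  have h13 : WH X (d + 1) (e + 1) = WH X d e * (X.wi * hi X) := by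
    unfold WH
    rw [zpow_add_one, zpow_add_one, mul_mul_mul_comm]
  have h24 : WH X (d + 2) (e + 1) = WH X (d + 1) e * (X.wi * hi X) := by
    rw [h12]
    unfold WH
    rw [show d + 2 = d + 1 + 1 by ring, zpow_add_one, zpow_add_one, zpow_add_one]
    simp only [mul_assoc, mul_comm, mul_left_comm]
  have h34 : WH X (d + 2) (e + 1) = WH X (d + 1) (e + 1) * X.wi := by
    rw [h24, h12, h13]
    simp only [mul_assoc, mul_comm, mul_left_comm]
  obtain ⟨w, hw⟩ := KOS_.koszul (c₁ := WH X d e) (c₂ := WH X (d + 1) e)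
    (c₃ := WH X (d + 1) (e + 1)) (c₄ := WH X (d + 2) (e + 1)) (KOS_.secA X) (KOS_.secB X)
    (fun f => by rw [h12, UCoc.mul_v]) (fun f => by rw [h13, UCoc.mul_v])
    (fun f => by rw [h24, UCoc.mul_v]) (fun f => by rw [h34, UCoc.mul_v]) (KOS_.sec_one X) M
  exact ⟨_, hw, ⟨Iso.refl _⟩, ⟨Iso.refl _⟩, ⟨Iso.refl _⟩⟩

end Pool.CRD.G
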