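import Pool.Agent.CRD.G.StmtsC

/-!
# CRD, area G, LBI: the modules of invertible diagrams on `X`
-/

set_option autoImplicit false

open CategoryTheory Opposite Limits TensorProduct MonoidalCategory

namespace Pool.CRD.G

theorem lbi_proof (hEMO : Stmt_EMO) (hEIN : Stmt_EIN) (hTWA : Stmt_TWA) (hSYM : Stmt_SYM) :
    Stmt_LBI := by
  intro K _ _ _ c₁ c₂ S X a b hab
  let I : FracD (K := K) (F := X.E) (fun t : Ch3 => X.A t.i t.j t.k) :=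
    { I := fun t => ell X a b ⟨t.i, t.j⟩ t.k
      mono := fun {U V} h x hx => (hEMO K c₁ c₂ S X a b hab ⟨U.i, U.j⟩ ⟨V.i, V.j⟩ U.k V.k
        ⟨h.1, h.2.1⟩ h.2.2).1 x hx
      span := fun {U V} h x hx => (hEMO K c₁ c₂ S X a b hab ⟨U.i, U.j⟩ ⟨V.i, V.j⟩ U.k V.k
        ⟨h.1, h.2.1⟩ h.2.2).2 x hx
      inv := fun U => hEIN K c₁ c₂ S X a b hab ⟨U.i, U.j⟩ U.k }
  obtain ⟨J, ⟨e⟩, cI⟩ := hTWA K Ch3 X.E (fun t : Ch3 => X.A t.i t.j t.k)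
    (fun {U V : Ch3} (h : V ≤ U) => X.A_mono h.1 h.2.1 h.2.2) I
  obtain ⟨_, _, cJ⟩ := hTWA K Ch3 X.E (fun t : Ch3 => X.A t.i t.j t.k)
    (fun {U V : Ch3} (h : V ≤ U) => X.A_mono h.1 h.2.1 h.2.2) J
  obtain ⟨β⟩ := hSYM K Ch3 X.R (lbX J) (lbX I)
  exact ⟨I, lbX J, ⟨hab, fun t => rfl⟩, cI, cJ, ⟨e⟩, ⟨β ≪≫ e⟩⟩

end Pool.CRD.G
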