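import Pool.Agent.CRD.G.StmtsA

set_option autoImplicit false

open CategoryTheory Opposite Limits TensorProduct

namespace Pool.CRD.G

namespace LFO_

section gen

variable {A : Type} [CommRing A] {I : Type} {E X E' X' N Y : Type} [AddCommGroup E] [Module A E]
  [AddCommGroup X] [Module A X] [AddCommGroup E'] [Module A E'] [AddCommGroup X'] [Module A X']
  [AddCommGroup N] [Module A N] [AddCommGroup Y] [Module A Y]

/-- the equivalence of a bijective family -/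
noncomputable def eqv (s : I → E →ₗ[A] X)
    (h : Function.Bijective (fun c : I →₀ E => c.sum fun n x => s n x)) : (I →₀ E) ≃ₗ[A] X :=
  LinearEquiv.ofBijective (Finsupp.lsum A s) h

theorem eqv_single (s : I → E →ₗ[A] X)
    (h : Function.Bijective (fun c : I →₀ E => c.sum fun n x => s n x)) (i : I) (x : E) :
    eqv s h (Finsupp.single i x) = s i x := by
  change Finsupp.lsum A s (Finsupp.single i x) = _
  rw [Finsupp.lsum_single]

theorem eqv_symm (s : I → E →ₗ[A] X)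
    (h : Function.Bijective (fun c : I →₀ E => c.sum fun n x => s n x)) (i : I) (x : E) :
    (eqv s h).symm (s i x) = Finsupp.single i x := by
  rw [LinearEquiv.symm_apply_eq, eqv_single]

theorem extL (s : I → E →ₗ[A] X)
    (h : Function.Bijective (fun c : I →₀ E => c.sum fun n x => s n x)) (h1 h2 : X →ₗ[A] Y)
    (H : ∀ i x, h1 (s i x) = h2 (s i x)) (x : X) : h1 x = h2 x := by
  obtain ⟨c, rfl⟩ := h.2 x
  change h1 (Finsupp.lsum A s c) = h2 (Finsupp.lsum A s c)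
  induction c using Finsupp.induction_linear with
  | zero => simp
  | add a b ha hb => rw [map_add, map_add, map_add, ha, hb]
  | single i x => rw [Finsupp.lsum_single]; exact H i x

theorem extT (s : I → E →ₗ[A] X)
    (h : Function.Bijective (fun c : I →₀ E => c.sum fun n x => s n x))
    (h1 h2 : N ⊗[A] X →ₗ[A] Y) (g : X →ₗ[A] X)
    (H : ∀ (m : N) i x, h1 (m ⊗ₜ g (s i x)) = h2 (m ⊗ₜ s i x)) (m : N) (x : X) :
    h1 (m ⊗ₜ g x) = h2 (m ⊗ₜ x) :=
  extL s h (h1 ∘ₗ TensorProduct.mk A N X m ∘ₗ g) (h2 ∘ₗ TensorProduct.mk A N X m)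
    (fun i x => H m i x) x

theorem main (s : I → E →ₗ[A] X)
    (h : Function.Bijective (fun c : I →₀ E => c.sum fun n x => s n x))
    (s' : I → E' →ₗ[A] X')
    (h' : Function.Bijective (fun c : I →₀ E' => c.sum fun n x => s' n x))
    (μ : N ⊗[A] E ≃ₗ[A] E') : ∃ u : N ⊗[A] X ≃ₗ[A] X', ∀ n i x,
      u (n ⊗ₜ s i x) = s' i (μ (n ⊗ₜ x)) := by
  classical
  refine ⟨TensorProduct.congr (LinearEquiv.refl A N) (eqv s h).symm ≪≫ₗ
    TensorProduct.finsuppRight A A N E I ≪≫ₗ Finsupp.mapRange.linearEquiv μ ≪≫ₗ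
    eqv s' h', fun n i x => ?_⟩
  rw [LinearEquiv.trans_apply, LinearEquiv.trans_apply, LinearEquiv.trans_apply,
    TensorProduct.congr_tmul, eqv_symm, LinearEquiv.refl_apply,
    TensorProduct.finsuppRight_tmul_single, Finsupp.mapRange.linearEquiv_apply,
    Finsupp.mapRange_single, eqv_single]

end gen

section con

variable {A : Type} [CommRing A] {p q : A} {F T B : Type} [AddCommGroup F]
    [AddCommGroup T] [AddCommGroup B] [Module A F] [Module A T] [Module A B]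
    {e : Module.End A F} {y : Module.End A T} {g : B ≃ₗ[A] B} {f : F →ₗ[A] B} {t : T →ₗ[A] B}
    {zf : Module.End A F} {zt : Module.End A T} {zb : Module.End A B}
    {P Q : Module.End A (EE g f t)} {τ : EE g f t →ₗ[A] T}

theorem comm_pow {M : Type} [AddCommGroup M] [Module A M] {a b : Module.End A M}
    (h : ∀ x, a (b x) = b (a x)) (k : ℕ) (x : M) : a ((b ^ k) x) = (b ^ k) (a x) := by
  induction k generalizing x with
  | zero => rfl
  | succ k ih => rw [pow_succ, Module.End.mul_apply, Module.End.mul_apply, ih, h]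

theorem l1 (hC : IsCon p q e y g f t zf zt zb)
    (h1 : ∀ x : EE g f t, zf x = (P x : F) + e (Q x)) (k : ℕ) (x : EE g f t) :
    zf ((e ^ k) (x : F)) = (e ^ k) (P x : F) + (e ^ (k + 1)) (Q x : F) := by
  rw [comm_pow hC.zfe, h1, map_add, pow_succ, Module.End.mul_apply]

theorem zpow_succ_apply (k : ℤ) (b : B) : (g ^ (k + 1)) b = (g ^ k) (g b) := by
  rw [zpow_add, zpow_one]; rfl

theorem zpow_succ_apply' (k : ℤ) (b : B) : (g ^ (k + 1)) b = g ((g ^ k) b) := by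
  rw [add_comm, zpow_add, zpow_one]; rfl

theorem zb_zpow (hC : IsCon p q e y g f t zf zt zb) (k : ℤ) (b : B) :
    zb ((g ^ k) b) = (g ^ k) (zb b) := by
  induction k using Int.induction_on generalizing b with
  | zero => simp
  | succ k ih => rw [zpow_succ_apply, ih, hC.zbg, zpow_succ_apply]
  | pred k ih =>
    have e1 : ∀ b, (g ^ (-(k : ℤ) - 1)) b = (g ^ (-(k : ℤ))) (g.symm b) := by
      intro b
      rw [sub_eq_add_neg, zpow_add, zpow_neg_one]; rfl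
    have e2 : ∀ b, zb (g.symm b) = g.symm (zb b) := by
      intro b
      rw [LinearEquiv.eq_symm_apply, ← hC.zbg, LinearEquiv.apply_symm_apply]
    rw [e1, ih, e2, ← e1]

theorem l4 (hC : IsCon p q e y g f t zf zt zb) (k : ℕ) (x : F) :
    f ((e ^ k) x) = (g ^ (k : ℤ)) (f x) := by
  induction k generalizing x with
  | zero => simp
  | succ k ih =>
    rw [pow_succ, Module.End.mul_apply, ih, hC.fe, Nat.cast_succ, zpow_succ_apply]

theorem l3 (hC : IsCon p q e y g f t zf zt zb)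
    (h1 : ∀ x : EE g f t, zf x = (P x : F) + e (Q x)) (k : ℤ) (x : EE g f t) :
    zb ((g ^ k) (f x)) = (g ^ k) (f (P x)) + (g ^ (k + 1)) (f (Q x)) := by
  rw [zb_zpow hC, ← hC.fz, h1, map_add, map_add, hC.fe, zpow_succ_apply]

theorem t_inj (h0 : H0z f t) {a b : T} (h : t a = t b) : a = b := by
  have := (h0 0 (a - b) (by rw [map_zero, map_sub, h, sub_self])).2
  exact sub_eq_zero.1 this

theorem l2a (hC : IsCon p q e y g f t zf zt zb) (h0 : H0z f t)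
    (h1 : ∀ x : EE g f t, zf x = (P x : F) + e (Q x))
    (h2 : ∀ x : EE g f t, f x = g (t (τ x))) (x : EE g f t) :
    zt (τ x) = y (τ (P x)) + τ (Q x) := by
  apply t_inj h0
  apply g.injective
  apply g.injective
  rw [hC.tz, ← hC.zbg, ← h2, ← hC.fz, h1, map_add, map_add, map_add, map_add, hC.fe, hC.ty, h2, h2]

theorem l2 (hC : IsCon p q e y g f t zf zt zb) (h0 : H0z f t)
    (h1 : ∀ x : EE g f t, zf x = (P x : F) + e (Q x))
    (h2 : ∀ x : EE g f t, f x = g (t (τ x))) (k : ℕ) (x : EE g f t) :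
    zt ((y ^ k) (τ x)) = (y ^ (k + 1)) (τ (P x)) + (y ^ k) (τ (Q x)) := by
  rw [comm_pow hC.zty, l2a hC h0 h1 h2, map_add, pow_succ, Module.End.mul_apply]

theorem l5 (hC : IsCon p q e y g f t zf zt zb)
    (h2 : ∀ x : EE g f t, f x = g (t (τ x))) (k : ℕ) (x : EE g f t) :
    t ((y ^ k) (τ x)) = (g ^ (-(k : ℤ) - 1)) (f x) := by
  have e0 : ∀ (k : ℤ) (b : B), (g ^ k) (g b) = (g ^ (k + 1)) b := fun k b =>
    (zpow_succ_apply k b).symm
  rw [h2, e0, sub_add_cancel]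
  have : ∀ z : T, (g ^ (k : ℤ)) (t ((y ^ k) z)) = t z := by
    induction k with
    | zero => intro z; simp
    | succ k ih =>
      intro z
      rw [Nat.cast_succ, zpow_succ_apply, pow_succ', Module.End.mul_apply, hC.ty, ih]
  have h3 : (g ^ (-(k : ℤ))) ((g ^ (k : ℤ)) (t ((y ^ k) (τ x)))) =
      (g ^ (-(k : ℤ))) (t (τ x)) := by rw [this]
  rw [← h3, zpow_neg]
  change _ = (g ^ (k : ℤ)).symm ((g ^ (k : ℤ)) _)
  rw [LinearEquiv.symm_apply_apply]

end con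

end LFO_

open LFO_ in
theorem lfo_proof (hPSI : Stmt_PSI) (hMOR : Stmt_MOR) : Stmt_LFO := by
  intro A _ p q F T B _ _ _ _ _ _ e y g f t zf zt zb F' T' B' _ _ _ _ _ _ e' y' g' f' t' zf' zt'
    zb' u2 up uq hC h0 h1 hC' h0' h1' hgood
  obtain ⟨P, Q, τ, hcl, a1, a2, bF, bT, bB⟩ := hPSI A p q F T B e y g f t zf zt zb hC h0 h1
  obtain ⟨P', Q', τ', hcl', a1', a2', bF', bT', bB'⟩ :=
    hPSI A p q F' T' B' e' y' g' f' t' zf' zt' zb' hC' h0' h1'
  have hM := hMOR A p q (EE g f t) (EE g' f' t') P Q P' Q' u2 up uq (hgood P Q hcl a1) hcl'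
  let μ : CHom P Q P' Q' ⊗[A] (EE g f t) ≃ₗ[A] (EE g' f' t') := LinearEquiv.ofBijective _ hM
  have hμ : ∀ (c : CHom P Q P' Q') (x : EE g f t), μ (c ⊗ₜ x) = c.1 x := fun c x => by
    change TensorProduct.lift _ (c ⊗ₜ x) = _
    rw [TensorProduct.lift.tmul]
    rfl
  have hcP : ∀ (c : CHom P Q P' Q') (x : EE g f t), c.1 (P x) = P' (c.1 x) := fun c => c.2.1
  have hcQ : ∀ (c : CHom P Q P' Q') (x : EE g f t), c.1 (Q x) = Q' (c.1 x) := fun c => c.2.2
  -- the families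
  let sF : ℕ → (EE g f t →ₗ[A] F) := fun n => (e ^ n) ∘ₗ (EE g f t).subtype
  let sT : ℕ → (EE g f t →ₗ[A] T) := fun n => (y ^ n) ∘ₗ τ
  let sB : ℤ → (EE g f t →ₗ[A] B) := fun n =>
    ((g ^ n : B ≃ₗ[A] B) : B →ₗ[A] B) ∘ₗ f ∘ₗ (EE g f t).subtype
  let sF' : ℕ → (EE g' f' t' →ₗ[A] F') := fun n => (e' ^ n) ∘ₗ (EE g' f' t').subtype
  let sT' : ℕ → (EE g' f' t' →ₗ[A] T') := fun n => (y' ^ n) ∘ₗ τ'
  let sB' : ℤ → (EE g' f' t' →ₗ[A] B') := fun n =>
    ((g' ^ n : B' ≃ₗ[A] B') : B' →ₗ[A] B') ∘ₗ f' ∘ₗ (EE g' f' t').subtype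
  obtain ⟨uF, huF⟩ := main (N := CHom P Q P' Q') sF bF sF' bF' μ
  obtain ⟨uT, huT⟩ := main (N := CHom P Q P' Q') sT bT sT' bT' μ
  obtain ⟨uB, huB⟩ := main (N := CHom P Q P' Q') sB bB sB' bB' μ
  have kF : ∀ (c : CHom P Q P' Q') (n : ℕ) (x : EE g f t),
      uF (c ⊗ₜ (e ^ n) (x : F)) = (e' ^ n) (c.1 x : F') := fun c n x => by
    have := huF c n x
    rw [hμ] at this
    exact this
  have kT : ∀ (c : CHom P Q P' Q') (n : ℕ) (x : EE g f t),
      uT (c ⊗ₜ (y ^ n) (τ x)) = (y' ^ n) (τ' (c.1 x)) := fun c n x => by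
    have := huT c n x
    rw [hμ] at this
    exact this
  have kB : ∀ (c : CHom P Q P' Q') (n : ℤ) (x : EE g f t),
      uB (c ⊗ₜ (g ^ n) (f x)) = (g' ^ n) (f' (c.1 x)) := fun c n x => by
    have := huB c n x
    rw [hμ] at this
    exact this
  refine ⟨CHom P Q P' Q', inferInstance, inferInstance, uF, uT, uB, ?_, ?_, ?_, ?_, ?_, ?_, ?_, ?_⟩
  · refine fun c x => extT sF bF (uF : _ →ₗ[A] F') (e' ∘ₗ (uF : _ →ₗ[A] F')) e
      (fun c n x => ?_) c x
    change uF (c ⊗ₜ e ((e ^ n) (x : F))) = e' (uF (c ⊗ₜ (e ^ n) (x : F)))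
    rw [← Module.End.mul_apply, ← pow_succ', kF, kF, pow_succ', Module.End.mul_apply]
  · refine fun c x => extT sF bF (uF : _ →ₗ[A] F') (zf' ∘ₗ (uF : _ →ₗ[A] F')) zf
      (fun c n x => ?_) c x
    change uF (c ⊗ₜ zf ((e ^ n) (x : F))) = zf' (uF (c ⊗ₜ (e ^ n) (x : F)))
    rw [l1 hC a1, tmul_add, map_add, kF, kF, kF, l1 hC' a1', hcP, hcQ]
  · refine fun c x => extT sT bT (uT : _ →ₗ[A] T') (y' ∘ₗ (uT : _ →ₗ[A] T')) y
      (fun c n x => ?_) c x
    change uT (c ⊗ₜ y ((y ^ n) (τ x))) = y' (uT (c ⊗ₜ (y ^ n) (τ x)))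
    rw [← Module.End.mul_apply, ← pow_succ', kT, kT, pow_succ', Module.End.mul_apply]
  · refine fun c x => extT sT bT (uT : _ →ₗ[A] T') (zt' ∘ₗ (uT : _ →ₗ[A] T')) zt
      (fun c n x => ?_) c x
    change uT (c ⊗ₜ zt ((y ^ n) (τ x))) = zt' (uT (c ⊗ₜ (y ^ n) (τ x)))
    rw [l2 hC h0 a1 a2, tmul_add, map_add, kT, kT, kT, l2 hC' h0' a1' a2', hcP, hcQ]
  · refine fun c x => extT sB bB (uB : _ →ₗ[A] B') ((g' : B' →ₗ[A] B') ∘ₗ (uB : _ →ₗ[A] B'))
      (g : B →ₗ[A] B) (fun c n x => ?_) c x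
    change uB (c ⊗ₜ g ((g ^ n) (f x))) = g' (uB (c ⊗ₜ (g ^ n) (f x)))
    rw [← zpow_succ_apply', kB, kB, zpow_succ_apply']
  · refine fun c x => extT sB bB (uB : _ →ₗ[A] B') (zb' ∘ₗ (uB : _ →ₗ[A] B')) zb
      (fun c n x => ?_) c x
    change uB (c ⊗ₜ zb ((g ^ n) (f x))) = zb' (uB (c ⊗ₜ (g ^ n) (f x)))
    rw [l3 hC a1, tmul_add, map_add, kB, kB, kB, l3 hC' a1', hcP, hcQ]
  · refine fun c x => extL sF bF ((uB : _ →ₗ[A] B') ∘ₗ TensorProduct.mk A _ B c ∘ₗ f)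
      (f' ∘ₗ (uF : CHom P Q P' Q' ⊗[A] F →ₗ[A] F') ∘ₗ TensorProduct.mk A _ F c) (fun n x => ?_) x
    change uB (c ⊗ₜ f ((e ^ n) (x : F))) = f' (uF (c ⊗ₜ (e ^ n) (x : F)))
    rw [l4 hC, kB, kF, l4 hC']
  · refine fun c x => extL sT bT ((uB : _ →ₗ[A] B') ∘ₗ TensorProduct.mk A _ B c ∘ₗ t)
      (t' ∘ₗ (uT : CHom P Q P' Q' ⊗[A] T →ₗ[A] T') ∘ₗ TensorProduct.mk A _ T c) (fun n x => ?_) x
    change uB (c ⊗ₜ t ((y ^ n) (τ x))) = t' (uT (c ⊗ₜ (y ^ n) (τ x)))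
    rw [l5 hC a2, kB, kT, l5 hC' a2']

end Pool.CRD.G
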