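import Pool.Agent.CRD.G.StmtsB

/-!
# CRD, area G, module LOS: the restriction maps in the direction of `S` are localisations
-/

set_option autoImplicit false

open CategoryTheory Opposite Limits TensorProduct MonoidalCategory

namespace Pool.CRD.G

namespace LOS_

/-- the elements which are in `A` after multiplication by a power of `v` -/
def loc {K E : Type} [Field K] [Field E] [Algebra K E] (A : Subalgebra K E) (v : E) (hv : v ∈ A) :
    Subalgebra K E where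
  carrier := {x | ∃ n : ℕ, v ^ n * x ∈ A}
  mul_mem' := by
    rintro x y ⟨n, hn⟩ ⟨m, hm⟩
    refine ⟨n + m, ?_⟩
    have h : v ^ (n + m) * (x * y) = (v ^ n * x) * (v ^ m * y) := by ring
    rw [h]
    exact mul_mem hn hm
  add_mem' := by
    rintro x y ⟨n, hn⟩ ⟨m, hm⟩
    refine ⟨n + m, ?_⟩
    have h : v ^ (n + m) * (x + y) = v ^ m * (v ^ n * x) + v ^ n * (v ^ m * y) := by ring
    rw [h]
    exact add_mem (mul_mem (pow_mem hv _) hn) (mul_mem (pow_mem hv _) hm)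
  algebraMap_mem' k := ⟨0, by rw [pow_zero, one_mul]; exact A.algebraMap_mem k⟩

theorem le_loc {K E : Type} [Field K] [Field E] [Algebra K E] (A : Subalgebra K E) (v : E)
    (hv : v ∈ A) : A ≤ loc A v hv := fun x hx => ⟨0, by rw [pow_zero, one_mul]; exact hx⟩

theorem curve {K : Type} [Field K] (c : CurveData K) {U V : Cov Bool} (h : V ≤ U) :
    ∃ v ∈ c.A U, v ≠ 0 ∧ v⁻¹ ∈ c.A V ∧ ∀ z ∈ c.A V, ∃ n : ℕ, v ^ n * z ∈ c.A U := by
  rcases CurveData.Pt.cov_bool_le_cases h with rfl | rfl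
  · refine ⟨1, one_mem _, one_ne_zero, ?_, fun z hz => ⟨0, ?_⟩⟩
    · rw [inv_one]; exact one_mem _
    · rw [pow_zero, one_mul]; exact hz
  · refine ⟨c.v U, c.v_mem U, c.v_ne U, c.vinv_mem U, fun z hz => ?_⟩
    obtain ⟨n, hn⟩ := c.exists_mul_mem U hz
    exact ⟨n, by rw [mul_comm]; exact hn⟩

end LOS_

open LOS_ in
theorem los_proof : Stmt_LOS := by
  intro K _ c₁ c₂ S X s s' hs
  obtain ⟨v1, hv1, hv1n, hv1i, hl1⟩ := curve c₁ hs.1
  obtain ⟨v2, hv2, hv2n, hv2i, hl2⟩ := curve c₂ hs.2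
  have m1 : ∀ z ∈ c₁.A s.i, S.e₁ z ∈ S.A s.i s.j := fun z hz =>
    (le_sup_left : _ ≤ S.A s.i s.j) ⟨z, hz, rfl⟩
  have m2 : ∀ z ∈ c₂.A s.j, S.e₂ z ∈ S.A s.i s.j := fun z hz =>
    (le_sup_right : _ ≤ S.A s.i s.j) ⟨z, hz, rfl⟩
  have m1' : ∀ z ∈ c₁.A s'.i, S.e₁ z ∈ S.A s'.i s'.j := fun z hz =>
    (le_sup_left : _ ≤ S.A s'.i s'.j) ⟨z, hz, rfl⟩
  have m2' : ∀ z ∈ c₂.A s'.j, S.e₂ z ∈ S.A s'.i s'.j := fun z hz =>
    (le_sup_right : _ ≤ S.A s'.i s'.j) ⟨z, hz, rfl⟩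
  have hv : S.e₁ v1 * S.e₂ v2 ∈ S.A s.i s.j := mul_mem (m1 _ hv1) (m2 _ hv2)
  have hS : S.A s'.i s'.j ≤ loc (S.A s.i s.j) (S.e₁ v1 * S.e₂ v2) hv := by
    refine sup_le ?_ ?_
    · rintro _ ⟨z, hz, rfl⟩
      obtain ⟨n, hn⟩ := hl1 z hz
      refine ⟨n, ?_⟩
      have h := mul_mem (m1 _ hn) (pow_mem (m2 _ hv2) n)
      rw [map_mul, map_pow] at h
      have e : (S.e₁ v1 * S.e₂ v2) ^ n * S.e₁ z = S.e₁ v1 ^ n * S.e₁ z * S.e₂ v2 ^ n := by ring
      change (S.e₁ v1 * S.e₂ v2) ^ n * S.e₁ z ∈ _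
      rw [e]
      exact h
    · rintro _ ⟨z, hz, rfl⟩
      obtain ⟨n, hn⟩ := hl2 z hz
      refine ⟨n, ?_⟩
      have h := mul_mem (m2 _ hn) (pow_mem (m1 _ hv1) n)
      rw [map_mul, map_pow] at h
      have e : (S.e₁ v1 * S.e₂ v2) ^ n * S.e₂ z = S.e₂ v2 ^ n * S.e₂ z * S.e₁ v1 ^ n := by ring
      change (S.e₁ v1 * S.e₂ v2) ^ n * S.e₂ z ∈ _
      rw [e]
      exact h
  refine ⟨S.e₁ v1 * S.e₂ v2, hv, ?_, ?_, fun z hz => hS hz, ?_⟩
  · refine mul_ne_zero ?_ ?_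
    · rw [Ne, map_eq_zero]; exact hv1n
    · rw [Ne, map_eq_zero]; exact hv2n
  · rw [mul_inv, ← map_inv₀, ← map_inv₀]
    exact mul_mem (m1' _ hv1i) (m2' _ hv2i)
  · intro k
    have hvX : algebraMap S.L X.E (S.e₁ v1 * S.e₂ v2) ∈ X.A s.i s.j k := X.mem_of_S hv
    have hXS : ∀ z ∈ S.A s'.i s'.j, algebraMap S.L X.E z ∈
        loc (X.A s.i s.j k) (algebraMap S.L X.E (S.e₁ v1 * S.e₂ v2)) hvX := by
      intro z hz
      obtain ⟨n, hn⟩ := hS hz
      refine ⟨n, ?_⟩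
      have h := X.mem_of_S (k := k) hn
      rwa [map_mul, map_pow] at h
    have hne1 := h1_ne S
    have hne2 := h2_ne S
    have h1a : algebraMap S.L X.E (S.h₁ s'.i / S.h₁ s.i) ∈
        loc (X.A s.i s.j k) (algebraMap S.L X.E (S.e₁ v1 * S.e₂ v2)) hvX := by
      refine hXS _ ?_
      have h := m1' _ (c₁.h_div hs.1).2
      rwa [map_div₀] at h
    have h1b : algebraMap S.L X.E (S.h₁ s.i / S.h₁ s'.i) ∈
        loc (X.A s.i s.j k) (algebraMap S.L X.E (S.e₁ v1 * S.e₂ v2)) hvX := by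
      refine hXS _ ?_
      have h := m1' _ (c₁.h_div hs.1).1
      rwa [map_div₀] at h
    have h2a : algebraMap S.L X.E (S.h₂ s'.j / S.h₂ s.j) ∈
        loc (X.A s.i s.j k) (algebraMap S.L X.E (S.e₁ v1 * S.e₂ v2)) hvX := by
      refine hXS _ ?_
      have h := m2' _ (c₂.h_div hs.2).2
      rwa [map_div₀] at h
    have hgen : ∀ w ∈ X.gens s.i s.j k, w ∈
        loc (X.A s.i s.j k) (algebraMap S.L X.E (S.e₁ v1 * S.e₂ v2)) hvX := fun w hw =>
      le_loc _ _ _ (X.mem_of_gens hw)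
    have hX : X.A s'.i s'.j k ≤
        loc (X.A s.i s.j k) (algebraMap S.L X.E (S.e₁ v1 * S.e₂ v2)) hvX := by
      have a1 : algebraMap S.L X.E (S.h₁ s.i) ≠ 0 := by simpa using hne1 s.i
      have a2 : algebraMap S.L X.E (S.h₁ s'.i) ≠ 0 := by simpa using hne1 s'.i
      have a3 : algebraMap S.L X.E (S.h₂ s.j) ≠ 0 := by simpa using hne2 s.j
      have a4 : algebraMap S.L X.E (S.h₂ s'.j) ≠ 0 := by simpa using hne2 s'.j
      rw [map_div₀] at h1a h1b h2a
      refine sup_le ?_ (Algebra.adjoin_le ?_)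
      · rintro _ ⟨z, hz, rfl⟩
        exact hXS z hz
      · rintro z (⟨hk1, rfl | rfl⟩ | ⟨hk1, rfl | rfl⟩) <;> rw [SetLike.mem_coe]
        · have h := mul_mem h1a (hgen _ (Or.inl ⟨hk1, Or.inl rfl⟩))
          have e : X.eta s'.i = algebraMap S.L X.E (S.h₁ s'.i) / algebraMap S.L X.E (S.h₁ s.i) *
              X.eta s.i := by
            unfold ConicData.eta
            field_simp
          rw [e]
          exact h
        · have h := mul_mem h2a (hgen _ (Or.inl ⟨hk1, Or.inr rfl⟩))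
          have e : X.zeta s'.j = algebraMap S.L X.E (S.h₂ s'.j) / algebraMap S.L X.E (S.h₂ s.j) *
              X.zeta s.j := by
            unfold ConicData.zeta
            field_simp
          rw [e]
          exact h
        · have h := mul_mem h1b (hgen _ (Or.inr ⟨hk1, Or.inl rfl⟩))
          have e : (X.eta s'.i)⁻¹ = algebraMap S.L X.E (S.h₁ s.i) /
              algebraMap S.L X.E (S.h₁ s'.i) * (X.eta s.i)⁻¹ := by
            unfold ConicData.eta
            by_cases hη : X.η = 0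
            · simp [hη]
            · field_simp
          rw [e]
          exact h
        · have h := mul_mem (mul_mem h2a h1b) (hgen _ (Or.inr ⟨hk1, Or.inr rfl⟩))
          have e : X.zeta s'.j / X.eta s'.i =
              algebraMap S.L X.E (S.h₂ s'.j) / algebraMap S.L X.E (S.h₂ s.j) *
              (algebraMap S.L X.E (S.h₁ s.i) / algebraMap S.L X.E (S.h₁ s'.i)) *
              (X.zeta s.j / X.eta s.i) := by
            unfold ConicData.eta ConicData.zeta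
            by_cases hη : X.η = 0
            · simp [hη]
            · field_simp
          rw [e]
          exact h
    exact fun z hz => hX hz

end Pool.CRD.G
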