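import Pool.Agent.CRD.G.StmtsD

/-!
# CRD, area G, module LRA
-/

set_option autoImplicit false

open CategoryTheory Opposite Limits TensorProduct MonoidalCategory Pretriangulated

namespace Pool.CRD.G

open FunL

/-- LRA (Leray, vanishing) -/
theorem lra_proof (hBRA : Stmt_BRA) (hPBI : Stmt_PBI) (hVAN : Stmt_VAN) (hRAC : Stmt_RAC) :
    Stmt_LRA := by
  intro K _ c₁ c₂ S X _ _ N hN M f
  obtain ⟨e⟩ := hPBI K c₁ c₂ S X
  obtain ⟨adj, _⟩ := hBRA K Ch3 (Rp S) X.R (phX X)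
  let e' : (mD X.pbS).obj M ≅ (mD (bcX X)).obj ((mD (pbp S)).obj M) :=
    (natDIso e).app M ≪≫ (compD (pbp S) (bcX X)).symm.app M
  have h1 : e'.inv ≫ f = 0 := by
    apply (adjD_bijective adj ((mD (pbp S)).obj M) ((sg X.R).obj N)).1
    change (unitD adj).app _ ≫ (mD (rsX X)).map (e'.inv ≫ f) =
      (unitD adj).app _ ≫ (mD (rsX X)).map 0
    rw [Functor.map_zero, comp_zero]
    have h2 := hVAN K c₁ c₂ S ((rsX X).obj N) (hRAC K c₁ c₂ S X N hN) M
      (((unitD adj).app _ ≫ (mD (rsX X)).map (e'.inv ≫ f)) ≫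
        (Functor.mapDerivedCategorySingleFunctor (rsX X) 0).hom.app N)
    have h3 : ((unitD adj).app ((mD (pbp S)).obj M) ≫ (mD (rsX X)).map (e'.inv ≫ f)) =
        (((unitD adj).app ((mD (pbp S)).obj M) ≫ (mD (rsX X)).map (e'.inv ≫ f)) ≫
        (Functor.mapDerivedCategorySingleFunctor (rsX X) 0).hom.app N) ≫
        (Functor.mapDerivedCategorySingleFunctor (rsX X) 0).inv.app N := by
      rw [Category.assoc, Iso.hom_inv_id_app]
      exact (Category.comp_id _).symm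
    rw [h3, h2, zero_comp]
  rw [← cancel_epi e'.inv, h1, comp_zero]

end Pool.CRD.G
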