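import Pool.Agent.CRD.G.StmtsD

/-!
# CRD, area G, module LRB: Leray for `p^* N`
-/

set_option autoImplicit false

open CategoryTheory Opposite Limits TensorProduct MonoidalCategory Pretriangulated

universe w₁ w₂ w₃ v₁ v₂ v₃ u₁ u₂ u₃

namespace Pool.CRD.G

namespace LRB_

open FunL

theorem bij_comp_iso {A : Type*} [Category A] {X X' Y Y' : A} (a : X' ≅ X) (b : Y ≅ Y') :
    Function.Bijective (fun f : X ⟶ Y => a.hom ≫ f ≫ b.hom) := by
  constructor
  · intro f g h
    have h1 : a.hom ≫ f ≫ b.hom = a.hom ≫ g ≫ b.hom := h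
    simpa using h1
  · intro f
    exact ⟨a.inv ≫ f ≫ b.inv, by simp⟩

/-- isomorphic functors are bijective on the same sets of morphisms -/
theorem bij_of_iso {C D : Type*} [Category C] [Category D] {F G : C ⥤ D} (e : F ≅ G) (X Y : C)
    (h : Function.Bijective (fun f : X ⟶ Y => G.map f)) :
    Function.Bijective (fun f : X ⟶ Y => F.map f) := by
  have h1 : (fun f : X ⟶ Y => F.map f) =
      (fun g : G.obj X ⟶ G.obj Y => (e.app X).hom ≫ g ≫ (e.symm.app Y).hom) ∘
        (fun f : X ⟶ Y => G.map f) := by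
    funext f
    simp
  rw [h1]
  exact (bij_comp_iso _ _).comp h

/-- composition with the first morphism of a distinguished triangle -/
theorem comp_bij {T : Type*} [Category T] [Preadditive T] [HasZeroObject T] [HasShift T ℤ]
    [∀ n : ℤ, (shiftFunctor T n).Additive] [Pretriangulated T] (Δ : Triangle T)
    (hΔ : Δ ∈ distTriang T) (Y : T) (h3 : ∀ f : Y ⟶ Δ.obj₃, f = 0)
    (h3' : ∀ f : Y ⟶ Δ.obj₃⟦(-1 : ℤ)⟧, f = 0) :
    Function.Bijective (fun h : Y ⟶ Δ.obj₁ => h ≫ Δ.mor₁) := by
  constructor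
  · intro h h' hh
    have h1 : h ≫ Δ.mor₁ = h' ≫ Δ.mor₁ := hh
    rw [← sub_eq_zero] at h1 ⊢
    rw [← Preadditive.sub_comp] at h1
    obtain ⟨g, hg⟩ := Triangle.coyoneda_exact₂ Δ.invRotate (inv_rot_of_distTriang _ hΔ) (h - h') h1
    have hg0 : g = 0 := h3' g
    rw [hg, hg0]
    exact zero_comp
  · intro f
    obtain ⟨g, hg⟩ := Triangle.coyoneda_exact₂ Δ hΔ f (h3 _)
    exact ⟨g, hg.symm⟩

section

variable {A : Type u₁} [Category.{v₁} A] [Abelian A] [HasDerivedCategory.{w₁} A]
  {B : Type u₂} [Category.{v₂} B] [Abelian B] [HasDerivedCategory.{w₂} B]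
  {E : Type u₃} [Category.{v₃} E] [Abelian E] [HasDerivedCategory.{w₃} E]

/-- vanishing for all shifts -/
theorem van_shift (P : A ⥤ B) [ExF P] (Z : DerivedCategory B)
    (h : ∀ (M : DerivedCategory A) (f : (mD P).obj M ⟶ Z), f = 0) (n : ℤ)
    (M : DerivedCategory A) (f : (mD P).obj M ⟶ Z⟦n⟧) : f = 0 := by
  let e : (Z⟦n⟧)⟦-n⟧ ≅ Z := shiftShiftNeg Z n
  let g : (mD P).obj (M⟦-n⟧) ⟶ Z := ((mD P).commShiftIso (-n)).hom.app M ≫ f⟦-n⟧' ≫ e.hom
  have hg : g = 0 := h _ g
  have h1 : f⟦-n⟧' = 0 := by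
    have h2 : f⟦-n⟧' = ((mD P).commShiftIso (-n)).inv.app M ≫ g ≫ e.inv := by
      simp [g]
    rw [h2, hg, zero_comp, comp_zero]
  apply (shiftFunctor (DerivedCategory B) (-n)).map_injective
  rw [h1, Functor.map_zero]

omit [Abelian B] [HasDerivedCategory B] [Abelian E] [HasDerivedCategory E] in
theorem unit_calc {F : B ⥤ E} {G : E ⥤ B} (adj : F ⊣ G) {U W Z : B} {V : E} (x : W ⟶ U)
    (y : V ≅ F.obj U) (w : G.obj (F.obj U) ⟶ Z) :
    adj.unit.app W ≫ G.map (F.map x ≫ y.inv) ≫ (G.map y.hom ≫ w) = x ≫ adj.unit.app U ≫ w := by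
  have h6 : x ≫ adj.unit.app U = adj.unit.app W ≫ G.map (F.map x) := adj.unit.naturality x
  rw [reassoc_of% h6, Functor.map_comp, Category.assoc, ← Functor.map_comp_assoc G y.inv,
    Iso.inv_hom_id, CategoryTheory.Functor.map_id, Category.id_comp]

/-- the unit of the adjunction on derived categories, on single modules -/
theorem unit_single {F : B ⥤ E} {G : E ⥤ B} [ExF F] [ExF G] (adj : F ⊣ G) (U : B) :
    ∃ θ : (mD G).obj ((mD F).obj ((DerivedCategory.singleFunctor B 0).obj U)) ≅
      (DerivedCategory.singleFunctor B 0).obj (G.obj (F.obj U)),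
      (unitD adj).app ((DerivedCategory.singleFunctor B 0).obj U) ≫ θ.hom =
        (DerivedCategory.singleFunctor B 0).map (adj.unit.app U) := by
  let X : CochainComplex B ℤ := (HomologicalComplex.single B (ComplexShape.up ℤ) 0).obj U
  let sF := (HomologicalComplex.singleMapHomologicalComplex F (ComplexShape.up ℤ) 0).app U
  let sG := (HomologicalComplex.singleMapHomologicalComplex G (ComplexShape.up ℤ) 0).app (F.obj U)
  refine ⟨(mD G).mapIso (fac F X) ≪≫ fac G ((mK F).obj X) ≪≫
    DerivedCategory.Q.mapIso ((mK G).mapIso sF ≪≫ sG), ?_⟩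
  have h1 := unitD_app adj X
  have h2 : uK adj X ≫ (mK G).map sF.hom ≫ sG.hom =
      (HomologicalComplex.single B (ComplexShape.up ℤ) 0).map (adj.unit.app U) := by
    apply HomologicalComplex.from_single_hom_ext
    have h3 : (uK adj X).f 0 = adj.unit.app (X.X 0) := uK_f adj X 0
    have h4 : sF.hom.f 0 = F.map (HomologicalComplex.singleObjXSelf (ComplexShape.up ℤ) 0 U).hom ≫
        (HomologicalComplex.singleObjXSelf (ComplexShape.up ℤ) 0 (F.obj U)).inv :=
      HomologicalComplex.singleMapHomologicalComplex_hom_app_self F (ComplexShape.up ℤ) 0 U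
    have h5 : sG.hom.f 0 = G.map (HomologicalComplex.singleObjXSelf (ComplexShape.up ℤ) 0
        (F.obj U)).hom ≫
        (HomologicalComplex.singleObjXSelf (ComplexShape.up ℤ) 0 (G.obj (F.obj U))).inv :=
      HomologicalComplex.singleMapHomologicalComplex_hom_app_self G (ComplexShape.up ℤ) 0 (F.obj U)
    rw [HomologicalComplex.single_map_f_self]
    change (uK adj X).f 0 ≫ G.map (sF.hom.f 0) ≫ sG.hom.f 0 = _
    rw [h3, h4, h5]
    exact unit_calc adj _ _ _
  have h9 : (unitD adj).app (DerivedCategory.Q.obj X) ≫ ((mD G).map (fac F X).hom ≫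
      (fac G ((mK F).obj X)).hom ≫ DerivedCategory.Q.map ((mK G).map sF.hom ≫ sG.hom)) =
      DerivedCategory.Q.map ((HomologicalComplex.single B (ComplexShape.up ℤ) 0).map
        (adj.unit.app U)) := by
    rw [h1, ← h2]
    simp only [Category.assoc]
    rw [← Functor.map_comp_assoc (mD G), Iso.inv_hom_id, CategoryTheory.Functor.map_id,
      Category.id_comp, Iso.inv_hom_id_assoc, ← Functor.map_comp]
  exact h9

theorem core (P : A ⥤ B) {F : B ⥤ E} {G : E ⥤ B} [ExF P] [ExF F] [ExF G] (adj : F ⊣ G)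
    (hP : (mD P).FullyFaithful) (N : A) (hmono : Mono (adj.unit.app (P.obj N)))
    (hvan : ∀ (M : DerivedCategory A) (f : (mD P).obj M ⟶
      (DerivedCategory.singleFunctor B 0).obj (cokernel (adj.unit.app (P.obj N)))), f = 0)
    (M : DerivedCategory A) :
    Function.Bijective (fun f : M ⟶ (DerivedCategory.singleFunctor A 0).obj N =>
      (mD (P ⋙ F)).map f) := by
  let Z := (mD P).obj ((DerivedCategory.singleFunctor A 0).obj N)
  let Y := (mD P).obj M
  let z : Z ≅ (DerivedCategory.singleFunctor B 0).obj (P.obj N) :=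
    (P.mapDerivedCategorySingleFunctor 0).app N
  -- the triangle
  have hSE : (ShortComplex.mk (adj.unit.app (P.obj N)) (cokernel.π (adj.unit.app (P.obj N)))
      (cokernel.condition _)).ShortExact :=
    { exact := ShortComplex.exact_cokernel _
      mono_f := hmono
      epi_g := inferInstance }
  have h1 : Function.Bijective (fun h : Y ⟶ (DerivedCategory.singleFunctor B 0).obj (P.obj N) =>
      h ≫ (DerivedCategory.singleFunctor B 0).map (adj.unit.app (P.obj N))) :=
    comp_bij hSE.singleTriangle hSE.singleTriangle_distinguished Y (fun f => hvan M f)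
      (fun f => van_shift P _ hvan (-1) M f)
  obtain ⟨θ, hθ⟩ := unit_single adj (P.obj N)
  have h2 : Function.Bijective (fun h : Y ⟶ (DerivedCategory.singleFunctor B 0).obj (P.obj N) =>
      h ≫ (unitD adj).app ((DerivedCategory.singleFunctor B 0).obj (P.obj N))) := by
    have h3 : (fun h : Y ⟶ (DerivedCategory.singleFunctor B 0).obj (P.obj N) =>
        h ≫ (DerivedCategory.singleFunctor B 0).map (adj.unit.app (P.obj N))) =
        (fun g => (Iso.refl Y).hom ≫ g ≫ θ.hom) ∘
        (fun h : Y ⟶ (DerivedCategory.singleFunctor B 0).obj (P.obj N) =>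
          h ≫ (unitD adj).app ((DerivedCategory.singleFunctor B 0).obj (P.obj N))) := by
      funext h
      rw [← hθ]
      simp
    rw [h3] at h1
    exact (Function.Bijective.of_comp_iff' (bij_comp_iso (Iso.refl Y) θ) _).1 h1
  have h4 : Function.Bijective (fun h : Y ⟶ Z => h ≫ (unitD adj).app Z) := by
    have h5 : (fun h : Y ⟶ Z => h ≫ (unitD adj).app Z) =
        (fun g => (Iso.refl Y).hom ≫ g ≫ ((mD G).mapIso ((mD F).mapIso z.symm)).hom) ∘
        (fun h : Y ⟶ (DerivedCategory.singleFunctor B 0).obj (P.obj N) =>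
          h ≫ (unitD adj).app ((DerivedCategory.singleFunctor B 0).obj (P.obj N))) ∘
        (fun h : Y ⟶ Z => (Iso.refl Y).hom ≫ h ≫ z.hom) := by
      funext h
      have h6 := (unitD adj).naturality z.inv
      simp only [Function.comp_apply, Iso.refl_hom, Category.id_comp, Category.assoc,
        Functor.mapIso_hom, Iso.symm_hom]
      have h7 : (unitD adj).app ((DerivedCategory.singleFunctor B 0).obj (P.obj N)) ≫
          (mD G).map ((mD F).map z.inv) = z.inv ≫ (unitD adj).app Z := h6.symm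
      rw [h7, z.hom_inv_id_assoc]
    rw [h5]
    exact (bij_comp_iso _ _).comp (h2.comp (bij_comp_iso _ _))
  have h8 : Function.Bijective (fun h : Y ⟶ Z => (mD F).map h) := by
    have h9 : (fun h : Y ⟶ Z => h ≫ (unitD adj).app Z) =
        (fun g : (mD F).obj Y ⟶ (mD F).obj Z => (unitD adj).app Y ≫ (mD G).map g) ∘
        (fun h : Y ⟶ Z => (mD F).map h) := by
      funext h
      exact (unitD adj).naturality h
    rw [h9] at h4
    exact (Function.Bijective.of_comp_iff' (adjD_bijective adj Y ((mD F).obj Z)) _).1 h4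
  have h10 : Function.Bijective (fun f : M ⟶ (DerivedCategory.singleFunctor A 0).obj N =>
      (mD P ⋙ mD F).map f) := h8.comp hP.homEquiv.bijective
  exact bij_of_iso (compD P F).symm _ _ h10

end

end LRB_

open LRB_ FunL in
theorem lrb_proof (hBRA : Stmt_BRA) (hPBI : Stmt_PBI) (hPRA : Stmt_PRA) (hVAN : Stmt_VAN)
    (hUAC : Stmt_UAC) : Stmt_LRB := by
  intro K _ c₁ c₂ S X _ _ M N
  obtain ⟨e⟩ := hPBI K c₁ c₂ S X
  obtain ⟨adj, hadj⟩ := hBRA K Ch3 (Rp S) X.R (phX X)
  obtain ⟨adj₁, hadj₁⟩ := hPRA K c₁ c₂ S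
  have hiso : IsIso (adjD adj₁).counit := by
    rw [adjD_counit]
    infer_instance
  have hP : (mD (pbp S)).FullyFaithful := (adjD adj₁).fullyFaithfulROfIsIsoCounit
  obtain ⟨hmono, hacy⟩ := hUAC K c₁ c₂ S X N
  have hmono' : Mono (adj.unit.app ((pbp S).obj N)) := by
    rw [hadj]; exact hmono
  have hvan : ∀ (M : DPM S.R) (f : (mD (pbp S)).obj M ⟶ (DerivedCategory.singleFunctor
      (PMod (Rp S)) 0).obj (cokernel (adj.unit.app ((pbp S).obj N)))), f = 0 := by
    refine hVAN K c₁ c₂ S _ ?_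
    rw [hadj]
    exact hacy _ (cokernel.π (bcU (phX X) ((pbp S).obj N))) (cokernel.condition _) inferInstance
      (ShortComplex.exact_cokernel _)
  have h1 := core (pbp S) adj hP N hmono' hvan M
  exact bij_of_iso (natDIso e) _ _ h1

end Pool.CRD.G
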