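import Pool.Agent.CRD.G.StmtsD

/-!
# CRD, area G, module LRD
-/

set_option autoImplicit false

open CategoryTheory Opposite Limits TensorProduct MonoidalCategory Pretriangulated

namespace Pool.CRD.G

namespace LRD_

/-- isomorphic functors are bijective on the same sets of morphisms -/
theorem bij_of_iso {C D : Type*} [Category C] [Category D] {F G : C ⥤ D} (e : F ≅ G) (X Y : C)
    (h : Function.Bijective (fun f : X ⟶ Y => G.map f)) :
    Function.Bijective (fun f : X ⟶ Y => F.map f) := by
  constructor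
  · intro f g hfg
    have hfg' : F.map f = F.map g := hfg
    apply h.1
    change G.map f = G.map g
    rw [← NatIso.naturality_1 e f, ← NatIso.naturality_1 e g, hfg']
  · intro g
    obtain ⟨f, hf⟩ := h.2 (e.inv.app X ≫ g ≫ e.hom.app Y)
    have hf' : G.map f = e.inv.app X ≫ g ≫ e.hom.app Y := hf
    refine ⟨f, ?_⟩
    change F.map f = g
    rw [← NatIso.naturality_2 e f, hf']
    simp

end LRD_

open LRD_ FunL

/-- LRD: `p^*(-) ⊗ ℓ` is fully faithful -/
theorem lrd_proof (hLRB : Stmt_LRB) (hTWC : Stmt_TWC) : Stmt_LRD := by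
  intro K _ c₁ c₂ S X _ _ L L' _ h M N
  obtain ⟨h1, h2, _⟩ := hTWC K Ch3 X.R L L' h
  have h3 : (mD (tensorRight L)).IsEquivalence := DEQ_.mapDC_eq (tensorRight L)
  have h4 := hLRB K c₁ c₂ S X M N
  refine bij_of_iso (compD X.pbS (tensorRight L)).symm M _ ?_
  have h5 : Function.Bijective (fun f : (mD X.pbS).obj M ⟶ (mD X.pbS).obj ((sg S.R).obj N) =>
      (mD (tensorRight L)).map f) :=
    ⟨fun f g hfg => (mD (tensorRight L)).map_injective hfg, fun g =>
      ⟨(mD (tensorRight L)).preimage g, (mD (tensorRight L)).map_preimage g⟩⟩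
  exact h5.comp h4

end Pool.CRD.G
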