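import Pool.Agent.CRD.G.StmtsA

/-!
# CRD, area G: module MOR (Morita theory for the Clifford algebra)
-/

open CategoryTheory Opposite Limits TensorProduct

namespace Pool.CRD.G

namespace MOR_

section
variable {A : Type} [CommRing A] {p q : A} {E E' : Type} [AddCommGroup E] [Module A E]
  [AddCommGroup E'] [Module A E'] {P Q : Module.End A E} {P' Q' : Module.End A E'}

/-- the homomorphism of Clifford modules `u_{x,φ}` -/
def u (p q d : A) (P Q : Module.End A E) (P' Q' : Module.End A E') (x : E') (φ : E →ₗ[A] A) :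
    E →ₗ[A] E' :=
  d • ((p * q) • φ.smulRight x + q • (φ ∘ₗ P).smulRight (P' x) + p • (φ ∘ₗ Q).smulRight (Q' x) -
    (φ ∘ₗ P ∘ₗ Q).smulRight (P' (Q' x)))

theorem u_apply (d : A) (x : E') (φ : E →ₗ[A] A) (w : E) :
    u p q d P Q P' Q' x φ w = d • ((p * q) • φ w • x + q • φ (P w) • P' x + p • φ (Q w) • Q' x -
      φ (P (Q w)) • P' (Q' x)) := rfl

theorem u_mem (h : IsCliff p q P Q) (h' : IsCliff p q P' Q') (d : A) (x : E') (φ : E →ₗ[A] A) :
    u p q d P Q P' Q' x φ ∈ CHom P Q P' Q' := by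
  have e1 : ∀ w, Q (P w) = - P (Q w) := fun w => by rw [h.PQ, neg_neg]
  have e1' : ∀ w, Q' (P' w) = - P' (Q' w) := fun w => by rw [h'.PQ, neg_neg]
  refine ⟨fun w => ?_, fun w => ?_⟩
  · rw [u_apply, u_apply, map_smul, map_sub, map_add, map_add]
    simp only [map_smul, h.PP, h'.PP, e1, map_neg, smul_eq_mul]
    module
  · rw [u_apply, u_apply, map_smul, map_sub, map_add, map_add]
    simp only [map_smul, h.QQ, h'.QQ, e1', map_neg, smul_eq_mul]
    module

/-- `u` is linear in `x` -/
def uL (h : IsCliff p q P Q) (h' : IsCliff p q P' Q') (d : A) (φ : E →ₗ[A] A) :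
    E' →ₗ[A] CHom P Q P' Q' where
  toFun x := ⟨u p q d P Q P' Q' x φ, u_mem h h' d x φ⟩
  map_add' x y := by
    apply Subtype.ext
    apply LinearMap.ext
    intro w
    change u p q d P Q P' Q' (x + y) φ w = u p q d P Q P' Q' x φ w + u p q d P Q P' Q' y φ w
    simp only [u_apply, map_add]
    module
  map_smul' c x := by
    apply Subtype.ext
    apply LinearMap.ext
    intro w
    change u p q d P Q P' Q' (c • x) φ w = c • u p q d P Q P' Q' x φ w
    simp only [u_apply, map_smul]
    module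

end

end MOR_

open MOR_ in
theorem mor_proof : Stmt_MOR := by
  intro A _ p q E E' _ _ _ _ P Q P' Q' h2 hp hq hG h'
  obtain ⟨d, hd⟩ : ∃ d : A, d * (2 * p * q) = 1 := by
    obtain ⟨v, hv⟩ := (h2.mul hp).mul hq
    exact ⟨((v⁻¹ : Aˣ) : A), by rw [← hv, Units.inv_mul]⟩
  obtain ⟨n, ε, φ, hb, t1, tP, tQ, tPQ⟩ := hG.basis
  have hC : IsCliff p q P Q := hG.toIsCliff
  constructor
  · -- injectivity
    let r : E' →ₗ[A] CHom P Q P' Q' ⊗[A] E :=
      ∑ k, (TensorProduct.mk A (CHom P Q P' Q') E).flip (ε k) ∘ₗ uL hC h' d (φ k)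
    have hr : r ∘ₗ TensorProduct.lift (CHom P Q P' Q').subtype = LinearMap.id := by
      apply TensorProduct.ext'
      intro c y
      have h1 : r (c.1 y) = ∑ k, uL hC h' d (φ k) (c.1 y) ⊗ₜ[A] ε k := by
        simp only [r, LinearMap.sum_apply, LinearMap.comp_apply, LinearMap.flip_apply,
          TensorProduct.mk_apply]
      have h2 : ∀ k, uL hC h' d (φ k) (c.1 y) = φ k y • c := by
        intro k
        apply Subtype.ext
        apply LinearMap.ext
        intro w
        change u p q d P Q P' Q' (c.1 y) (φ k) w = φ k y • c.1 w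
        have h3 := congrArg c.1 (hG.swap (φ k) w y)
        rw [map_sub, map_add, map_add, map_smul, map_smul, map_smul, map_smul, map_smul,
          c.2.1, c.2.2, c.2.1, c.2.2] at h3
        rw [u_apply]
        have h4 : (p * q) • φ k w • c.1 y + q • φ k (P w) • P' (c.1 y) +
            p • φ k (Q w) • Q' (c.1 y) - φ k (P (Q w)) • P' (Q' (c.1 y)) =
            (2 * p * q * φ k y) • c.1 w := by
          rw [h3]
          module
        rw [h4, smul_smul, ← mul_assoc, hd, one_mul]
      change r (c.1 y) = c ⊗ₜ[A] y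
      rw [h1]
      simp only [h2, TensorProduct.smul_tmul]
      rw [← TensorProduct.tmul_sum, hb]
    intro x y hxy
    have h1 := congrArg r hxy
    have h2 : ∀ z, r (TensorProduct.lift (CHom P Q P' Q').subtype z) = z := fun z =>
      LinearMap.congr_fun hr z
    rw [h2, h2] at h1
    exact h1
  · intro x
    refine ⟨∑ k, uL hC h' d (φ k) x ⊗ₜ[A] ε k, ?_⟩
    rw [map_sum]
    have h1 : ∀ k, TensorProduct.lift (CHom P Q P' Q').subtype (uL hC h' d (φ k) x ⊗ₜ[A] ε k) =
        d • ((p * q) • φ k (ε k) • x + q • φ k (P (ε k)) • P' x + p • φ k (Q (ε k)) • Q' x -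
      φ k (P (Q (ε k))) • P' (Q' x)) := fun k => rfl
    rw [Finset.sum_congr rfl fun k _ => h1 k, ← Finset.smul_sum, Finset.sum_sub_distrib,
      Finset.sum_add_distrib, Finset.sum_add_distrib, ← Finset.smul_sum, ← Finset.smul_sum,
      ← Finset.smul_sum, ← Finset.sum_smul, ← Finset.sum_smul, ← Finset.sum_smul,
      ← Finset.sum_smul, t1, tP, tQ, tPQ]
    rw [zero_smul, zero_smul, zero_smul, smul_zero, smul_zero, add_zero, add_zero, sub_zero,
      smul_smul, smul_smul]
    have h3 : d * (p * q) * 2 = 1 := by linear_combination hd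
    rw [h3, one_smul]

end Pool.CRD.G
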