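import Pool.Agent.CRD.G.StmtsD

/-!
# CRD, area G, module PBI
-/

set_option autoImplicit false

open CategoryTheory Opposite Limits TensorProduct MonoidalCategory Pretriangulated

namespace Pool.CRD.G

namespace PBI_

variable {K : Type} [Field K] {c₁ c₂ : CurveData K} {S : SurfData c₁ c₂} (X : ConicData S)
  (N : PMod S.R)

/-- `m ↦ 1 ⊗ m` -/
noncomputable def j (t : Ch3ᵒᵖ) : N.obj (X.pr.m.op.obj t) →+ BcM (phX X) ((pbp S).obj N) t where
  toFun m := bct (phX X) ((pbp S).obj N) t 1 m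
  map_zero' := by
    have h := bct_add_right (phX X) ((pbp S).obj N) t 1 (0 : N.obj (X.pr.m.op.obj t))
      (0 : N.obj (X.pr.m.op.obj t))
    have h2 : (0 : N.obj (X.pr.m.op.obj t)) + 0 = 0 := add_zero _
    have h3 : bct (phX X) ((pbp S).obj N) t 1 (0 : N.obj (X.pr.m.op.obj t)) =
        bct (phX X) ((pbp S).obj N) t 1 (0 : N.obj (X.pr.m.op.obj t)) +
        bct (phX X) ((pbp S).obj N) t 1 (0 : N.obj (X.pr.m.op.obj t)) :=
      (congrArg (bct (phX X) ((pbp S).obj N) t 1) h2).symm.trans h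
    exact left_eq_add.1 h3
  map_add' m n := bct_add_right (phX X) ((pbp S).obj N) t 1 m n

noncomputable instance (t : Ch3ᵒᵖ) : Module (X.R.obj t) (BcM (phX X) ((pbp S).obj N) t) :=
  inferInstanceAs (Module (X.R.toRing.obj t) (BcM (phX X) ((pbp S).obj N) t))

lemma j_smul (t : Ch3ᵒᵖ) (a : S.R.obj (X.pr.m.op.obj t)) (m : N.obj (X.pr.m.op.obj t)) :
    j X N t (a • m) = (X.pr.hom t a) • j X N t m := by
  have h1 := bct_bal (phX X) ((pbp S).obj N) t 1 a m
  rw [mul_one] at h1
  have h2 := bct_smul (phX X) ((pbp S).obj N) t (((phX X).app t).hom a) 1 m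
  rw [mul_one] at h2
  exact h1.symm.trans h2.symm

/-- the comparison map -/
noncomputable def c (t : Ch3ᵒᵖ) : BT (X.pr.hom t) (N.obj (X.pr.m.op.obj t)) →ₗ[X.R.obj t]
    BcM (phX X) ((pbp S).obj N) t :=
  BTlift (X.pr.hom t) (j X N t) (fun a m => j_smul X N t a m)

lemma c_bt (t : Ch3ᵒᵖ) (b : X.R.obj t) (m : N.obj (X.pr.m.op.obj t)) :
    c X N t (bt _ b m) = bct (phX X) ((pbp S).obj N) t b m := by
  have h : c X N t (bt _ b m) = b • j X N t m := rfl
  rw [h]
  have h2 := bct_smul (phX X) ((pbp S).obj N) t b 1 m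
  rw [mul_one] at h2
  exact h2

/-- the inverse -/
noncomputable def d (t : Ch3ᵒᵖ) : BcM (phX X) ((pbp S).obj N) t →+
    BT (X.pr.hom t) (N.obj (X.pr.m.op.obj t)) :=
  bcLift (phX X) ((pbp S).obj N) t
    (fun r m => bt (X.pr.hom t) r (show N.obj (X.pr.m.op.obj t) from m))
    (fun r s m => bt_add_left _ r s _)
    (fun r m n => bt_add_right _ r _ _)
    (fun a r m => (bt_smul_right (X.pr.hom t) r a (show N.obj (X.pr.m.op.obj t) from m)).symm)

lemma d_bct (t : Ch3ᵒᵖ) (b : X.R.obj t) (m : N.obj (X.pr.m.op.obj t)) :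
    d X N t (bct (phX X) ((pbp S).obj N) t b m) = bt _ b m := rfl

lemma d_c (t : Ch3ᵒᵖ) (x : BT (X.pr.hom t) (N.obj (X.pr.m.op.obj t))) :
    d X N t (c X N t x) = x := by
  refine bt_induction _ (P := fun x => d X N t (c X N t x) = x) ?_ ?_ ?_ x
  · rw [map_zero, map_zero]
  · intro b m
    rw [c_bt, d_bct]
  · intro x y hx hy
    rw [map_add, map_add, hx, hy]

lemma c_d (t : Ch3ᵒᵖ) (x : BcM (phX X) ((pbp S).obj N) t) :
    c X N t (d X N t x) = x := by
  refine bct_induction (phX X) ((pbp S).obj N) t (P := fun x => c X N t (d X N t x) = x)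
    ?_ ?_ ?_ x
  · rw [map_zero, map_zero]
  · intro b m
    exact c_bt X N t b m
  · intro x y hx hy
    rw [map_add, map_add, hx, hy]

/-- the comparison isomorphism on a chart -/
noncomputable def ce (t : Ch3ᵒᵖ) : BT (X.pr.hom t) (N.obj (X.pr.m.op.obj t)) ≃ₗ[X.R.obj t]
    BcM (phX X) ((pbp S).obj N) t :=
  { c X N t with
    invFun := d X N t
    left_inv := d_c X N t
    right_inv := c_d X N t }

/-- the comparison isomorphism -/
noncomputable def ci : X.pbS.obj N ≅ (pbp S ⋙ bcX X).obj N :=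
  mkIso (M := X.pr.bcObj N) (N := bcObj (phX X) ((pbp S).obj N)) (fun t => ce X N t)
    (by
      intro t t' f x
      refine bt_induction _ (P := fun x => c X N t' (X.pr.bcRs N f x) =
        bcRs (phX X) ((pbp S).obj N) f (c X N t x)) ?_ ?_ ?_ x
      · rw [map_zero, map_zero, map_zero, map_zero]
      · intro b m
        rw [DMor.bcRs_bt, c_bt, c_bt]
        exact (bcRs_bct (phX X) ((pbp S).obj N) f b m).symm
      · intro x y hx hy
        rw [map_add, map_add, hx, hy, map_add, map_add])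

end PBI_

open PBI_

/-- PBI: the pull back is the pull back of charts followed by base change -/
theorem pbi_proof : Stmt_PBI := by
  intro K _ c₁ c₂ S X
  refine ⟨NatIso.ofComponents (fun N => ci X N) ?_⟩
  intro M N f
  apply X.pr.bc_ext
  intro t x
  change c X N t (bt _ 1 (f.app (X.pr.m.op.obj t) x)) = bcLin (phX X) ((pbp S).map f) t
    (c X M t (bt _ 1 x))
  rw [c_bt, c_bt]
  exact (bcLin_bct (phX X) ((pbp S).map f) t 1 x).symm

end Pool.CRD.G
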