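import Pool.Agent.CRD.G.StmtsD
import Pool.Agent.CRD.Phi.LBC

/-!
# CRD, area G: PCO, pull backs of coherent modules are coherent
-/

open CategoryTheory Opposite Limits

namespace Pool.CRD.G

/-- PCO: from the general statement LBC on base change -/
theorem pco_proof : Stmt_PCO := by
  intro K _ c₁ c₂ S X N hN
  exact Pool.CRD.Ph.lbc_proof K Ch2 Ch3 S.R X.R X.pr N hN

end Pool.CRD.G
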