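import Pool.Agent.CRD.G.StmtsD

open CategoryTheory Opposite Limits TensorProduct MonoidalCategory Pretriangulated

namespace Pool.CRD.G

namespace PRA_

lemma rs_pf {C C' : Type} [SmallCategory C] [SmallCategory C'] {K : Type} [Field K]
    {R : PAlg K C} {R' : PAlg K C'}
    (F : C ⥤ C') (φ : R ⟶ F.op ⋙ R') (M : PMod R') {X Y : Cᵒᵖ} (f : X ⟶ Y)
    (x : M.obj (F.op.obj X)) :
    rs ((pf F φ).obj M) f (x : ((pf F φ).obj M).obj X) = rs M (F.op.map f) x := rfl

lemma map_pf {C C' : Type} [SmallCategory C] [SmallCategory C'] {K : Type} [Field K]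
    {R : PAlg K C} {R' : PAlg K C'}
    (F : C ⥤ C') (φ : R ⟶ F.op ⋙ R') {M N : PMod R'} (α : M ⟶ N) (X : Cᵒᵖ)
    (x : M.obj (F.op.obj X)) :
    ((pf F φ).map α).app X (x : ((pf F φ).obj M).obj X) = α.app (F.op.obj X) x := rfl

variable {K : Type} [Field K] {c₁ c₂ : CurveData K} (S : SurfData c₁ c₂)

/-- the restriction to the smallest chart over the same chart of the base -/
def toBot (t : Ch3ᵒᵖ) : t ⟶ op (c3 ⟨t.unop.i, t.unop.j⟩ cab) :=
  (homOfLE (show c3 ⟨t.unop.i, t.unop.j⟩ cab ≤ t.unop from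
    ⟨le_refl _, le_refl _, cab_bot t.unop.k⟩)).op

/-- the unit -/
noncomputable def uL (Q : PMod (Rp S)) (t : Ch3ᵒᵖ) : Q.obj t →ₗ[(Rp S).toRing.obj t]
    ((pbp S).obj ((res S cab).obj Q)).obj t :=
  { toFun := fun x => (rs Q (toBot t) x : Q.obj (op (c3 ⟨t.unop.i, t.unop.j⟩ cab)))
    map_add' := fun x y => rs_add Q _ x y
    map_smul' := fun r x => rs_smul Q (toBot t) r x }

lemma uL_apply (Q : PMod (Rp S)) (t : Ch3ᵒᵖ) (x : Q.obj t) :
    uL S Q t x = (rs Q (toBot t) x : Q.obj (op (c3 ⟨t.unop.i, t.unop.j⟩ cab))) := rfl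

lemma u_nat (Q : PMod (Rp S)) {t t' : Ch3ᵒᵖ} (f : t ⟶ t') (x : Q.obj t) :
    uL S Q t' (rs Q f x) = rs ((pbp S).obj ((res S cab).obj Q)) f (uL S Q t x) := by
  have h1 := rs_comp Q f (toBot t') x
  have h2 := rs_comp Q (toBot t) ((inC cab).op.map (ConicData.prC.op.map f)) x
  exact h1.symm.trans h2

/-- the unit -/
noncomputable def uQ (Q : PMod (Rp S)) : Q ⟶ (pbp S).obj ((res S cab).obj Q) :=
  mkHom (M := Q) (N := (pbp S).obj ((res S cab).obj Q)) (uL S Q) (u_nat S Q)

theorem t2 (N : PMod S.R) {s s' : Ch2ᵒᵖ} (f : s ⟶ s')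
    (x : N.obj s) :
    rs N (ConicData.prC.op.map ((inC cab).op.map f)) x = rs N f x := rfl

theorem t3 (N : PMod S.R) {s s' : Ch2ᵒᵖ} (f : s ⟶ s')
    (x : N.obj s) :
    rs ((pbp S).obj N) ((inC cab).op.map f) x =
      rs N (ConicData.prC.op.map ((inC cab).op.map f)) x := 
   rs_pf ConicData.prC (𝟙 _) N ((inC cab).op.map f) x

theorem t4 (N : PMod S.R) {s s' : Ch2ᵒᵖ} (f : s ⟶ s')
    (x : ((pbp S).obj N).obj ((inC cab).op.obj s)) :
    rs ((res S cab).obj ((pbp S).obj N)) f x = 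
    rs ((pbp S).obj N) ((inC cab).op.map f) x := 
   rs_pf (inC cab) (phk S cab) ((pbp S).obj N) f x

theorem t5 (N : PMod S.R) {s s' : Ch2ᵒᵖ} (f : s ⟶ s')
    (x : N.obj s) :
    rs ((res S cab).obj ((pbp S).obj N)) f x = rs N f x := 
   (t4 S N f x).trans ((t3 S N f x).trans (t2 S N f x))

/-- the counit -/
noncomputable def cL (N : PMod S.R) (s : Ch2ᵒᵖ) :
    ((res S cab).obj ((pbp S).obj N)).obj s →ₗ[S.R.toRing.obj s] N.obj s :=
      { toFun := fun x => (x : N.obj s)
        map_add' := fun _ _ => rfl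
        map_smul' := fun _ _ => rfl }

lemma cL_apply (N : PMod S.R) (s : Ch2ᵒᵖ) (x : ((res S cab).obj ((pbp S).obj N)).obj s) :
    cL S N s x = x := rfl

lemma c_nat (N : PMod S.R) {s s' : Ch2ᵒᵖ} (f : s ⟶ s')
    (x : ((res S cab).obj ((pbp S).obj N)).obj s) :
    cL S N s' (rs ((res S cab).obj ((pbp S).obj N)) f x) = rs N f (cL S N s x) := by
  rw [cL_apply, cL_apply]
  exact t5 S N f x

/-- the counit -/
noncomputable def cN (N : PMod S.R) : (res S cab).obj ((pbp S).obj N) ⟶ N :=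
  mkHom (M := (res S cab).obj ((pbp S).obj N)) (N := N) (cL S N) (c_nat S N)

/-- the inverse of the counit -/
noncomputable def cL' (N : PMod S.R) (s : Ch2ᵒᵖ) :
    N.obj s →ₗ[S.R.toRing.obj s] ((res S cab).obj ((pbp S).obj N)).obj s :=
      { toFun := fun x => (x : N.obj s)
        map_add' := fun _ _ => rfl
        map_smul' := fun _ _ => rfl }

lemma cL'_apply (N : PMod S.R) (s : Ch2ᵒᵖ) (x : N.obj s) :
    cL' S N s x = x := rfl

lemma c'_nat (N : PMod S.R) {s s' : Ch2ᵒᵖ} (f : s ⟶ s') (x : N.obj s) :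
    cL' S N s' (rs N f x) = rs ((res S cab).obj ((pbp S).obj N)) f (cL' S N s x) := by
  rw [cL'_apply, cL'_apply]
  exact (t5 S N f x).symm

/-- the inverse of the counit -/
noncomputable def cN' (N : PMod S.R) : N ⟶ (res S cab).obj ((pbp S).obj N) :=
  mkHom (M := N) (N := (res S cab).obj ((pbp S).obj N)) (cL' S N) (c'_nat S N)

instance (N : PMod S.R) : IsIso (cN S N) := by
  refine ⟨cN' S N, ?_, ?_⟩
  · apply pmod_ext; intro s x; rfl
  · apply pmod_ext; intro s x; rfl


noncomputable def unitN : 𝟭 (PMod (Rp S)) ⟶ res S cab ⋙ pbp S where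
  app := uQ S
  naturality := by
    intro Q Q' α
    apply pmod_ext; intro t x
    exact (rs_nat α (toBot t) x).symm

noncomputable def counitN : pbp S ⋙ res S cab ⟶ 𝟭 (PMod S.R) where
  app := cN S
  naturality := by
    intro N N' α
    apply pmod_ext; intro s x
    rfl

lemma toBot_c3 (Q : PMod (Rp S)) (s : Ch2) (x : Q.obj (op (c3 s cab))) :
    rs Q (toBot (op (c3 s cab))) x = x := rs_id Q (op (c3 s cab)) x

lemma u_app (Q : PMod (Rp S)) (t : Ch3ᵒᵖ) (x : Q.obj t) :
    (uQ S Q).app t x = (rs Q (toBot t) x : Q.obj (op (c3 ⟨t.unop.i, t.unop.j⟩ cab))) := rfl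

lemma c_app (N : PMod S.R) (s : Ch2ᵒᵖ) (x : ((res S cab).obj ((pbp S).obj N)).obj s) :
    (cN S N).app s x = (x : N.obj s) := rfl

lemma left_tri (Q : PMod (Rp S)) :
    (res S cab).map (uQ S Q) ≫ cN S ((res S cab).obj Q) = 𝟙 _ := by
  apply pmod_ext; intro s x
  have h1 : ((res S cab).map (uQ S Q)).app s x =
    (rs Q (toBot (op (c3 s.unop cab))) x : Q.obj (op (c3 s.unop cab))) := rfl
  have h3 := toBot_c3 S Q s.unop x
  have h2 := c_app S ((res S cab).obj Q) s (((res S cab).map (uQ S Q)).app s x)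
  exact h2.trans (h1.trans h3)

lemma right_tri (N : PMod S.R) :
    uQ S ((pbp S).obj N) ≫ (pbp S).map (cN S N) = 𝟙 _ := by
  apply pmod_ext; intro t x
  have h1 : ((pbp S).map (cN S N)).app t ((uQ S ((pbp S).obj N)).app t x) =
    (uQ S ((pbp S).obj N)).app t x := rfl
  have h2 := u_app S ((pbp S).obj N) t x
  have h3 : rs ((pbp S).obj N) (toBot t) x = rs N (ConicData.prC.op.map (toBot t)) x :=
    rs_pf ConicData.prC (𝟙 _) N (toBot t) x
  have h4 : rs N (ConicData.prC.op.map (toBot t)) x = x := rs_id N _ x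
  exact h1.trans (h2.trans (h3.trans h4))

noncomputable def adj : res S cab ⊣ pbp S := Adjunction.mkOfUnitCounit
  { unit := unitN S
    counit := counitN S
    left_triangle := by
      ext1; ext1 Q
      have h := left_tri S Q
      dsimp only [unitN, counitN, NatTrans.comp_app, Functor.whiskerRight_app,
        Functor.associator_hom_app, Functor.whiskerLeft_app, NatTrans.id_app]
      rw [Category.id_comp]
      exact h
    right_triangle := by
      ext1; ext1 N
      have h := right_tri S N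
      dsimp only [unitN, counitN, NatTrans.comp_app, Functor.whiskerRight_app,
        Functor.associator_inv_app, Functor.whiskerLeft_app, NatTrans.id_app]
      rw [Category.id_comp]
      exact h }

end PRA_

open PRA_ in
theorem pra_proof : Stmt_PRA := by
  intro K _ c₁ c₂ S
  refine ⟨adj S, ?_⟩
  have h1 : ∀ N, IsIso ((adj S).counit.app N) := fun N =>
    (inferInstance : IsIso (cN S N))
  exact NatIso.isIso_of_isIso_app _

end Pool.CRD.G
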