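import Pool.Agent.CRD.G.StmtsA

/-!
# CRD, area G, module PRF: kernels over `A ⊗ B` (`A`, `B` Dedekind) are projective
-/

set_option autoImplicit false
open CategoryTheory Opposite Limits TensorProduct

namespace Pool.CRD.G

namespace PRF_

/-- a local uniformiser -/
theorem unif {A : Type} [CommRing A] [IsDedekindDomain A] (P : Ideal A) (hP : P.IsMaximal) :
    ∃ π ∈ P, ∃ s ∉ P, ∀ a ∈ P, ∃ c, s * a = π * c := by
  by_cases h0 : P = ⊥
  · refine ⟨0, P.zero_mem, 1, ?_, ?_⟩
    · rw [← Ideal.ne_top_iff_one]
      exact hP.ne_top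
    · intro a ha
      rw [h0, Ideal.mem_bot] at ha
      exact ⟨0, by rw [ha]; ring⟩
  · obtain ⟨π, hπ, hπ2⟩ := Ideal.exists_mem_pow_notMem_pow_succ P h0 hP.ne_top 1
    rw [pow_one] at hπ
    have h1 : Ideal.span {π} ≤ P := (Ideal.span_singleton_le_iff_mem P).2 hπ
    obtain ⟨J, hJ⟩ := Ideal.dvd_iff_le.2 h1
    have h2 : ¬ J ≤ P := by
      intro h
      apply hπ2
      rw [pow_succ, pow_one]
      have h3 : π ∈ P * J := by
        rw [← hJ]
        exact Ideal.mem_span_singleton_self π
      exact Ideal.mul_mono_right h h3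
    obtain ⟨s, hs, hsP⟩ := SetLike.not_le_iff_exists.1 h2
    refine ⟨π, hπ, s, hsP, fun a ha => ?_⟩
    have h3 : s * a ∈ Ideal.span {π} := by
      rw [hJ, mul_comm s a]
      exact Ideal.mul_mem_mul ha hs
    obtain ⟨c, hc⟩ := Ideal.mem_span_singleton.1 h3
    exact ⟨c, hc⟩

section

variable {K : Type} [Field K] {A B R : Type} [CommRing A] [CommRing B] [CommRing R]
    [Algebra K A] [Algebra K B] [Algebra K R]

theorem mul_right (ρ : B) (t : A ⊗[K] B) :
    ((1 : A) ⊗ₜ[K] ρ) * t = LinearMap.lTensor A (LinearMap.mulLeft K ρ) t := by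
  induction t using TensorProduct.induction_on with
  | zero => simp
  | tmul a b => simp
  | add x y hx hy => rw [mul_add, hx, hy, map_add]

theorem mul_left (π : A) (t : A ⊗[K] B) :
    (π ⊗ₜ[K] (1 : B)) * t = LinearMap.rTensor B (LinearMap.mulLeft K π) t := by
  induction t using TensorProduct.induction_on with
  | zero => simp
  | tmul a b => simp
  | add x y hx hy => rw [mul_add, hx, hy, map_add]

theorem reg_tensor [IsDomain B] (π : A) (ρ : B) (hρ : ρ ≠ 0) (t w : A ⊗[K] B)
    (h : ((1 : A) ⊗ₜ[K] ρ) * t = (π ⊗ₜ[K] (1 : B)) * w) : ∃ z, t = (π ⊗ₜ[K] (1 : B)) * z := by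
  rw [mul_right, mul_left] at h
  set q := (LinearMap.range (LinearMap.mulLeft K π)).mkQ with hq
  have hex : Function.Exact (LinearMap.mulLeft K π) q := LinearMap.exact_map_mkQ_range _
  have hex2 := rTensor_exact B hex (Submodule.mkQ_surjective _)
  have h1 : LinearMap.rTensor B q (LinearMap.lTensor A (LinearMap.mulLeft K ρ) t) = 0 := by
    rw [h]
    exact (hex2 _).2 ⟨w, rfl⟩
  have h2 : LinearMap.rTensor B q (LinearMap.lTensor A (LinearMap.mulLeft K ρ) t) =
      LinearMap.lTensor _ (LinearMap.mulLeft K ρ) (LinearMap.rTensor B q t) := by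
    rw [← LinearMap.comp_apply, ← LinearMap.comp_apply, LinearMap.rTensor_comp_lTensor,
      LinearMap.lTensor_comp_rTensor]
  rw [h2] at h1
  have hinj : Function.Injective (LinearMap.mulLeft K ρ) := fun x y hxy => by
    simpa [hρ] using hxy
  have h3 := Module.Flat.lTensor_preserves_injective_linearMap
    (M := A ⧸ LinearMap.range (LinearMap.mulLeft K π)) (LinearMap.mulLeft K ρ) hinj
  have h4 : LinearMap.rTensor B q t = 0 := by
    apply h3
    rw [h1, map_zero]
  obtain ⟨z, hz⟩ := (hex2 t).1 h4
  exact ⟨z, by rw [mul_left, hz]⟩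

theorem reg [IsDomain B] (i : A →ₐ[K] R) (j : B →ₐ[K] R)
    (hij : Function.Bijective (Algebra.TensorProduct.productMap i j)) (π : A) (ρ : B)
    (hρ : ρ ≠ 0) (r x : R) (h : j ρ * r = i π * x) : ∃ z, r = i π * z := by
  obtain ⟨t, rfl⟩ := hij.2 r
  obtain ⟨w, rfl⟩ := hij.2 x
  have e1 : j ρ = Algebra.TensorProduct.productMap i j ((1 : A) ⊗ₜ[K] ρ) := by simp
  have e2 : i π = Algebra.TensorProduct.productMap i j (π ⊗ₜ[K] (1 : B)) := by simp
  rw [e1, e2, ← map_mul, ← map_mul] at h
  obtain ⟨z, hz⟩ := reg_tensor π ρ hρ t w (hij.1 h)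
  exact ⟨Algebra.TensorProduct.productMap i j z, by rw [e2, ← map_mul, hz]⟩

theorem ft (i : A →ₐ[K] R) (j : B →ₐ[K] R) [Algebra.FiniteType K A] [Algebra.FiniteType K B]
    (hij : Function.Bijective (Algebra.TensorProduct.productMap i j)) :
    Algebra.FiniteType K R := by
  have h1 : Algebra.FiniteType A (A ⊗[K] B) := inferInstance
  have h2 : Algebra.FiniteType K (A ⊗[K] B) := Algebra.FiniteType.trans ‹_› h1
  exact Algebra.FiniteType.of_surjective (Algebra.TensorProduct.productMap i j) hij.2

theorem nss [IsAlgClosed K] [Algebra.FiniteType K R] (m : Ideal R) (hm : m.IsMaximal) (r : R) :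
    ∃ k : K, r - algebraMap K R k ∈ m := by
  let := Ideal.Quotient.field m
  have h1 : Algebra.FiniteType K (R ⧸ m) :=
    Algebra.FiniteType.of_surjective (Ideal.Quotient.mkₐ K m) (Ideal.Quotient.mkₐ_surjective K m)
  have h2 : Module.Finite K (R ⧸ m) := finite_of_finite_type_of_isJacobsonRing K (R ⧸ m)
  have h3 := (IsAlgClosed.algebraMap_bijective_of_isIntegral (k := K) (K := R ⧸ m)).2
    (Ideal.Quotient.mk m r)
  obtain ⟨k, hk⟩ := h3
  refine ⟨k, ?_⟩
  rw [← Ideal.Quotient.eq, ← hk]
  rfl

/-- the maximal ideals are generated by the maximal ideals of the factors -/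
theorem max_le [IsAlgClosed K] [Algebra.FiniteType K R] (i : A →ₐ[K] R) (j : B →ₐ[K] R)
    (hij : Function.Bijective (Algebra.TensorProduct.productMap i j)) (m : Ideal R)
    (hm : m.IsMaximal) :
    m ≤ (m.comap (i : A →+* R)).map (i : A →+* R) ⊔ (m.comap (j : B →+* R)).map (j : B →+* R) := by
  set J := (m.comap (i : A →+* R)).map (i : A →+* R) ⊔ (m.comap (j : B →+* R)).map (j : B →+* R)
    with hJ
  have hJm : J ≤ m := sup_le Ideal.map_comap_le Ideal.map_comap_le
  have key : ∀ t : A ⊗[K] B, ∃ k : K,
      Algebra.TensorProduct.productMap i j t - algebraMap K R k ∈ J := by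
    intro t
    induction t using TensorProduct.induction_on with
    | zero => exact ⟨0, by simp⟩
    | tmul a b =>
      obtain ⟨α, hα⟩ := nss (K := K) m hm (i a)
      obtain ⟨β, hβ⟩ := nss (K := K) m hm (j b)
      refine ⟨α * β, ?_⟩
      have h1 : i a - algebraMap K R α ∈ J := by
        have e : i a - algebraMap K R α = i (a - algebraMap K A α) := by simp
        rw [e] at hα ⊢
        exact Ideal.mem_sup_left (Ideal.mem_map_of_mem (i : A →+* R) (Ideal.mem_comap.2 hα))
      have h2 : j b - algebraMap K R β ∈ J := by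
        have e : j b - algebraMap K R β = j (b - algebraMap K B β) := by simp
        rw [e] at hβ ⊢
        exact Ideal.mem_sup_right (Ideal.mem_map_of_mem (j : B →+* R) (Ideal.mem_comap.2 hβ))
      have e : Algebra.TensorProduct.productMap i j (a ⊗ₜ[K] b) - algebraMap K R (α * β) =
          (i a - algebraMap K R α) * j b + algebraMap K R α * (j b - algebraMap K R β) := by
        rw [Algebra.TensorProduct.productMap_apply_tmul, map_mul]
        ring
      rw [e]
      exact J.add_mem (J.mul_mem_right _ h1) (J.mul_mem_left _ h2)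
    | add x y hx hy =>
      obtain ⟨k, hk⟩ := hx
      obtain ⟨l, hl⟩ := hy
      refine ⟨k + l, ?_⟩
      have e : Algebra.TensorProduct.productMap i j (x + y) - algebraMap K R (k + l) =
          (Algebra.TensorProduct.productMap i j x - algebraMap K R k) +
          (Algebra.TensorProduct.productMap i j y - algebraMap K R l) := by
        rw [map_add, map_add]
        ring
      rw [e]
      exact J.add_mem hk hl
  intro r hr
  obtain ⟨t, rfl⟩ := hij.2 r
  obtain ⟨k, hk⟩ := key t
  have h1 : algebraMap K R k ∈ m := by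
    have := m.sub_mem hr (hJm hk)
    rwa [sub_sub_cancel] at this
  have h2 : k = 0 := by
    by_contra h0
    refine hm.ne_top (Ideal.eq_top_of_isUnit_mem m h1 ?_)
    exact (Ne.isUnit h0).map (algebraMap K R)
  rwa [h2, map_zero, sub_zero] at hk

/-- local generators of the maximal ideals -/
theorem max_gen [IsAlgClosed K] [Algebra.FiniteType K R] [IsDedekindDomain A]
    [IsDedekindDomain B] (i : A →ₐ[K] R) (j : B →ₐ[K] R)
    (hij : Function.Bijective (Algebra.TensorProduct.productMap i j)) (m : Ideal R)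
    (hm : m.IsMaximal) : ∃ (π : A) (ρ : B), i π ∈ m ∧ j ρ ∈ m ∧
      ∃ u ∉ m, ∀ r ∈ m, u * r ∈ Ideal.span {i π, j ρ} := by
  have hmax : ∀ (C : Type) [CommRing C] [Algebra K C] (f : C →ₐ[K] R),
      (m.comap (f : C →+* R)).IsMaximal := by
    intro C _ _ f
    rw [Ideal.isMaximal_iff]
    constructor
    · intro h
      refine hm.ne_top ((Ideal.eq_top_iff_one m).2 ?_)
      have h1 : f 1 ∈ m := h
      rwa [map_one] at h1
    · intro J x hJ hx hxJ
      obtain ⟨k, hk⟩ := nss (K := K) m hm (f x)
      have h1 : x - algebraMap K C k ∈ J := by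
        apply hJ
        have e : f (x - algebraMap K C k) = f x - algebraMap K R k := by simp
        show f (x - algebraMap K C k) ∈ m
        rw [e]
        exact hk
      have h2 : k ≠ 0 := by
        rintro rfl
        rw [map_zero, sub_zero] at hk
        exact hx hk
      have h3 : algebraMap K C k ∈ J := by
        have := J.sub_mem hxJ h1
        rwa [sub_sub_cancel] at this
      have h4 := J.mul_mem_left (algebraMap K C k⁻¹) h3
      rwa [← map_mul, inv_mul_cancel₀ h2, map_one] at h4
  obtain ⟨π, hπ, s, hs, h1⟩ := unif (m.comap (i : A →+* R)) (hmax A i)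
  obtain ⟨ρ, hρ, t, ht, h2⟩ := unif (m.comap (j : B →+* R)) (hmax B j)
  refine ⟨π, ρ, hπ, hρ, i s * j t, ?_, ?_⟩
  · intro h
    rcases hm.isPrime.mem_or_mem h with h | h
    · exact hs h
    · exact ht h
  · intro r hr
    have h3 := max_le i j hij m hm hr
    have h4 : (m.comap (i : A →+* R)).map (i : A →+* R) ⊔
        (m.comap (j : B →+* R)).map (j : B →+* R) ≤
        Submodule.comap (LinearMap.mulLeft R (i s * j t)) (Ideal.span {i π, j ρ}) := by
      refine sup_le (Ideal.map_le_iff_le_comap.2 ?_) (Ideal.map_le_iff_le_comap.2 ?_)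
      · intro a ha
        show i s * j t * i a ∈ Ideal.span {i π, j ρ}
        obtain ⟨c, hc⟩ := h1 a ha
        have e : i s * j t * i a = (j t * i c) * i π := by
          have : i s * i a = i π * i c := by rw [← map_mul, hc, map_mul]
          linear_combination j t * this
        rw [e]
        exact Ideal.mul_mem_left _ _ (Ideal.subset_span (by simp))
      · intro a ha
        show i s * j t * j a ∈ Ideal.span {i π, j ρ}
        obtain ⟨c, hc⟩ := h2 a ha
        have e : i s * j t * j a = (i s * j c) * j ρ := by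
          have : j t * j a = j ρ * j c := by rw [← map_mul, hc, map_mul]
          linear_combination i s * this
        rw [e]
        exact Ideal.mul_mem_left _ _ (Ideal.subset_span (by simp))
    exact h4 h3

end

/-! ## the local criterion -/

open IsLocalRing

theorem free_of_two {S N : Type} [CommRing S] [IsLocalRing S] [AddCommGroup N] [Module S N]
    [Module.FinitePresentation S N] (p q : S) (hpq : maximalIdeal S = Ideal.span {p, q})
    (H : ∀ x y : N, p • x + q • y = 0 → (∃ z, y = p • z ∧ x = -(q • z)) ∨ (q = 0 ∧ x = 0) ∨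
      (p = 0 ∧ y = 0) ∨ (p = 0 ∧ q = 0)) : Module.Free S N := by
  have hp : p ∈ maximalIdeal S := by
    rw [hpq]
    exact Ideal.subset_span (by simp)
  have hq : q ∈ maximalIdeal S := by
    rw [hpq]
    exact Ideal.subset_span (by simp)
  apply Module.free_of_maximalIdeal_rTensor_injective
  have key : ∀ t : maximalIdeal S ⊗[S] N, ∃ x y : N,
      t = (⟨p, hp⟩ : maximalIdeal S) ⊗ₜ[S] x + (⟨q, hq⟩ : maximalIdeal S) ⊗ₜ[S] y := by
    intro t
    induction t using TensorProduct.induction_on with
    | zero => exact ⟨0, 0, by simp⟩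
    | tmul a n =>
      have ha : (a : S) ∈ Ideal.span {p, q} := by
        rw [← hpq]
        exact a.2
      obtain ⟨c, d, hcd⟩ := Ideal.mem_span_pair.1 ha
      refine ⟨c • n, d • n, ?_⟩
      have e : a = c • (⟨p, hp⟩ : maximalIdeal S) + d • (⟨q, hq⟩ : maximalIdeal S) := by
        apply Subtype.ext
        simp [hcd.symm]
      rw [e, TensorProduct.add_tmul, TensorProduct.smul_tmul, TensorProduct.smul_tmul]
    | add x y hx hy =>
      obtain ⟨x1, x2, hx⟩ := hx
      obtain ⟨y1, y2, hy⟩ := hy
      refine ⟨x1 + y1, x2 + y2, ?_⟩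
      rw [hx, hy, TensorProduct.tmul_add, TensorProduct.tmul_add]
      abel
  rw [injective_iff_map_eq_zero]
  intro t ht
  obtain ⟨x, y, rfl⟩ := key t
  have h1 : p • x + q • y = 0 := by
    have h2 := congrArg (TensorProduct.lid S N) ht
    simpa using h2
  rcases H x y h1 with ⟨z, rfl, rfl⟩ | ⟨rfl, rfl⟩ | ⟨rfl, rfl⟩ | ⟨rfl, rfl⟩
  · rw [← TensorProduct.smul_tmul, TensorProduct.tmul_neg, ← TensorProduct.smul_tmul,
      ← TensorProduct.neg_tmul, ← TensorProduct.add_tmul]
    have e : -(q • (⟨p, hp⟩ : maximalIdeal S)) + p • (⟨q, hq⟩ : maximalIdeal S) = 0 := by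
      apply Subtype.ext
      simp [mul_comm]
    rw [e, TensorProduct.zero_tmul]
  · have e : (⟨0, hq⟩ : maximalIdeal S) = 0 := rfl
    rw [e]
    simp
  · have e : (⟨0, hp⟩ : maximalIdeal S) = 0 := rfl
    rw [e]
    simp
  · have e : (⟨0, hp⟩ : maximalIdeal S) = 0 := rfl
    rw [e]
    simp

/-- the same for a localized module -/
theorem free_loc {R M : Type} [CommRing R] [IsDomain R] [IsNoetherianRing R] [AddCommGroup M]
    [Module R M] [Module.Finite R M] (htf : ∀ (r : R) (x : M), r • x = 0 → r = 0 ∨ x = 0)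
    (m : Ideal R) [hm : m.IsMaximal] (p q : R) (hp : p ∈ m) (hq : q ∈ m)
    (hgen : ∃ u ∉ m, ∀ r ∈ m, u * r ∈ Ideal.span {p, q})
    (H : p ≠ 0 → q ≠ 0 → ∀ x y : M, p • x + q • y = 0 → ∃ z, y = p • z ∧ x = -(q • z)) :
    Module.Free (Localization.AtPrime m) (LocalizedModule m.primeCompl M) := by
  have hfp : Module.FinitePresentation (Localization.AtPrime m)
      (LocalizedModule m.primeCompl M) := by
    have : IsNoetherianRing (Localization.AtPrime m) :=
      IsLocalization.isNoetherianRing m.primeCompl _ inferInstance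
    exact Module.finitePresentation_of_finite _ _
  set S := Localization.AtPrime m with hS
  set N := LocalizedModule m.primeCompl M with hN
  have hinj : Function.Injective (algebraMap R S) :=
    IsLocalization.injective S (Ideal.primeCompl_le_nonZeroDivisors m)
  refine free_of_two (algebraMap R S p) (algebraMap R S q) ?_ ?_
  · rw [← Localization.AtPrime.map_eq_maximalIdeal]
    apply le_antisymm
    · rw [Ideal.map_le_iff_le_comap]
      intro r hr
      obtain ⟨u, hu, h1⟩ := hgen
      obtain ⟨c, d, hcd⟩ := Ideal.mem_span_pair.1 (h1 r hr)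
      have hu' : IsUnit (algebraMap R S u) :=
        IsLocalization.map_units S (⟨u, hu⟩ : m.primeCompl)
      show algebraMap R S r ∈ Ideal.span {algebraMap R S p, algebraMap R S q}
      have h2 : algebraMap R S u * algebraMap R S r ∈
          Ideal.span {algebraMap R S p, algebraMap R S q} := by
        rw [← map_mul, ← hcd, map_add, map_mul, map_mul]
        exact Ideal.add_mem _ (Ideal.mul_mem_left _ _ (Ideal.subset_span (by simp)))
          (Ideal.mul_mem_left _ _ (Ideal.subset_span (by simp)))
      exact (Ideal.unit_mul_mem_iff_mem _ hu').1 h2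
    · rw [Ideal.span_le]
      rintro x (rfl | rfl)
      · exact Ideal.mem_map_of_mem _ hp
      · exact Ideal.mem_map_of_mem _ hq
  · intro x y hxy
    set f : M →ₗ[R] N := LocalizedModule.mkLinearMap m.primeCompl M with hf
    have h00 : (0 : R) ∈ m := m.zero_mem
    have hf0 : ∀ x : M, f x = 0 → x = 0 := by
      intro x hx
      obtain ⟨c, hc⟩ := (IsLocalizedModule.eq_zero_iff m.primeCompl f).1 hx
      rcases htf (c : R) x hc with h | h
      · exact absurd (h ▸ h00 : (c : R) ∈ m) c.2
      · exact h
    have tf : ∀ r : R, r ≠ 0 → ∀ y : N, r • y = 0 → y = 0 := by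
      intro r hr y hy
      obtain ⟨⟨y₀, s⟩, hs⟩ := IsLocalizedModule.surj m.primeCompl f y
      have h1 : f (r • y₀) = 0 := by
        rw [map_smul, ← hs, smul_comm, hy, smul_zero]
      have h2 : y₀ = 0 := (htf r y₀ (hf0 _ h1)).resolve_left hr
      rw [h2, map_zero] at hs
      exact IsLocalizedModule.smul_injective f s (by simpa using hs)
    rw [algebraMap_smul, algebraMap_smul] at hxy
    by_cases hp0 : p = 0
    · by_cases hq0 : q = 0
      · right; right; right
        exact ⟨by rw [hp0, map_zero], by rw [hq0, map_zero]⟩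
      · right; right; left
        refine ⟨by rw [hp0, map_zero], ?_⟩
        rw [hp0, zero_smul, zero_add] at hxy
        exact tf q hq0 y hxy
    · by_cases hq0 : q = 0
      · right; left
        refine ⟨by rw [hq0, map_zero], ?_⟩
        rw [hq0, zero_smul, add_zero] at hxy
        exact tf p hp0 x hxy
      · left
        obtain ⟨⟨x₀, s₁⟩, hs₁⟩ := IsLocalizedModule.surj m.primeCompl f x
        obtain ⟨⟨y₀, s₂⟩, hs₂⟩ := IsLocalizedModule.surj m.primeCompl f y
        have hx1 : (s₁ * s₂) • x = f (s₂ • x₀) := by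
          rw [mul_comm, mul_smul, hs₁]
          exact (map_smul f (s₂ : R) x₀).symm
        have hy1 : (s₁ * s₂) • y = f (s₁ • y₀) := by
          rw [mul_smul, hs₂]
          exact (map_smul f (s₁ : R) y₀).symm
        have h1 : f (p • (s₂ • x₀) + q • (s₁ • y₀)) = 0 := by
          rw [map_add, map_smul f p, map_smul f q, ← hx1, ← hy1, smul_comm p, smul_comm q,
            ← smul_add, hxy, smul_zero]
        obtain ⟨z₁, hz1, hz2⟩ := H hp0 hq0 _ _ (hf0 _ h1)
        have hz : (s₁ * s₂) • IsLocalizedModule.mk' f z₁ (s₁ * s₂) = f z₁ :=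
          IsLocalizedModule.mk'_cancel' f z₁ (s₁ * s₂)
        refine ⟨IsLocalizedModule.mk' f z₁ (s₁ * s₂), ?_, ?_⟩
        · apply IsLocalizedModule.smul_injective f (s₁ * s₂)
          show (s₁ * s₂) • y = (s₁ * s₂) • (algebraMap R S p • IsLocalizedModule.mk' f z₁ (s₁ * s₂))
          rw [algebraMap_smul, smul_comm (s₁ * s₂) p, hz, hy1, hz1, map_smul]
        · apply IsLocalizedModule.smul_injective f (s₁ * s₂)
          show (s₁ * s₂) • x = (s₁ * s₂) • -(algebraMap R S q • IsLocalizedModule.mk' f z₁ (s₁ * s₂))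
          rw [algebraMap_smul, smul_neg, smul_comm (s₁ * s₂) q, hz, hx1, hz2, map_neg, map_smul]

end PRF_

open PRF_

theorem prf_proof : Stmt_PRF := by
  intro K _ _ A B R _ _ _ _ _ _ _ _ _ _ _ i j hij m n φ
  have hft : Algebra.FiniteType K R := ft i j hij
  have hN : IsNoetherianRing R := Algebra.FiniteType.isNoetherianRing K R
  have hfp : Module.FinitePresentation R (LinearMap.ker φ) :=
    Module.finitePresentation_of_finite _ _
  have htf : ∀ (r : R) (x : LinearMap.ker φ), r • x = 0 → r = 0 ∨ x = 0 := by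
    intro r x h
    by_cases hr : r = 0
    · exact Or.inl hr
    · right
      apply Subtype.ext
      funext c
      have h1 := congrFun (congrArg Subtype.val h) c
      have h2 : r * (x : Fin m → R) c = 0 := h1
      exact (mul_eq_zero.1 h2).resolve_left hr
  apply Module.projective_of_localization_maximal
  intro I hI
  obtain ⟨π, ρ, hπ, hρ, hu⟩ := max_gen i j hij I hI
  have hfree : Module.Free (Localization.AtPrime I)
      (LocalizedModule I.primeCompl (LinearMap.ker φ)) := by
    refine free_loc htf I (i π) (j ρ) hπ hρ hu ?_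
    intro hp0 hq0 x y hxy
    have hρ0 : ρ ≠ 0 := by
      rintro rfl
      exact hq0 (map_zero j)
    have h1 : ∀ c, i π * (x : Fin m → R) c + j ρ * (y : Fin m → R) c = 0 := fun c =>
      congrFun (congrArg Subtype.val hxy) c
    have h2 : ∀ c, ∃ z, (y : Fin m → R) c = i π * z := fun c =>
      reg i j hij π ρ hρ0 _ (-(x : Fin m → R) c) (by linear_combination h1 c)
    choose z hz using h2
    have hz2 : ∀ c, (x : Fin m → R) c = - (j ρ * z c) := by
      intro c
      have h3 := h1 c
      rw [hz c] at h3
      have h4 : i π * ((x : Fin m → R) c + j ρ * z c) = 0 := by linear_combination h3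
      have h5 := (mul_eq_zero.1 h4).resolve_left hp0
      exact eq_neg_of_add_eq_zero_left h5
    have hker : z ∈ LinearMap.ker φ := by
      rw [LinearMap.mem_ker]
      have h3 : i π • φ z = 0 := by
        rw [← map_smul]
        have h4 : i π • z = (y : Fin m → R) := by
          funext c
          exact (hz c).symm
        rw [h4]
        exact y.2
      funext c
      have h4 : i π * φ z c = 0 := congrFun h3 c
      exact (mul_eq_zero.1 h4).resolve_left hp0
    refine ⟨⟨z, hker⟩, ?_, ?_⟩
    · apply Subtype.ext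
      funext c
      exact hz c
    · apply Subtype.ext
      funext c
      exact hz2 c
  infer_instance

end Pool.CRD.G
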