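import Pool.Agent.CRD.G.StmtsC

/-!
# CRD, area G, PUC: the push forward of a coherent module is coherent
-/

set_option autoImplicit false

open CategoryTheory Opposite Limits TensorProduct MonoidalCategory

namespace Pool.CRD.G

namespace PUC_

/-! ### localisation at one element -/

section Loc

variable {K F : Type} [Field K] [Field F] [Algebra K F]

/-- localisation of subalgebras of a field at one element -/
theorem isLoc (A B : Subalgebra K F) (h : A ≤ B) (v : F) (hv : v ∈ A) (v0 : v ≠ 0)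
    (hvi : v⁻¹ ∈ B) (hs : ∀ z ∈ B, ∃ n : ℕ, v ^ n * z ∈ A) :
    letI : Algebra A B := (Subalgebra.inclusion h).toRingHom.toAlgebra
    IsLocalization (Submonoid.powers (⟨v, hv⟩ : A)) B := by
  letI : Algebra A B := (Subalgebra.inclusion h).toRingHom.toAlgebra
  rw [isLocalization_iff]
  refine ⟨?_, ?_, ?_⟩
  · rintro ⟨_, n, rfl⟩
    rw [map_pow]
    apply IsUnit.pow
    refine ⟨⟨⟨v, h hv⟩, ⟨v⁻¹, hvi⟩, Subtype.ext (mul_inv_cancel₀ v0),
      Subtype.ext (inv_mul_cancel₀ v0)⟩, rfl⟩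
  · intro z
    obtain ⟨n, hn⟩ := hs z.1 z.2
    refine ⟨(⟨_, hn⟩, ⟨_, n, rfl⟩), ?_⟩
    apply Subtype.ext
    change z.1 * v ^ n = v ^ n * z.1
    exact mul_comm _ _
  · intro x y hxy
    refine ⟨1, ?_⟩
    have h1 : x = y := Subtype.ext (congrArg (fun z : B => (z : F)) hxy)
    rw [h1]

end Loc

section BC

variable {S T M N : Type*} [CommRing S] [CommRing T] [Algebra S T] (v : S)
  [IsLocalization (Submonoid.powers v) T] [AddCommGroup M] [Module S M] [AddCommGroup N]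
  [Module T N] [Module S N] [IsScalarTower S T N] (f : M →ₗ[S] N)

theorem elem_of_bc (h : IsBaseChange T f) : (∀ x, f x = 0 → ∃ n : ℕ, v ^ n • x = 0) ∧
    ∀ y, ∃ (n : ℕ) (x : M), v ^ n • y = f x := by
  have h1 : IsLocalizedModule (Submonoid.powers v) f :=
    (isLocalizedModule_iff_isBaseChange (Submonoid.powers v) T f).2 h
  constructor
  · intro x hx
    obtain ⟨⟨_, n, rfl⟩, hc⟩ := h1.exists_of_eq (x₁ := x) (x₂ := 0) (by rw [hx, map_zero])
    refine ⟨n, ?_⟩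
    rw [smul_zero] at hc
    exact hc
  · intro y
    obtain ⟨⟨x, ⟨_, n, rfl⟩⟩, hx⟩ := h1.surj y
    exact ⟨n, x, hx⟩

theorem bc_of_elem (h1 : ∀ x, f x = 0 → ∃ n : ℕ, v ^ n • x = 0)
    (h2 : ∀ y, ∃ (n : ℕ) (x : M), v ^ n • y = f x) : IsBaseChange T f := by
  rw [← isLocalizedModule_iff_isBaseChange (Submonoid.powers v) T f]
  refine ⟨?_, ?_, ?_⟩
  · intro x
    have hu : IsUnit (algebraMap S T x) := IsLocalization.map_units T x
    obtain ⟨u, hu⟩ := hu
    rw [Module.End.isUnit_iff]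
    constructor
    · intro a b hab
      have e : ∀ c : N, (algebraMap S (Module.End S N) x) c = u.1 • c := fun c => by
        rw [hu, algebraMap_smul]
        rfl
      rw [e, e] at hab
      have := congrArg (fun z => u⁻¹.1 • z) hab
      simpa [smul_smul] using this
    · intro a
      refine ⟨u⁻¹.1 • a, ?_⟩
      have e : ∀ c : N, (algebraMap S (Module.End S N) x) c = u.1 • c := fun c => by
        rw [hu, algebraMap_smul]
        rfl
      rw [e, smul_smul, Units.mul_inv, one_smul]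
  · intro y
    obtain ⟨n, x, hx⟩ := h2 y
    exact ⟨(x, ⟨_, n, rfl⟩), hx⟩
  · intro x y hxy
    obtain ⟨n, hn⟩ := h1 (x - y) (by rw [map_sub, hxy, sub_self])
    refine ⟨⟨_, n, rfl⟩, ?_⟩
    rw [smul_sub, sub_eq_zero] at hn
    exact hn

end BC

section Cart

variable {K : Type} [Field K] {C : Type} [SmallCategory C] {R : PAlg K C} (M : PMod R)
  {X Y : Cᵒᵖ} (f : X ⟶ Y)

theorem elem_of_cart (hc : IsCart M f) (v : R.obj X)
    (hl : letI : Algebra (R.obj X) (R.obj Y) := (R.map f).hom.toRingHom.toAlgebra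
      IsLocalization (Submonoid.powers v) (R.obj Y)) :
    (∀ x : M.obj X, rs M f x = 0 → ∃ n : ℕ, (show R.toRing.obj X from v ^ n) • x = 0) ∧
    ∀ y : M.obj Y, ∃ (n : ℕ) (x : M.obj X),
      (show R.toRing.obj Y from (R.map f).hom (v ^ n)) • y = rs M f x := by
  letI : Algebra (R.obj X) (R.obj Y) := (R.map f).hom.toRingHom.toAlgebra
  letI : Module (R.obj X) (M.obj X) := inferInstanceAs (Module (R.toRing.obj X) (M.obj X))
  letI : Module (R.obj Y) (M.obj Y) := inferInstanceAs (Module (R.toRing.obj Y) (M.obj Y))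
  letI : Module (R.obj X) (M.obj Y) := Module.compHom (M.obj Y) (R.map f).hom.toRingHom
  haveI : IsScalarTower (R.obj X) (R.obj Y) (M.obj Y) :=
    ⟨fun a b c => by rw [Algebra.smul_def, mul_smul]; rfl⟩
  haveI := hl
  have h := elem_of_bc (S := R.obj X) (T := R.obj Y) (M := M.obj X) (N := M.obj Y) v
    ({ toFun := fun x => M.map f x
       map_add' := fun x y => map_add (M.map f).hom x y
       map_smul' := fun r x => M.map_smul f r x } : M.obj X →ₗ[R.obj X] M.obj Y) hc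
  exact h

theorem cart_of_elem (v : R.obj X)
    (hl : letI : Algebra (R.obj X) (R.obj Y) := (R.map f).hom.toRingHom.toAlgebra
      IsLocalization (Submonoid.powers v) (R.obj Y))
    (h1 : ∀ x : M.obj X, rs M f x = 0 → ∃ n : ℕ, (show R.toRing.obj X from v ^ n) • x = 0)
    (h2 : ∀ y : M.obj Y, ∃ (n : ℕ) (x : M.obj X),
      (show R.toRing.obj Y from (R.map f).hom (v ^ n)) • y = rs M f x) : IsCart M f := by
  letI : Algebra (R.obj X) (R.obj Y) := (R.map f).hom.toRingHom.toAlgebra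
  letI : Module (R.obj X) (M.obj X) := inferInstanceAs (Module (R.toRing.obj X) (M.obj X))
  letI : Module (R.obj Y) (M.obj Y) := inferInstanceAs (Module (R.toRing.obj Y) (M.obj Y))
  letI : Module (R.obj X) (M.obj Y) := Module.compHom (M.obj Y) (R.map f).hom.toRingHom
  haveI : IsScalarTower (R.obj X) (R.obj Y) (M.obj Y) :=
    ⟨fun a b c => by rw [Algebra.smul_def, mul_smul]; rfl⟩
  haveI := hl
  exact bc_of_elem v _ h1 h2

end Cart

section Main

variable {K : Type} [Field K] {c₁ c₂ : CurveData K} {S : SurfData c₁ c₂} {X : ConicData S}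
  (M : PMod X.R)

theorem rk_rk {s : Ch2} {k k' k'' : Cov Bool} (h : k' ≤ k) (h' : k'' ≤ k') (x : Sc M s k) :
    rk M s h' (rk M s h x) = rk M s (h'.trans h) x :=
  (rg_comp M (le_refl s) h (le_refl s) h' x).symm

theorem rk_refl {s : Ch2} {k : Cov Bool} (h : k ≤ k) (x : Sc M s k) : rk M s h x = x :=
  rg_id M x

theorem mem_tf (k : Cov Bool) : false ∈ k.s ∨ true ∈ k.s := by
  obtain ⟨b, hb⟩ := k.ne
  cases b
  · exact Or.inl hb
  · exact Or.inr hb

/-- a global section is determined by two components -/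
theorem gam_ext {s : Ch2} {m m' : ∀ k, Sc M s k} (hm : m ∈ Gam M s) (hm' : m' ∈ Gam M s)
    (ha : m ca = m' ca) (hb : m cb = m' cb) : m = m' := by
  funext k
  rcases mem_tf k with h | h
  · rw [← hm ca k (ca_top h), ← hm' ca k (ca_top h), ha]
  · rw [← hm cb k (cb_top h), ← hm' cb k (cb_top h), hb]

theorem exists_gam {s : Ch2} (x : Sc M s ca) (y : Sc M s cb)
    (h : rk M s (cab_bot ca) x = rk M s (cab_bot cb) y) :
    ∃ m ∈ Gam M s, m ca = x ∧ m cb = y := by
  classical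
  refine ⟨fun k => if h : false ∈ k.s then rk M s (ca_top h) x else
    rk M s (cb_top ((mem_tf k).resolve_left h)) y, ?_, ?_, ?_⟩
  · intro k k' hk
    dsimp only
    by_cases h1 : false ∈ k.s
    · have h2 : false ∈ k'.s := hk h1
      rw [dif_pos h1, dif_pos h2, rk_rk]
    · have h3 := (mem_tf k).resolve_left h1
      rw [dif_neg h1, rk_rk]
      by_cases h2 : false ∈ k'.s
      · rw [dif_pos h2]
        have h4 : true ∈ k'.s := hk h3
        have h5 : k' ≤ cab := by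
          intro b _
          cases b
          · exact h2
          · exact h4
        have h6 := congrArg (rk M s h5) h
        rw [rk_rk, rk_rk] at h6
        exact h6.symm
      · rw [dif_neg h2]
  · dsimp only
    rw [dif_pos f_ca]
    exact rk_refl M _ x
  · dsimp only
    rw [dif_neg (by decide)]
    exact rk_refl M _ y

/-- global sections as `H⁰` -/
noncomputable def gamL (s : Ch2) :
    Gam M s →ₗ[S.A s.i s.j] H0 (rk M s (cab_bot ca)) (rk M s (cab_bot cb)) where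
  toFun m := ⟨(m.1 ca, m.1 cb), by
    change rk M s (cab_bot ca) (m.1 ca) = rk M s (cab_bot cb) (m.1 cb)
    rw [m.2 ca cab (cab_bot ca), m.2 cb cab (cab_bot cb)]⟩
  map_add' _ _ := rfl
  map_smul' _ _ := rfl

theorem gamL_bij (s : Ch2) : Function.Bijective (gamL M s) := by
  constructor
  · intro m m' h
    apply Subtype.ext
    have h1 := congrArg Subtype.val h
    exact gam_ext M m.2 m'.2 (congrArg Prod.fst h1) (congrArg Prod.snd h1)
  · rintro ⟨⟨x, y⟩, h⟩
    obtain ⟨m, hm, h1, h2⟩ := exists_gam M x y h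
    exact ⟨⟨m, hm⟩, Subtype.ext (Prod.ext h1 h2)⟩

theorem fin_gam (hFGA : Stmt_FGA) [S.R.Good] (hM : IsCoh X.R M)
    (s : Ch2) : Module.Finite (S.A s.i s.j) (Gam M s) := by
  have h4 := hFGA K c₁ c₂ S X M hM s
  have h5 : Module.Finite (S.A s.i s.j) (H0 (rk M s (cab_bot ca)) (rk M s (cab_bot cb))) :=
    Module.Finite.iff_fg.2 h4
  exact Module.Finite.equiv (LinearEquiv.ofBijective (gamL M s) (gamL_bij M s)).symm

/-- restriction as an additive map -/
noncomputable def rgH {s s' : Ch2} {k k' : Cov Bool} (hs : s' ≤ s) (hk : k' ≤ k) :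
    Sc M s k →+ Sc M s' k' :=
  AddMonoidHom.mk' (rg M hs hk) (rg_add M hs hk)

theorem rg_zero {s s' : Ch2} {k k' : Cov Bool} (hs : s' ≤ s) (hk : k' ≤ k) :
    rg M hs hk (0 : Sc M s k) = 0 := map_zero (rgH M hs hk)

theorem rg_sub {s s' : Ch2} {k k' : Cov Bool} (hs : s' ≤ s) (hk : k' ≤ k) (x y : Sc M s k) :
    rg M hs hk (x - y) = rg M hs hk x - rg M hs hk y := map_sub (rgH M hs hk) x y

theorem rg_pow {s s' : Ch2} {k k' : Cov Bool} (hs : s' ≤ s) (hk : k' ≤ k) (v : S.L)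
    (hv : v ∈ S.A s.i s.j) (n : ℕ) (x : Sc M s k) :
    rg M hs hk ((⟨v, hv⟩ : S.A s.i s.j) ^ n • x) =
      (⟨v, S.A_mono hs.1 hs.2 hv⟩ : S.A s'.i s'.j) ^ n • rg M hs hk x :=
  rg_smul' M hs hk ((⟨v, hv⟩ : S.A s.i s.j) ^ n) x

theorem rg_rk {s s' : Ch2} {k k' : Cov Bool} (hs : s' ≤ s) (h : k' ≤ k) (x : Sc M s k) :
    rg M hs (le_refl k') (rk M s h x) = rk M s' h (rg M hs (le_refl k) x) := by
  rw [rk_apply, rk_apply, ← rg_comp, ← rg_comp]

theorem elemK (hM : IsCoh X.R M) {s s' : Ch2} (hs : s' ≤ s) (v : S.L) (hv : v ∈ S.A s.i s.j)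
    (v0 : v ≠ 0) (hvi : v⁻¹ ∈ S.A s'.i s'.j)
    (h4 : ∀ k, ∀ z ∈ X.A s'.i s'.j k, ∃ n : ℕ, algebraMap S.L X.E v ^ n * z ∈ X.A s.i s.j k)
    (k : Cov Bool) :
    (∀ x : Sc M s k, rg M hs (le_refl k) x = 0 →
      ∃ n : ℕ, (⟨v, hv⟩ : S.A s.i s.j) ^ n • x = 0) ∧
    (∀ y : Sc M s' k, ∃ (n : ℕ) (x : Sc M s k),
      (⟨v, S.A_mono hs.1 hs.2 hv⟩ : S.A s'.i s'.j) ^ n • y = rg M hs (le_refl k) x) := by
  have hl := isLoc (X.A s.i s.j k) (X.A s'.i s'.j k) (X.A_mono hs.1 hs.2 (le_refl k))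
    (algebraMap S.L X.E v) (X.mem_of_S hv) (by simpa using v0)
    (by rw [← map_inv₀]; exact X.mem_of_S hvi) (h4 k)
  have h := elem_of_cart M (homOfLE (c3_mono hs (le_refl k))).op (hM.2 _)
    (⟨algebraMap S.L X.E v, X.mem_of_S hv⟩ : X.A s.i s.j k) hl
  constructor
  · intro x hx
    obtain ⟨n, hn⟩ := h.1 x hx
    refine ⟨n, ?_⟩
    rw [Sc_smul', map_pow]
    exact hn
  · intro y
    obtain ⟨n, x, hn⟩ := h.2 y
    refine ⟨n, x, ?_⟩
    rw [Sc_smul', map_pow]
    refine Eq.trans ?_ hn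
    congr 1

theorem cart_push (hLOS : Stmt_LOS) (hM : IsCoh X.R M) {U V : Ch2ᵒᵖ} (f : U ⟶ V) :
    IsCart (push M) f := by
  have hs : V.unop ≤ U.unop := leOfHom f.unop
  obtain ⟨v, hv, v0, hvi, h3, h4⟩ := hLOS K c₁ c₂ S X U.unop V.unop hs
  have hl := isLoc (S.A U.unop.i U.unop.j) (S.A V.unop.i V.unop.j) (S.A_mono hs.1 hs.2) v hv v0
    hvi h3
  have hK := elemK M hM hs v hv v0 hvi h4
  refine cart_of_elem (push M) f (⟨v, hv⟩ : S.A U.unop.i U.unop.j) hl ?_ ?_
  · intro (m : Gam M U.unop) hm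
    have hm' : ∀ k, rg M hs (le_refl k) (m.1 k) = 0 := fun k =>
      congrFun (congrArg Subtype.val hm) k
    obtain ⟨n, hn⟩ := (hK ca).1 _ (hm' ca)
    obtain ⟨n', hn'⟩ := (hK cb).1 _ (hm' cb)
    refine ⟨n + n', ?_⟩
    apply Subtype.ext
    refine gam_ext M (Subtype.prop _) (zero_mem _) ?_ ?_
    · change (⟨v, hv⟩ : S.A U.unop.i U.unop.j) ^ (n + n') • m.1 ca = 0
      rw [add_comm, pow_add, mul_smul, hn, smul_zero]
    · change (⟨v, hv⟩ : S.A U.unop.i U.unop.j) ^ (n + n') • m.1 cb = 0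
      rw [pow_add, mul_smul, hn', smul_zero]
  · intro (y : Gam M V.unop)
    obtain ⟨n, x, hx⟩ := (hK ca).2 (y.1 ca)
    obtain ⟨n', x', hx'⟩ := (hK cb).2 (y.1 cb)
    have e1 : rg M hs (le_refl ca) ((⟨v, hv⟩ : S.A U.unop.i U.unop.j) ^ n' • x) =
        (⟨v, S.A_mono hs.1 hs.2 hv⟩ : S.A V.unop.i V.unop.j) ^ (n' + n) • y.1 ca := by
      rw [rg_pow, ← hx, smul_smul, ← pow_add]
    have e2 : rg M hs (le_refl cb) ((⟨v, hv⟩ : S.A U.unop.i U.unop.j) ^ n • x') =
        (⟨v, S.A_mono hs.1 hs.2 hv⟩ : S.A V.unop.i V.unop.j) ^ (n' + n) • y.1 cb := by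
      rw [rg_pow, ← hx', smul_smul, ← pow_add, add_comm n n']
    have e3 : rg M hs (le_refl cab) (rk M U.unop (cab_bot ca)
        ((⟨v, hv⟩ : S.A U.unop.i U.unop.j) ^ n' • x) - rk M U.unop (cab_bot cb)
        ((⟨v, hv⟩ : S.A U.unop.i U.unop.j) ^ n • x')) = 0 := by
      rw [rg_sub, rg_rk, rg_rk, e1, e2, map_smul, map_smul, y.2 ca cab (cab_bot ca),
        y.2 cb cab (cab_bot cb), sub_self]
    obtain ⟨r, hr⟩ := (hK cab).1 _ e3
    have e4 : rk M U.unop (cab_bot ca) ((⟨v, hv⟩ : S.A U.unop.i U.unop.j) ^ r •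
        (⟨v, hv⟩ : S.A U.unop.i U.unop.j) ^ n' • x) =
        rk M U.unop (cab_bot cb) ((⟨v, hv⟩ : S.A U.unop.i U.unop.j) ^ r •
        (⟨v, hv⟩ : S.A U.unop.i U.unop.j) ^ n • x') := by
      rw [smul_sub, sub_eq_zero] at hr
      rw [map_smul, hr, map_smul _ (_ ^ r)]
    obtain ⟨m, hm, h1, h2⟩ := exists_gam M _ _ e4
    refine ⟨r + (n' + n), (⟨m, hm⟩ : Gam M U.unop), ?_⟩
    apply Subtype.ext
    refine gam_ext M (Subtype.prop _) (Subtype.prop _) ?_ ?_
    · change (⟨v, S.A_mono hs.1 hs.2 hv⟩ : S.A V.unop.i V.unop.j) ^ (r + (n' + n)) • y.1 ca =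
        rg M hs (le_refl ca) (m ca)
      rw [h1, rg_pow, e1, smul_smul, ← pow_add]
    · change (⟨v, S.A_mono hs.1 hs.2 hv⟩ : S.A V.unop.i V.unop.j) ^ (r + (n' + n)) • y.1 cb =
        rg M hs (le_refl cb) (m cb)
      rw [h2, rg_pow, e2, smul_smul, ← pow_add]

end Main

end PUC_

open PUC_ in
/-- PUC: the push forward of a coherent module is coherent -/
theorem puc_proof (hLOS : Stmt_LOS) (_hCHP : Stmt_CHP) (hFGA : Stmt_FGA) : Stmt_PUC := by
  intro K _ c₁ c₂ S _ X M hM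
  exact ⟨fun s => fin_gam M hFGA hM s.unop, fun f => cart_push M hLOS hM f⟩

end Pool.CRD.G
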