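import Pool.Agent.CRD.G.StmtsD

/-!
# CRD, area G, module RAC
-/

set_option autoImplicit false

open CategoryTheory Opposite Limits TensorProduct MonoidalCategory Pretriangulated

namespace Pool.CRD.G

/-- RAC: restriction of scalars of a module without cohomology on the fibres -/
theorem rac_proof : Stmt_RAC := by
  intro K _ c₁ c₂ S X M hM s
  obtain ⟨h0, h1⟩ := hM s
  have key : Function.Bijective (fun x : Sc M s ca × Sc M s cb =>
      rk M s (cab_bot ca) x.1 - rk M s (cab_bot cb) x.2) := by
    constructor
    · rintro ⟨x, y⟩ ⟨x', y'⟩ h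
      have h2 : rk M s (cab_bot ca) (x - x') = rk M s (cab_bot cb) (y - y') := by
        have h3 : rk M s (cab_bot ca) x - rk M s (cab_bot cb) y =
          rk M s (cab_bot ca) x' - rk M s (cab_bot cb) y' := h
        rw [map_sub, map_sub]
        rw [sub_eq_sub_iff_sub_eq_sub] at h3
        exact h3
      obtain ⟨h4, h5⟩ := h0 _ _ h2
      rw [sub_eq_zero.1 h4, sub_eq_zero.1 h5]
    · intro b
      obtain ⟨x, y, h⟩ := h1 b
      refine ⟨(x, -y), ?_⟩
      change rk M s (cab_bot ca) x - rk M s (cab_bot cb) (-y) = b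
      rw [map_neg, sub_neg_eq_add, h]
  exact key

end Pool.CRD.G
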