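import Pool.Agent.CRD.G.StmtsD

/-!
# CRD, area G, module SBF
-/

set_option autoImplicit false

open CategoryTheory Opposite Limits TensorProduct MonoidalCategory Pretriangulated

namespace Pool.CRD.G

/-- SBF: the value of the functor on modules -/
theorem sbf_proof : Stmt_SBF := by
  intro K _ C C' _ _ R R' _ _ F h _ M
  exact ⟨ObjectProperty.isoMk _
    ((Functor.mapDerivedCategorySingleFunctor (cohF F h) 0).app M)⟩

end Pool.CRD.G
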