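import Pool.Agent.CRD.G.StmtsA

/-!
# CRD / G / SER: Serre vanishing on the projective line
-/

open CategoryTheory Opposite Limits TensorProduct

namespace Pool.CRD.G

namespace SER_

variable {A : Type} [CommRing A] {F T B : Type} [AddCommGroup F] [AddCommGroup T] [AddCommGroup B]
  [Module A F] [Module A T] [Module A B] {e : Module.End A F} {y : Module.End A T}
  {g : B ≃ₗ[A] B} {f : F →ₗ[A] B} {t : T →ₗ[A] B}

theorem f_pow (h : IsP1 e y g f t) (m : ℕ) (x : F) : f ((e ^ m) x) = (g ^ (m : ℤ)) (f x) := by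
  induction m with
  | zero => simp
  | succ m ih =>
    rw [pow_succ', Module.End.mul_apply, h.fe, ih, Nat.cast_succ, add_comm, zpow_add, zpow_one,
      LinearEquiv.mul_apply]

theorem t_pow (h : IsP1 e y g f t) (k : ℕ) (z : T) :
    t ((y ^ k) z) = (g ^ (-(k : ℤ))) (t z) := by
  induction k with
  | zero => simp
  | succ k ih =>
    have h1 := h.ty ((y ^ k) z)
    have h2 : t (y ((y ^ k) z)) = (g ^ (-1 : ℤ)) (t ((y ^ k) z)) := by
      rw [← h1, ← LinearEquiv.mul_apply]
      have h3 : g ^ (-1 : ℤ) * g = 1 := by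
        rw [zpow_neg_one, inv_mul_cancel]
      rw [h3]
      rfl
    rw [pow_succ', Module.End.mul_apply, h2, ih, ← LinearEquiv.mul_apply, ← zpow_add]
    congr 2
    push_cast
    ring

end SER_

open SER_

theorem ser_proof : Stmt_SER := by
  classical
  intro A _ F T B _ _ _ _ _ _ e y g f t h hS
  obtain ⟨S, hS⟩ := hS
  have h1 : ∀ s : F, ∃ (n : ℕ) (z : T), f s = (g ^ (n : ℤ)) (t z) := by
    intro s
    obtain ⟨n, z, hz⟩ := h.t1 (f s)
    refine ⟨n, z, ?_⟩
    rw [zpow_natCast]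
    exact hz
  choose δ z hz using h1
  refine ⟨S.sup δ, fun d hd b => ?_⟩
  let P : Submodule A B := LinearMap.range f ⊔ (LinearMap.range t).map (g ^ d).toLinearMap
  have hP : ∀ b, b ∈ P ↔ ∃ x z, b = f x + (g ^ d) (t z) := by
    intro b
    constructor
    · intro hb
      obtain ⟨_, ⟨x, rfl⟩, _, ⟨_, ⟨z, rfl⟩, rfl⟩, h2⟩ := Submodule.mem_sup.1 hb
      exact ⟨x, z, h2.symm⟩
    · rintro ⟨x, z, rfl⟩
      exact add_mem (Submodule.mem_sup_left ⟨x, rfl⟩) (Submodule.mem_sup_right ⟨_, ⟨z, rfl⟩, rfl⟩)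
  have key : ∀ (n : ℕ) (x : F), (g ^ (-(n : ℤ))) (f x) ∈ P := by
    intro n x
    refine Submodule.span_induction (p := fun x _ => (g ^ (-(n : ℤ))) (f x) ∈ P) ?_ ?_ ?_ ?_ (hS x)
    · rintro _ ⟨s, hs, m, rfl⟩
      rw [f_pow h, ← LinearEquiv.mul_apply, ← zpow_add]
      rcases le_total n m with hnm | hnm
      · refine (hP _).2 ⟨(e ^ (m - n)) s, 0, ?_⟩
        rw [f_pow h, map_zero, map_zero, add_zero]
        congr 2
        push_cast [hnm]
        ring
      · have hds : δ s ≤ S.sup δ := Finset.le_sup hs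
        obtain ⟨k, hk⟩ : ∃ k : ℕ, -(n : ℤ) + m + δ s = d + -(k : ℤ) := by
          refine ⟨(d + n - m - δ s).toNat, ?_⟩
          have : (δ s : ℤ) ≤ (S.sup δ : ℕ) := by exact_mod_cast hds
          have : (m : ℤ) ≥ 0 := by positivity
          omega
        refine (hP _).2 ⟨0, (y ^ k) (z s), ?_⟩
        rw [map_zero, zero_add, t_pow h, hz s, ← LinearEquiv.mul_apply, ← LinearEquiv.mul_apply,
          ← zpow_add, ← zpow_add, hk]
    · rw [map_zero, map_zero]
      exact zero_mem P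
    · intro x x' _ _ hx hx'
      rw [map_add, map_add]
      exact add_mem hx hx'
    · intro c x _ hx
      rw [map_smul, map_smul]
      exact P.smul_mem c hx
  obtain ⟨n, x, hx⟩ := h.f1 b
  have h2 : b = (g ^ (-(n : ℤ))) (f x) := by
    rw [← hx, ← zpow_natCast, ← LinearEquiv.mul_apply, ← zpow_add, neg_add_cancel, zpow_zero]
    rfl
  exact (hP b).1 (h2 ▸ key n x)

end Pool.CRD.G
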