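import Pool.Agent.CRD.G.StmtsC

/-!
# CRD, area G: SEX: Serre's theorem on the fibres
-/

open CategoryTheory Opposite Limits TensorProduct MonoidalCategory

namespace Pool.CRD.G

namespace SEX_

variable {K : Type} [Field K] {c₁ c₂ : CurveData K} {S : SurfData c₁ c₂} (X : ConicData S)

/-- `η` as a unit of the overlap -/
def U (s : Ch2) : (X.A s.i s.j cab)ˣ := ⟨etB X s, yB X s, etB_yB X s, yB_etB X s⟩

variable {X}

lemma gB_zpow (M : PMod X.R) (s : Ch2) (d : ℤ) : ∀ z : Sc M s cab,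
    (gB M s ^ d) z = ((U X s ^ d : (X.A s.i s.j cab)ˣ) : X.A s.i s.j cab) • z := by
  induction d using Int.induction_on with
  | zero =>
    intro z
    rw [zpow_zero, zpow_zero, Units.val_one, one_smul]; rfl
  | succ n ih =>
    intro z
    rw [zpow_add_one, zpow_add_one, Units.val_mul, mul_smul]
    exact ih (gB M s z)
  | pred n ih =>
    intro z
    rw [zpow_sub_one, zpow_sub_one, Units.val_mul, mul_smul]
    exact ih ((gB M s).symm z)

/-- evaluation of cocycles -/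
def evU {C : Type} [SmallCategory C] {R : PAlg K C} {Y Z : Cᵒᵖ} (f : Y ⟶ Z) :
    UCoc R →* (R.obj Z)ˣ where
  toFun c := c.u f
  map_one' := rfl
  map_mul' _ _ := rfl

lemma evU_apply {C : Type} [SmallCategory C] {R : PAlg K C} {Y Z : Cᵒᵖ} (f : Y ⟶ Z)
    (c : UCoc R) : evU f c = c.u f := rfl

/-- the arrow `(s,cab) ≤ (s,k)` -/
abbrev ar (s : Ch2) (k : Cov Bool) : op (c3 s k) ⟶ op (c3 s cab) :=
  (homOfLE (c3_mono (le_refl s) (cab_bot k))).op

lemma wgen_f (s : Ch2) {k : Cov Bool} (h : false ∈ k.s) : X.wgen (c3 s k) = 1 := by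
  unfold ConicData.wgen
  rw [if_pos h]

lemma wgen_cb (s : Ch2) : X.wgen (c3 s cb) = X.eta s.i := by
  unfold ConicData.wgen
  rw [if_neg]
  intro h
  have : (false : Bool) = true := Finset.mem_singleton.1 h
  exact Bool.false_ne_true this

lemma wi_ca (s : Ch2) : X.wi.u (ar s ca) = 1 := by
  apply Units.ext
  apply Subtype.ext
  change X.wgen (c3 s ca) / X.wgen (c3 s cab) = 1
  rw [wgen_f s f_ca, wgen_f s f_cab, div_one]

lemma wi_cb (s : Ch2) : X.wi.u (ar s cb) = (U X s : (X.A s.i s.j cab)ˣ) := by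
  apply Units.ext
  apply Subtype.ext
  change X.wgen (c3 s cb) / X.wgen (c3 s cab) = X.eta s.i
  rw [wgen_cb s, wgen_f s f_cab, div_one]

lemma hi_k (s : Ch2) (k : Cov Bool) : (hi X).u (ar s k) = 1 := by
  apply Units.ext
  apply Subtype.ext
  change hgen X (c3 s k) / hgen X (c3 s cab) = 1
  exact div_self (hgen_ne X (c3 s k))

lemma WH_ca (s : Ch2) (d e : ℤ) : (WH X d e).u (ar s ca) = 1 := by
  rw [← evU_apply]
  unfold WH
  rw [map_mul, map_zpow, map_zpow, evU_apply, evU_apply, wi_ca, hi_k, one_zpow, one_zpow, mul_one]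

lemma WH_cb (s : Ch2) (d e : ℤ) :
    (WH X d e).u (ar s cb) = (U X s ^ d : (X.A s.i s.j cab)ˣ) := by
  rw [← evU_apply]
  unfold WH
  rw [map_mul, map_zpow, map_zpow, evU_apply, evU_apply, wi_cb, hi_k, one_zpow, mul_one]
  rfl

lemma v_cb (s : Ch2) (d e : ℤ) : (WH X d e).v (ar s cb) =
    toR X (c3 s cab) ((U X s ^ d : (X.A s.i s.j cab)ˣ) : X.A s.i s.j cab) := by
  unfold UCoc.v
  rw [WH_cb]
  rfl

lemma v_ca (s : Ch2) (d e : ℤ) : (WH X d e).v (ar s ca) = toR X (c3 s cab) 1 := by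
  unfold UCoc.v
  rw [WH_ca]
  rfl

lemma A1 (M : PMod X.R) (s : Ch2) (x : Sc M s ca) (z : Sc M s cb) :
    out M s cab (rk M s (cab_bot ca) x + (gB M s).symm (rk M s (cab_bot cb) z)) =
      rs M (ar s ca) (out M s ca x) +
        toR X (c3 s cab) (yB X s) • rs M (ar s cb) (out M s cb z) := rfl

lemma A2 (M : PMod X.R) (s : Ch2) (x : Sc M s ca) (z : Sc M s cb) (u : X.A s.i s.j cab) :
    out M s cab (rk M s (cab_bot ca) x + u • (rk M s (cab_bot cb) z)) =
      rs M (ar s ca) (out M s ca x) +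
        toR X (c3 s cab) u • rs M (ar s cb) (out M s cb z) := rfl

lemma toR_mul_smul (M : PMod X.R) (s : Ch2) (u v : X.A s.i s.j cab) (x : M.obj (op (c3 s cab))) :
    toR X (c3 s cab) u • toR X (c3 s cab) v • x = toR X (c3 s cab) (u * v) • x :=
  (mul_smul (toR X (c3 s cab) u) (toR X (c3 s cab) v) x).symm

lemma A3 (c : UCoc X.R) (M : PMod X.R) (s : Ch2) (y u v : X.A s.i s.j cab)
    (hca : c.v (ar s ca) = toR X (c3 s cab) 1) (hcb : c.v (ar s cb) = toR X (c3 s cab) u)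
    (hv : y * u = v) (x : M.obj (op (c3 s ca))) (z : M.obj (op (c3 s cb))) :
    @HAdd.hAdd ((c.twObj M).obj (op (c3 s cab))) ((c.twObj M).obj (op (c3 s cab)))
      ((c.twObj M).obj (op (c3 s cab))) _ (rs (c.twObj M) (ar s ca) x)
        (@HSMul.hSMul (X.R.toRing.obj (op (c3 s cab))) ((c.twObj M).obj (op (c3 s cab)))
          ((c.twObj M).obj (op (c3 s cab))) _ (toR X (c3 s cab) y) (rs (c.twObj M) (ar s cb) z)) =
      rs M (ar s ca) x + toR X (c3 s cab) v • rs M (ar s cb) z := by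
  have h1 : rs (c.twObj M) (ar s ca) x = rs M (ar s ca) x := by
    have h := c.twObj_rs M (ar s ca) x
    rw [hca] at h
    exact h.trans (one_smul _ _)
  have h2 : @HSMul.hSMul (X.R.toRing.obj (op (c3 s cab))) ((c.twObj M).obj (op (c3 s cab)))
          ((c.twObj M).obj (op (c3 s cab))) _ (toR X (c3 s cab) y) (rs (c.twObj M) (ar s cb) z) =
        toR X (c3 s cab) v • rs M (ar s cb) z := by
    have h := c.twObj_rs M (ar s cb) z
    rw [hcb] at h
    rw [← hv, ← toR_mul_smul]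
    exact congrArg (fun w : M.obj (op (c3 s cab)) => toR X (c3 s cab) y • w) h
  exact congrArg₂ (fun w w' : M.obj (op (c3 s cab)) => w + w') h1 h2

lemma A1' (M : PMod X.R) (s : Ch2) (x : M.obj (op (c3 s ca))) (z : M.obj (op (c3 s cb))) :
    out M s cab (rk M s (cab_bot ca) (into M s ca x) +
      (gB M s).symm (rk M s (cab_bot cb) (into M s cb z))) =
      rs M (ar s ca) x + toR X (c3 s cab) (yB X s) • rs M (ar s cb) z := rfl

lemma A2' (M : PMod X.R) (s : Ch2) (x : Sc M s ca) (z : Sc M s cb) (u : X.A s.i s.j cab)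
    (w : M.obj (op (c3 s cab)))
    (h : into M s cab w = rk M s (cab_bot ca) x + u • (rk M s (cab_bot cb) z)) :
    w = rs M (ar s ca) (out M s ca x) +
        toR X (c3 s cab) u • rs M (ar s cb) (out M s cb z) := h

lemma out_inj (M : PMod X.R) (s : Ch2) (k : Cov Bool) {x y : Sc M s k}
    (h : out M s k x = out M s k y) : x = y := h

lemma regular_of (c : UCoc X.R) (M : PMod X.R) (s : Ch2) (d : ℤ)
    (hca : c.v (ar s ca) = toR X (c3 s cab) 1)
    (hcb : c.v (ar s cb) =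
      toR X (c3 s cab) ((U X s ^ d : (X.A s.i s.j cab)ˣ) : X.A s.i s.j cab))
    (hd : ∀ b : Sc M s cab, ∃ x z, b = rk M s (cab_bot ca) x +
      (gB M s ^ (d - 1)) (rk M s (cab_bot cb) z)) : regular (c.twObj M) s := by
  intro b
  obtain ⟨x, z, h⟩ := hd (into M s cab (out (c.twObj M) s cab b))
  rw [gB_zpow] at h
  refine ⟨into (c.twObj M) s ca (out M s ca x), into (c.twObj M) s cb (out M s cb z), ?_⟩
  have e3 : yB X s * ((U X s ^ d : (X.A s.i s.j cab)ˣ) : X.A s.i s.j cab) =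
      ((U X s ^ (d - 1) : (X.A s.i s.j cab)ˣ) : X.A s.i s.j cab) := by
    rw [zpow_sub_one, Units.val_mul, mul_comm]
    rfl
  have e4 := A3 c M s (yB X s) _ _ hca hcb e3 (out M s ca x) (out M s cb z)
  have e5 := A2' M s x z _ _ h
  have e6 := A1' (c.twObj M) s (out M s ca x) (out M s cb z)
  apply out_inj
  rw [e6]
  exact e5.trans e4.symm

end SEX_

open SEX_ in
theorem sex_proof (hCHP : Stmt_CHP) (hSER : Stmt_SER) : Stmt_SEX := by
  intro K _ c₁ c₂ S X M hM
  have key : ∀ s : Ch2, ∃ d₀ : ℕ, ∀ d : ℤ, (d₀ : ℤ) ≤ d → ∀ b : Sc M s cab, ∃ x z,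
      b = rk M s (cab_bot ca) x + (gB M s ^ d) (rk M s (cab_bot cb) z) := by
    intro s
    obtain ⟨h1, h2, -⟩ := hCHP K c₁ c₂ S X M hM s
    exact hSER (S.A s.i s.j) _ _ _ _ _ _ _ _ h1.toIsP1 h2
  choose D hD using key
  have : Finite Ch2 := by
    refine Finite.of_injective (fun s : Ch2 => (s.i, s.j)) ?_
    intro s t h
    cases s; cases t
    simpa using h
  obtain ⟨N, hN⟩ := (Set.finite_range D).bddAbove
  refine ⟨(N : ℤ) + 1, ?_⟩
  intro d e hd s
  have hs : D s ≤ N := hN ⟨s, rfl⟩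
  exact regular_of (WH X d e) M s d (v_ca s d e) (v_cb s d e)
    (fun b => hD s (d - 1) (by omega) b)

end Pool.CRD.G
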