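import Pool.Agent.CRD.G.StmtsD

/-!
# CRD, G, SKY: the exact right adjoint of the restriction to the charts `(s,k)`, `k` maximal
-/

set_option autoImplicit false

open CategoryTheory Opposite Limits TensorProduct MonoidalCategory Pretriangulated

namespace Pool.CRD.G

namespace SKY_

section Qt

variable {K : Type} [CommRing K] {C : Type} [Preorder C] {R : PAlg K C}

/-- sections of `M` over `X` which vanish if `X` is in the sieve `U` -/
def qtSub (U : LowerSet C) (M : PMod R) (X : Cᵒᵖ) : Submodule (R.toRing.obj X) (M.obj X) where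
  carrier := {m | X.unop ∈ U → m = 0}
  zero_mem' := fun _ => rfl
  add_mem' {a b} ha hb := fun h => by rw [ha h, hb h, add_zero]
  smul_mem' r a ha := fun h => by rw [ha h, smul_zero]

open Classical in
/-- restriction maps -/
noncomputable def qtRs (U : LowerSet C) (M : PMod R) {X Y : Cᵒᵖ} (f : X ⟶ Y)
    (x : qtSub U M X) : qtSub U M Y :=
  if h : Y.unop ∈ U then 0 else ⟨rs M f x.1, fun h' => absurd h' h⟩

lemma qtRs_pos (U : LowerSet C) (M : PMod R) {X Y : Cᵒᵖ} (f : X ⟶ Y) (h : Y.unop ∈ U)
    (x : qtSub U M X) : qtRs U M f x = 0 := dif_pos h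

lemma qtRs_neg (U : LowerSet C) (M : PMod R) {X Y : Cᵒᵖ} (f : X ⟶ Y) (h : Y.unop ∉ U)
    (x : qtSub U M X) : (qtRs U M f x).1 = rs M f x.1 := by
  rw [qtRs, dif_neg h]

/-- the presheaf of sections over the charts outside `U`, and zero on `U` -/
noncomputable def qtObj (U : LowerSet C) (M : PMod R) : PMod R :=
  mkP R (fun X => ModuleCat.of _ (qtSub U M X)) (fun f x => qtRs U M f x)
    (fun {X Y} f x y => by
      by_cases h : Y.unop ∈ U
      · rw [qtRs_pos U M f h, qtRs_pos U M f h, qtRs_pos U M f h, add_zero]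
      · apply Subtype.ext
        rw [Submodule.coe_add, qtRs_neg U M f h, qtRs_neg U M f h, qtRs_neg U M f h]
        exact rs_add M f x.1 y.1)
    (fun {X Y} f r x => by
      by_cases h : Y.unop ∈ U
      · rw [qtRs_pos U M f h, qtRs_pos U M f h, smul_zero]
      · apply Subtype.ext
        rw [Submodule.coe_smul, qtRs_neg U M f h, qtRs_neg U M f h]
        exact rs_smul M f r x.1)
    (fun X x => by
      by_cases h : X.unop ∈ U
      · rw [qtRs_pos U M _ h]
        exact (Subtype.ext (x.2 h)).symm
      · apply Subtype.ext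
        rw [qtRs_neg U M _ h]
        exact rs_id M X x.1)
    (fun {X Y Z} f g x => by
      by_cases h : Z.unop ∈ U
      · rw [qtRs_pos U M _ h, qtRs_pos U M _ h]
      · have h' : Y.unop ∉ U := fun h' => h (U.lower (leOfHom g.unop) h')
        apply Subtype.ext
        rw [qtRs_neg U M _ h, qtRs_neg U M _ h, qtRs_neg U M _ h']
        exact rs_comp M f g x.1)

/-- the functor on sections -/
noncomputable def qtMap (U : LowerSet C) {M N : PMod R} (φ : M ⟶ N) (X : Cᵒᵖ) :
    qtSub U M X →ₗ[R.toRing.obj X] qtSub U N X :=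
  LinearMap.restrict (φ.app X).hom (fun m hm h => by
      change φ.app X m = 0
      rw [hm h]; exact map_zero _)

/-- the functor -/
noncomputable def qt (R : PAlg K C) (U : LowerSet C) : PMod R ⥤ PMod R where
  obj M := qtObj U M
  map {M N} φ := mkHom (M := qtObj U M) (N := qtObj U N) (fun X => qtMap U φ X)
    (fun {X Y} f x => by
      by_cases h : Y.unop ∈ U
      · have h1 : ∀ z : qtSub U N Y, z = 0 := fun z => Subtype.ext (z.2 h)
        exact (h1 _).trans (h1 _).symm
      · apply Subtype.ext
        exact (congrArg (φ.app Y) (qtRs_neg U M f h x)).trans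
          ((rs_nat φ f x.1).trans (qtRs_neg U N f h (qtMap U φ X x)).symm))
  map_id M := rfl
  map_comp f g := rfl

instance (U : LowerSet C) : ExF (qt R U) := by
  refine exF_of_exact _ ⟨fun {M N f g} => rfl⟩ ?_
  intro S hS
  have := hS.mono_f
  have := hS.epi_g
  have e := fun X => exact_app S hS.exact X
  refine ⟨fun X x y h => ?_, fun X x => ⟨fun h => ?_, ?_⟩, fun X x => ?_⟩
  · exact Subtype.ext (inj_of_mono S.f X (congrArg Subtype.val h))
  · obtain ⟨y, hy⟩ := (e X x.1).1 (congrArg Subtype.val h)
    refine ⟨⟨y, fun h' => ?_⟩, Subtype.ext hy⟩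
    apply inj_of_mono S.f X
    rw [hy, map_zero]
    exact x.2 h'
  · rintro ⟨y, rfl⟩
    apply Subtype.ext
    exact (e X _).2 ⟨y.1, rfl⟩
  · classical
    by_cases h' : X.unop ∈ U
    · refine ⟨0, ?_⟩
      rw [map_zero]
      exact Subtype.ext (x.2 h').symm
    · obtain ⟨y, hy⟩ := surj_of_epi S.g X x.1
      exact ⟨⟨y, fun h'' => absurd h'' h'⟩, Subtype.ext hy⟩

end Qt

section Adj

variable {K : Type} [Field K] {c₁ c₂ : CurveData K} (S : SurfData c₁ c₂) (k : Cov Bool)
  (hm : ∀ l, k ≤ l → l = k)

/-- the charts `(s,k')` with `k' ≠ k` -/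
def Uk : LowerSet Ch3 where
  carrier := {t | t.k ≠ k}
  lower' := fun t _ h ht h' => ht (hm t.k (h' ▸ h.2.2))

/-- the right adjoint -/
noncomputable def Gf : PMod S.R ⥤ PMod (Rp S) := pbp S ⋙ qt (Rp S) (Uk k hm)

noncomputable instance : ExF (Gf S k hm) := ExF.comp _ _

variable {S k}

/-- the chart `(pr t, k)` is contained in `t` -/
lemma le_t {t : Ch3} (h : k ≤ t.k) : c3 (ConicData.prC.obj t) k ≤ t := ⟨le_rfl, le_rfl, h⟩

/-- the unit on sections -/
noncomputable def untF (M : PMod (Rp S)) (t : Ch3ᵒᵖ) (m : M.obj t) :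
    qtSub (Uk k hm) ((pbp S).obj ((res S k).obj M)) t :=
  open Classical in
  if h : k ≤ t.unop.k then ⟨rs M (homOfLE (le_t h)).op m, fun h' => absurd (hm _ h) h'⟩ else 0

lemma untF_pos (M : PMod (Rp S)) (t : Ch3ᵒᵖ) (m : M.obj t) (h : k ≤ t.unop.k) :
    (untF hm M t m).1 = rs M (homOfLE (le_t h)).op m := by
  rw [untF, dif_pos h]

lemma untF_neg (M : PMod (Rp S)) (t : Ch3ᵒᵖ) (m : M.obj t) (h : ¬ k ≤ t.unop.k) :
    untF hm M t m = 0 := dif_neg h

/-- the unit -/
noncomputable def unt (M : PMod (Rp S)) : M ⟶ (Gf S k hm).obj ((res S k).obj M) :=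
  mkHom (M := M) (N := qtObj (Uk k hm) ((pbp S).obj ((res S k).obj M)))
    (fun t =>
      { toFun := fun m => untF hm M t m
        map_add' := fun m n => by
          by_cases h : k ≤ t.unop.k
          · apply Subtype.ext
            exact (untF_pos hm M t (m + n) h).trans ((rs_add M _ m n).trans
              (congrArg₂ _ (untF_pos hm M t m h).symm (untF_pos hm M t n h).symm))
          · rw [untF_neg hm M t _ h, untF_neg hm M t _ h, untF_neg hm M t _ h]
            exact (add_zero _).symm
        map_smul' := fun r m => by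
          by_cases h : k ≤ t.unop.k
          · apply Subtype.ext
            have h1 : (Rp S).toRing.map (homOfLE (le_t h)).op r = r :=
              congr(($(S.R.map_id (ConicData.prC.op.obj t))).hom r)
            refine (untF_pos hm M t (r • m) h).trans ((rs_smul M _ r m).trans ?_)
            rw [h1]
            exact congrArg (fun z : ((pbp S).obj ((res S k).obj M)).obj t => r • z)
              (untF_pos hm M t m h).symm
          · rw [untF_neg hm M t _ h, untF_neg hm M t _ h]
            exact (smul_zero (M := (Rp S).toRing.obj t)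
              (A := qtSub (Uk k hm) ((pbp S).obj ((res S k).obj M)) t) r).symm })
    (fun {t t'} f m => by
      change untF hm M t' (rs M f m) = qtRs (Uk k hm) _ f (untF hm M t m)
      by_cases h : k ≤ t'.unop.k
      · have h' : k ≤ t.unop.k := h.trans (leOfHom f.unop).2.2
        apply Subtype.ext
        have hU : t'.unop ∉ Uk k hm := fun h'' => h'' (hm _ h)
        rw [qtRs_neg _ _ _ hU, untF_pos hm M t' _ h]
        refine Eq.trans ?_ (congrArg (rs ((pbp S).obj ((res S k).obj M)) f)
          (untF_pos hm M t m h')).symm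
        exact (rs_comp M f (homOfLE (le_t h)).op m).symm.trans
          (rs_comp M (homOfLE (le_t h')).op ((inC k).op.map (ConicData.prC.op.map f)) m)
      · rw [untF_neg hm M t' _ h, qtRs_pos]
        exact fun h' => h h'.ge)

/-- the counit -/
noncomputable def cnt (N : PMod S.R) : (res S k).obj ((Gf S k hm).obj N) ⟶ N :=
  mkHom (M := (res S k).obj ((Gf S k hm).obj N)) (N := N)
    (fun s =>
      { toFun := fun x => (x : qtSub (Uk k hm) ((pbp S).obj N) ((inC k).op.obj s)).1
        map_add' := fun _ _ => rfl
        map_smul' := fun _ _ => rfl })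
    (fun f x => qtRs_neg (Uk k hm) ((pbp S).obj N) ((inC k).op.map f)
      (fun h => h rfl) x)

/-- isomorphisms are the bijective morphisms -/
lemma isIso_of_bij {C : Type} [SmallCategory C] {R : PAlg K C} {M N : PMod R} (f : M ⟶ N)
    (h : ∀ X, Function.Bijective (f.app X)) : IsIso f := by
  have h1 : Mono f := (pmod_mono_iff f).2 fun X => (h X).1
  have h2 : Epi f := (pmod_epi_iff f).2 fun X => (h X).2
  exact isIso_of_mono_of_epi f

lemma left_tri (M : PMod (Rp S)) :
    (res S k).map (unt hm M) ≫ cnt hm ((res S k).obj M) = 𝟙 ((res S k).obj M) := by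
  apply pmod_ext
  intro s m
  have h1 : rs M (homOfLE (le_t (t := c3 s.unop k) le_rfl)).op m = m :=
    rs_id M (op (c3 s.unop k)) m
  have h2 := untF_pos hm M (op (c3 s.unop k)) m le_rfl
  change (untF hm M (op (c3 s.unop k)) m).1 = m
  rw [h2]
  exact h1

lemma right_tri (N : PMod S.R) :
    unt hm ((Gf S k hm).obj N) ≫ (Gf S k hm).map (cnt hm N) = 𝟙 ((Gf S k hm).obj N) := by
  apply pmod_ext
  intro t x
  apply Subtype.ext
  by_cases h : k ≤ t.unop.k
  · have h1 := untF_pos hm ((Gf S k hm).obj N) t x h
    have hU : c3 (ConicData.prC.obj t.unop) k ∉ Uk k hm := fun h'' => h'' rfl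
    have h2 := qtRs_neg (Uk k hm) ((pbp S).obj N) (homOfLE (le_t h)).op hU x
    exact (congrArg (fun z : qtSub (Uk k hm) ((pbp S).obj N)
      (op (c3 (ConicData.prC.obj t.unop) k)) => z.1) h1).trans (h2.trans (rs_id N _ _))
  · have h1 : ∀ z : qtSub (Uk k hm) ((pbp S).obj N) t, z.1 = 0 := fun z =>
      z.2 (fun h' => h (le_of_eq h'.symm))
    exact (h1 _).trans (h1 _).symm

/-- the adjunction -/
noncomputable def adj : res S k ⊣ Gf S k hm :=
  Adjunction.mkOfUnitCounit
    { unit :=
        { app := fun M => unt hm M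
          naturality := fun M M' φ => by
            apply pmod_ext
            intro t m
            apply Subtype.ext
            by_cases h : k ≤ t.unop.k
            · exact (untF_pos hm M' t (φ.app t m) h).trans ((rs_nat φ _ m).symm.trans
                (congrArg (φ.app _) (untF_pos hm M t m h)).symm)
            · have h1 : ∀ z : qtSub (Uk k hm) ((pbp S).obj ((res S k).obj M')) t, z.1 = 0 :=
                fun z => z.2 (fun h' => h (le_of_eq h'.symm))
              exact (h1 _).trans (h1 _).symm }
      counit :=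
        { app := fun N => cnt hm N
          naturality := fun N N' φ => rfl }
      left_triangle := by
        ext M : 2
        refine Eq.trans ?_ (left_tri hm M)
        change (res S k).map (unt hm M) ≫ 𝟙 _ ≫ cnt hm ((res S k).obj M) = _
        rw [Category.id_comp]
      right_triangle := by
        ext N : 2
        refine Eq.trans ?_ (right_tri hm N)
        change unt hm ((Gf S k hm).obj N) ≫ 𝟙 _ ≫ (Gf S k hm).map (cnt hm N) = _
        rw [Category.id_comp] }

end Adj

end SKY_

open SKY_ in
theorem sky_proof : Stmt_SKY := by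
  intro K _ c₁ c₂ S k hk
  have hm : ∀ l, k ≤ l → l = k := by
    intro l hl
    rcases hk with rfl | rfl
    · exact Cov.ext' ((Finset.Nonempty.subset_singleton_iff l.ne).1 hl)
    · exact Cov.ext' ((Finset.Nonempty.subset_singleton_iff l.ne).1 hl)
  refine ⟨Gf S k hm, inferInstance, adj hm, ?_, ?_⟩
  · have h1 : ∀ N, IsIso ((adj (S := S) hm).counit.app N) := by
      intro N
      apply isIso_of_bij
      intro s
      constructor
      · intro x y hxy
        exact Subtype.ext hxy
      · intro y
        exact ⟨⟨y, fun h => absurd rfl h⟩, rfl⟩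
    exact NatIso.isIso_of_isIso_app _
  · intro Q hQ
    apply isIso_of_bij
    intro t
    by_cases h : t.unop.k = k
    · subst h
      constructor
      · intro x y hxy
        have h1 := untF_pos hm Q t x le_rfl
        have h2 := untF_pos hm Q t y le_rfl
        have h3 : (untF hm Q t x).1 = (untF hm Q t y).1 := congrArg Subtype.val hxy
        rw [h1, h2] at h3
        exact (rs_id Q t x).symm.trans (h3.trans (rs_id Q t y))
      · intro y
        refine ⟨y.1, Subtype.ext ?_⟩
        exact (untF_pos hm Q t y.1 le_rfl).trans (rs_id Q t y.1)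
    · have h1 : Subsingleton (Q.obj t) := hQ (ConicData.prC.obj t.unop) t.unop.k h
      constructor
      · intro x y _
        exact h1.elim x y
      · intro y
        refine ⟨0, Subtype.ext ?_⟩
        have h2 : ∀ z : qtSub (Uk k hm) ((pbp S).obj ((res S k).obj Q)) t, z.1 = 0 :=
          fun z => z.2 h
        exact (h2 _).trans (h2 y).symm

end Pool.CRD.G
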