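import Pool.Agent.CRD.G.StmtsC

/-!
# CRD, area G, module SPL: the cohomology of the structure sheaf on the fibres, split form
-/

set_option autoImplicit false

open CategoryTheory Opposite Limits TensorProduct MonoidalCategory

namespace Pool.CRD.G

namespace SPL_

section

variable {A E : Type} [CommRing A] [AddCommGroup E] [Module A E] (w w' : ℤ → E)

/-- combinations of the `w n` and the `w' n` -/
noncomputable def psi : ((ℤ →₀ A) × (ℤ →₀ A)) →ₗ[A] E :=
  (Finsupp.linearCombination A w).coprod (Finsupp.linearCombination A w')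

theorem psi_single_left (n : ℤ) (a : A) : psi w w' (Finsupp.single n a, (0 : ℤ →₀ A)) =
    a • w n := by
  simp [psi]

theorem psi_single_right (n : ℤ) (a : A) : psi w w' ((0 : ℤ →₀ A), Finsupp.single n a) =
    a • w' n := by
  simp [psi]

/-- the part with nonnegative index -/
def pos (n : ℤ) : E := if 0 ≤ n then w n else 0

/-- the part with negative index -/
def neg (n : ℤ) : E := if 0 ≤ n then 0 else w n

theorem pos_add_neg (n : ℤ) : pos w n + neg w n = w n := by
  unfold pos neg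
  split_ifs <;> simp

theorem lc_add (f g h : ℤ → E) (hfg : ∀ n, f n + g n = h n) (c : ℤ →₀ A) :
    Finsupp.linearCombination A f c + Finsupp.linearCombination A g c =
      Finsupp.linearCombination A h c := by
  rw [Finsupp.linearCombination_apply, Finsupp.linearCombination_apply,
    Finsupp.linearCombination_apply, Finsupp.sum, Finsupp.sum, Finsupp.sum,
    ← Finset.sum_add_distrib]
  refine Finset.sum_congr rfl fun n _ => ?_
  rw [← smul_add, hfg]

theorem psi_add (v : (ℤ →₀ A) × (ℤ →₀ A)) :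
    psi (pos w) (pos w') v + psi (neg w) (neg w') v = psi w w' v := by
  have h1 := lc_add (A := A) (pos w) (neg w) w (pos_add_neg w) v.1
  have h2 := lc_add (A := A) (pos w') (neg w') w' (pos_add_neg w') v.2
  unfold psi
  rw [LinearMap.coprod_apply, LinearMap.coprod_apply, LinearMap.coprod_apply, ← h1, ← h2]
  abel

theorem psi_mem (u u' : ℤ → E) (P : Submodule A E) (h : ∀ n, u n ∈ P) (h' : ∀ n, u' n ∈ P)
    (v : (ℤ →₀ A) × (ℤ →₀ A)) : psi u u' v ∈ P := by
  unfold psi
  rw [LinearMap.coprod_apply, Finsupp.linearCombination_apply, Finsupp.linearCombination_apply]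
  exact add_mem (sum_mem fun n _ => P.smul_mem _ (h n)) (sum_mem fun n _ => P.smul_mem _ (h' n))

theorem exists_pre {M : Type} [AddCommGroup M] [Module A M] (i : M →ₗ[A] E)
    (hi : Function.Injective i) {N : Type} [AddCommGroup N] [Module A N] (f : N →ₗ[A] E)
    (hf : ∀ x, f x ∈ LinearMap.range i) : ∃ g : N →ₗ[A] M, ∀ x, i (g x) = f x := by
  refine ⟨((LinearEquiv.ofInjective i hi).symm : LinearMap.range i →ₗ[A] M) ∘ₗ
    f.codRestrict (LinearMap.range i) hf, fun x => ?_⟩
  have h := (LinearEquiv.ofInjective i hi).apply_symm_apply (f.codRestrict (LinearMap.range i) hf x)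
  exact congrArg Subtype.val h

variable {w w'}

theorem retr (hψ : Function.Injective (psi (A := A) w w')) {M : Type} [AddCommGroup M]
    [Module A M] (i : M →ₗ[A] E) (hi : ∀ x, i x ∈ LinearMap.range (psi (A := A) w w')) :
    ∃ r : M →ₗ[A] A, ∀ a m, i m = a • w 0 → r m = a := by
  obtain ⟨co, hco⟩ := exists_pre (psi (A := A) w w') hψ i hi
  refine ⟨Finsupp.lapply 0 ∘ₗ LinearMap.fst A _ _ ∘ₗ co, fun a m hm => ?_⟩
  have h1 : co m = (Finsupp.single 0 a, (0 : ℤ →₀ A)) := by
    apply hψ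
    rw [hco, psi_single_left, hm]
  change (co m).1 0 = a
  rw [h1]
  simp

theorem split0 {Ma Mb Mab : Type} [AddCommGroup Ma] [AddCommGroup Mb] [AddCommGroup Mab]
    [Module A Ma] [Module A Mb] [Module A Mab]
    (hψ : Function.Injective (psi (A := A) w w')) (ia : Ma →ₗ[A] E) (ib : Mb →ₗ[A] E)
    (iab : Mab →ₗ[A] E) (hia : Function.Injective ia) (hib : Function.Injective ib)
    (ha1 : ∀ x, ia x ∈ Submodule.span A {e | ∃ n : ℕ, e = w n ∨ e = w' n})
    (ha2 : ∀ n : ℕ, w n ∈ LinearMap.range ia ∧ w' n ∈ LinearMap.range ia)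
    (hb1 : ∀ x, ib x ∈ Submodule.span A {e | ∃ n : ℕ, e = w (-n) ∨ e = w' (-n - 1)})
    (hb2 : ∀ n : ℕ, w (-n) ∈ LinearMap.range ib ∧ w' (-n - 1) ∈ LinearMap.range ib)
    (hc : ∀ x, iab x ∈ LinearMap.range (psi (A := A) w w')) :
    ∃ (ρ : (Ma × Mb) →ₗ[A] A) (σ : Mab →ₗ[A] (Ma × Mb)),
      (∀ a x y, ia x = a • w 0 → ib y = a • w 0 → ρ (x, y) = a) ∧
      (∀ b, ia (σ b).1 - ib (σ b).2 = iab b) ∧
      ∀ x b, iab b = ia x.1 - ib x.2 →
        ρ x • w 0 + ia (σ b).1 = ia x.1 ∧ ρ x • w 0 + ib (σ b).2 = ib x.2 := by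
  -- elements of `Ma`
  have F1 : ∀ x, ∃ v, psi (A := A) w w' v = ia x ∧ psi (A := A) (neg w) (neg w') v = 0 := by
    intro x
    have h := ha1 x
    generalize ia x = e at h ⊢
    induction h using Submodule.span_induction with
    | zero => exact ⟨0, map_zero _, map_zero _⟩
    | add p q _ _ hp hq =>
      obtain ⟨v, h1, h2⟩ := hp
      obtain ⟨v', h1', h2'⟩ := hq
      exact ⟨v + v', by rw [map_add, h1, h1'], by rw [map_add, h2, h2', add_zero]⟩
    | smul a p _ hp =>
      obtain ⟨v, h1, h2⟩ := hp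
      exact ⟨a • v, by rw [map_smul, h1], by rw [map_smul, h2, smul_zero]⟩
    | mem p hp =>
      obtain ⟨n, rfl | rfl⟩ := hp
      · refine ⟨(Finsupp.single (n : ℤ) 1, 0), ?_, ?_⟩
        · rw [psi_single_left, one_smul]
        · rw [psi_single_left, neg, if_pos (Int.natCast_nonneg n), smul_zero]
      · refine ⟨(0, Finsupp.single (n : ℤ) 1), ?_, ?_⟩
        · rw [psi_single_right, one_smul]
        · rw [psi_single_right, neg, if_pos (Int.natCast_nonneg n), smul_zero]
  -- elements of `Mb`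
  have F2 : ∀ y, ∃ v : (ℤ →₀ A) × (ℤ →₀ A), psi (A := A) w w' v = ib y ∧
      psi (A := A) (pos w) (pos w') v = v.1 0 • w 0 := by
    intro y
    have h := hb1 y
    generalize ib y = e at h ⊢
    induction h using Submodule.span_induction with
    | zero => exact ⟨0, map_zero _, by rw [map_zero]; simp⟩
    | add p q _ _ hp hq =>
      obtain ⟨v, h1, h2⟩ := hp
      obtain ⟨v', h1', h2'⟩ := hq
      refine ⟨v + v', by rw [map_add, h1, h1'], ?_⟩
      rw [map_add, h2, h2', ← add_smul]; rfl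
    | smul a p _ hp =>
      obtain ⟨v, h1, h2⟩ := hp
      refine ⟨a • v, by rw [map_smul, h1], ?_⟩
      rw [map_smul, h2, smul_smul]; rfl
    | mem p hp =>
      obtain ⟨n, rfl | rfl⟩ := hp
      · refine ⟨(Finsupp.single (-(n : ℤ)) 1, 0), ?_, ?_⟩
        · rw [psi_single_left, one_smul]
        · rw [psi_single_left, one_smul, pos]
          rcases Nat.eq_zero_or_pos n with rfl | hn
          · simp
          · rw [if_neg (by omega)]
            change (0 : E) = (Finsupp.single (-(n : ℤ)) (1 : A)) 0 • w 0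
            rw [Finsupp.single_eq_of_ne (by omega), zero_smul]
      · refine ⟨(0, Finsupp.single (-(n : ℤ) - 1) 1), ?_, ?_⟩
        · rw [psi_single_right, one_smul]
        · rw [psi_single_right, one_smul, pos, if_neg (by omega)]
          change (0 : E) = (0 : ℤ →₀ A) 0 • w 0
          rw [Finsupp.zero_apply, zero_smul]
  obtain ⟨co, hco⟩ := exists_pre (psi (A := A) w w') hψ iab hc
  obtain ⟨cob, hcob⟩ := exists_pre (psi (A := A) w w') hψ ib (fun y => by
    obtain ⟨v, hv, -⟩ := F2 y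
    exact ⟨v, hv⟩)
  obtain ⟨σa, hσa⟩ := exists_pre ia hia (psi (A := A) (pos w) (pos w')) (fun v => by
    refine psi_mem _ _ _ (fun n => ?_) (fun n => ?_) v
    · unfold pos
      split_ifs with h
      · obtain ⟨m, rfl⟩ := Int.eq_ofNat_of_zero_le h
        exact (ha2 m).1
      · exact zero_mem _
    · unfold pos
      split_ifs with h
      · obtain ⟨m, rfl⟩ := Int.eq_ofNat_of_zero_le h
        exact (ha2 m).2
      · exact zero_mem _)
  obtain ⟨σb, hσb⟩ := exists_pre ib hib (psi (A := A) (neg w) (neg w')) (fun v => by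
    refine psi_mem _ _ _ (fun n => ?_) (fun n => ?_) v
    · unfold neg
      split_ifs with h
      · exact zero_mem _
      · obtain ⟨m, hm⟩ := Int.eq_ofNat_of_zero_le (a := -n) (by omega)
        have : n = -(m : ℤ) := by omega
        rw [this]
        exact (hb2 m).1
    · unfold neg
      split_ifs with h
      · exact zero_mem _
      · obtain ⟨m, hm⟩ := Int.eq_ofNat_of_zero_le (a := -n - 1) (by omega)
        have : n = -(m : ℤ) - 1 := by omega
        rw [this]
        exact (hb2 m).2)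
  have h1 : ∀ b, ia ((σa ∘ₗ co).prod (-(σb ∘ₗ co)) b).1 = psi (pos w) (pos w') (co b) :=
    fun b => hσa (co b)
  have h2 : ∀ b, ib ((σa ∘ₗ co).prod (-(σb ∘ₗ co)) b).2 = - psi (neg w) (neg w') (co b) := by
    intro b
    change ib (-(σb (co b))) = _
    rw [map_neg, hσb]
  refine ⟨Finsupp.lapply 0 ∘ₗ LinearMap.fst A _ _ ∘ₗ cob ∘ₗ LinearMap.snd A _ _,
    (σa ∘ₗ co).prod (-(σb ∘ₗ co)), ?_, ?_, ?_⟩
  · intro a x y _ hy
    have h3 : cob y = (Finsupp.single 0 a, (0 : ℤ →₀ A)) := by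
      apply hψ
      rw [hcob, psi_single_left, hy]
    change (cob y).1 0 = a
    rw [h3]
    simp
  · intro b
    rw [h1, h2, sub_neg_eq_add, psi_add, hco]
  · intro x b hb
    obtain ⟨v1, hv1, hv1'⟩ := F1 x.1
    obtain ⟨v2, hv2, hv2'⟩ := F2 x.2
    have h3 : co b = v1 - v2 := by
      apply hψ
      rw [hco, map_sub, hv1, hv2, hb]
    have h4 : cob x.2 = v2 := by
      apply hψ
      rw [hcob, hv2]
    have h5 : (Finsupp.lapply 0 ∘ₗ LinearMap.fst A _ _ ∘ₗ cob ∘ₗ LinearMap.snd A Ma Mb :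
        (Ma × Mb) →ₗ[A] A) x = v2.1 0 := by
      change (cob x.2).1 0 = _
      rw [h4]
    have h6 := psi_add (A := A) w w' v1
    have h7 := psi_add (A := A) w w' v2
    rw [h5, h1, h2, h3, map_sub, map_sub, hv1', hv2', ← hv1, ← hv2]
    rw [hv1', add_zero] at h6
    rw [hv2'] at h7
    constructor
    · rw [h6]; abel
    · rw [← h7]; abel

end

/-- the functions on a chart as elements of the function field -/
noncomputable def toE {K : Type} [Field K] {c₁ c₂ : CurveData K} {S : SurfData c₁ c₂}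
    (X : ConicData S) (s : Ch2) (k : Cov Bool) : X.A s.i s.j k →ₗ[S.A s.i s.j] X.E where
  toFun x := x
  map_add' _ _ := rfl
  map_smul' a x := by
    rw [Algebra.smul_def]
    change algebraMap S.L X.E a.1 * (x : X.E) = a.1 • (x : X.E)
    rw [Algebra.smul_def]

theorem toE_inj {K : Type} [Field K] {c₁ c₂ : CurveData K} {S : SurfData c₁ c₂}
    (X : ConicData S) (s : Ch2) (k : Cov Bool) : Function.Injective (toE X s k) :=
  Subtype.val_injective

theorem toE_mem {K : Type} [Field K] {c₁ c₂ : CurveData K} {S : SurfData c₁ c₂}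
    (X : ConicData S) (s : Ch2) (k : Cov Bool) {e : X.E} (he : e ∈ X.A s.i s.j k) :
    e ∈ LinearMap.range (toE X s k) := ⟨⟨e, he⟩, rfl⟩

theorem sum_map {K : Type} [Field K] {c₁ c₂ : CurveData K} {S : SurfData c₁ c₂}
    (X : ConicData S) (s : Ch2) (z : X.E) (c : ℤ →₀ S.A s.i s.j) :
    Finsupp.linearCombination (S.A s.i s.j) (fun n : ℤ => X.eta s.i ^ n * z) c =
      ((c.mapRange Subtype.val rfl).sum fun n a => algebraMap S.L X.E a * X.eta s.i ^ n) * z := by
  rw [Finsupp.sum_mapRange_index (fun n => by rw [map_zero, zero_mul]),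
    Finsupp.linearCombination_apply, Finsupp.sum, Finsupp.sum, Finset.sum_mul]
  refine Finset.sum_congr rfl fun n _ => ?_
  change (c n : S.L) • (X.eta s.i ^ n * z) = _
  rw [Algebra.smul_def, mul_assoc]

end SPL_

open SPL_ in
theorem spl_proof (hSTF : Stmt_STF) (hIDP : Stmt_IDP) : Stmt_SPL := by
  intro K _ c₁ c₂ S X s
  obtain ⟨s1, s2, s3, -⟩ := hSTF K c₁ c₂ S X s
  have hne := eta_ne X s.i
  have hψ : Function.Injective (psi (A := S.A s.i s.j) (fun n : ℤ => X.eta s.i ^ n)
      (fun n : ℤ => X.eta s.i ^ n * X.zeta s.j)) := by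
    rw [injective_iff_map_eq_zero]
    rintro ⟨c, d⟩ h
    have h1 := sum_map X s 1 c
    have h2 := sum_map X s (X.zeta s.j) d
    simp only [mul_one] at h1
    unfold psi at h
    rw [LinearMap.coprod_apply] at h
    change Finsupp.linearCombination (S.A s.i s.j) (fun n : ℤ => X.eta s.i ^ n) c +
      Finsupp.linearCombination (S.A s.i s.j) (fun n : ℤ => X.eta s.i ^ n * X.zeta s.j) d = 0 at h
    rw [h1, h2] at h
    obtain ⟨h3, h4⟩ := hIDP K c₁ c₂ S X s _ _ h
    have h5 : c = 0 := by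
      ext n
      exact congrArg (fun f : ℤ →₀ S.L => f n) h3
    have h6 : d = 0 := by
      ext n
      exact congrArg (fun f : ℤ →₀ S.L => f n) h4
    rw [h5, h6]
    rfl
  have hs1 : ∀ x : X.A s.i s.j ca, toE X s ca x ∈ Submodule.span (S.A s.i s.j)
      {e | ∃ n : ℕ, e = X.eta s.i ^ (n : ℤ) ∨ e = X.eta s.i ^ (n : ℤ) * X.zeta s.j} := by
    intro x
    have h := s1 x.1 x.2
    simp only [zpow_natCast]
    exact h
  have hs2 : ∀ x : X.A s.i s.j cb, toE X s cb x ∈ Submodule.span (S.A s.i s.j)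
      {e | ∃ n : ℕ, e = X.eta s.i ^ (-n : ℤ) ∨ e = X.eta s.i ^ (-n - 1 : ℤ) * X.zeta s.j} := by
    intro x
    have h := s2 x.1 x.2
    refine Submodule.span_mono ?_ h
    rintro w ⟨n, rfl | rfl⟩
    · exact ⟨n, Or.inl (by rw [zpow_neg, zpow_natCast, inv_pow])⟩
    · refine ⟨n, Or.inr ?_⟩
      rw [zpow_sub₀ hne, zpow_one, zpow_neg, zpow_natCast, inv_pow]
      field_simp
  have hrange : ∀ (n : ℕ) (e : X.E), e ∈ Submodule.span (S.A s.i s.j)
      {e | ∃ n : ℕ, e = X.eta s.i ^ (n : ℤ) ∨ e = X.eta s.i ^ (n : ℤ) * X.zeta s.j} →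
      X.eta s.i ^ (-n : ℤ) * e ∈ LinearMap.range (psi (A := S.A s.i s.j)
        (fun n : ℤ => X.eta s.i ^ n) (fun n : ℤ => X.eta s.i ^ n * X.zeta s.j)) := by
    intro n e he
    induction he using Submodule.span_induction with
    | zero => rw [mul_zero]; exact zero_mem _
    | add p q _ _ hp hq => rw [mul_add]; exact add_mem hp hq
    | smul a p _ hp =>
      have e1 : X.eta s.i ^ (-n : ℤ) * a • p = a • (X.eta s.i ^ (-n : ℤ) * p) := by
        change X.eta s.i ^ (-n : ℤ) * a.1 • p = a.1 • (X.eta s.i ^ (-n : ℤ) * p)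
        exact mul_smul_comm _ _ _
      rw [e1]
      exact Submodule.smul_mem _ _ hp
    | mem p hp =>
      obtain ⟨m, rfl | rfl⟩ := hp
      · refine ⟨(Finsupp.single (-n + m) 1, 0), ?_⟩
        rw [psi_single_left, one_smul, zpow_add₀ hne]
      · refine ⟨(0, Finsupp.single (-n + m) 1), ?_⟩
        rw [psi_single_right, one_smul, zpow_add₀ hne, mul_assoc]
  have hc : ∀ x : X.A s.i s.j cab, toE X s cab x ∈ LinearMap.range (psi (A := S.A s.i s.j)
        (fun n : ℤ => X.eta s.i ^ n) (fun n : ℤ => X.eta s.i ^ n * X.zeta s.j)) := by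
    intro x
    obtain ⟨n, hn⟩ := s3 x.1 x.2
    have h := hrange n _ (hs1 ⟨_, hn⟩)
    have e1 : X.eta s.i ^ (-n : ℤ) * toE X s ca ⟨_, hn⟩ = toE X s cab x := by
      change X.eta s.i ^ (-n : ℤ) * (X.eta s.i ^ n * x.1) = x.1
      rw [← mul_assoc, ← zpow_natCast, ← zpow_add₀ hne, neg_add_cancel, zpow_zero, one_mul]
    rwa [e1] at h
  refine ⟨fun k => ?_, ?_⟩
  · obtain ⟨r, hr⟩ := retr hψ (toE X s k) (fun x => by
      exact hc ⟨x.1, X.A_mono le_rfl le_rfl (cab_bot k) x.2⟩)
    refine ⟨r, fun a => hr _ _ ?_⟩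
    change algebraMap S.L X.E a.1 = a.1 • (X.eta s.i ^ (0 : ℤ))
    rw [zpow_zero, Algebra.smul_def, mul_one]
  · have g1 : ∀ n : ℕ, X.eta s.i ^ (n : ℤ) ∈ X.A s.i s.j ca := fun n => by
      rw [zpow_natCast]
      exact pow_mem (eta_mem X s f_ca) n
    have g2 : ∀ n : ℕ, X.eta s.i ^ (-n : ℤ) ∈ X.A s.i s.j cb := fun n => by
      rw [zpow_neg, zpow_natCast, ← inv_pow]
      exact pow_mem (etainv_mem X s t_cb) n
    have g3 : ∀ n : ℕ, X.eta s.i ^ (-n - 1 : ℤ) * X.zeta s.j ∈ X.A s.i s.j cb := fun n => by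
      have e1 : X.eta s.i ^ (-n - 1 : ℤ) * X.zeta s.j =
          X.eta s.i ^ (-n : ℤ) * (X.zeta s.j / X.eta s.i) := by
        rw [zpow_sub₀ hne, zpow_one]
        field_simp
      rw [e1]
      exact mul_mem (g2 n) (zetadiv_mem X s t_cb)
    obtain ⟨ρ, σ, h1, h2, h3⟩ := split0 hψ (toE X s ca) (toE X s cb) (toE X s cab) (toE_inj X s ca)
      (toE_inj X s cb) hs1
      (fun n => ⟨toE_mem X s ca (g1 n), toE_mem X s ca (mul_mem (g1 n) (zeta_mem X s f_ca))⟩) hs2
      (fun n => ⟨toE_mem X s cb (g2 n), toE_mem X s cb (g3 n)⟩) hc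
    have e0 : ∀ a : S.A s.i s.j, a • (X.eta s.i ^ (0 : ℤ)) = algebraMap S.L X.E a.1 := by
      intro a
      change a.1 • (X.eta s.i ^ (0 : ℤ)) = _
      rw [zpow_zero, Algebra.smul_def, mul_one]
    refine ⟨ρ, σ, fun a => h1 _ _ _ (e0 a).symm (e0 a).symm, h2, fun x b hb => ?_⟩
    obtain ⟨h4, h5⟩ := h3 x b hb
    rw [e0] at h4 h5
    exact ⟨Subtype.ext h4, Subtype.ext h5⟩

end Pool.CRD.G
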