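import Pool.Agent.CRD.G.StmtsD
import Pool.Agent.CRD.Br.Asm

/-!
# CRD, area G: the semiorthogonal decomposition in the split case (assembly)
-/

open CategoryTheory Opposite Limits TensorProduct MonoidalCategory Pretriangulated

namespace Pool.CRD.G

namespace SPT_

variable {K : Type} [Field K] {c₁ c₂ : CurveData K} {S : SurfData c₁ c₂} (X : ConicData S)

lemma lin_tensor (hTWC : Stmt_TWC) {C : Type} [SmallCategory C] {R : PAlg K C} (L L' : PMod R)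
    (h : Nonempty (L ⊗ L' ≅ 𝟙_ (PMod R))) [(tensorRight L).Additive] :
    (tensorRight L).Linear K where
  map_smul {M N} f r := (hTWC K C R L L' h).2.2 M N f r

/-- the component of an essential image -/
lemma comp_of_img {T : Type 1} [Category.{1} T] [HasZeroObject T] [HasShift T ℤ]
    [Preadditive T] [∀ (n : ℤ), (shiftFunctor T n).Additive] [Pretriangulated T]
    {T' : Type 1} [Category.{1} T'] (F G : T' ⥤ T)
    (h : ∀ (x y : T') (f : F.obj x ⟶ G.obj y), f = 0) (X Y : T) (hX : F.essImage X)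
    (hY : G.essImage Y) (f : X ⟶ Y) : f = 0 := by
  obtain ⟨x, ⟨e⟩⟩ := hX
  obtain ⟨y, ⟨e'⟩⟩ := hY
  have h1 := h x y (e.hom ≫ f ≫ e'.inv)
  have h2 : f = e.inv ≫ (e.hom ≫ f ≫ e'.inv) ≫ e'.hom := by simp
  rw [h2, h1, zero_comp, comp_zero]

end SPT_

open SPT_ in
/-- SPT: the semiorthogonal decomposition in the split case -/
theorem spt_proof (hLBI : Stmt_LBI) (hTWB : Stmt_TWB) (hTEX : Stmt_TEX) (hTWC : Stmt_TWC)
    (hPCO : Stmt_PCO) (hEXB : Stmt_EXB) (hLRA : Stmt_LRA) (hLRB : Stmt_LRB) (hLRD : Stmt_LRD)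
    (hHPL : Stmt_HPL) (hDFF : Stmt_DFF) (hDOR : Stmt_DOR) (hSBF : Stmt_SBF) (hDVB : Stmt_DVB)
    (hIMG : Stmt_IMG) (hGNA : Stmt_GNA) (hEFS : Stmt_EFS) (hEFX : Stmt_EFX) :
    Pool.CRD.Stmt_SPT := by
  intro K _ _ _ c₁ c₂ S X _ _ hS
  obtain ⟨a, b, hab⟩ := hS
  obtain ⟨I, L', hI, hcL, hcL', e1, e2⟩ := hLBI K c₁ c₂ S X a b hab
  haveI i1 : ExF (bcX X) := (hEXB K c₁ c₂ S X).1
  haveI i2 : ExF X.pbS := (hEXB K c₁ c₂ S X).2
  haveI i3 : ExF (tensorRight (lbX I)) := hTEX K Ch3 X.R (lbX I) L' e1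
  haveI i4 : (tensorRight (lbX I)).Linear K := lin_tensor hTWC (lbX I) L' e1
  have h0 : ∀ M, IsCoh S.R M → IsCoh X.R (X.pbS.obj M) := hPCO K c₁ c₂ S X
  have h1 : ∀ M, IsCoh S.R M → IsCoh X.R ((X.pbS ⋙ tensorRight (lbX I)).obj M) :=
    fun M hM => hTWB K Ch3 X.R _ _ (h0 M hM) hcL
  have eS := hEFS K c₁ c₂ S
  have eX := hEFX K c₁ c₂ S X
  obtain ⟨f0, g0⟩ := hDFF K Ch2 Ch3 S.R X.R X.pbS h0 eS eX
    (fun M N _ => hLRB K c₁ c₂ S X M N)
  obtain ⟨f1, g1⟩ := hDFF K Ch2 Ch3 S.R X.R (X.pbS ⋙ tensorRight (lbX I)) h1 eS eX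
    (fun M N _ => hLRD K c₁ c₂ S X (lbX I) L' e1 M N)
  obtain ⟨c0, t0, a0⟩ := hIMG K (Db X.R) (Db S.R) (mB (cohF X.pbS h0)) f0 g0
  obtain ⟨c1, t1, a1⟩ := hIMG K (Db X.R) (Db S.R)
    (mB (cohF (X.pbS ⋙ tensorRight (lbX I)) h1)) f1 g1
  have hor : ∀ (x y : Db S.R) (f : (mB (cohF X.pbS h0)).obj x ⟶
      (mB (cohF (X.pbS ⋙ tensorRight (lbX I)) h1)).obj y), f = 0 := by
    refine hDOR K Ch2 Ch3 S.R X.R X.pbS (X.pbS ⋙ tensorRight (lbX I)) h0 h1 eX ?_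
    intro M N _ f
    exact hLRA K c₁ c₂ S X _ (fun s => hHPL K c₁ c₂ S X a b I hI N s) M f
  let B : Fin 2 → ObjectProperty (Db X.R) :=
    ![(mB (cohF (X.pbS ⋙ tensorRight (lbX I)) h1)).essImage, (mB (cohF X.pbS h0)).essImage]
  have hB : SOD B :=
    { tri := by
        intro j
        fin_cases j
        · exact t1
        · exact t0
      iso := by
        intro j
        fin_cases j
        · exact c1
        · exact c0
      orth := by
        intro i j hij x y hx hy f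
        have hi : i = 0 := by omega
        have hj : j = 1 := by omega
        subst hi
        subst hj
        exact comp_of_img _ _ hor x y hx hy f
      gen := by
        intro P hP hPi hle y
        refine hDVB K Ch3 X.R P hP hPi (fun M => ?_) y
        refine hGNA K c₁ c₂ S X a b I L' hI hcL hcL' e1 P hP hPi ?_ ?_ M.obj M.property
        · intro N hN h
          obtain ⟨e⟩ := hSBF K Ch2 Ch3 S.R X.R X.pbS h0 ⟨N, hN⟩
          exact hle 1 _ ⟨_, ⟨e⟩⟩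
        · intro N hN h
          obtain ⟨e⟩ := hSBF K Ch2 Ch3 S.R X.R (X.pbS ⋙ tensorRight (lbX I)) h1 ⟨N, hN⟩
          exact hle 0 _ ⟨_, ⟨e⟩⟩ }
  refine ⟨B, hB, fun j => ?_⟩
  fin_cases j
  · exact a1
  · exact a0

end Pool.CRD.G
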