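import Pool.Agent.CRD.G.StmtsA

/-!
# CRD, area G: SUM
-/

open CategoryTheory Opposite Limits TensorProduct

namespace Pool.CRD.G

namespace SUM_

variable {A O : Type} [CommRing A] [CommRing O] [Algebra A O] {p q : A} {e z : O}
    {L E : Type} [AddCommGroup L] [Module A L] [Module O L] [IsScalarTower A O L]
    [AddCommGroup E] [Module A E]

/-- the linear map `(ℕ →₀ E) → L` -/
noncomputable def ev (e : O) (i : E →ₗ[A] L) : (ℕ →₀ E) →ₗ[A] L :=
  Finsupp.lsum A fun n => (Algebra.lsmul A A L (e ^ n)) ∘ₗ i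

lemma ev_apply (e : O) (i : E →ₗ[A] L) (c : ℕ →₀ E) :
    ev e i c = c.sum fun n x => (e ^ n) • i x := by
  rw [ev, Finsupp.lsum_apply]
  rfl

/-- the linear map `(ℕ →₀ E) → O ⊗ E` -/
noncomputable def io (e z : O) (P Q : Module.End A E) : (ℕ →₀ E) →ₗ[A] O ⊗[A] E :=
  Finsupp.lsum A fun n => TensorProduct.mk A O E (e ^ n * z) +
    (TensorProduct.mk A O E (e ^ n)) ∘ₗ P + (TensorProduct.mk A O E (e ^ (n + 1))) ∘ₗ Q

lemma io_single (e z : O) (P Q : Module.End A E) (n : ℕ) (x : E) :
    io e z P Q (Finsupp.single n x) =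
      (e ^ n * z) ⊗ₜ[A] x + (e ^ n) ⊗ₜ[A] P x + (e ^ (n + 1)) ⊗ₜ[A] Q x := by
  simp [io, Finsupp.lsum_apply]

end SUM_

open SUM_ in
theorem sum_proof : Stmt_SUM := by
  intro A O _ _ _ p q e z L E _ _ _ _ _ _ P Q i h2 hp hq hz hspan hC hzi hbij hproj
  have hbij' : Function.Bijective (ev e i) := by
    have : (⇑(ev e i)) = (fun c : ℕ →₀ E => c.sum fun n x => (e ^ n) • i x) := by
      funext c
      exact ev_apply e i c
    rw [this]
    exact hbij
  let Φ : (ℕ →₀ E) ≃ₗ[A] L := LinearEquiv.ofBijective (ev e i) hbij'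
  have hΦ : ∀ n x, Φ (Finsupp.single n x) = (e ^ n) • i x := by
    intro n x
    change ev e i _ = _
    rw [ev_apply]
    simp
  let io' : L →ₗ[A] O ⊗[A] E := (io e z P Q) ∘ₗ Φ.symm.toLinearMap
  have hio : ∀ n x, io' ((e ^ n) • i x) =
      (e ^ n * z) ⊗ₜ[A] x + (e ^ n) ⊗ₜ[A] P x + (e ^ (n + 1)) ⊗ₜ[A] Q x := by
    intro n x
    change io e z P Q (Φ.symm _) = _
    rw [← hΦ, LinearEquiv.symm_apply_apply, io_single]
  -- induction principle
  have hind : ∀ (M : L → Prop), (∀ n x, M ((e ^ n) • i x)) → (∀ a b, M a → M b → M (a + b)) →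
      M 0 → ∀ l, M l := by
    intro M h1 h3 h0 l
    obtain ⟨c, rfl⟩ := Φ.surjective l
    induction c using Finsupp.induction_linear with
    | zero => simpa using h0
    | add a b ha hb =>
      rw [map_add]
      exact h3 _ _ ha hb
    | single n x =>
      rw [hΦ]
      exact h1 n x
  have he : ∀ l, io' (e • l) = e • io' l := by
    apply hind
    · intro n x
      rw [← mul_smul, ← pow_succ', hio, hio]
      simp only [smul_add, TensorProduct.smul_tmul', smul_eq_mul]
      ring_nf
    · intro a b ha hb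
      rw [smul_add, map_add, ha, hb, map_add, smul_add]
    · simp
  have hz' : ∀ l, io' (z • l) = z • io' l := by
    apply hind
    · intro n x
      have h1 : z • (e ^ n) • i x = (e ^ n) • i (P x) + (e ^ (n + 1)) • i (Q x) := by
        rw [← mul_smul, mul_comm, mul_smul, hzi, smul_add, ← mul_smul, ← pow_succ]
      rw [h1, map_add, hio, hio, hio]
      simp only [smul_add, TensorProduct.smul_tmul', smul_eq_mul]
      have h3 : (e ^ n) ⊗ₜ[A] P (P x) = (e ^ n * algebraMap A O p) ⊗ₜ[A] x := by
        rw [hC.PP, ← TensorProduct.smul_tmul, Algebra.smul_def, mul_comm]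
      have h4 : (e ^ (n + 1 + 1)) ⊗ₜ[A] Q (Q x) = (e ^ (n + 1 + 1) * algebraMap A O q) ⊗ₜ[A] x := by
        rw [hC.QQ, ← TensorProduct.smul_tmul, Algebra.smul_def, mul_comm]
      have h5 : (z * (e ^ n * z)) ⊗ₜ[A] x =
          (e ^ n * algebraMap A O p) ⊗ₜ[A] x + (e ^ (n + 1 + 1) * algebraMap A O q) ⊗ₜ[A] x := by
        rw [← TensorProduct.add_tmul]
        congr 1
        linear_combination e ^ n * hz
      rw [h3, h4, h5, hC.PQ, TensorProduct.tmul_neg, mul_comm z (e ^ n), mul_comm z (e ^ (n + 1))]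
      abel
    · intro a b ha hb
      rw [smul_add, map_add, ha, hb, map_add, smul_add]
    · simp
  have hen : ∀ n l, io' ((e ^ n) • l) = (e ^ n) • io' l := by
    intro n
    induction n with
    | zero => simp
    | succ n ih =>
      intro l
      rw [pow_succ, mul_smul, ih, he, ← mul_smul]
  have hO : ∀ (o : O) l, io' (o • l) = o • io' l := by
    intro o l
    have ho : o ∈ Submodule.span A {w : O | ∃ n : ℕ, w = e ^ n ∨ w = e ^ n * z} := by
      rw [hspan]
      trivial
    induction ho using Submodule.span_induction with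
    | mem w hw =>
      obtain ⟨n, rfl | rfl⟩ := hw
      · exact hen n l
      · rw [mul_smul, hen, hz', ← mul_smul]
    | zero => simp
    | add a b _ _ ha hb => rw [add_smul, map_add, ha, hb, add_smul]
    | smul a w _ hw => rw [smul_assoc, map_smul, hw, smul_assoc]
  let iota : L →ₗ[O] O ⊗[A] E :=
    { toFun := io'
      map_add' := io'.map_add
      map_smul' := hO }
  obtain ⟨u, hu⟩ := (h2.mul hp)
  let c : A := ((u⁻¹ : Aˣ) : A)
  have hc : c * (2 * p) = 1 := by
    rw [← hu]
    exact u.inv_mul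
  let r0 : E →ₗ[A] L := c • (i ∘ₗ P)
  let rho : O ⊗[A] E →ₗ[O] L := LinearMap.liftBaseChange O r0
  have hrho : ∀ (o : O) x, rho (o ⊗ₜ[A] x) = c • o • i (P x) := by
    intro o x
    change LinearMap.liftBaseChange O r0 (o ⊗ₜ[A] x) = _
    rw [LinearMap.liftBaseChange_tmul]
    change o • (c • i (P x)) = _
    rw [smul_comm]
  have hid : rho ∘ₗ iota = LinearMap.id := by
    ext l
    refine hind (fun l => (rho ∘ₗ iota) l = LinearMap.id (R := O) l) ?_ ?_ ?_ l
    · intro n x
      change rho (iota ((e ^ n) • i x)) = (e ^ n) • i x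
      rw [map_smul, map_smul]
      congr 1
      have h1 : iota (i x) = io' ((e ^ 0) • i x) := by
        rw [pow_zero, one_smul]
        rfl
      rw [h1, hio, map_add, map_add, hrho, hrho, hrho, ← smul_add, ← smul_add]
      simp only [pow_zero, one_mul, zero_add, pow_one, one_smul]
      rw [hzi, hC.PP, hC.PQ, map_smul, map_neg, smul_neg]
      have : p • i x + e • i (Q (P x)) + p • i x + -(e • i (Q (P x))) = (2 * p) • i x := by
        rw [two_mul, add_smul]
        abel
      rw [this, ← mul_smul, hc, one_smul]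
    · intro a b ha hb
      rw [map_add, ha, hb]
      rfl
    · simp
  have : Module.Projective O (O ⊗[A] E) := inferInstance
  exact Module.Projective.of_split iota rho hid

end Pool.CRD.G
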