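import Pool.Agent.CRD.G.StmtsC

/-!
# CRD, area G, SYM: the tensor product is commutative
-/

set_option autoImplicit false

open CategoryTheory Opposite Limits TensorProduct MonoidalCategory

namespace Pool.CRD.G

theorem sym_proof : Stmt_SYM := by
  intro K _ C _ R M N
  letI : SymmetricCategory (PMod R) :=
    PresheafOfModules.symmetricCategory (R := R ⋙ forget₂ (CommAlgCat.{0} K) CommRingCat.{0})
  exact ⟨β_ M N⟩

end Pool.CRD.G
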