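import Pool.Agent.CRD.G.StmtsD

/-!
# CRD, area G, module TEX
-/

set_option autoImplicit false

open CategoryTheory Opposite Limits TensorProduct MonoidalCategory Pretriangulated

namespace Pool.CRD.G

/-- TEX: tensoring with an invertible module is exact -/
theorem tex_proof (hTWC : Stmt_TWC) : Stmt_TEX := by
  intro K _ C _ R L L' h
  obtain ⟨h1, h2, _⟩ := hTWC K C R L L' h
  exact ⟨h2, inferInstance, inferInstance⟩

end Pool.CRD.G
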