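import Pool.Agent.CRD.G.StmtsB

/-!
# CRD, area G, module THE: multiplication by `ζ` on `L + L θ`
-/

set_option autoImplicit false

open CategoryTheory Opposite Limits

namespace Pool.CRD.G

namespace THE_

section alg

/-- the identity behind (3) -/
lemma ident {E : Type} [Field E] (a b p q η ζ v w : E) (h1 : p * a ^ 2 + q * b ^ 2 = 1)
    (h2 : ζ ^ 2 = p + q * η ^ 2) (hD : a * η - b ≠ 0) :
    ζ * (v + w * ((ζ - a * p - b * q * η) / (a * η - b))) =
      ((p * (a * v - b * q * w)) + (- (b * v + a * p * w)) *
        ((ζ - a * p - b * q * η) / (a * η - b))) +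
      η * ((q * (b * v + a * p * w)) + (a * v - b * q * w) *
        ((ζ - a * p - b * q * η) / (a * η - b))) := by
  field_simp
  linear_combination w * h2 - w * (p + q * η ^ 2) * h1

end alg

section T
variable {L E : Type} [Field L] [Field E] [Algebra L E]

/-- Laurent polynomials in `η` -/
noncomputable def T (η : E) : (ℤ →₀ L) →ₗ[L] E := Finsupp.linearCombination L (fun n : ℤ => η ^ n)

lemma T_eq (η : E) (c : ℤ →₀ L) : T η c = c.sum fun n a => algebraMap L E a * η ^ n := by
  simp only [T, Finsupp.linearCombination_apply, Algebra.smul_def]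

lemma T_shift (η : E) (hη : η ≠ 0) (c : ℤ →₀ L) : ∃ c' : ℤ →₀ L, T η c' = T η c * η := by
  induction c using Finsupp.induction_linear with
  | zero => exact ⟨0, by simp⟩
  | add c d hc hd =>
    obtain ⟨c', hc'⟩ := hc
    obtain ⟨d', hd'⟩ := hd
    exact ⟨c' + d', by rw [map_add, map_add, hc', hd', add_mul]⟩
  | single n a =>
    refine ⟨Finsupp.single (n + 1) a, ?_⟩
    simp only [T, Finsupp.linearCombination_single]
    rw [zpow_add₀ hη, zpow_one, smul_mul_assoc]

lemma T_pair (η θ : E) (f : L × L → E)
    (hf : ∀ v, f v = algebraMap L E v.1 + algebraMap L E v.2 * θ) (c : ℤ →₀ (L × L)) :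
    (c.sum fun n v => η ^ n * f v) =
      T η (c.mapRange Prod.fst rfl) + T η (c.mapRange Prod.snd rfl) * θ := by
  rw [T_eq, T_eq, Finsupp.sum_mapRange_index (by simp), Finsupp.sum_mapRange_index (by simp),
    Finsupp.sum, Finsupp.sum, Finsupp.sum, Finset.sum_mul, ← Finset.sum_add_distrib]
  refine Finset.sum_congr rfl fun n _ => ?_
  rw [hf]
  ring

end T

end THE_

open THE_

theorem the_proof (hIDP : Stmt_IDP) : Stmt_THE := by
  intro K _ c₁ c₂ S X a b hab s
  have idp := hIDP K c₁ c₂ S X s
  have n1 := h1_ne S s.i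
  have n2 := h2_ne S s.j
  have nx := x2_ne S
  have nx1 := x1_ne S
  have hη := eta_ne X s.i
  have h1 : pS S s * aS S a s ^ 2 + qS S s * bS S b s ^ 2 = 1 := by
    simp only [pS, qS, aS, bS]
    field_simp
    linear_combination hab
  have idp' : ∀ c d : ℤ →₀ S.L, T (X.eta s.i) c + T (X.eta s.i) d * X.zeta s.j = 0 →
      c = 0 ∧ d = 0 := by
    intro c d h
    apply idp
    rw [← T_eq, ← T_eq]
    exact h
  have hD : algebraMap S.L X.E (aS S a s) * X.eta s.i - algebraMap S.L X.E (bS S b s) ≠ 0 := by
    intro h0
    have h3 := (idp' (Finsupp.single 1 (aS S a s) + Finsupp.single 0 (- bS S b s)) 0 (by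
      rw [map_add, map_zero, zero_mul, add_zero]
      simp only [T, Finsupp.linearCombination_single, Algebra.smul_def, map_neg, zpow_one,
        zpow_zero, mul_one]
      linear_combination h0)).1
    have h4 : aS S a s = 0 := by
      have := DFunLike.congr_fun h3 1
      simpa using this
    have h5 : bS S b s = 0 := by
      have := DFunLike.congr_fun h3 0
      simpa using this
    rw [h4, h5] at h1
    simp at h1
  refine ⟨h1, hD, ?_, ?_⟩
  · intro v
    have h1' := congrArg (algebraMap S.L X.E) h1
    have hc := conic_eq X s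
    have key := ident (algebraMap S.L X.E (aS S a s)) (algebraMap S.L X.E (bS S b s))
      (algebraMap S.L X.E (pS S s)) (algebraMap S.L X.E (qS S s)) (X.eta s.i) (X.zeta s.j)
      (algebraMap S.L X.E v.1) (algebraMap S.L X.E v.2)
      (by rw [← map_pow, ← map_pow, ← map_mul, ← map_mul, ← map_add, h1, map_one]) hc hD
    simp only [emb, theta, map_mul, map_sub, map_add, map_neg]
    exact key
  · intro c hc
    have e1 := T_pair (X.eta s.i) (theta X a b s) (emb X a b s) (fun v => rfl) c
    rw [e1] at hc
    set c1 := c.mapRange Prod.fst rfl with hc1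
    set c2 := c.mapRange Prod.snd rfl with hc2
    -- multiply by the denominator
    have hth : theta X a b s * (algebraMap S.L X.E (aS S a s) * X.eta s.i -
        algebraMap S.L X.E (bS S b s)) = X.zeta s.j - algebraMap S.L X.E (aS S a s * pS S s) -
          algebraMap S.L X.E (bS S b s * qS S s) * X.eta s.i := by
      rw [theta, div_mul_cancel₀ _ hD]
    obtain ⟨d1, hd1⟩ := T_shift (X.eta s.i) hη c1
    obtain ⟨d2, hd2⟩ := T_shift (X.eta s.i) hη c2
    have h6 := idp' ((aS S a s) • d1 - (bS S b s) • c1 - (aS S a s * pS S s) • c2 -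
      (bS S b s * qS S s) • d2) c2 (by
        simp only [map_sub, map_smul, hd1, hd2, Algebra.smul_def]
        linear_combination (algebraMap S.L X.E (aS S a s) * X.eta s.i -
          algebraMap S.L X.E (bS S b s)) * hc - T (X.eta s.i) c2 * hth)
    have h7 : c2 = 0 := h6.2
    rw [h7, map_zero, zero_mul, add_zero] at hc
    have h8 : c1 = 0 := (idp' c1 0 (by rw [hc, map_zero, zero_mul, add_zero])).1
    ext n
    · have := DFunLike.congr_fun h8 n
      simpa [hc1] using this
    · have := DFunLike.congr_fun h7 n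
      simpa [hc2] using this

end Pool.CRD.G
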