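import Pool.Agent.CRD.G.StmtsB

/-!
# CRD, area G, TWA: an invertible diagram of fractional ideals has an inverse diagram
-/

set_option autoImplicit false

open CategoryTheory Opposite Limits TensorProduct MonoidalCategory

namespace Pool.CRD.G

namespace TWA_

/-! ### algebra -/

section BC

variable {S T M N : Type*} [CommRing S] [CommRing T] [Algebra S T] [AddCommGroup M] [Module S M]
  [AddCommGroup N] [Module T N] [Module S N] [IsScalarTower S T N]

/-- a criterion for base change with a finite dual basis -/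
theorem isBaseChange_of_dual (f : M →ₗ[S] N) (n : ℕ) (m : Fin n → M) (φ : Fin n → N →ₗ[T] T)
    (ψ : Fin n → M → S) (h1 : ∀ x : N, x = ∑ k, φ k x • f (m k))
    (h2 : ∀ k x, algebraMap S T (ψ k x) = φ k (f x)) (h3 : ∀ x : M, x = ∑ k, ψ k x • m k) :
    IsBaseChange T f := by
  have key : ∀ t : T ⊗[S] M, t = ∑ k, φ k (f.liftBaseChange T t) ⊗ₜ[S] m k := by
    intro t
    induction t using TensorProduct.induction_on with
    | zero => simp
    | tmul a x =>
      rw [LinearMap.liftBaseChange_tmul]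
      have e : ∀ k, φ k (a • f x) ⊗ₜ[S] m k = a ⊗ₜ[S] (ψ k x • m k) := by
        intro k
        rw [map_smul, ← h2, smul_eq_mul, mul_comm, ← Algebra.smul_def, TensorProduct.smul_tmul]
      rw [Finset.sum_congr rfl (fun k _ => e k), ← TensorProduct.tmul_sum, ← h3]
    | add x y hx hy =>
      rw [map_add]
      simp only [map_add, TensorProduct.add_tmul, Finset.sum_add_distrib]
      rw [← hx, ← hy]
  refine IsBaseChange.of_equiv (LinearEquiv.ofBijective (f.liftBaseChange T) ⟨?_, ?_⟩) ?_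
  · intro t t' h
    rw [key t, key t', h]
  · intro x
    refine ⟨∑ k, φ k x ⊗ₜ[S] m k, ?_⟩
    rw [map_sum]
    simp only [LinearMap.liftBaseChange_tmul]
    exact (h1 x).symm
  · intro x
    change f.liftBaseChange T (1 ⊗ₜ x) = f x
    rw [LinearMap.liftBaseChange_tmul, one_smul]

end BC

section Fr

variable {K : Type} [Field K] {F : Type} [Field F] [Algebra K F]

/-- the inverse of a fractional ideal -/
def invI (A : Subalgebra K F) (I : Submodule A F) : Submodule A F where
  carrier := {x | ∀ y ∈ I, x * y ∈ A}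
  zero_mem' := fun y _ => by rw [zero_mul]; exact zero_mem _
  add_mem' {a b} ha hb := fun y hy => by rw [add_mul]; exact add_mem (ha y hy) (hb y hy)
  smul_mem' r a ha := fun y hy => by
    rw [Subalgebra.smul_def, smul_eq_mul, mul_assoc]
    exact mul_mem r.2 (ha y hy)

theorem mem_invI {A : Subalgebra K F} {I : Submodule A F} {x : F} :
    x ∈ invI A I ↔ ∀ y ∈ I, x * y ∈ A := Iff.rfl

variable (A : Subalgebra K F) (I : Submodule A F)

/-- the product map -/
noncomputable def mulL : (I ⊗[A] invI A I) →ₗ[A] A :=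
  TensorProduct.lift (LinearMap.mk₂ A (fun (x : I) (y : invI A I) => (⟨y.1 * x.1, y.2 x.1 x.2⟩ : A))
    (fun x x' y => Subtype.ext (mul_add _ _ _))
    (fun r x y => Subtype.ext (by
      change y.1 * (r.1 * x.1) = r.1 * (y.1 * x.1)
      ring))
    (fun x y y' => Subtype.ext (add_mul _ _ _))
    (fun r x y => Subtype.ext (by
      change (r.1 * y.1) * x.1 = r.1 * (y.1 * x.1)
      ring)))

theorem mulL_tmul (x : I) (y : invI A I) : (mulL A I (x ⊗ₜ y)).1 = y.1 * x.1 := rfl

theorem mulL_bij (n : ℕ) (v w : Fin n → F) (hv : ∀ k, v k ∈ I) (hw : ∀ k, ∀ x ∈ I, w k * x ∈ A)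
    (h : ∑ k, v k * w k = 1) : Function.Bijective (mulL A I) := by
  let v' : Fin n → I := fun k => ⟨v k, hv k⟩
  let w' : Fin n → invI A I := fun k => ⟨w k, hw k⟩
  have key : ∀ t : I ⊗[A] invI A I, t = mulL A I t • ∑ k, v' k ⊗ₜ[A] w' k := by
    intro t
    induction t using TensorProduct.induction_on with
    | zero => simp
    | tmul x y =>
      have e1 : y = ∑ k, (⟨y.1 * v k, y.2 _ (hv k)⟩ : A) • w' k := by
        apply Subtype.ext
        rw [Submodule.coe_sum]
        change y.1 = ∑ k, (y.1 * v k) * w k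
        simp only [mul_assoc]
        rw [← Finset.mul_sum, h, mul_one]
      have e2 : ∀ k, x ⊗ₜ[A] ((⟨y.1 * v k, y.2 _ (hv k)⟩ : A) • w' k) =
          mulL A I (x ⊗ₜ y) • (v' k ⊗ₜ[A] w' k) := by
        intro k
        rw [← TensorProduct.smul_tmul, TensorProduct.smul_tmul']
        congr 1
        apply Subtype.ext
        change (y.1 * v k) * x.1 = (y.1 * x.1) * v k
        ring
      rw [Finset.smul_sum, ← Finset.sum_congr rfl (fun k _ => e2 k), ← TensorProduct.tmul_sum,
        ← e1]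
    | add x y hx hy =>
      rw [map_add, add_smul, ← hx, ← hy]
  constructor
  · intro t t' ht
    rw [key t, key t', ht]
  · intro a
    refine ⟨a • ∑ k, v' k ⊗ₜ[A] w' k, ?_⟩
    rw [map_smul, map_sum]
    apply Subtype.ext
    change a.1 * (∑ k, mulL A I (v' k ⊗ₜ[A] w' k) : A).1 = a.1
    rw [AddSubmonoidClass.coe_finsetSum]
    have : ∀ k, (mulL A I (v' k ⊗ₜ[A] w' k)).1 = v k * w k := fun k => mul_comm _ _
    rw [Finset.sum_congr rfl (fun k _ => this k), h, mul_one]

end Fr

section Diag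

variable {K : Type} [Field K] {C : Type} [Preorder C] {F : Type} [Field F] [Algebra K F]
  {A : C → Subalgebra K F} (hA : ∀ {U V : C}, V ≤ U → A U ≤ A V) (I : FracD A)

include hA in
theorem inv_mono {U V : C} (h : V ≤ U) (x : F) (hx : x ∈ invI (A U) (I.I U)) :
    x ∈ invI (A V) (I.I V) := by
  intro y hy
  have h1 := I.span h y hy
  clear hy
  induction h1 using Submodule.span_induction with
  | mem z hz => exact hA h (hx z hz)
  | zero => rw [mul_zero]; exact zero_mem _
  | add z z' _ _ h1 h2 =>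
    rw [mul_add]
    exact add_mem h1 h2
  | smul r z _ h1 =>
    rw [Subalgebra.smul_def, smul_eq_mul, mul_left_comm]
    exact mul_mem r.2 h1

/-- the inverse diagram -/
noncomputable def invD : FracD A where
  I U := invI (A U) (I.I U)
  mono h x hx := inv_mono hA I h x hx
  span {U V} h x hx := by
    obtain ⟨n, v, w, hv, hw, e⟩ := I.inv U
    have e1 : x = ∑ k, (⟨x * v k, hx _ (I.mono h _ (hv k))⟩ : A V) • w k := by
      simp only [Subalgebra.smul_def, smul_eq_mul, mul_assoc]
      rw [← Finset.mul_sum, e, mul_one]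
    rw [e1]
    exact Submodule.sum_mem _ fun k _ => Submodule.smul_mem _ _ (Submodule.subset_span (hw k))
  inv U := by
    obtain ⟨n, v, w, hv, hw, e⟩ := I.inv U
    refine ⟨n, w, v, fun k => hw k, fun k x hx => ?_, ?_⟩
    · rw [mul_comm]
      exact hx _ (hv k)
    · rw [← e]
      exact Finset.sum_congr rfl fun k _ => mul_comm _ _

/-- the multiplication on a chart -/
noncomputable def mulE (X : Cᵒᵖ) :
    ((I.I X.unop) ⊗[A X.unop] ((invD hA I).I X.unop)) ≃ₗ[A X.unop] A X.unop :=
  LinearEquiv.ofBijective (mulL (A X.unop) (I.I X.unop)) (by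
    obtain ⟨n, v, w, hv, hw, e⟩ := I.inv X.unop
    exact mulL_bij (A X.unop) (I.I X.unop) n v w hv hw e)

theorem mulE_tmul (X : Cᵒᵖ) (x : I.I X.unop) (y : (invD hA I).I X.unop) :
    (mulE hA I X (x ⊗ₜ y)).1 = y.1 * x.1 := rfl

theorem mulE_nat {X Y : Cᵒᵖ} (f : X ⟶ Y)
    (x : (I.I X.unop) ⊗[A X.unop] ((invD hA I).I X.unop)) :
    mulE hA I Y (rs (I.mod hA ⊗ (invD hA I).mod hA) f x) =
      rs (𝟙_ (PMod (subAlg A hA))) f (mulE hA I X x) := by
  induction x using TensorProduct.induction_on with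
  | zero =>
    have h1 := rs_zero (I.mod hA ⊗ (invD hA I).mod hA) f
    have h2 := rs_zero (𝟙_ (PMod (subAlg A hA))) f
    refine (congrArg (mulE hA I Y) h1).trans ?_
    refine (map_zero (mulE hA I Y)).trans ?_
    refine Eq.trans h2.symm (congrArg (rs (𝟙_ (PMod (subAlg A hA))) f) ?_)
    exact (map_zero (mulE hA I X)).symm
  | tmul x y => exact Subtype.ext rfl
  | add x y hx hy =>
    have h1 := rs_add (I.mod hA ⊗ (invD hA I).mod hA) f x y
    have h2 := rs_add (𝟙_ (PMod (subAlg A hA))) f (mulE hA I X x) (mulE hA I X y)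
    refine (congrArg (mulE hA I Y) h1).trans ?_
    refine (map_add (mulE hA I Y) _ _).trans ?_
    refine Eq.trans (congrArg₂ (fun a b => a + b) hx hy) ?_
    refine Eq.trans h2.symm (congrArg (rs (𝟙_ (PMod (subAlg A hA))) f) ?_)
    exact (map_add (mulE hA I X) x y).symm

/-- the isomorphism -/
noncomputable def theIso :
    I.mod hA ⊗ (invD hA I).mod hA ≅ 𝟙_ (PMod (subAlg A hA)) :=
  mkIso (M := I.mod hA ⊗ (invD hA I).mod hA) (N := 𝟙_ (PMod (subAlg A hA)))
    (fun X => mulE hA I X) (fun f x => mulE_nat hA I f x)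

/-- `x ↦ x w` -/
def mulW (B : Subalgebra K F) (J : Submodule B F) (w : F) (hw : w ∈ invI B J) : J →ₗ[B] B where
  toFun x := ⟨w * x.1, hw x.1 x.2⟩
  map_add' x y := Subtype.ext (mul_add _ _ _)
  map_smul' r x := Subtype.ext (by
    change w * (r.1 * x.1) = r.1 * (w * x.1)
    ring)

theorem fin_mod (B : Subalgebra K F) (J : Submodule B F) (n : ℕ) (v w : Fin n → F)
    (hv : ∀ k, v k ∈ J) (hw : ∀ k, ∀ x ∈ J, w k * x ∈ B) (e : ∑ k, v k * w k = 1) :
    Module.Finite B J := by
  refine Module.Finite.of_surjective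
    (Fintype.linearCombination B (fun k => (⟨v k, hv k⟩ : J))) ?_
  intro x
  refine ⟨fun k => ⟨w k * x.1, hw k x.1 x.2⟩, ?_⟩
  rw [Fintype.linearCombination_apply]
  apply Subtype.ext
  rw [Submodule.coe_sum]
  change ∑ k, (w k * x.1) * v k = x.1
  have : ∀ k, (w k * x.1) * v k = (v k * w k) * x.1 := fun k => by ring
  rw [Finset.sum_congr rfl (fun k _ => this k), ← Finset.sum_mul, e, one_mul]

theorem cart_sub (A₁ B : Subalgebra K F) (h : A₁ ≤ B) (I₁ : Submodule A₁ F) (J : Submodule B F)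
    (hIJ : ∀ x ∈ I₁, x ∈ J) (n : ℕ) (v w : Fin n → F)
    (hv : ∀ k, v k ∈ I₁) (hw : ∀ k, ∀ x ∈ I₁, w k * x ∈ A₁) (hw' : ∀ k, w k ∈ invI B J)
    (e : ∑ k, v k * w k = 1) :
    letI : Algebra A₁ B := (Subalgebra.inclusion h).toRingHom.toAlgebra
    letI : Module A₁ J := Module.compHom J (Subalgebra.inclusion h).toRingHom
    haveI : IsScalarTower A₁ B J := ⟨fun a b c => by rw [Algebra.smul_def, mul_smul]; rfl⟩
    IsBaseChange B ({ toFun := fun x => ⟨x.1, hIJ _ x.2⟩
                      map_add' := fun _ _ => rfl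
                      map_smul' := fun _ _ => rfl } : I₁ →ₗ[A₁] J) := by
  letI : Algebra A₁ B := (Subalgebra.inclusion h).toRingHom.toAlgebra
  letI : Module A₁ J := Module.compHom J (Subalgebra.inclusion h).toRingHom
  haveI : IsScalarTower A₁ B J := ⟨fun a b c => by rw [Algebra.smul_def, mul_smul]; rfl⟩
  refine isBaseChange_of_dual (S := A₁) (T := B) (M := I₁) (N := J) _ n (fun k => ⟨v k, hv k⟩)
      (fun k => mulW B J (w k) (hw' k)) (fun k x => ⟨w k * x.1, hw k x.1 x.2⟩) ?_ ?_ ?_
  · intro x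
    apply Subtype.ext
    rw [Submodule.coe_sum]
    change x.1 = ∑ k, (w k * x.1) * v k
    have : ∀ k, (w k * x.1) * v k = (v k * w k) * x.1 := fun k => by ring
    rw [Finset.sum_congr rfl (fun k _ => this k), ← Finset.sum_mul, e, one_mul]
  · intro k x
    rfl
  · intro x
    apply Subtype.ext
    rw [Submodule.coe_sum]
    change x.1 = ∑ k, (w k * x.1) * v k
    have : ∀ k, (w k * x.1) * v k = (v k * w k) * x.1 := fun k => by ring
    rw [Finset.sum_congr rfl (fun k _ => this k), ← Finset.sum_mul, e, one_mul]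

theorem coh : IsCoh (subAlg A hA) (I.mod hA) := by
  constructor
  · intro X
    obtain ⟨n, v, w, hv, hw, e⟩ := I.inv X.unop
    exact fin_mod (A X.unop) (I.I X.unop) n v w hv hw e
  · intro X Y f
    obtain ⟨n, v, w, hv, hw, e⟩ := I.inv X.unop
    have hYX : Y.unop ≤ X.unop := leOfHom f.unop
    exact cart_sub (A X.unop) (A Y.unop) (hA hYX) (I.I X.unop) (I.I Y.unop) (I.mono hYX) n v w hv hw
      (fun k => inv_mono hA I hYX _ (hw k)) e

end Diag

end TWA_

open TWA_ in
/-- TWA: an invertible diagram of fractional ideals has an inverse diagram -/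
theorem twa_proof : Stmt_TWA := by
  intro K _ C _ F _ _ A hA I
  exact ⟨invD hA I, ⟨theIso hA I⟩, coh hA I⟩

end Pool.CRD.G
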