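import Pool.Agent.CRD.G.StmtsB

/-!
# CRD, area G: tensor products of coherent modules are coherent
-/

set_option autoImplicit false

open CategoryTheory Opposite Limits TensorProduct MonoidalCategory

namespace Pool.CRD.G

namespace TWB_

section
variable {A B : Type} [CommRing A] [CommRing B] [Algebra A B]
  {M N M' N' P' : Type} [AddCommGroup M] [Module A M] [AddCommGroup N] [Module A N]
  [AddCommGroup M'] [Module A M'] [Module B M'] [IsScalarTower A B M']
  [AddCommGroup N'] [Module A N'] [Module B N'] [IsScalarTower A B N']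
  [AddCommGroup P'] [Module A P'] [Module B P'] [IsScalarTower A B P']

theorem bc_tensor (i : M →ₗ[A] M') (hi : IsBaseChange B i) (j : N →ₗ[A] N')
    (hj : IsBaseChange B j) (e : M' ⊗[B] N' ≃ₗ[B] P') (f : M ⊗[A] N →ₗ[A] P')
    (hf : ∀ m n, f (m ⊗ₜ n) = e (i m ⊗ₜ j n)) : IsBaseChange B f := by
  refine IsBaseChange.of_equiv ((AlgebraTensorModule.distribBaseChange A B M N) ≪≫ₗ
    TensorProduct.congr hi.equiv hj.equiv ≪≫ₗ e) ?_
  intro x
  induction x using TensorProduct.induction_on with
  | zero => rw [TensorProduct.tmul_zero, map_zero, map_zero]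
  | tmul m n =>
    rw [LinearEquiv.trans_apply, LinearEquiv.trans_apply,
      AlgebraTensorModule.distribBaseChange_tmul, TensorProduct.congr_tmul, hi.equiv_tmul,
      hj.equiv_tmul, one_smul, one_smul, hf]
  | add x y hx hy => rw [TensorProduct.tmul_add, map_add, map_add, hx, hy]

end

end TWB_

open TWB_ in
theorem twb_proof : Stmt_TWB := by
  intro K _ C _ R M N hM hN
  refine ⟨fun X => ?_, fun {X Y} f => ?_⟩
  · letI : Module (R.obj X) (M.obj X) := inferInstanceAs (Module (R.toRing.obj X) (M.obj X))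
    letI : Module (R.obj X) (N.obj X) := inferInstanceAs (Module (R.toRing.obj X) (N.obj X))
    have h1 : Module.Finite (R.obj X) (M.obj X) := hM.1 X
    have h2 : Module.Finite (R.obj X) (N.obj X) := hN.1 X
    have h3 : Module.Finite (R.obj X) (TensorProduct (R.obj X) (M.obj X) (N.obj X)) :=
      inferInstance
    exact h3
  · have h1 := hM.2 f
    have h2 := hN.2 f
    unfold IsCart at h1 h2 ⊢
    letI : Algebra (R.obj X) (R.obj Y) := (R.map f).hom.toRingHom.toAlgebra
    letI a1 : Module (R.obj X) (M.obj X) := inferInstanceAs (Module (R.toRing.obj X) (M.obj X))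
    letI a2 : Module (R.obj Y) (M.obj Y) := inferInstanceAs (Module (R.toRing.obj Y) (M.obj Y))
    letI a3 : Module (R.obj X) (M.obj Y) := Module.compHom (M.obj Y) (R.map f).hom.toRingHom
    letI b1 : Module (R.obj X) (N.obj X) := inferInstanceAs (Module (R.toRing.obj X) (N.obj X))
    letI b2 : Module (R.obj Y) (N.obj Y) := inferInstanceAs (Module (R.toRing.obj Y) (N.obj Y))
    letI b3 : Module (R.obj X) (N.obj Y) := Module.compHom (N.obj Y) (R.map f).hom.toRingHom
    haveI a4 : IsScalarTower (R.obj X) (R.obj Y) (M.obj Y) :=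
      ⟨fun a b c => by rw [Algebra.smul_def, mul_smul]; rfl⟩
    haveI b4 : IsScalarTower (R.obj X) (R.obj Y) (N.obj Y) :=
      ⟨fun a b c => by rw [Algebra.smul_def, mul_smul]; rfl⟩
    letI c2 : Module (R.obj Y) ((M ⊗ N).obj Y) :=
      inferInstanceAs (Module (R.toRing.obj Y) ((M ⊗ N).obj Y))
    letI c3 : Module (R.obj X) ((M ⊗ N).obj Y) :=
      Module.compHom ((M ⊗ N).obj Y) (R.map f).hom.toRingHom
    haveI c4 : IsScalarTower (R.obj X) (R.obj Y) ((M ⊗ N).obj Y) :=
      ⟨fun a b c => by rw [Algebra.smul_def, mul_smul]; rfl⟩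
    exact @bc_tensor (R.obj X) (R.obj Y) _ _ _ (M.obj X) (N.obj X) (M.obj Y) (N.obj Y)
      ((M ⊗ N).obj Y) _ a1 _ b1 _ a3 a2 a4 _ b3 b2 b4 _ c3 c2 c4 _ h1 _ h2
      (LinearEquiv.refl (R.obj Y) (M.obj Y ⊗[R.obj Y] N.obj Y)) _ (fun m n => rfl)

end Pool.CRD.G
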