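import Pool.Agent.CRD.G.StmtsB

/-!
# CRD, area G, module TWC: tensoring with an invertible object
-/

set_option autoImplicit false

open CategoryTheory Opposite Limits MonoidalCategory

namespace Pool.CRD.G

namespace TWC_

variable {K : Type} [Field K] {C : Type} [SmallCategory C] {R : PAlg K C}

noncomputable instance pmSym (R : PAlg K C) : SymmetricCategory (PMod R) :=
  PresheafOfModules.symmetricCategory (R := R ⋙ forget₂ (CommAlgCat.{0} K) CommRingCat.{0})

/-- the unit isomorphism -/
noncomputable def nt (L L' : PMod R) (e : L ⊗ L' ≅ 𝟙_ (PMod R)) :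
    tensorRight L ⋙ tensorRight L' ≅ 𝟭 (PMod R) :=
  (tensorRightTensor L L').symm ≪≫ (tensoringRight (PMod R)).mapIso e ≪≫
    rightUnitorNatIso (PMod R)

lemma isEquiv (L L' : PMod R) (e : L ⊗ L' ≅ 𝟙_ (PMod R)) : (tensorRight L).IsEquivalence := by
  have e' : L' ⊗ L ≅ 𝟙_ (PMod R) := β_ L' L ≪≫ e
  exact (CategoryTheory.Equivalence.mk (tensorRight L) (tensorRight L') (nt L L' e).symm
    (nt L' L e')).isEquivalence_functor

/-- the elementary tensor -/
noncomputable def tm (M L : PMod R) (X : Cᵒᵖ) (m : M.obj X) (l : L.obj X) : (M ⊗ L).obj X :=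
  letI : Module (R.obj X) (M.obj X) := inferInstanceAs (Module (R.toRing.obj X) (M.obj X))
  letI : Module (R.obj X) (L.obj X) := inferInstanceAs (Module (R.toRing.obj X) (L.obj X))
  (TensorProduct.tmul (R.obj X) m l : TensorProduct (R.obj X) (M.obj X) (L.obj X))

lemma tm_induction (M L : PMod R) (X : Cᵒᵖ) {P : (M ⊗ L).obj X → Prop} (h0 : P 0)
    (ht : ∀ m l, P (tm M L X m l)) (ha : ∀ x y, P x → P y → P (x + y)) (x : (M ⊗ L).obj X) :
    P x :=
  letI : Module (R.obj X) (M.obj X) := inferInstanceAs (Module (R.toRing.obj X) (M.obj X))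
  letI : Module (R.obj X) (L.obj X) := inferInstanceAs (Module (R.toRing.obj X) (L.obj X))
  TensorProduct.induction_on (R := R.obj X) (M := M.obj X) (N := L.obj X) (motive := P) x h0 ht ha

lemma app_tm {M N : PMod R} (L : PMod R) (h : M ⟶ N) (X : Cᵒᵖ) (m : M.obj X) (l : L.obj X) :
    ((tensorRight L).map h).app X (tm M L X m l) = tm N L X (h.app X m) l := rfl

lemma tm_add (M L : PMod R) (X : Cᵒᵖ) (m m' : M.obj X) (l : L.obj X) :
    tm M L X (m + m') l = tm M L X m l + tm M L X m' l :=
  letI : Module (R.obj X) (M.obj X) := inferInstanceAs (Module (R.toRing.obj X) (M.obj X))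
  letI : Module (R.obj X) (L.obj X) := inferInstanceAs (Module (R.toRing.obj X) (L.obj X))
  TensorProduct.add_tmul (R := R.obj X) m m' l

lemma tm_smul (M L : PMod R) (X : Cᵒᵖ) (r : R.toRing.obj X) (m : M.obj X) (l : L.obj X) :
    tm M L X (r • m) l = r • tm M L X m l := rfl

end TWC_

open TWC_

theorem twc_proof : Stmt_TWC := by
  intro K _ C _ R L L' ⟨e⟩
  refine ⟨isEquiv L L' e, ⟨?_⟩, ?_⟩
  · intro M N f g
    apply pmod_ext
    intro X x
    change ((tensorRight L).map (f + g)).app X x =
      ((tensorRight L).map f).app X x + ((tensorRight L).map g).app X x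
    refine tm_induction M L X (P := fun x => ((tensorRight L).map (f + g)).app X x =
      ((tensorRight L).map f).app X x + ((tensorRight L).map g).app X x) ?_ ?_ ?_ x
    · simp only [map_zero, add_zero]
    · intro m l
      rw [app_tm, app_tm, app_tm, ← tm_add]
      rfl
    · intro a b ha hb
      simp only [map_add, ha, hb]
      abel
  · intro M N f k
    apply pmod_ext
    intro X x
    change ((tensorRight L).map (k • f)).app X x = cst R X k • ((tensorRight L).map f).app X x
    refine tm_induction M L X (P := fun x => ((tensorRight L).map (k • f)).app X x =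
      cst R X k • ((tensorRight L).map f).app X x) ?_ ?_ ?_ x
    · simp only [map_zero, smul_zero]
    · intro m l
      rw [app_tm, app_tm]
      rfl
    · intro a b ha hb
      simp only [map_add, ha, hb, smul_add]

end Pool.CRD.G
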