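import Pool.Agent.CRD.G.StmtsD

open CategoryTheory Opposite Limits TensorProduct MonoidalCategory Pretriangulated

namespace Pool.CRD.G

namespace UAC_

lemma rs_pf {C C' : Type} [SmallCategory C] [SmallCategory C'] {K : Type} [Field K]
    {R : PAlg K C} {R' : PAlg K C'}
    (F : C ⥤ C') (φ : R ⟶ F.op ⋙ R') (M : PMod R') {X Y : Cᵒᵖ} (f : X ⟶ Y)
    (x : M.obj (F.op.obj X)) :
    rs ((pf F φ).obj M) f (x : ((pf F φ).obj M).obj X) = rs M (F.op.map f) x := rfl

variable {K : Type} [Field K] {c₁ c₂ : CurveData K} {S : SurfData c₁ c₂} (X : ConicData S)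
  (N : PMod S.R) (s : Ch2)

variable {N s} in
/-- an element of `N(s)` in the pull back -/
def pn (k : Cov Bool) (n : Ss N s) : ((pbp S).obj N).obj (op (c3 s k)) := n

variable {N s} in
lemma rs_pn {k k' : Cov Bool} (h : k' ≤ k) (n : Ss N s) :
    rs ((pbp S).obj N) (homOfLE (c3_mono (le_refl s) h)).op (pn k n) = pn k' n :=
  rs_id N (op s) n

/-- the base change on the chart `(s,k)` -/
def B (k : Cov Bool) : Type := BcM (phX X) ((pbp S).obj N) (op (c3 s k))

noncomputable instance (k : Cov Bool) : AddCommGroup (B X N s k) :=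
  inferInstanceAs (AddCommGroup (BcM (phX X) ((pbp S).obj N) (op (c3 s k))))

variable {N s}

/-- elementary tensors -/
noncomputable def tn (k : Cov Bool) (a : X.A s.i s.j k) (n : Ss N s) : B X N s k :=
  bct (phX X) ((pbp S).obj N) (op (c3 s k)) a n

lemma tn_add_left (k : Cov Bool) (a b : X.A s.i s.j k) (n : Ss N s) :
    tn X k (a + b) n = tn X k a n + tn X k b n :=
  bct_add_left (phX X) ((pbp S).obj N) (op (c3 s k)) a b n

lemma tn_add_right (k : Cov Bool) (a : X.A s.i s.j k) (m n : Ss N s) :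
    tn X k a (m + n) = tn X k a m + tn X k a n :=
  bct_add_right (phX X) ((pbp S).obj N) (op (c3 s k)) a m n

lemma tn_bal (k : Cov Bool) (a : X.A s.i s.j k) (c : S.A s.i s.j) (n : Ss N s) :
    tn X k (inc X s k c * a) n = tn X k a (c • n) :=
  bct_bal (phX X) ((pbp S).obj N) (op (c3 s k)) a c n

lemma tn_induction (k : Cov Bool) {P : B X N s k → Prop} (h0 : P 0)
    (ht : ∀ a n, P (tn X k a n)) (ha : ∀ x y, P x → P y → P (x + y)) (x : B X N s k) : P x :=
  bct_induction (phX X) ((pbp S).obj N) (op (c3 s k)) (P := P) h0 ht ha x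

/-- additive maps out of the base change -/
noncomputable def lft (k : Cov Bool) {P : Type} [AddCommGroup P]
    (g : X.A s.i s.j k → Ss N s → P) (h1 : ∀ r s m, g (r + s) m = g r m + g s m)
    (h2 : ∀ r m n, g r (m + n) = g r m + g r n)
    (h3 : ∀ (c : S.A s.i s.j) r m, g (inc X s k c * r) m = g r (c • m)) :
    B X N s k →+ P :=
  bcLift (phX X) ((pbp S).obj N) (op (c3 s k)) (fun a n => g a n) h1 h2 h3

lemma lft_tn (k : Cov Bool) {P : Type} [AddCommGroup P]
    (g : X.A s.i s.j k → Ss N s → P) (h1 : ∀ r s m, g (r + s) m = g r m + g s m)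
    (h2 : ∀ r m n, g r (m + n) = g r m + g r n)
    (h3 : ∀ (c : S.A s.i s.j) r m, g (inc X s k c * r) m = g r (c • m)) (a : X.A s.i s.j k)
    (n : Ss N s) : lft X k g h1 h2 h3 (tn X k a n) = g a n := rfl

/-- restriction -/
noncomputable def rB {k k' : Cov Bool} (h : k' ≤ k) : B X N s k →+ B X N s k' :=
  bcRs (phX X) ((pbp S).obj N) (homOfLE (c3_mono (le_refl s) h)).op

lemma rB_tn {k k' : Cov Bool} (h : k' ≤ k) (a : X.A s.i s.j k) (n : Ss N s) :
    rB X h (tn X k a n) = tn X k' ⟨a.1, X.A_mono (le_refl _) (le_refl _) h a.2⟩ n := by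
  have h2 : rB X h (tn X k a n) = bct (phX X) ((pbp S).obj N) (op (c3 s k'))
    (⟨a.1, X.A_mono (le_refl _) (le_refl _) h a.2⟩ : X.A s.i s.j k')
    (rs ((pbp S).obj N) (homOfLE (c3_mono (le_refl s) h)).op (pn k n)) := rfl
  rw [h2, rs_pn h n]
  rfl

lemma tn_zero_left (k : Cov Bool) (n : Ss N s) : tn X k 0 n = 0 := by
  have h := tn_add_left X k 0 0 n
  rw [add_zero] at h
  exact left_eq_add.1 h

lemma tn_sub_left (k : Cov Bool) (a b : X.A s.i s.j k) (n : Ss N s) :
    tn X k (a - b) n = tn X k a n - tn X k b n := by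
  rw [eq_sub_iff_add_eq, ← tn_add_left, sub_add_cancel]

lemma tn_one_smul (k : Cov Bool) (c : S.A s.i s.j) (n : Ss N s) :
    tn X k 1 (c • n) = tn X k (inc X s k c) n := by
  rw [← tn_bal, mul_one]

/-- the retraction -/
noncomputable def rN (k : Cov Bool) (r : X.A s.i s.j k →ₗ[S.A s.i s.j] S.A s.i s.j) :
    B X N s k →+ Ss N s :=
  lft X k (fun a n => r a • n) (fun a b n => by rw [map_add, add_smul])
    (fun a m n => smul_add _ _ _)
    (fun c a n => by
      have h : inc X s k c * a = c • a := rfl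
      rw [h, map_smul, smul_assoc, smul_comm])

lemma rN_tn (k : Cov Bool) (r : X.A s.i s.j k →ₗ[S.A s.i s.j] S.A s.i s.j)
    (a : X.A s.i s.j k) (n : Ss N s) : rN X k r (tn X k a n) = r a • n := rfl

/-- `σ` on the base change -/
noncomputable def sN {k k' : Cov Bool} (g : X.A s.i s.j k →ₗ[S.A s.i s.j] X.A s.i s.j k') :
    B X N s k →+ B X N s k' :=
  lft X k (fun a n => tn X k' (g a) n) (fun a b n => by rw [map_add, tn_add_left])
    (fun a m n => tn_add_right X k' _ _ _)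
    (fun c a n => by
      have h : inc X s k c * a = c • a := rfl
      have h' : inc X s k' c * g a = c • g a := rfl
      rw [h, map_smul, ← h', tn_bal])

lemma sN_tn {k k' : Cov Bool} (g : X.A s.i s.j k →ₗ[S.A s.i s.j] X.A s.i s.j k')
    (a : X.A s.i s.j k) (n : Ss N s) : sN X g (tn X k a n) = tn X k' (g a) n := rfl

section
variable (ρ : (X.A s.i s.j ca × X.A s.i s.j cb) →ₗ[S.A s.i s.j] S.A s.i s.j)
  (σ : X.A s.i s.j cab →ₗ[S.A s.i s.j] (X.A s.i s.j ca × X.A s.i s.j cb))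
  (h2 : ∀ b : X.A s.i s.j cab,
        (((σ b).1 : X.A s.i s.j ca) : X.E) - ((σ b).2 : X.A s.i s.j cb) = (b : X.E))
  (h3 : ∀ (x : X.A s.i s.j ca × X.A s.i s.j cb) (b : X.A s.i s.j cab), (b : X.E) = ((x.1 : X.A s.i s.j ca) : X.E) - (x.2 : X.A s.i s.j cb) →
        inc X s ca (ρ x) + (σ b).1 = x.1 ∧ inc X s cb (ρ x) + (σ b).2 = x.2)

/-- `ρ` on the base change -/
noncomputable def rh : B X N s ca × B X N s cb →+ Ss N s :=
  AddMonoidHom.coprod (rN X ca (ρ ∘ₗ LinearMap.inl _ _ _)) (rN X cb (ρ ∘ₗ LinearMap.inr _ _ _))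

/-- the first component of `σ` -/
noncomputable def s1 : B X N s cab →+ B X N s ca := sN X (LinearMap.fst _ _ _ ∘ₗ σ)

/-- the second component of `σ` -/
noncomputable def s2 : B X N s cab →+ B X N s cb := sN X (LinearMap.snd _ _ _ ∘ₗ σ)

/-- the difference of the restrictions -/
noncomputable def dl : B X N s ca × B X N s cb →+ B X N s cab :=
  AddMonoidHom.coprod (rB X (cab_bot ca)) (-(rB X (cab_bot cb)))

lemma dl_apply (x : B X N s ca) (y : B X N s cb) :
    dl X (x, y) = rB X (cab_bot ca) x - rB X (cab_bot cb) y :=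
  (sub_eq_add_neg _ _).symm

include h2 in
lemma I2 (y : B X N s cab) :
    rB X (cab_bot ca) (s1 X σ y) - rB X (cab_bot cb) (s2 X σ y) = y := by
  refine tn_induction X cab (P := fun y => rB X (cab_bot ca) (s1 X σ y) -
    rB X (cab_bot cb) (s2 X σ y) = y) ?_ ?_ ?_ y
  · simp only [map_zero, sub_zero]
  · intro b n
    have e1 : s1 X σ (tn X cab b n) = tn X ca (σ b).1 n := rfl
    have e2 : s2 X σ (tn X cab b n) = tn X cb (σ b).2 n := rfl
    rw [e1, e2, rB_tn, rB_tn, ← tn_sub_left]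
    congr 1
    exact Subtype.ext (h2 b)
  · intro x y hx hy
    rw [map_add, map_add, map_add, map_add, add_sub_add_comm, hx, hy]

/-- the property of the third identity -/
def P3 (x : B X N s ca × B X N s cb) : Prop :=
  tn X ca 1 (rh X ρ x) + s1 X σ (dl X x) = x.1 ∧ tn X cb 1 (rh X ρ x) + s2 X σ (dl X x) = x.2

lemma P3.add {x y : B X N s ca × B X N s cb} (hx : P3 X ρ σ x) (hy : P3 X ρ σ y) :
    P3 X ρ σ (x + y) := by
  unfold P3 at *
  rw [map_add, map_add, map_add, map_add, tn_add_right, tn_add_right, Prod.fst_add, Prod.snd_add]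
  exact ⟨by rw [add_add_add_comm, hx.1, hy.1], by rw [add_add_add_comm, hx.2, hy.2]⟩

lemma rh_fst (a : X.A s.i s.j ca) (n : Ss N s) : rh X ρ (tn X ca a n, 0) = ρ (a, 0) • n := by
  have h : rh X ρ (tn X ca a n, (0 : B X N s cb)) = rN X ca (ρ ∘ₗ LinearMap.inl _ _ _) (tn X ca a n) +
    rN X cb (ρ ∘ₗ LinearMap.inr _ _ _) 0 := rfl
  rw [h, map_zero, add_zero]
  rfl

lemma rh_snd (a : X.A s.i s.j cb) (n : Ss N s) : rh X ρ (0, tn X cb a n) = ρ (0, a) • n := by
  have h : rh X ρ ((0 : B X N s ca), tn X cb a n) = rN X ca (ρ ∘ₗ LinearMap.inl _ _ _) 0 +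
    rN X cb (ρ ∘ₗ LinearMap.inr _ _ _) (tn X cb a n) := rfl
  rw [h, map_zero, zero_add]
  rfl

include h3 in
lemma P3_fst (x : B X N s ca) : P3 X ρ σ (x, 0) := by
  refine tn_induction X ca (P := fun x => P3 X ρ σ (x, 0)) ?_ ?_ ?_ x
  · have h0 : ((0 : B X N s ca), (0 : B X N s cb)) = 0 := rfl
    unfold P3
    dsimp only
    rw [h0, map_zero, map_zero, map_zero, map_zero]
    have t0 : ∀ k, tn X k 1 (0 : Ss N s) = 0 := by
      intro k
      have h := tn_add_right X k 1 (0 : Ss N s) 0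
      rw [add_zero] at h
      exact left_eq_add.1 h
    rw [t0, t0, add_zero, add_zero]
    exact ⟨rfl, rfl⟩
  · intro a n
    have h := h3 (a, 0) ⟨a.1, X.A_mono (le_refl _) (le_refl _) (cab_bot ca) a.2⟩
      (sub_zero (a : X.E)).symm
    unfold P3
    dsimp only
    rw [dl_apply, map_zero, sub_zero, rB_tn, rh_fst, tn_one_smul, tn_one_smul]
    have e1 : ∀ b, s1 X σ (tn X cab b n) = tn X ca (σ b).1 n := fun _ => rfl
    have e2 : ∀ b, s2 X σ (tn X cab b n) = tn X cb (σ b).2 n := fun _ => rfl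
    rw [e1, e2, ← tn_add_left, ← tn_add_left, h.1, h.2]
    exact ⟨rfl, tn_zero_left X cb n⟩
  · intro x y hx hy
    have h := P3.add X ρ σ hx hy
    rw [Prod.mk_add_mk, add_zero] at h
    exact h

include h3 in
lemma P3_snd (x : B X N s cb) : P3 X ρ σ (0, x) := by
  refine tn_induction X cb (P := fun x => P3 X ρ σ (0, x)) ?_ ?_ ?_ x
  · exact P3_fst X ρ σ h3 0
  · intro a n
    have h := h3 (0, a) (-⟨a.1, X.A_mono (le_refl _) (le_refl _) (cab_bot cb) a.2⟩)
      (zero_sub (a : X.E)).symm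
    unfold P3
    dsimp only
    have e0 : - tn X cab (⟨a.1, X.A_mono (le_refl _) (le_refl _) (cab_bot cb) a.2⟩ :
        X.A s.i s.j cab) n = tn X cab (-⟨a.1, X.A_mono (le_refl _) (le_refl _) (cab_bot cb) a.2⟩) n := by
      rw [neg_eq_iff_add_eq_zero, ← tn_add_left, add_neg_cancel, tn_zero_left]
    rw [dl_apply, map_zero, zero_sub, rB_tn, rh_snd, tn_one_smul, tn_one_smul, e0]
    have e1 : ∀ b, s1 X σ (tn X cab b n) = tn X ca (σ b).1 n := fun _ => rfl
    have e2 : ∀ b, s2 X σ (tn X cab b n) = tn X cb (σ b).2 n := fun _ => rfl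
    rw [e1, e2, ← tn_add_left, ← tn_add_left, h.1, h.2]
    exact ⟨tn_zero_left X ca n, rfl⟩
  · intro x y hx hy
    have h := P3.add X ρ σ hx hy
    rw [Prod.mk_add_mk, add_zero] at h
    exact h

include h3 in
lemma I3 (x : B X N s ca × B X N s cb) : P3 X ρ σ x := by
  have h := P3.add X ρ σ (P3_fst X ρ σ h3 x.1) (P3_snd X ρ σ h3 x.2)
  rw [Prod.mk_add_mk, add_zero, zero_add] at h
  exact h

include h3 in
/-- elements with constant difference are constant -/
lemma inj_key (x : B X N s ca × B X N s cb) (n : Ss N s) (h : dl X x = tn X cab 1 n) :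
    ∃ m m' : Ss N s, x.1 = tn X ca 1 m ∧ x.2 = tn X cb 1 m' := by
  have h1 := I3 X ρ σ h3 x
  have h2 := I3 X ρ σ h3 ((tn X ca 1 n, 0) : B X N s ca × B X N s cb)
  have e1 : dl X ((tn X ca 1 n, 0) : B X N s ca × B X N s cb) = tn X cab 1 n := by
    rw [dl_apply, map_zero, sub_zero, rB_tn]
    rfl
  unfold P3 at h1 h2
  rw [e1] at h2
  rw [h] at h1
  have e2 : ∀ (k : Cov Bool) (a b : Ss N s), tn X k 1 a - tn X k 1 b = tn X k 1 (a - b) := by
    intro k a b
    rw [sub_eq_iff_eq_add, ← tn_add_right, sub_add_cancel]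
  refine ⟨rh X ρ x + (n - rh X ρ (tn X ca 1 n, 0)), rh X ρ x - rh X ρ (tn X ca 1 n, 0), ?_, ?_⟩
  · rw [← h1.1, tn_add_right, ← e2]
    congr 1
    exact eq_sub_of_add_eq' h2.1
  · rw [← h1.2, ← e2, sub_eq_add_neg]
    congr 1
    exact eq_neg_of_add_eq_zero_right h2.2

end

section
variable {C : PMod (Rp S)} (q : (rsX X).obj ((bcX X).obj ((pbp S).obj N)) ⟶ C)

/-- a morphism on a chart -/
noncomputable def qA (s : Ch2) (k : Cov Bool) : B X N s k →+ C.obj (op (c3 s k)) :=
  (q.app (op (c3 s k))).hom.toAddMonoidHom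

lemma q_nat {k k' : Cov Bool} (h : k' ≤ k) (x : B X N s k) :
    qA X q s k' (rB X h x) = rs C (homOfLE (c3_mono (le_refl s) h)).op (qA X q s k x) :=
  rs_nat q (homOfLE (c3_mono (le_refl s) h)).op x

lemma q_surj [Epi q] (k : Cov Bool) : Function.Surjective (qA X q s k) :=
  surj_of_epi q (op (c3 s k))

lemma q_ker (w : bcU (phX X) ((pbp S).obj N) ≫ q = 0)
    (hex : (ShortComplex.mk (bcU (phX X) ((pbp S).obj N)) q w).Exact) (k : Cov Bool)
    (x : B X N s k) : qA X q s k x = 0 ↔ ∃ n : Ss N s, tn X k 1 n = x :=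
  exact_app _ hex (op (c3 s k)) x

end

end UAC_


open UAC_ in
theorem uac_proof (hSPL : Stmt_SPL) : Stmt_UAC := by
  intro K _ c₁ c₂ S X N
  constructor
  · rw [pmod_mono_iff]
    intro t
    obtain ⟨r, hr⟩ := (hSPL K c₁ c₂ S X ⟨t.unop.i, t.unop.j⟩).1 t.unop.k
    have key : ∀ m : Ss N ⟨t.unop.i, t.unop.j⟩, rN X t.unop.k r (tn X t.unop.k 1 m) = m := by
      intro m
      rw [rN_tn]
      have h := hr 1
      rw [map_one] at h
      rw [h, one_smul]
    intro m m' h
    have h' : tn X t.unop.k 1 (m : Ss N ⟨t.unop.i, t.unop.j⟩) =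
      tn X t.unop.k 1 (m' : Ss N ⟨t.unop.i, t.unop.j⟩) := h
    have h2 := congrArg (rN X t.unop.k r) h'
    exact (key m).symm.trans (h2.trans (key m'))
  · intro C q w hq hex s
    obtain ⟨-, ρ, σ, -, h2, h3⟩ := hSPL K c₁ c₂ S X s
    have hE := fun k => q_ker X q w hex (s := s) k
    have hS := fun k => q_surj X q (s := s) k
    constructor
    · intro z z' hz
      obtain ⟨x, hx⟩ := hS ca (z.1 - z'.1)
      obtain ⟨y, hy⟩ := hS cb (z.2 - z'.2)
      have h4 : qA X q s cab (dl X (x, y)) = 0 := by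
        rw [dl_apply, map_sub, q_nat, q_nat, hx, hy]
        have h5 : ∀ {k : Cov Bool} (f : op (c3 s k) ⟶ op (c3 s cab)) (a b : C.obj (op (c3 s k))),
            rs C f (a - b) = rs C f a - rs C f b := fun f a b => map_sub (C.map f).hom a b
        rw [h5, h5]
        have h6 : rs C (homOfLE (c3_mono (le_refl s) (cab_bot ca))).op z.1 -
          rs C (homOfLE (c3_mono (le_refl s) (cab_bot cb))).op z.2 =
          rs C (homOfLE (c3_mono (le_refl s) (cab_bot ca))).op z'.1 -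
          rs C (homOfLE (c3_mono (le_refl s) (cab_bot cb))).op z'.2 := hz
        rw [sub_sub_sub_comm, h6, sub_self]
      obtain ⟨n, hn⟩ := (hE cab _).1 h4
      obtain ⟨m, m', e1, e2⟩ := inj_key X ρ σ h3 (x, y) n hn.symm
      have e3 : qA X q s ca x = 0 := (hE ca x).2 ⟨m, e1.symm⟩
      have e4 : qA X q s cb y = 0 := (hE cb y).2 ⟨m', e2.symm⟩
      rw [hx] at e3
      rw [hy] at e4
      exact Prod.ext (sub_eq_zero.1 e3) (sub_eq_zero.1 e4)
    · intro c
      obtain ⟨b, hb⟩ := hS cab c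
      refine ⟨(qA X q s ca (s1 X σ b), qA X q s cb (s2 X σ b)), ?_⟩
      have h5 := I2 X σ h2 b
      have h6 : rs C (homOfLE (c3_mono (le_refl s) (cab_bot ca))).op (qA X q s ca (s1 X σ b)) -
          rs C (homOfLE (c3_mono (le_refl s) (cab_bot cb))).op (qA X q s cb (s2 X σ b)) = c := by
        rw [← q_nat X q (cab_bot ca), ← q_nat X q (cab_bot cb), ← map_sub, h5, hb]
      exact h6

end Pool.CRD.G
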