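import Pool.Agent.CRD.G.StmtsD

/-!
# CRD, area G, module VAN
-/

set_option autoImplicit false

open CategoryTheory Opposite Limits TensorProduct MonoidalCategory Pretriangulated

namespace Pool.CRD.G

/-- VAN: vanishing for acyclic modules -/
theorem van_proof (hVN0 : Stmt_VN0) (hACD : Stmt_ACD) : Stmt_VAN := by
  intro K _ c₁ c₂ S C hC M f
  obtain ⟨C₁, C₂, h₁, h₂, ⟨e⟩⟩ := hACD K c₁ c₂ S C hC
  have a1 := hVN0 K c₁ c₂ S cb (Or.inr rfl) C₁ h₁ M
  have a2 := hVN0 K c₁ c₂ S ca (Or.inl rfl) C₂ h₂ M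
  have h3 : 𝟙 C = (e.hom ≫ biprod.fst) ≫ (biprod.inl ≫ e.inv) +
      (e.hom ≫ biprod.snd) ≫ (biprod.inr ≫ e.inv) := by
    have h4 := congrArg (fun t => e.hom ≫ t ≫ e.inv) (biprod.total (X := C₁) (Y := C₂))
    simp only [Preadditive.add_comp, Preadditive.comp_add, Category.assoc, Category.id_comp,
      Iso.hom_inv_id] at h4
    simp only [Category.assoc]
    exact h4.symm
  have h5 : f = f ≫ (sg (Rp S)).map (𝟙 C) := by
    rw [CategoryTheory.Functor.map_id, Category.comp_id]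
  rw [h5, h3, Functor.map_add, Functor.map_comp, Functor.map_comp (sg (Rp S)) (e.hom ≫ biprod.snd),
    Preadditive.comp_add, ← Category.assoc, ← Category.assoc, a1 (f ≫ _), a2 (f ≫ _), zero_comp,
    zero_comp, add_zero]

end Pool.CRD.G
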