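import Pool.Agent.CRD.G.StmtsD
import Pool.Agent.CRD.A0.FunM

/-!
# CRD, G, VN0: vanishing for halves
-/

set_option autoImplicit false

open CategoryTheory Opposite Limits TensorProduct MonoidalCategory Pretriangulated

namespace Pool.CRD.G

namespace VN0_

section Gen

universe v₁ v₂ u₁ u₂

variable {T : Type u₁} [Category.{v₁} T] {T' : Type u₂} [Category.{v₂} T']

/-- the functor is bijective on morphisms `P ⟶ Z` -/
def Rb (F : T ⥤ T') (P Z : T) : Prop := Function.Bijective (fun f : P ⟶ Z => F.map f)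

lemma Rb_iso (F : T ⥤ T') {P Z Z' : T} (e : Z ≅ Z') (h : Rb F P Z) : Rb F P Z' := by
  constructor
  · intro f g hfg
    have h1 : F.map (f ≫ e.inv) = F.map (g ≫ e.inv) := by
      rw [F.map_comp, F.map_comp]
      exact congrArg (fun t => t ≫ F.map e.inv) hfg
    exact (cancel_mono e.inv).1 (h.1 h1)
  · intro u
    obtain ⟨f, hf⟩ := h.2 (u ≫ F.map e.inv)
    refine ⟨f ≫ e.hom, ?_⟩
    have h1 : F.map f = u ≫ F.map e.inv := hf
    change F.map (f ≫ e.hom) = u
    rw [F.map_comp, h1, Category.assoc, ← F.map_comp, e.inv_hom_id, F.map_id, Category.comp_id]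

lemma Rb_adj {F : T ⥤ T'} {G : T' ⥤ T} (adj : F ⊣ G) (P : T) (Z : T')
    [IsIso (adj.counit.app Z)] : Rb F P (G.obj Z) := by
  constructor
  · intro f g hfg
    apply (adj.homEquiv P Z).symm.injective
    rw [adj.homEquiv_counit, adj.homEquiv_counit]
    exact congrArg (fun t => t ≫ adj.counit.app Z) hfg
  · intro u
    refine ⟨adj.homEquiv P Z (u ≫ adj.counit.app Z), ?_⟩
    have h1 := (adj.homEquiv P Z).symm_apply_apply (u ≫ adj.counit.app Z)
    rw [adj.homEquiv_counit] at h1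
    exact (cancel_mono (adj.counit.app Z)).1 h1

lemma Rb_comp {F : T ⥤ T'} {H : T' ⥤ T} (e : H ⋙ F ≅ 𝟭 T') [H.Full] [H.Faithful] (M Z : T') :
    Rb F (H.obj M) (H.obj Z) := by
  have h1 : (H ⋙ F).Full := Functor.Full.of_iso e.symm
  have h2 : (H ⋙ F).Faithful := Functor.Faithful.of_iso e.symm
  constructor
  · intro f g hfg
    obtain ⟨f', rfl⟩ := H.map_surjective f
    obtain ⟨g', rfl⟩ := H.map_surjective g
    have h3 : (H ⋙ F).map f' = (H ⋙ F).map g' := hfg
    rw [(H ⋙ F).map_injective h3]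
  · intro u
    obtain ⟨f, hf⟩ := (H ⋙ F).map_surjective u
    exact ⟨H.map f, hf⟩

lemma Rb_post (F : T ⥤ T') {P Z Z' : T} (u : Z ⟶ Z') [IsIso (F.map u)] (h : Rb F P Z)
    (h' : Rb F P Z') : Function.Bijective (fun f : P ⟶ Z => f ≫ u) := by
  constructor
  · intro f g hfg
    have h1 : f ≫ u = g ≫ u := hfg
    apply h.1
    have h2 := congrArg F.map h1
    rw [F.map_comp, F.map_comp] at h2
    exact (cancel_mono (F.map u)).1 h2
  · intro v
    obtain ⟨f, hf⟩ := h.2 (F.map v ≫ inv (F.map u))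
    refine ⟨f, h'.1 ?_⟩
    have h1 : F.map f = F.map v ≫ inv (F.map u) := hf
    change F.map (f ≫ u) = F.map v
    rw [F.map_comp, h1, Category.assoc, IsIso.inv_hom_id, Category.comp_id]

end Gen

section Tri

universe v u

variable {D : Type u} [Category.{v} D] [HasZeroObject D] [HasShift D ℤ] [Preadditive D]
  [∀ n : ℤ, (shiftFunctor D n).Additive] [Pretriangulated D]

lemma tri_zero (T : Triangle D) (hT : T ∈ distTriang D) (P P1 : D) (e1 : P1 ≅ P⟦(1 : ℤ)⟧)
    (hinj : ∀ a b : P ⟶ T.obj₂, a ≫ T.mor₂ = b ≫ T.mor₂ → a = b)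
    (hsurj : ∀ g : P1 ⟶ T.obj₃, ∃ h : P1 ⟶ T.obj₂, h ≫ T.mor₂ = g) (f : P ⟶ T.obj₁) :
    f = 0 := by
  have hf1 : f ≫ T.mor₁ = 0 := by
    apply hinj
    rw [Category.assoc, comp_distTriang_mor_zero₁₂ _ hT, comp_zero, zero_comp]
  have hf2 : f⟦(1 : ℤ)⟧' ≫ T.mor₁⟦(1 : ℤ)⟧' = 0 := by
    rw [← Functor.map_comp, hf1, Functor.map_zero]
  obtain ⟨g, hg⟩ := T.coyoneda_exact₁ hT (f⟦(1 : ℤ)⟧') hf2
  obtain ⟨h, hh⟩ := hsurj (e1.hom ≫ g)
  have hg2 : g ≫ T.mor₃ = 0 := by
    rw [← cancel_epi e1.hom, ← Category.assoc, ← hh, Category.assoc,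
      comp_distTriang_mor_zero₂₃ _ hT, comp_zero, comp_zero]
  apply (shiftFunctor D (1 : ℤ)).map_injective
  rw [Functor.map_zero, hg, hg2]

omit [HasZeroObject D] [∀ n : ℤ, (shiftFunctor D n).Additive] [Pretriangulated D] in
lemma zero_iso {X Y P : D} (i : X ≅ Y) (h : ∀ f : P ⟶ Y, f = 0) (f : P ⟶ X) : f = 0 := by
  rw [← cancel_mono i.hom, h (f ≫ i.hom), zero_comp]

end Tri

section Sing

universe w₁ w₂ v₁ v₂ u₁ u₂

variable {A : Type u₁} [Category.{v₁} A] [Abelian A] [HasDerivedCategory.{w₁} A]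
  {B : Type u₂} [Category.{v₂} B] [Abelian B] [HasDerivedCategory.{w₂} B]

lemma mD_sg_isIso (F : A ⥤ B) [ExF F] {M N : A} (g : M ⟶ N) [IsIso (F.map g)] :
    IsIso ((mD F).map ((DerivedCategory.singleFunctor A 0).map g)) := by
  have h := sI_nat F 0 g
  have h1 : (mD F).map ((DerivedCategory.singleFunctor A 0).map g) =
      (sI F 0 M).hom ≫ (DerivedCategory.singleFunctor B 0).map (F.map g) ≫ (sI F 0 N).inv := by
    rw [← Category.assoc, ← h, Category.assoc, Iso.hom_inv_id, Category.comp_id]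
  rw [h1]
  infer_instance

end Sing

section Main

variable {K : Type} [Field K] {c₁ c₂ : CurveData K} {S : SurfData c₁ c₂}

/-- isomorphisms are the bijective morphisms -/
lemma isIso_of_bij {C : Type} [SmallCategory C] {R : PAlg K C} {M N : PMod R} (f : M ⟶ N)
    (h : ∀ X, Function.Bijective (f.app X)) : IsIso f := by
  have h1 : Mono f := (pmod_mono_iff f).2 fun X => (h X).1
  have h2 : Epi f := (pmod_epi_iff f).2 fun X => (h X).2
  exact isIso_of_mono_of_epi f

/-- the identity of rings, general version -/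
def phG {K : Type} [CommRing K] (R : PAlg K Ch2) (k : Cov Bool) :
    R ⟶ (inC k).op ⋙ ConicData.prC.op ⋙ R where
  app s := 𝟙 (R.obj s)
  naturality _ _ f := (Category.comp_id (R.map f)).trans (Category.id_comp (R.map f)).symm

/-- the restriction of the pull back, general version -/
noncomputable def ekG {K : Type} [CommRing K] (R : PAlg K Ch2) (k : Cov Bool) (N : PMod R) :
    (pf (inC k) (phG R k)).obj ((pb R ConicData.prC).obj N) ⟶ N :=
  mkHom (M := (pf (inC k) (phG R k)).obj ((pb R ConicData.prC).obj N)) (N := N)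
    (fun _ => { toFun := fun x => x
                map_add' := fun _ _ => rfl
                map_smul' := fun _ _ => rfl })
    (fun _ _ => rfl)

/-- the restriction of the pull back, on a module -/
noncomputable def ekN (k : Cov Bool) (N : PMod S.R) : (res S k).obj ((pbp S).obj N) ⟶ N :=
  ekG S.R k N

/-- the restriction of the pull back -/
noncomputable def ek (k : Cov Bool) : pbp S ⋙ res S k ⟶ 𝟭 (PMod S.R) where
  app N := ekN k N
  naturality _ _ _ := rfl

instance (k : Cov Bool) : IsIso (ek (S := S) k) := by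
  have h : ∀ N, IsIso ((ek (S := S) k).app N) := fun N =>
    isIso_of_bij _ (fun X => Function.bijective_id)
  exact NatIso.isIso_of_isIso_app _

/-- on the derived categories -/
noncomputable def ekD (k : Cov Bool) : mD (pbp S) ⋙ mD (res S k) ≅ 𝟭 (DPM S.R) :=
  FunL.compD (pbp S) (res S k) ≪≫ asIso (natD (ek k)) ≪≫ FunL.idD (PMod S.R)

variable {k : Cov Bool}

lemma rb2 (hPRA : Stmt_PRA) {X : PMod (Rp S)} {N : PMod S.R} (e : X ≅ (pbp S).obj N)
    (M : DPM S.R) : Rb (mD (res S k)) ((mD (pbp S)).obj M) ((sg (Rp S)).obj X) := by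
  obtain ⟨adj, hadj⟩ := hPRA K c₁ c₂ S
  have h1 : IsIso (FunL.adjD adj).counit := by
    rw [FunL.adjD_counit]
    infer_instance
  have h2 : (mD (pbp S)).Full := (FunL.adjD adj).fullyFaithfulROfIsIsoCounit.full
  have h3 : (mD (pbp S)).Faithful := (FunL.adjD adj).fullyFaithfulROfIsIsoCounit.faithful
  exact Rb_iso _ (sI (pbp S) 0 N ≪≫ (sg (Rp S)).mapIso e.symm)
    (Rb_comp (ekD k) M ((sg S.R).obj N))

lemma rb3 (hSKY : Stmt_SKY) (hk : k = ca ∨ k = cb) {X : PMod (Rp S)}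
    (hX : ∀ s k', k' ≠ k → Subsingleton (X.obj (op (c3 s k'))))
    (P : DPM (Rp S)) : Rb (mD (res S k)) P ((sg (Rp S)).obj X) := by
  obtain ⟨G, hG, adj, hadj, hQ⟩ := hSKY K c₁ c₂ S k hk
  have h1 : IsIso (FunL.adjD adj).counit := by
    rw [FunL.adjD_counit]
    infer_instance
  have h2 := hQ X hX
  exact Rb_iso _ (sI G 0 ((res S k).obj X) ≪≫ (sg (Rp S)).mapIso (asIso (adj.unit.app X)).symm)
    (Rb_adj (FunL.adjD adj) P ((sg S.R).obj ((res S k).obj X)))

lemma iso23 (Ω : ShortComplex (PMod (Rp S))) (hΩ : Ω.ShortExact)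
    (h : ∀ s, Subsingleton (Ω.X₁.obj (op (c3 s k)))) : IsIso ((res S k).map Ω.g) := by
  have := hΩ.epi_g
  apply isIso_of_bij
  intro s
  have h1 := surj_of_epi Ω.g (op (c3 s.unop k))
  have h2 := exact_app Ω hΩ.exact (op (c3 s.unop k))
  have h3 := h s.unop
  refine ⟨?_, h1⟩
  change Function.Injective (Ω.g.app (op (c3 s.unop k))).hom
  rw [injective_iff_map_eq_zero]
  intro x hx
  obtain ⟨y, rfl⟩ := (h2 x).1 hx
  rw [h3.elim y 0, map_zero]

end Main

end VN0_

open VN0_ in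
theorem vn0_proof (hPRA : Stmt_PRA) (hSKY : Stmt_SKY) : Stmt_VN0 := by
  intro K _ c₁ c₂ S k hk C ⟨Ω, hΩ, ⟨N, ⟨e⟩⟩, h3, h1, ⟨i⟩⟩ M f
  have hres := iso23 Ω hΩ h1
  have hiso : IsIso ((mD (res S k)).map ((sg (Rp S)).map Ω.g)) := mD_sg_isIso (res S k) Ω.g
  have hb : ∀ M' : DPM S.R, Function.Bijective
      (fun f : (mD (pbp S)).obj M' ⟶ (sg (Rp S)).obj Ω.X₂ => f ≫ (sg (Rp S)).map Ω.g) :=
    fun M' => Rb_post (mD (res S k)) ((sg (Rp S)).map Ω.g) (rb2 hPRA e M') (rb3 hSKY hk h3 _)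
  refine zero_iso ((sg (Rp S)).mapIso i) (fun f => ?_) f
  exact tri_zero hΩ.singleTriangle hΩ.singleTriangle_distinguished ((mD (pbp S)).obj M)
    ((mD (pbp S)).obj (M⟦(1 : ℤ)⟧)) (((mD (pbp S)).commShiftIso (1 : ℤ)).app M)
    (fun a b hab => (hb M).1 hab) (fun g => (hb (M⟦(1 : ℤ)⟧)).2 g) f

end Pool.CRD.G
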