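import Pool.Agent.CRD.B.All
import Pool.Agent.CRD.B.TWK
import Pool.Agent.CRD.D1.AFI
import Pool.Agent.CRD.D1.AFS
import Pool.Agent.CRD.D1.AFX
import Pool.Agent.CRD.D1.AMX
import Pool.Agent.CRD.G.ACD
import Pool.Agent.CRD.G.BRA
import Pool.Agent.CRD.G.CHP
import Pool.Agent.CRD.G.CNT
import Pool.Agent.CRD.G.DFF
import Pool.Agent.CRD.G.DOR
import Pool.Agent.CRD.G.DSC
import Pool.Agent.CRD.G.DVB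
import Pool.Agent.CRD.G.E0C
import Pool.Agent.CRD.G.E0G
import Pool.Agent.CRD.G.E0K
import Pool.Agent.CRD.G.EFF
import Pool.Agent.CRD.G.EFS
import Pool.Agent.CRD.G.EIN
import Pool.Agent.CRD.G.ELS
import Pool.Agent.CRD.G.EMO
import Pool.Agent.CRD.G.EPR
import Pool.Agent.CRD.G.EXB
import Pool.Agent.CRD.G.FGA
import Pool.Agent.CRD.G.FGN
import Pool.Agent.CRD.G.FLX
import Pool.Agent.CRD.G.FRX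
import Pool.Agent.CRD.G.FTC
import Pool.Agent.CRD.G.FTG
import Pool.Agent.CRD.G.FTI
import Pool.Agent.CRD.G.FTL
import Pool.Agent.CRD.G.FTT
import Pool.Agent.CRD.G.FTU
import Pool.Agent.CRD.G.FTZ
import Pool.Agent.CRD.G.GDL
import Pool.Agent.CRD.G.GNA
import Pool.Agent.CRD.G.GNR
import Pool.Agent.CRD.G.GRG
import Pool.Agent.CRD.G.HPL
import Pool.Agent.CRD.G.IDP
import Pool.Agent.CRD.G.IMG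
import Pool.Agent.CRD.G.INV
import Pool.Agent.CRD.G.KOS
import Pool.Agent.CRD.G.LBI
import Pool.Agent.CRD.G.LFO
import Pool.Agent.CRD.G.LOS
import Pool.Agent.CRD.G.LRA
import Pool.Agent.CRD.G.LRB
import Pool.Agent.CRD.G.LRD
import Pool.Agent.CRD.G.MOR
import Pool.Agent.CRD.G.PBI
import Pool.Agent.CRD.G.PCO
import Pool.Agent.CRD.G.PRA
import Pool.Agent.CRD.G.PRF
import Pool.Agent.CRD.G.PSI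
import Pool.Agent.CRD.G.PUC
import Pool.Agent.CRD.G.RAC
import Pool.Agent.CRD.G.SBF
import Pool.Agent.CRD.G.SER
import Pool.Agent.CRD.G.SEX
import Pool.Agent.CRD.G.SKY
import Pool.Agent.CRD.G.SPL
import Pool.Agent.CRD.G.SPT
import Pool.Agent.CRD.G.STF
import Pool.Agent.CRD.G.SUM
import Pool.Agent.CRD.G.SYM
import Pool.Agent.CRD.G.TEX
import Pool.Agent.CRD.G.THE
import Pool.Agent.CRD.G.TTH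
import Pool.Agent.CRD.G.TWA
import Pool.Agent.CRD.G.TWB
import Pool.Agent.CRD.G.TWC
import Pool.Agent.CRD.G.UAC
import Pool.Agent.CRD.G.VAN
import Pool.Agent.CRD.G.VN0

set_option autoImplicit false

namespace Pool.CRD.G.All_

theorem ok_G_Stmt_LOS : Pool.CRD.G.Stmt_LOS :=
  Pool.CRD.G.los_proof 

theorem ok_G_Stmt_EMO : Pool.CRD.G.Stmt_EMO :=
  Pool.CRD.G.emo_proof ok_G_Stmt_LOS

theorem ok_G_Stmt_SUM : Pool.CRD.G.Stmt_SUM :=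
  Pool.CRD.G.sum_proof 

theorem ok_G_Stmt_INV : Pool.CRD.G.Stmt_INV :=
  Pool.CRD.G.inv_proof 

theorem ok_G_Stmt_E0C : Pool.CRD.G.Stmt_E0C :=
  Pool.CRD.G.e0c_proof 

theorem ok_G_Stmt_E0K : Pool.CRD.G.Stmt_E0K :=
  Pool.CRD.G.e0k_proof 

theorem ok_G_Stmt_PRF : Pool.CRD.G.Stmt_PRF :=
  Pool.CRD.G.prf_proof 

theorem ok_G_Stmt_FRX : Pool.CRD.G.Stmt_FRX :=
  Pool.CRD.G.frx_proof 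

theorem ok_G_Stmt_EPR : Pool.CRD.G.Stmt_EPR :=
  Pool.CRD.G.epr_proof ok_G_Stmt_E0K ok_G_Stmt_PRF ok_G_Stmt_FRX

theorem ok_G_Stmt_STF : Pool.CRD.G.Stmt_STF :=
  Pool.CRD.G.stf_proof 

theorem ok_G_Stmt_IDP : Pool.CRD.G.Stmt_IDP :=
  Pool.CRD.G.idp_proof 

theorem ok_G_Stmt_THE : Pool.CRD.G.Stmt_THE :=
  Pool.CRD.G.the_proof ok_G_Stmt_IDP

theorem ok_G_Stmt_ELS : Pool.CRD.G.Stmt_ELS :=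
  Pool.CRD.G.els_proof ok_G_Stmt_STF ok_G_Stmt_THE ok_G_Stmt_E0C

theorem ok_G_Stmt_EIN : Pool.CRD.G.Stmt_EIN :=
  Pool.CRD.G.ein_proof ok_G_Stmt_SUM ok_G_Stmt_INV ok_G_Stmt_E0C ok_G_Stmt_EPR ok_G_Stmt_ELS ok_G_Stmt_STF ok_G_Stmt_FRX ok_G_Stmt_THE ok_G_Stmt_EMO

theorem ok_G_Stmt_TWA : Pool.CRD.G.Stmt_TWA :=
  Pool.CRD.G.twa_proof 

theorem ok_G_Stmt_SYM : Pool.CRD.G.Stmt_SYM :=
  Pool.CRD.G.sym_proof 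

theorem ok_G_Stmt_LBI : Pool.CRD.G.Stmt_LBI :=
  Pool.CRD.G.lbi_proof ok_G_Stmt_EMO ok_G_Stmt_EIN ok_G_Stmt_TWA ok_G_Stmt_SYM

theorem ok_G_Stmt_TWB : Pool.CRD.G.Stmt_TWB :=
  Pool.CRD.G.twb_proof 

theorem ok_G_Stmt_TWC : Pool.CRD.G.Stmt_TWC :=
  Pool.CRD.G.twc_proof 

theorem ok_G_Stmt_TEX : Pool.CRD.G.Stmt_TEX :=
  Pool.CRD.G.tex_proof ok_G_Stmt_TWC

theorem ok_G_Stmt_PCO : Pool.CRD.G.Stmt_PCO :=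
  Pool.CRD.G.pco_proof 

theorem ok_G_Stmt_FLX : Pool.CRD.G.Stmt_FLX :=
  Pool.CRD.G.flx_proof ok_G_Stmt_STF ok_G_Stmt_IDP

theorem ok_G_Stmt_PBI : Pool.CRD.G.Stmt_PBI :=
  Pool.CRD.G.pbi_proof 

theorem ok_Stmt_BCF : Pool.CRD.Stmt_BCF :=
  Pool.CRD.AB.t_bcf 

theorem ok_G_Stmt_EXB : Pool.CRD.G.Stmt_EXB :=
  Pool.CRD.G.exb_proof ok_G_Stmt_FLX ok_G_Stmt_PBI ok_Stmt_BCF

theorem ok_G_Stmt_BRA : Pool.CRD.G.Stmt_BRA :=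
  Pool.CRD.G.bra_proof 

theorem ok_G_Stmt_PRA : Pool.CRD.G.Stmt_PRA :=
  Pool.CRD.G.pra_proof 

theorem ok_G_Stmt_SKY : Pool.CRD.G.Stmt_SKY :=
  Pool.CRD.G.sky_proof 

theorem ok_G_Stmt_VN0 : Pool.CRD.G.Stmt_VN0 :=
  Pool.CRD.G.vn0_proof ok_G_Stmt_PRA ok_G_Stmt_SKY

theorem ok_G_Stmt_ACD : Pool.CRD.G.Stmt_ACD :=
  Pool.CRD.G.acd_proof 

theorem ok_G_Stmt_VAN : Pool.CRD.G.Stmt_VAN :=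
  Pool.CRD.G.van_proof ok_G_Stmt_VN0 ok_G_Stmt_ACD

theorem ok_G_Stmt_RAC : Pool.CRD.G.Stmt_RAC :=
  Pool.CRD.G.rac_proof 

theorem ok_G_Stmt_LRA : Pool.CRD.G.Stmt_LRA :=
  Pool.CRD.G.lra_proof ok_G_Stmt_BRA ok_G_Stmt_PBI ok_G_Stmt_VAN ok_G_Stmt_RAC

theorem ok_G_Stmt_SPL : Pool.CRD.G.Stmt_SPL :=
  Pool.CRD.G.spl_proof ok_G_Stmt_STF ok_G_Stmt_IDP

theorem ok_G_Stmt_UAC : Pool.CRD.G.Stmt_UAC :=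
  Pool.CRD.G.uac_proof ok_G_Stmt_SPL

theorem ok_G_Stmt_LRB : Pool.CRD.G.Stmt_LRB :=
  Pool.CRD.G.lrb_proof ok_G_Stmt_BRA ok_G_Stmt_PBI ok_G_Stmt_PRA ok_G_Stmt_VAN ok_G_Stmt_UAC

theorem ok_G_Stmt_LRD : Pool.CRD.G.Stmt_LRD :=
  Pool.CRD.G.lrd_proof ok_G_Stmt_LRB ok_G_Stmt_TWC

theorem ok_G_Stmt_E0G : Pool.CRD.G.Stmt_E0G :=
  Pool.CRD.G.e0g_proof 

theorem ok_G_Stmt_GDL : Pool.CRD.G.Stmt_GDL :=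
  Pool.CRD.G.gdl_proof ok_G_Stmt_ELS ok_G_Stmt_THE ok_G_Stmt_E0C ok_G_Stmt_E0G ok_G_Stmt_EPR ok_G_Stmt_FRX

theorem ok_G_Stmt_FTU : Pool.CRD.G.Stmt_FTU :=
  Pool.CRD.G.ftu_proof 

theorem ok_G_Stmt_FTT : Pool.CRD.G.Stmt_FTT :=
  Pool.CRD.G.ftt_proof 

theorem ok_G_Stmt_FTI : Pool.CRD.G.Stmt_FTI :=
  Pool.CRD.G.fti_proof 

theorem ok_G_Stmt_FTZ : Pool.CRD.G.Stmt_FTZ :=
  Pool.CRD.G.ftz_proof 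

theorem ok_G_Stmt_HPL : Pool.CRD.G.Stmt_HPL :=
  Pool.CRD.G.hpl_proof ok_G_Stmt_GDL ok_G_Stmt_FTU ok_G_Stmt_FTT ok_G_Stmt_FTI ok_G_Stmt_FTZ

theorem ok_Stmt_FFD : Pool.CRD.Stmt_FFD :=
  Pool.CRD.AB.t_ffd 

theorem ok_Stmt_FFB : Pool.CRD.Stmt_FFB :=
  Pool.CRD.AB.t_ffb 

theorem ok_G_Stmt_DFF : Pool.CRD.G.Stmt_DFF :=
  Pool.CRD.G.dff_proof ok_Stmt_FFD ok_Stmt_FFB

theorem ok_Stmt_DVS : Pool.CRD.Stmt_DVS :=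
  Pool.CRD.AB.t_dvs 

theorem ok_G_Stmt_DOR : Pool.CRD.G.Stmt_DOR :=
  Pool.CRD.G.dor_proof ok_Stmt_FFD ok_Stmt_DVS

theorem ok_G_Stmt_SBF : Pool.CRD.G.Stmt_SBF :=
  Pool.CRD.G.sbf_proof 

theorem ok_G_Stmt_DVB : Pool.CRD.G.Stmt_DVB :=
  Pool.CRD.G.dvb_proof ok_Stmt_DVS

theorem ok_G_Stmt_IMG : Pool.CRD.G.Stmt_IMG :=
  Pool.CRD.G.img_proof 

theorem ok_G_Stmt_CHP : Pool.CRD.G.Stmt_CHP :=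
  Pool.CRD.G.chp_proof ok_G_Stmt_STF

theorem ok_G_Stmt_SER : Pool.CRD.G.Stmt_SER :=
  Pool.CRD.G.ser_proof 

theorem ok_G_Stmt_SEX : Pool.CRD.G.Stmt_SEX :=
  Pool.CRD.G.sex_proof ok_G_Stmt_CHP ok_G_Stmt_SER

theorem ok_G_Stmt_GNR : Pool.CRD.G.Stmt_GNR :=
  Pool.CRD.G.gnr_proof 

theorem ok_G_Stmt_FTG : Pool.CRD.G.Stmt_FTG :=
  Pool.CRD.G.ftg_proof ok_G_Stmt_SPL

theorem ok_G_Stmt_CNT : Pool.CRD.G.Stmt_CNT :=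
  Pool.CRD.G.cnt_proof ok_G_Stmt_CHP ok_G_Stmt_GNR ok_G_Stmt_FTU ok_G_Stmt_FTG

theorem ok_G_Stmt_FGN : Pool.CRD.G.Stmt_FGN :=
  Pool.CRD.G.fgn_proof ok_G_Stmt_GNR

theorem ok_G_Stmt_KOS : Pool.CRD.G.Stmt_KOS :=
  Pool.CRD.G.kos_proof 

theorem ok_G_Stmt_FGA : Pool.CRD.G.Stmt_FGA :=
  Pool.CRD.G.fga_proof ok_G_Stmt_CHP ok_G_Stmt_FGN ok_G_Stmt_SEX ok_G_Stmt_KOS

theorem ok_G_Stmt_PUC : Pool.CRD.G.Stmt_PUC :=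
  Pool.CRD.G.puc_proof ok_G_Stmt_LOS ok_G_Stmt_CHP ok_G_Stmt_FGA

theorem ok_G_Stmt_PSI : Pool.CRD.G.Stmt_PSI :=
  Pool.CRD.G.psi_proof 

theorem ok_G_Stmt_MOR : Pool.CRD.G.Stmt_MOR :=
  Pool.CRD.G.mor_proof 

theorem ok_G_Stmt_LFO : Pool.CRD.G.Stmt_LFO :=
  Pool.CRD.G.lfo_proof ok_G_Stmt_PSI ok_G_Stmt_MOR

theorem ok_G_Stmt_FTL : Pool.CRD.G.Stmt_FTL :=
  Pool.CRD.G.ftl_proof ok_G_Stmt_CHP ok_G_Stmt_LFO ok_G_Stmt_GDL ok_G_Stmt_STF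

theorem ok_G_Stmt_FTC : Pool.CRD.G.Stmt_FTC :=
  Pool.CRD.G.ftc_proof ok_G_Stmt_FTG

theorem ok_G_Stmt_DSC : Pool.CRD.G.Stmt_DSC :=
  Pool.CRD.G.dsc_proof ok_G_Stmt_SPL

theorem ok_G_Stmt_EFF : Pool.CRD.G.Stmt_EFF :=
  Pool.CRD.G.eff_proof ok_G_Stmt_FTL ok_G_Stmt_FTT ok_G_Stmt_FTI ok_G_Stmt_FTC ok_G_Stmt_DSC ok_G_Stmt_TWB ok_G_Stmt_SYM

theorem ok_G_Stmt_TTH : Pool.CRD.G.Stmt_TTH :=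
  Pool.CRD.G.tth_proof 

theorem ok_G_Stmt_GRG : Pool.CRD.G.Stmt_GRG :=
  Pool.CRD.G.grg_proof ok_G_Stmt_CNT ok_G_Stmt_PUC ok_G_Stmt_EFF ok_G_Stmt_PCO ok_G_Stmt_TTH

theorem ok_Stmt_TWK : Pool.CRD.Stmt_TWK :=
  Pool.CRD.twk_proof 

theorem ok_G_Stmt_GNA : Pool.CRD.G.Stmt_GNA :=
  Pool.CRD.G.gna_proof ok_G_Stmt_SEX ok_G_Stmt_GRG ok_G_Stmt_KOS ok_G_Stmt_TTH ok_Stmt_TWK

theorem ok_D1_Stmt_AFI : Pool.CRD.D1.Stmt_AFI :=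
  Pool.CRD.D1.afi_proof 

theorem ok_D1_Stmt_AFS : Pool.CRD.D1.Stmt_AFS :=
  Pool.CRD.D1.afs_proof 

theorem ok_D1_Stmt_AFX : Pool.CRD.D1.Stmt_AFX :=
  Pool.CRD.D1.afx_proof 

theorem ok_D1_Stmt_AMX : Pool.CRD.D1.Stmt_AMX :=
  Pool.CRD.D1.amx_proof ok_D1_Stmt_AFI ok_D1_Stmt_AFS ok_D1_Stmt_AFX

theorem ok_Stmt_SEF : Pool.CRD.Stmt_SEF :=
  Pool.CRD.AB.t_sef 

theorem ok_G_Stmt_EFS : Pool.CRD.G.Stmt_EFS :=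
  Pool.CRD.G.efs_proof ok_D1_Stmt_AMX ok_Stmt_SEF

theorem ok_G_Stmt_EFX : Pool.CRD.G.Stmt_EFX :=
  Pool.CRD.G.efx_proof ok_D1_Stmt_AMX ok_Stmt_SEF

theorem ok_Stmt_SPT : Pool.CRD.Stmt_SPT :=
  Pool.CRD.G.spt_proof ok_G_Stmt_LBI ok_G_Stmt_TWB ok_G_Stmt_TEX ok_G_Stmt_TWC ok_G_Stmt_PCO ok_G_Stmt_EXB ok_G_Stmt_LRA ok_G_Stmt_LRB ok_G_Stmt_LRD ok_G_Stmt_HPL ok_G_Stmt_DFF ok_G_Stmt_DOR ok_G_Stmt_SBF ok_G_Stmt_DVB ok_G_Stmt_IMG ok_G_Stmt_GNA ok_G_Stmt_EFS ok_G_Stmt_EFX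

end Pool.CRD.G.All_
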