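import Pool.Agent.CRD.G.StmtsD

open CategoryTheory Opposite Limits TensorProduct MonoidalCategory Pretriangulated

namespace Pool.CRD.G

theorem dvb_proof (hDVS : Pool.CRD.Stmt_DVS) : Stmt_DVB := by
  intro K _ C _ R _ P hP hiso hM y
  let P' : ObjectProperty (DerivedCategory (Coh R)) := P.map (DerivedCategory.Bounded.ι (C := Coh R))
  have hP' : P'.IsTriangulated := inferInstance
  have h1 : P' y.obj := by
    refine hDVS (Coh R) ⊤ P' inferInstance ?_ ?_ ?_ ?_ y.obj ?_ (fun _ => trivial)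
    · intro X hX n
      exact P'.le_shift n _ hX
    · intro T hT h1 h3
      exact P'.ext_of_isTriangulatedClosed₂ T hT h1 h3
    · intro X hX
      exact P'.prop_of_isZero hX
    · intro M _
      exact P.prop_map_obj _ (hM M)
    · obtain ⟨⟨a, ha⟩, ⟨b, hb⟩⟩ := y.property
      exact ⟨a, b, ha, hb⟩
  obtain ⟨z, hz, ⟨e⟩⟩ := (P.prop_map_iff _ _).1 h1
  exact P.prop_of_iso (DerivedCategory.TStructure.t.bounded.fullyFaithfulι.preimageIso e) hz

end Pool.CRD.G
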