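import Pool.Agent.CRD.G.StmtsD

/-!
# CRD, area G, module FPD
-/

set_option autoImplicit false

open CategoryTheory Opposite Limits TensorProduct MonoidalCategory Pretriangulated

namespace Pool.CRD.G

/-- FPD: the pull back `D^b(Coh S) ⥤ D^b(Coh X)` is fully faithful -/
theorem fpd_proof (hDFF : Stmt_DFF) (hLRB : Stmt_LRB) (hEXB : Stmt_EXB) : Stmt_FPD := by
  intro K _ c₁ c₂ S X _ _ _ eS eX
  have i1 : ExF (bcX X) := (hEXB K c₁ c₂ S X).1
  exact hDFF K Ch2 Ch3 S.R X.R X.pbS ConicData.POK.coh eS eX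
    (fun M N _ => hLRB K c₁ c₂ S X M N)

end Pool.CRD.G
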