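import Pool.Agent.CRD.G.StmtsB

/-!
# CRD, area G, module FRX: the field of fractions of every chart
-/

set_option autoImplicit false

open CategoryTheory Opposite Limits TensorProduct MonoidalCategory

namespace Pool.CRD.G

namespace FRX_

theorem mem_adjoin {K E : Type} [Field K] [Field E] [Algebra K E] (A : Subalgebra K E) {z : E}
    (hz : z ∈ IntermediateField.adjoin K (A : Set E)) :
    ∃ c ∈ A, ∃ d ∈ A, d ≠ 0 ∧ z = c / d := by
  rw [IntermediateField.mem_adjoin_iff_div] at hz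
  obtain ⟨r, hr, s, hs, rfl⟩ := hz
  rw [Algebra.adjoin_eq] at hr hs
  by_cases h0 : s = 0
  · exact ⟨0, zero_mem _, 1, one_mem _, one_ne_zero, by rw [h0, div_zero, zero_div]⟩
  · exact ⟨r, hr, s, hs, h0, rfl⟩

theorem sub_adjoin {K E : Type} [Field K] [Field E] [Algebra K E] (A : Subalgebra K E) {z : E}
    (hz : z ∈ A) : z ∈ IntermediateField.adjoin K (A : Set E) :=
  IntermediateField.subset_adjoin K _ hz

theorem surf {K : Type} [Field K] {c₁ c₂ : CurveData K} (S : SurfData c₁ c₂) (s : Ch2) (z : S.L) :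
    z ∈ IntermediateField.adjoin K ((S.A s.i s.j : Subalgebra K S.L) : Set S.L) := by
  have m1 : ∀ x : c₁.F, S.e₁ x ∈
      IntermediateField.adjoin K ((S.A s.i s.j : Subalgebra K S.L) : Set S.L) := by
    intro x
    obtain ⟨p, hp, q, hq, -, rfl⟩ := c₁.frac s.i x
    rw [map_div₀]
    exact div_mem (sub_adjoin _ ((le_sup_left : _ ≤ S.A s.i s.j) ⟨p, hp, rfl⟩))
      (sub_adjoin _ ((le_sup_left : _ ≤ S.A s.i s.j) ⟨q, hq, rfl⟩))
  have m2 : ∀ x : c₂.F, S.e₂ x ∈
      IntermediateField.adjoin K ((S.A s.i s.j : Subalgebra K S.L) : Set S.L) := by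
    intro x
    obtain ⟨p, hp, q, hq, -, rfl⟩ := c₂.frac s.j x
    rw [map_div₀]
    exact div_mem (sub_adjoin _ ((le_sup_right : _ ≤ S.A s.i s.j) ⟨p, hp, rfl⟩))
      (sub_adjoin _ ((le_sup_right : _ ≤ S.A s.i s.j) ⟨q, hq, rfl⟩))
  have mt : ∀ p : TensorProduct K c₁.F c₂.F, Algebra.TensorProduct.productMap S.e₁ S.e₂ p ∈
      IntermediateField.adjoin K ((S.A s.i s.j : Subalgebra K S.L) : Set S.L) := by
    intro p
    induction p with
    | zero => rw [map_zero]; exact zero_mem _
    | tmul x y =>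
      rw [Algebra.TensorProduct.productMap_apply_tmul]
      exact mul_mem (m1 x) (m2 y)
    | add x y hx hy => rw [map_add]; exact add_mem hx hy
  obtain ⟨p, q, -, rfl⟩ := S.frac z
  exact div_mem (mt p) (mt q)

end FRX_

open FRX_ in
theorem frx_proof : Stmt_FRX := by
  intro K _ c₁ c₂ S X
  refine ⟨fun s z => mem_adjoin _ (surf S s z), fun t z => mem_adjoin _ ?_⟩
  have hL : ∀ a : S.L, algebraMap S.L X.E a ∈
      IntermediateField.adjoin K ((X.A t.i t.j t.k : Subalgebra K X.E) : Set X.E) := by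
    intro a
    obtain ⟨c, hc, d, hd, -, rfl⟩ := mem_adjoin _ (surf S ⟨t.i, t.j⟩ a)
    rw [map_div₀]
    exact div_mem (sub_adjoin _ (X.mem_of_S hc)) (sub_adjoin _ (X.mem_of_S hd))
  have hne : X.eta t.i ≠ 0 := eta_ne X t.i
  have a1 : algebraMap S.L X.E (S.h₁ t.i) ≠ 0 := by simpa using h1_ne S t.i
  have a2 : algebraMap S.L X.E (S.h₂ t.j) ≠ 0 := by simpa using h2_ne S t.j
  have hez : X.eta t.i ∈
      IntermediateField.adjoin K ((X.A t.i t.j t.k : Subalgebra K X.E) : Set X.E) ∧
      X.zeta t.j ∈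
      IntermediateField.adjoin K ((X.A t.i t.j t.k : Subalgebra K X.E) : Set X.E) := by
    obtain ⟨x, hx⟩ := t.k.ne
    cases x with
    | false =>
      exact ⟨sub_adjoin _ (X.mem_of_gens (Or.inl ⟨hx, Or.inl rfl⟩)),
        sub_adjoin _ (X.mem_of_gens (Or.inl ⟨hx, Or.inr rfl⟩))⟩
    | true =>
      have h1 : X.eta t.i ∈
          IntermediateField.adjoin K ((X.A t.i t.j t.k : Subalgebra K X.E) : Set X.E) := by
        have h := inv_mem (sub_adjoin _ (X.mem_of_gens (i := t.i) (j := t.j) (k := t.k)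
          (Or.inr ⟨hx, Or.inl rfl⟩)))
        rwa [inv_inv] at h
      refine ⟨h1, ?_⟩
      have h := mul_mem (sub_adjoin _ (X.mem_of_gens (i := t.i) (j := t.j) (k := t.k)
          (Or.inr ⟨hx, Or.inr rfl⟩))) h1
      rwa [div_mul_cancel₀ _ hne] at h
  have hη : X.η ∈
      IntermediateField.adjoin K ((X.A t.i t.j t.k : Subalgebra K X.E) : Set X.E) := by
    have h := div_mem hez.1 (hL (S.h₁ t.i))
    have e : X.eta t.i / algebraMap S.L X.E (S.h₁ t.i) = X.η := by
      unfold ConicData.eta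
      field_simp
    rwa [e] at h
  have hζ : X.ζ ∈
      IntermediateField.adjoin K ((X.A t.i t.j t.k : Subalgebra K X.E) : Set X.E) := by
    have h := div_mem hez.2 (hL (S.h₂ t.j))
    have e : X.zeta t.j / algebraMap S.L X.E (S.h₂ t.j) = X.ζ := by
      unfold ConicData.zeta
      field_simp
    rwa [e] at h
  have hadj : ∀ a : X.E, a ∈ IntermediateField.adjoin S.L {X.η} → a ∈
      IntermediateField.adjoin K ((X.A t.i t.j t.k : Subalgebra K X.E) : Set X.E) := by
    intro a ha
    induction ha using IntermediateField.adjoin_induction with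
    | mem x hx => rw [Set.mem_singleton_iff] at hx; rw [hx]; exact hη
    | algebraMap x => exact hL x
    | add x y _ _ hx hy => exact add_mem hx hy
    | inv x _ hx => exact inv_mem hx
    | mul x y _ _ hx hy => exact mul_mem hx hy
  obtain ⟨a, b, rfl⟩ := X.gen z
  exact add_mem (hadj _ a.2) (mul_mem (hadj _ b.2) hζ)

end Pool.CRD.G
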