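import Pool.Agent.CRD.G.StmtsD

open CategoryTheory Opposite Limits TensorProduct MonoidalCategory Pretriangulated

namespace Pool.CRD.G

theorem img_proof : Stmt_IMG := by
  intro K _ T _ _ _ _ _ _ _ T' _ _ _ _ _ _ _ F _ _ _ hfull hfaith
  have hT : F.essImage.IsTriangulated := inferInstance
  refine ⟨inferInstance, hT, ?_⟩
  let i1 : F.toEssImage.CommShift ℤ := by
    dsimp only [Functor.toEssImage]
    infer_instance
  have i2 : F.toEssImage.IsTriangulated := by
    dsimp only [Functor.toEssImage]
    infer_instance
  let e : TEquiv K T' F.essImage.FullSubcategory :=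
    { E := F.toEssImage
      cs := i1
      tri := i2
      eq := inferInstance
      lin := fun X Y f a => by
        apply F.essImage.ι.map_injective
        exact F.map_smul a f }
  obtain ⟨e'⟩ := tsy_proof K T' F.essImage.FullSubcategory e
  let := e'.cs
  have := e'.tri
  have := e'.eq
  exact ⟨e'.E, e'.cs, e'.tri, inferInstance, inferInstance, inferInstance, e'.lin,
    inferInstance, inferInstance⟩

end Pool.CRD.G
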