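import Pool.Agent.CRD.G.KCL

/-!
# CRD, area G, KCA: kernel and cokernel of a morphism `p^* N → M` inducing an isomorphism on the
push forward
-/

set_option autoImplicit false

open CategoryTheory Opposite Limits TensorProduct MonoidalCategory

namespace Pool.CRD.G

theorem kca_proof (hFTU : Stmt_FTU) (hFTG : Stmt_FTG) : Stmt_KCA := by
  intro K _ c₁ c₂ S X N M a H
  refine ⟨?_, ?_⟩
  · intro Z i w hi hE s
    exact KCL_.ker_main hFTU hFTG a s (H s).2 Z i w hE
  · intro Z q w hq hE s
    exact KCL_.coker_main hFTU hFTG a s (H s).2 (H s).1 Z q w hE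

end Pool.CRD.G
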