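import Pool.Agent.CRD.G.StmtsC

/-!
# CRD, area G: common lemmas for CNT and KCA (kernel and cokernel of `p^* N → M`)
-/

set_option autoImplicit false

open CategoryTheory Opposite Limits TensorProduct MonoidalCategory

namespace Pool.CRD.G

namespace KCL_

variable {K : Type} [Field K] {c₁ c₂ : CurveData K} {S : SurfData c₁ c₂} {X : ConicData S}

section Ap

variable {M N : PMod X.R} (f : M ⟶ N) (s : Ch2)

theorem apS_add (k : Cov Bool) (x y : Sc M s k) : apS f s k (x + y) = apS f s k x + apS f s k y :=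
  map_add (f.app (op (c3 s k))).hom (out M s k x) (out M s k y)

theorem apS_zero (k : Cov Bool) : apS f s k 0 = 0 :=
  map_zero (f.app (op (c3 s k))).hom

theorem apS_neg (k : Cov Bool) (x : Sc M s k) : apS f s k (-x) = - apS f s k x :=
  map_neg (f.app (op (c3 s k))).hom (out M s k x)

theorem apS_sub (k : Cov Bool) (x y : Sc M s k) : apS f s k (x - y) = apS f s k x - apS f s k y :=
  map_sub (f.app (op (c3 s k))).hom (out M s k x) (out M s k y)

theorem apS_smul (k : Cov Bool) (z : X.A s.i s.j k) (x : Sc M s k) :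
    apS f s k (z • x) = z • apS f s k x :=
  map_smul (f.app (op (c3 s k))).hom (toR X (c3 s k) z) (out M s k x)

theorem apS_rk {k k' : Cov Bool} (h : k' ≤ k) (x : Sc M s k) :
    apS f s k' (rk M s h x) = rk N s h (apS f s k x) :=
  PresheafOfModules.naturality_apply f (homOfLE (c3_mono (le_refl s) h)).op (out M s k x)

end Ap

variable (M : PMod X.R)

theorem rk_rk {s : Ch2} {k k' k'' : Cov Bool} (h : k' ≤ k) (h' : k'' ≤ k') (x : Sc M s k) :
    rk M s h' (rk M s h x) = rk M s (h'.trans h) x :=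
  (rg_comp M (le_refl s) h (le_refl s) h' x).symm

theorem rk_refl {s : Ch2} {k : Cov Bool} (h : k ≤ k) (x : Sc M s k) : rk M s h x = x :=
  rg_id M x

theorem mem_tf (k : Cov Bool) : false ∈ k.s ∨ true ∈ k.s := by
  obtain ⟨b, hb⟩ := k.ne
  cases b
  · exact Or.inl hb
  · exact Or.inr hb

/-- a global section is determined by two components -/
theorem gam_ext {s : Ch2} {m m' : ∀ k, Sc M s k} (hm : m ∈ Gam M s) (hm' : m' ∈ Gam M s)
    (ha : m ca = m' ca) (hb : m cb = m' cb) : m = m' := by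
  funext k
  rcases mem_tf k with h | h
  · rw [← hm ca k (ca_top h), ← hm' ca k (ca_top h), ha]
  · rw [← hm cb k (cb_top h), ← hm' cb k (cb_top h), hb]

theorem exists_gam {s : Ch2} (x : Sc M s ca) (y : Sc M s cb)
    (h : rk M s (cab_bot ca) x = rk M s (cab_bot cb) y) :
    ∃ m ∈ Gam M s, m ca = x ∧ m cb = y := by
  classical
  refine ⟨fun k => if h : false ∈ k.s then rk M s (ca_top h) x else
    rk M s (cb_top ((mem_tf k).resolve_left h)) y, ?_, ?_, ?_⟩
  · intro k k' hk
    dsimp only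
    by_cases h1 : false ∈ k.s
    · have h2 : false ∈ k'.s := hk h1
      rw [dif_pos h1, dif_pos h2, rk_rk]
    · have h3 := (mem_tf k).resolve_left h1
      rw [dif_neg h1, rk_rk]
      by_cases h2 : false ∈ k'.s
      · rw [dif_pos h2]
        have h4 : true ∈ k'.s := hk h3
        have h5 : k' ≤ cab := by
          intro b _
          cases b
          · exact h2
          · exact h4
        have h6 := congrArg (rk M s h5) h
        rw [rk_rk, rk_rk] at h6
        exact h6.symm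
      · rw [dif_neg h2]
  · dsimp only
    rw [dif_pos f_ca]
    exact rk_refl M _ x
  · dsimp only
    rw [dif_neg (by decide)]
    exact rk_refl M _ y

variable {M}

section Ex

variable {Z P : PMod X.R}

theorem ex_lift (i : Z ⟶ P) (a : P ⟶ M) (w : i ≫ a = 0) (hE : (ShortComplex.mk i a w).Exact)
    (s : Ch2) (k : Cov Bool) (x : Sc P s k) (hx : apS a s k x = 0) : ∃ z, apS i s k z = x := by
  have h := (pmod_exact_iff (ShortComplex.mk i a w)).1 hE (op (c3 s k))
  exact (h x).1 hx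

theorem ex_zero (i : Z ⟶ P) (a : P ⟶ M) (w : i ≫ a = 0) (s : Ch2) (k : Cov Bool)
    (x : Sc Z s k) : apS a s k (apS i s k x) = 0 :=
  congr(($w).app (op (c3 s k)) (out Z s k x))

theorem inj_of (i : Z ⟶ P) [Mono i] (s : Ch2) (k : Cov Bool) (x : Sc Z s k)
    (hx : apS i s k x = 0) : x = 0 := by
  apply (pmod_mono_iff i).1 inferInstance (op (c3 s k))
  exact hx.trans (apS_zero i s k).symm

theorem surj_of (q : M ⟶ Z) [Epi q] (s : Ch2) (k : Cov Bool) (x : Sc Z s k) :
    ∃ y, apS q s k y = x :=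
  (pmod_epi_iff q).1 inferInstance (op (c3 s k)) x

end Ex

section Main

variable (N : PMod S.R)

theorem uni_mem (s : Ch2) (n : Ss N s) : uni (X := X) N s n ∈ Gam (X.pbS.obj N) s := by
  intro k k' h
  have h1 := X.pr.bcRs_bt N (homOfLE (c3_mono (le_refl s) h)).op 1
    (show N.obj (X.pr.m.op.obj (op (c3 s k))) from n)
  refine h1.trans ?_
  have h2 : rs N (X.pr.m.op.map (homOfLE (c3_mono (le_refl s) h)).op)
      (show N.obj (X.pr.m.op.obj (op (c3 s k))) from n) = n := rs_id N _ n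
  rw [h2, map_one]
  rfl

theorem uni_zero (s : Ch2) (k : Cov Bool) : uni (X := X) N s 0 k = 0 := by
  have h := bt_add_right (X.pr.hom (op (c3 s k))) 1
    (0 : N.obj (X.pr.m.op.obj (op (c3 s k)))) 0
  rw [add_zero] at h
  exact left_eq_add.1 h

/-- hypothesis on the global sections -/
def Hy (a : X.pbS.obj N ⟶ M) (s : Ch2) : Prop :=
  ∀ m ∈ Gam M s, ∃! n : Ss N s, ∀ k, apS a s k (uni N s n k) = m k

variable {N}

theorem h1_pb (hFTU : Stmt_FTU) (hFTG : Stmt_FTG) (s : Ch2) : h1z (X.pbS.obj N) s := by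
  obtain ⟨T, _⟩ := hFTU K c₁ c₂ S X N s
  exact (hFTG K c₁ c₂ S X (X.pbS.obj N) s (Ss N s) T).1

theorem gam_pb (hFTU : Stmt_FTU) (hFTG : Stmt_FTG) (s : Ch2) (m : ∀ k, Sc (X.pbS.obj N) s k)
    (hm : m ∈ Gam (X.pbS.obj N) s) : ∃ n : Ss N s, ∀ k, uni N s n k = m k := by
  obtain ⟨T, hT⟩ := hFTU K c₁ c₂ S X N s
  obtain ⟨n, hn, _⟩ := (hFTG K c₁ c₂ S X (X.pbS.obj N) s (Ss N s) T).2 m hm
  exact ⟨n, fun k => (hT k n).symm.trans (hn k)⟩

theorem ker_main (hFTU : Stmt_FTU) (hFTG : Stmt_FTG) (a : X.pbS.obj N ⟶ M) (s : Ch2)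
    (H : Hy N a s) (Z : PMod X.R) (i : Z ⟶ X.pbS.obj N) (w : i ≫ a = 0) [Mono i]
    (hE : (ShortComplex.mk i a w).Exact) : h0z Z s ∧ h1z Z s := by
  constructor
  · intro x y hxy
    have h1 : rk (X.pbS.obj N) s (cab_bot ca) (apS i s ca x) =
        rk (X.pbS.obj N) s (cab_bot cb) (apS i s cb y) := by
      rw [← apS_rk, ← apS_rk, hxy]
    obtain ⟨m, hm, ha, hb⟩ := exists_gam (X.pbS.obj N) _ _ h1
    obtain ⟨n, hn⟩ := gam_pb hFTU hFTG s m hm
    have h2 : ∀ k, apS a s k (uni N s n k) = (0 : ∀ k, Sc M s k) k := by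
      intro k
      rcases mem_tf k with h | h
      · rw [hn, ← hm ca k (ca_top h), apS_rk, ha, ex_zero i a w, map_zero]
        rfl
      · rw [hn, ← hm cb k (cb_top h), apS_rk, hb, ex_zero i a w, map_zero]
        rfl
    obtain ⟨n', _, hu⟩ := H 0 (Submodule.zero_mem _)
    have h3 : n = 0 := by
      rw [hu n h2, hu 0 (fun k => by rw [uni_zero, apS_zero]; rfl)]
    subst h3
    constructor
    · apply inj_of i s ca
      rw [← ha, ← hn, uni_zero]
    · apply inj_of i s cb
      rw [← hb, ← hn, uni_zero]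
  · intro b
    obtain ⟨x, y, hb⟩ := h1_pb (N := N) hFTU hFTG s (apS i s cab b)
    have h1 : rk M s (cab_bot ca) (apS a s ca x) = rk M s (cab_bot cb) (- apS a s cb y) := by
      rw [map_neg, ← apS_rk, ← apS_rk, eq_neg_iff_add_eq_zero, ← apS_add, ← hb, ex_zero i a w]
    obtain ⟨m, hm, ma, mb⟩ := exists_gam M _ _ h1
    obtain ⟨n, hn, _⟩ := H m hm
    have hu := uni_mem (X := X) N s n
    obtain ⟨x', hx'⟩ := ex_lift i a w hE s ca (x - uni N s n ca) (by
      rw [apS_sub, hn, ma, sub_self])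
    obtain ⟨y', hy'⟩ := ex_lift i a w hE s cb (y + uni N s n cb) (by
      rw [apS_add, hn, mb, add_neg_cancel])
    refine ⟨x', y', ?_⟩
    rw [← sub_eq_zero]
    apply inj_of i s cab
    rw [apS_sub, apS_add, apS_rk, apS_rk, hx', hy', hb, map_sub, map_add,
      hu ca cab (cab_bot ca), hu cb cab (cab_bot cb)]
    abel

theorem coker_main (hFTU : Stmt_FTU) (hFTG : Stmt_FTG) (a : X.pbS.obj N ⟶ M) (s : Ch2)
    (H : Hy N a s) (H1 : h1z M s) (Z : PMod X.R) (q : M ⟶ Z) (w : a ≫ q = 0) [Epi q]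
    (hE : (ShortComplex.mk a q w).Exact) : h0z Z s ∧ h1z Z s := by
  constructor
  · intro x y hxy
    obtain ⟨x', hx'⟩ := surj_of q s ca x
    obtain ⟨y', hy'⟩ := surj_of q s cb y
    obtain ⟨b, hb⟩ := ex_lift a q w hE s cab
      (rk M s (cab_bot ca) x' - rk M s (cab_bot cb) y') (by
        rw [apS_sub, apS_rk, apS_rk, hx', hy', hxy, sub_self])
    obtain ⟨x'', y'', hb'⟩ := h1_pb (N := N) hFTU hFTG s b
    have h1 : rk M s (cab_bot ca) (x' - apS a s ca x'') =
        rk M s (cab_bot cb) (y' + apS a s cb y'') := by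
      rw [hb', apS_add, apS_rk, apS_rk] at hb
      rw [map_sub, map_add, sub_eq_iff_eq_add]
      rw [eq_sub_iff_add_eq] at hb
      rw [← hb]
      abel
    obtain ⟨m, hm, ma, mb⟩ := exists_gam M _ _ h1
    obtain ⟨n, hn, _⟩ := H m hm
    constructor
    · have h2 : x' = apS a s ca (x'' + uni N s n ca) := by
        rw [apS_add, hn, ma]
        abel
      rw [← hx', h2, ex_zero a q w]
    · have h2 : y' = apS a s cb (uni N s n cb - y'') := by
        rw [apS_sub, hn, mb]
        abel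
      rw [← hy', h2, ex_zero a q w]
  · intro b
    obtain ⟨b', hb'⟩ := surj_of q s cab b
    obtain ⟨x, y, hxy⟩ := H1 b'
    refine ⟨apS q s ca x, apS q s cb y, ?_⟩
    rw [← apS_rk, ← apS_rk, ← apS_add, ← hxy, hb']

end Main

end KCL_

end Pool.CRD.G
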