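import Pool.Agent.CRD.G.StmtsD

/-!
# LER: Leray in the bounded derived categories
-/

open CategoryTheory Opposite Limits TensorProduct MonoidalCategory Pretriangulated

namespace Pool.CRD.G

namespace LER_

variable {K : Type} [Field K] {c₁ c₂ : CurveData K} {S : SurfData c₁ c₂}

/-- a functor represented through fully faithful functors: the choice of the counit -/
theorem rep {A B A' B' : Type 1} [Category.{1} A] [Category.{1} B] [Category.{1} A']
    [Category.{1} B'] (F : A ⥤ B) (F' : A' ⥤ B') (i : A ⥤ A') (j : B ⥤ B') (hi : i.Full)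
    (hi' : i.Faithful) (hj : j.Full) (hj' : j.Faithful) (θ : F ⋙ j ≅ i ⋙ F') (x₀ : A) (y₀ : B)
    (n : A') (m : B') (e : i.obj x₀ ≅ n) (e' : j.obj y₀ ≅ m) (δ : F'.obj n ⟶ m)
    (hδ : ∀ x : A', Function.Bijective (fun f : x ⟶ n => F'.map f ≫ δ)) :
    Nonempty ((F.op ⋙ yoneda.obj y₀).RepresentableBy x₀) := by
  let ε : F.obj x₀ ⟶ y₀ := j.preimage (θ.hom.app x₀ ≫ F'.map e.hom ≫ δ ≫ e'.inv)
  have hε : j.map ε = θ.hom.app x₀ ≫ F'.map e.hom ≫ δ ≫ e'.inv := j.map_preimage _
  have key : ∀ x (f : x ⟶ x₀), j.map (F.map f ≫ ε) =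
      θ.hom.app x ≫ (F'.map (i.map f ≫ e.hom) ≫ δ) ≫ e'.inv := by
    intro x f
    rw [Functor.map_comp, hε]
    have h := θ.hom.naturality f
    simp only [Functor.comp_map] at h
    rw [reassoc_of% h, Functor.map_comp]
    simp only [Category.assoc]
  have hbij : ∀ x : A, Function.Bijective (fun f : x ⟶ x₀ => F.map f ≫ ε) := by
    intro x
    constructor
    · intro f g hfg
      have h1 := congrArg j.map hfg
      simp only [key] at h1
      rw [cancel_epi] at h1
      rw [cancel_mono] at h1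
      have h2 := (hδ _).1 h1
      rw [cancel_mono] at h2
      exact i.map_injective h2
    · intro g
      obtain ⟨f, hf⟩ := (hδ (i.obj x)).2 (θ.inv.app x ≫ j.map g ≫ e'.hom)
      refine ⟨i.preimage (f ≫ e.inv), ?_⟩
      apply j.map_injective
      change j.map (F.map _ ≫ ε) = _
      have h1 : (f ≫ e.inv) ≫ e.hom = f := by
        rw [Category.assoc, Iso.inv_hom_id, Category.comp_id]
      dsimp only at hf
      rw [key, Functor.map_preimage, h1, hf]
      simp
  exact ⟨{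
    homEquiv := fun {x} => Equiv.ofBijective _ (hbij x)
    homEquiv_comp := fun {x x'} f g => by
      change F.map (f ≫ g) ≫ ε = F.map f ≫ (F.map g ≫ ε)
      rw [Functor.map_comp, Category.assoc] }⟩

/-- the pull back on the bounded derived categories and on the derived categories of modules -/
noncomputable def theta (X : ConicData S) [S.R.Good] [X.R.Good] [X.POK] :
    X.pbD ⋙ ιD X.R ≅ ιD S.R ⋙ mD X.pbS :=
  Functor.isoWhiskerLeft DerivedCategory.Bounded.ι
    (FunL.compD X.pbC (IsCoh X.R).ι ≪≫ FunL.natDIso (cohFι X.pbS ConicData.POK.coh) ≪≫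
      (FunL.compD (IsCoh S.R).ι X.pbS).symm)

theorem hyp (X : ConicData S) (M : PMod X.R) (s : Ch2) (m : ∀ k, Sc M s k) (hm : m ∈ Gam M s) :
    ∃! n : Ss (push M) s, ∀ k, apS (cou M) s k (uni (push M) s n k) = m k := by
  have h1 : ∀ (n : Ss (push M) s) (k : Cov Bool),
      apS (cou M) s k (uni (push M) s n k) = (show Gam M s from n).1 k := by
    intro n k
    change (cou M).app (op (c3 s k)) _ = _
    refine (cou_bt M (op (c3 s k)) 1 n).trans ?_
    rw [one_smul]
    rfl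
  refine ⟨(⟨m, hm⟩ : Gam M s), fun k => h1 _ k, ?_⟩
  intro n hn
  have h2 : (show Gam M s from n) = ⟨m, hm⟩ := by
    apply Subtype.ext
    funext k
    rw [← h1 n k]
    exact hn k
  exact h2

end LER_

theorem ler_proof (hPUC : Stmt_PUC) (hLRC : Stmt_LRC) (hEXB : Stmt_EXB)
    (hFFD : Pool.CRD.Stmt_FFD) : Stmt_LER := by
  intro K _ c₁ c₂ S X _ _ _ hS hX M hM1
  have hM := hPUC K c₁ c₂ S X M.obj M.property
  refine ⟨hM, ?_⟩
  have : ExF (bcX X) := (hEXB K c₁ c₂ S X).1
  obtain ⟨hSf, hSff, -⟩ := hFFD K Ch2 S.R hS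
  obtain ⟨hXf, hXff, -⟩ := hFFD K Ch3 X.R hX
  have h := hLRC K c₁ c₂ S X (push M.obj) M.obj (cou M.obj)
    (fun s => ⟨hM1 s, fun m hm => LER_.hyp X M.obj s m hm⟩)
  exact LER_.rep X.pbD (mD X.pbS) (ιD S.R) (ιD X.R) hSf hSff hXf hXff (LER_.theta X)
    (sgC ⟨push M.obj, hM⟩) (sgC M) ((sg S.R).obj (push M.obj)) ((sg X.R).obj M.obj)
    (((IsCoh S.R).ι.mapDerivedCategorySingleFunctor 0).app ⟨push M.obj, hM⟩)
    (((IsCoh X.R).ι.mapDerivedCategorySingleFunctor 0).app M)
    ((X.pbS.mapDerivedCategorySingleFunctor 0).hom.app (push M.obj) ≫ (sg X.R).map (cou M.obj)) h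

end Pool.CRD.G
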