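import Pool.Agent.CRD.G.StmtsD

/-!
# CRD, area G, LRC: the Leray isomorphism
-/

open CategoryTheory Opposite Limits TensorProduct MonoidalCategory Pretriangulated

namespace Pool.CRD.G

namespace LRC_

section
variable {D : Type*} [Category* D] [Preadditive D] [HasZeroObject D] [HasShift D ℤ]
  [∀ n : ℤ, (shiftFunctor D n).Additive] [Pretriangulated D]

omit [HasZeroObject D] [HasShift D ℤ] [∀ n : ℤ, (shiftFunctor D n).Additive]
  [Pretriangulated D] in
lemma zero_of_iso {P A B : D} (f : P ⟶ A) (e : A ≅ B) (h : f ≫ e.hom = 0) : f = 0 := by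
  rw [← cancel_mono e.hom, h, zero_comp]

lemma bij₂₃ (T : Triangle D) (hT : T ∈ distTriang D) (P : D) (h0 : ∀ f : P ⟶ T.obj₁, f = 0)
    (h1 : ∀ f : P ⟶ T.obj₁⟦(1 : ℤ)⟧, f = 0) :
    Function.Bijective (fun f : P ⟶ T.obj₂ => f ≫ T.mor₂) := by
  constructor
  · intro f g hfg
    have h2 : (f - g) ≫ T.mor₂ = 0 := by
      rw [Preadditive.sub_comp, sub_eq_zero]
      exact hfg
    obtain ⟨k, hk⟩ := Triangle.coyoneda_exact₂ _ hT (f - g) h2
    rw [h0 k, zero_comp, sub_eq_zero] at hk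
    exact hk
  · intro g
    obtain ⟨k, hk⟩ := Triangle.coyoneda_exact₃ _ hT g (h1 _)
    exact ⟨k, hk.symm⟩

lemma bij₁₂ (T : Triangle D) (hT : T ∈ distTriang D) (P : D)
    (h : ∀ (n : ℤ) (f : P ⟶ T.obj₃⟦n⟧), f = 0) :
    Function.Bijective (fun f : P ⟶ T.obj₁ => f ≫ T.mor₁) := by
  have key := bij₂₃ T.invRotate (inv_rot_of_distTriang T hT) P (h (-1)) (by
    intro f
    exact zero_of_iso f ((shiftFunctorAdd' D (-1) 1 0 (by norm_num)).symm.app T.obj₃) (h 0 _))
  exact key

end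

section
variable {C : Type 1} [Category.{0} C] [Abelian C]

lemma ex1 {X Y : C} (a : X ⟶ Y) :
    (ShortComplex.mk (kernel.ι (factorThruImage a)) (factorThruImage a)
      (kernel.condition _)).ShortExact :=
  ShortComplex.ShortExact.mk' (ShortComplex.exact_kernel _) inferInstance inferInstance

lemma ex2 {X Y : C} (a : X ⟶ Y) :
    (ShortComplex.mk (image.ι a) (cokernel.π (image.ι a))
      (cokernel.condition _)).ShortExact :=
  ShortComplex.ShortExact.mk' (ShortComplex.exact_cokernel _) inferInstance inferInstance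

lemma w1 {X Y : C} (a : X ⟶ Y) : kernel.ι (factorThruImage a) ≫ a = 0 := by
  calc kernel.ι (factorThruImage a) ≫ a =
      kernel.ι (factorThruImage a) ≫ (factorThruImage a ≫ image.ι a) := by rw [image.fac]
    _ = 0 := by rw [← Category.assoc, kernel.condition, zero_comp]

lemma w2 {X Y : C} (a : X ⟶ Y) : a ≫ cokernel.π (image.ι a) = 0 := by
  calc a ≫ cokernel.π (image.ι a) =
      (factorThruImage a ≫ image.ι a) ≫ cokernel.π (image.ι a) := by rw [image.fac]
    _ = 0 := by rw [Category.assoc, cokernel.condition, comp_zero]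

lemma ex3 {X Y : C} (a : X ⟶ Y) :
    (ShortComplex.mk (kernel.ι (factorThruImage a)) a (w1 a)).Exact := by
  let φ : ShortComplex.mk (kernel.ι (factorThruImage a)) (factorThruImage a)
      (kernel.condition _) ⟶ ShortComplex.mk (kernel.ι (factorThruImage a)) a (w1 a) :=
    { τ₁ := 𝟙 _
      τ₂ := 𝟙 _
      τ₃ := image.ι a
      comm₁₂ := by simp
      comm₂₃ := by simp }
  haveI : Epi φ.τ₁ := inferInstanceAs (Epi (𝟙 _))
  haveI : IsIso φ.τ₂ := inferInstanceAs (IsIso (𝟙 _))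
  haveI : Mono φ.τ₃ := inferInstanceAs (Mono (image.ι a))
  exact (ShortComplex.exact_iff_of_epi_of_isIso_of_mono φ).1 (ex1 a).exact

lemma ex4 {X Y : C} (a : X ⟶ Y) :
    (ShortComplex.mk a (cokernel.π (image.ι a)) (w2 a)).Exact := by
  let φ : ShortComplex.mk a (cokernel.π (image.ι a)) (w2 a) ⟶
      ShortComplex.mk (image.ι a) (cokernel.π (image.ι a)) (cokernel.condition _) :=
    { τ₁ := factorThruImage a
      τ₂ := 𝟙 _
      τ₃ := 𝟙 _
      comm₁₂ := by simp
      comm₂₃ := by simp }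
  haveI : Epi φ.τ₁ := inferInstanceAs (Epi (factorThruImage a))
  haveI : IsIso φ.τ₂ := inferInstanceAs (IsIso (𝟙 _))
  haveI : Mono φ.τ₃ := inferInstanceAs (Mono (𝟙 _))
  exact (ShortComplex.exact_iff_of_epi_of_isIso_of_mono φ).2 (ex2 a).exact

variable [HasDerivedCategory.{1} C]

/-- composition with a morphism of modules whose kernel and cokernel are invisible -/
lemma comp_bij {X Y : C} (a : X ⟶ Y) (P : DerivedCategory C)
    (h1 : ∀ (n : ℤ) (f : P ⟶ ((DerivedCategory.singleFunctor C 0).obj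
      (kernel (factorThruImage a)))⟦n⟧), f = 0)
    (h2 : ∀ (n : ℤ) (f : P ⟶ ((DerivedCategory.singleFunctor C 0).obj
      (cokernel (image.ι a)))⟦n⟧), f = 0) :
    Function.Bijective (fun f : P ⟶ (DerivedCategory.singleFunctor C 0).obj X =>
      f ≫ (DerivedCategory.singleFunctor C 0).map a) := by
  have b1 := bij₂₃ _ (ex1 a).singleTriangle_distinguished P (by
    intro f
    exact zero_of_iso f ((shiftFunctorZero (DerivedCategory C) ℤ).symm.app _) (h1 0 _))
    (h1 1)
  have b2 := bij₁₂ _ (ex2 a).singleTriangle_distinguished P h2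
  have b3 := b2.comp b1
  have h3 : (fun f : P ⟶ (DerivedCategory.singleFunctor C 0).obj X =>
      f ≫ (DerivedCategory.singleFunctor C 0).map a) =
    (fun f : P ⟶ (DerivedCategory.singleFunctor C 0).obj (image a) =>
      f ≫ (DerivedCategory.singleFunctor C 0).map (image.ι a)) ∘
    (fun f : P ⟶ (DerivedCategory.singleFunctor C 0).obj X =>
      f ≫ (DerivedCategory.singleFunctor C 0).map (factorThruImage a)) := by
    funext f
    simp only [Function.comp_apply, Category.assoc]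
    rw [← Functor.map_comp, image.fac]
  rw [h3]
  exact b3

end

lemma shift_zero {D₁ D₂ : Type*} [Category* D₁] [Category* D₂] [HasShift D₁ ℤ]
    [Preadditive D₂] [HasShift D₂ ℤ] [∀ n : ℤ, (shiftFunctor D₂ n).Additive]
    (F : D₁ ⥤ D₂) [F.CommShift ℤ] (Z : D₂)
    (h : ∀ (M : D₁) (f : F.obj M ⟶ Z), f = 0) (M : D₁) (n : ℤ) (f : F.obj M ⟶ Z⟦n⟧) :
    f = 0 := by
  have h1 := h (M⟦-n⟧) ((F.commShiftIso (-n)).hom.app M ≫ f⟦-n⟧' ≫
    (shiftFunctorCompIsoId D₂ n (-n) (add_neg_cancel n)).hom.app Z)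
  have h2 : f⟦-n⟧' ≫ (shiftFunctorCompIsoId D₂ n (-n) (add_neg_cancel n)).hom.app Z = 0 := by
    rw [← cancel_epi ((F.commShiftIso (-n)).hom.app M), h1, comp_zero]
  apply (shiftFunctor D₂ (-n)).map_injective
  rw [Functor.map_zero]
  rw [← cancel_mono ((shiftFunctorCompIsoId D₂ n (-n) (add_neg_cancel n)).hom.app Z), zero_comp]
  exact h2

end LRC_

open LRC_ in
/-- LRC (Leray) -/
theorem lrc_proof (hLRA : Stmt_LRA) (hLRB : Stmt_LRB) (hKCA : Stmt_KCA) : Stmt_LRC := by
  intro K _ c₁ c₂ S X _ _ N N' a h M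
  obtain ⟨k1, k2⟩ := hKCA K c₁ c₂ S X N N' a h
  have z1 := k1 _ (kernel.ι (factorThruImage a)) (w1 a) inferInstance (ex3 a)
  have z2 := k2 _ (cokernel.π (image.ι a)) (w2 a) inferInstance (ex4 a)
  have b1 := hLRB K c₁ c₂ S X M N
  have b2 := comp_bij a ((mD X.pbS).obj M)
    (fun n f => shift_zero (mD X.pbS) _ (fun M' f' => hLRA K c₁ c₂ S X _ z1 M' f') M n f)
    (fun n f => shift_zero (mD X.pbS) _ (fun M' f' => hLRA K c₁ c₂ S X _ z2 M' f') M n f)
  have b3 : Function.Bijective (fun f : (mD X.pbS).obj M ⟶ (mD X.pbS).obj ((sg S.R).obj N) =>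
      f ≫ (X.pbS.mapDerivedCategorySingleFunctor 0).hom.app N) :=
    ((X.pbS.mapDerivedCategorySingleFunctor 0).app N).homToEquiv.bijective
  have b4 := (b2.comp b3).comp b1
  have e : (fun f : M ⟶ (sg S.R).obj N =>
      ((mD X.pbS).map f ≫ (X.pbS.mapDerivedCategorySingleFunctor 0).hom.app N) ≫
        (sg X.R).map a) = (fun f : M ⟶ (sg S.R).obj N =>
      (mD X.pbS).map f ≫ (X.pbS.mapDerivedCategorySingleFunctor 0).hom.app N ≫
        (sg X.R).map a) := funext fun f => Category.assoc _ _ _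
  rw [← e]
  exact b4

end Pool.CRD.G
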