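import Pool.Agent.CRD.G.StmtsA

set_option autoImplicit false

open CategoryTheory Opposite Limits TensorProduct

namespace Pool.CRD.G

namespace PSI_

variable {A : Type} [CommRing A] {F T B : Type} [AddCommGroup F] [AddCommGroup T] [AddCommGroup B]
  [Module A F] [Module A T] [Module A B] {e : Module.End A F} {y : Module.End A T}
  {g : B ≃ₗ[A] B} {f : F →ₗ[A] B} {t : T →ₗ[A] B}

theorem inj_f (h0 : H0z f t) : Function.Injective f := by
  rw [injective_iff_map_eq_zero]
  intro x hx
  exact (h0 x 0 (by rw [hx, map_zero])).1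

theorem inj_t (h0 : H0z f t) : Function.Injective t := by
  rw [injective_iff_map_eq_zero]
  intro x hx
  exact (h0 0 x (by rw [hx, map_zero])).2

theorem mem_EE (x : F) : x ∈ EE g f t ↔ ∃ z, f x = g (t z) := Iff.rfl

theorem f_pow (h : IsP1 e y g f t) (n : ℕ) (x : F) : f ((e ^ n) x) = (g ^ n) (f x) := by
  induction n generalizing x with
  | zero => rfl
  | succ n ih =>
    rw [pow_succ, pow_succ, Module.End.mul_apply, LinearEquiv.mul_apply, ih, h.fe]

theorem t_pow (h : IsP1 e y g f t) (n : ℕ) (x : T) : (g ^ n) (t ((y ^ n) x)) = t x := by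
  induction n generalizing x with
  | zero => rfl
  | succ n ih =>
    rw [pow_succ', pow_succ', Module.End.mul_apply, LinearEquiv.mul_apply]
    have h1 : (g ^ n) (g (t (y ((y ^ n) x)))) = (g ^ n) (t ((y ^ n) x)) := by rw [h.ty]
    have h2 : g ((g ^ n) (t (y ((y ^ n) x)))) = (g ^ n) (g (t (y ((y ^ n) x)))) := by
      rw [← LinearEquiv.mul_apply, ← LinearEquiv.mul_apply, ← pow_succ, ← pow_succ']
    rw [h2, h1, ih]

theorem t_pow' (h : IsP1 e y g f t) (n : ℕ) (x : T) :
    t ((y ^ n) x) = (g ^ (-(n : ℤ))) (t x) := by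
  rw [← t_pow h n x, ← LinearEquiv.mul_apply, ← zpow_natCast g n, ← zpow_add, neg_add_cancel,
    zpow_zero]
  rfl

/-- the map for `F` -/
noncomputable def PF (e : Module.End A F) (g : B ≃ₗ[A] B) (f : F →ₗ[A] B) (t : T →ₗ[A] B) :
    (ℕ →₀ EE g f t) →ₗ[A] F :=
  Finsupp.lsum A fun n => (e ^ n) ∘ₗ (EE g f t).subtype

theorem PF_apply (c : ℕ →₀ EE g f t) : PF e g f t c = c.sum fun n x => (e ^ n) (x : F) := rfl

theorem PF_single (n : ℕ) (x : EE g f t) : PF e g f t (Finsupp.single n x) = (e ^ n) (x : F) := by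
  rw [PF_apply, Finsupp.sum_single_index]
  rw [ZeroMemClass.coe_zero, map_zero]

/-- the map for `B` -/
noncomputable def PB (g : B ≃ₗ[A] B) (f : F →ₗ[A] B) (t : T →ₗ[A] B) :
    (ℤ →₀ EE g f t) →ₗ[A] B :=
  Finsupp.lsum A fun n => ((g ^ n : B ≃ₗ[A] B) : B →ₗ[A] B) ∘ₗ f ∘ₗ (EE g f t).subtype

theorem PB_apply (c : ℤ →₀ EE g f t) : PB g f t c = c.sum fun n x => (g ^ n) (f x) := rfl

theorem PB_single (n : ℤ) (x : EE g f t) : PB g f t (Finsupp.single n x) = (g ^ n) (f x) := by
  rw [PB_apply, Finsupp.sum_single_index]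
  rw [ZeroMemClass.coe_zero, map_zero, map_zero]

/-- the map for `T` -/
noncomputable def PT (y : Module.End A T) (τ : EE g f t →ₗ[A] T) :
    (ℕ →₀ EE g f t) →ₗ[A] T :=
  Finsupp.lsum A fun n => (y ^ n) ∘ₗ τ

theorem PT_apply (τ : EE g f t →ₗ[A] T) (c : ℕ →₀ EE g f t) :
    PT y τ c = c.sum fun n x => (y ^ n) (τ x) := rfl

theorem PT_single (τ : EE g f t →ₗ[A] T) (n : ℕ) (x : EE g f t) :
    PT y τ (Finsupp.single n x) = (y ^ n) (τ x) := by
  rw [PT_apply, Finsupp.sum_single_index]
  rw [map_zero, map_zero]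

theorem exTau (h0 : H0z f t) : ∃ τ : EE g f t →ₗ[A] T, ∀ x : EE g f t, f x = g (t (τ x)) := by
  have ht := inj_t h0
  let e1 := LinearEquiv.ofInjective t ht
  let u : EE g f t →ₗ[A] B := (g.symm : B →ₗ[A] B) ∘ₗ f ∘ₗ (EE g f t).subtype
  have hu : ∀ x, u x ∈ LinearMap.range t := by
    rintro ⟨x, z, hz⟩
    refine ⟨z, ?_⟩
    change t z = g.symm (f x)
    rw [hz, LinearEquiv.symm_apply_apply]
  refine ⟨(e1.symm : _ →ₗ[A] T) ∘ₗ (u.codRestrict (LinearMap.range t) hu), fun x => ?_⟩
  have h1 : t (e1.symm (u.codRestrict (LinearMap.range t) hu x)) = u x := by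
    have h2 := e1.apply_symm_apply (u.codRestrict (LinearMap.range t) hu x)
    have h3 := congrArg Subtype.val h2
    exact h3
  change f x = g (t (e1.symm (u.codRestrict (LinearMap.range t) hu x)))
  rw [h1]
  exact (g.apply_symm_apply (f x)).symm

theorem PB_shift (m : ℤ) (c : ℤ →₀ EE g f t) :
    PB g f t (c.mapDomain (fun n => n + m)) = (g ^ m) (PB g f t c) := by
  induction c using Finsupp.induction_linear with
  | zero => simp
  | add c d hc hd => rw [Finsupp.mapDomain_add, map_add, map_add, map_add, hc, hd]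
  | single n x =>
    rw [Finsupp.mapDomain_single, PB_single, PB_single, add_comm, zpow_add, LinearEquiv.mul_apply]

theorem f_PF (h : IsP1 e y g f t) (c : ℕ →₀ EE g f t) :
    f (PF e g f t c) = PB g f t (c.mapDomain (fun n : ℕ => (n : ℤ))) := by
  induction c using Finsupp.induction_linear with
  | zero => simp
  | add c d hc hd => rw [Finsupp.mapDomain_add, map_add, map_add, map_add, hc, hd]
  | single n x => rw [Finsupp.mapDomain_single, PB_single, PF_single, f_pow h, zpow_natCast]

theorem t_PT (h : IsP1 e y g f t) (τ : EE g f t →ₗ[A] T) (hτ : ∀ x : EE g f t, f x = g (t (τ x)))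
    (c : ℕ →₀ EE g f t) :
    t (PT y τ c) = PB g f t (c.mapDomain (fun n : ℕ => (-(n : ℤ) - 1))) := by
  induction c using Finsupp.induction_linear with
  | zero => simp
  | add c d hc hd => rw [Finsupp.mapDomain_add, map_add, map_add, map_add, hc, hd]
  | single n x =>
    rw [Finsupp.mapDomain_single, PB_single, PT_single, t_pow' h, hτ x]
    have h1 : (g ^ (-(n : ℤ) - 1)) (g (t (τ x))) = ((g ^ (-(n : ℤ) - 1)) * g ^ (1 : ℤ)) (t (τ x)) := by
      rw [zpow_one]
      rfl
    rw [h1, ← zpow_add, sub_add_cancel]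

/-- key step of the injectivity -/
theorem key (h : IsP1 e y g f t) (h0 : H0z f t) (x : EE g f t) (w : F)
    (hx : f x + g (f w) = 0) : x = 0 := by
  obtain ⟨z, hz⟩ := x.2
  have h1 : g (f w) = g (t (-z)) := by
    rw [map_neg, map_neg, ← hz]
    exact eq_neg_of_add_eq_zero_right hx
  have h2 := h0 w (-z) (g.injective h1)
  apply Subtype.ext
  apply inj_f h0
  rw [h2.1, map_zero, map_zero, add_zero] at hx
  rw [hx, ZeroMemClass.coe_zero, map_zero]

theorem injB (h : IsP1 e y g f t) (h0 : H0z f t) : Function.Injective (PB g f t) := by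
  classical
  rw [injective_iff_map_eq_zero]
  intro c hc
  by_contra hne
  have hs : c.support.Nonempty := Finsupp.support_nonempty_iff.2 hne
  set m := c.support.min' hs with hm
  have hm1 : c m ≠ 0 := Finsupp.mem_support_iff.1 (c.support.min'_mem hs)
  -- the remaining part
  let d : ℤ →₀ EE g f t := c.erase m
  have hcd : c = Finsupp.single m (c m) + d := (Finsupp.single_add_erase m c).symm
  have hd : ∀ n ∈ d.support, m + 1 ≤ n := by
    intro n hn
    have h1 : n ∈ c.support ∧ n ≠ m := by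
      rw [Finsupp.support_erase, Finset.mem_erase] at hn
      exact ⟨hn.2, hn.1⟩
    have h2 := c.support.min'_le n h1.1
    have h3 : m ≠ n := fun h => h1.2 h.symm
    omega
  -- `PB d` is `g^(m+1) f w`
  have h1 : ∃ w : F, PB g f t d = (g ^ (m + 1)) (f w) := by
    rw [PB_apply, Finsupp.sum]
    refine ⟨∑ n ∈ d.support, (e ^ (n - (m + 1)).toNat) (d n : F), ?_⟩
    rw [map_sum, map_sum]
    refine Finset.sum_congr rfl fun n hn => ?_
    have h2 := hd n hn
    rw [f_pow h, ← zpow_natCast, Int.toNat_of_nonneg (by omega), ← LinearEquiv.mul_apply,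
      ← zpow_add, add_sub_cancel]
  obtain ⟨w, hw⟩ := h1
  rw [hcd, map_add, PB_single, hw] at hc
  apply hm1
  refine key h h0 (c m) w ?_
  have h2 : (g ^ (m + 1)) (f w) = (g ^ m) (g (f w)) := by
    rw [zpow_add, zpow_one]
    rfl
  rw [h2, ← map_add] at hc
  exact (LinearEquiv.map_eq_zero_iff _).1 hc

theorem injF (h : IsP1 e y g f t) (h0 : H0z f t) : Function.Injective (PF e g f t) := by
  intro c d hcd
  have h1 := congrArg f hcd
  rw [f_PF h, f_PF h] at h1
  exact Finsupp.mapDomain_injective Nat.cast_injective (injB h h0 h1)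

theorem injT (h : IsP1 e y g f t) (h0 : H0z f t) (τ : EE g f t →ₗ[A] T)
    (hτ : ∀ x : EE g f t, f x = g (t (τ x))) : Function.Injective (PT y τ) := by
  intro c d hcd
  have h1 := congrArg t hcd
  rw [t_PT h τ hτ, t_PT h τ hτ] at h1
  refine Finsupp.mapDomain_injective ?_ (injB h h0 h1)
  intro a b hab
  simp only at hab
  omega

theorem PF_e (c : ℕ →₀ EE g f t) : e (PF e g f t c) ∈ LinearMap.range (PF e g f t) := by
  induction c using Finsupp.induction_linear with
  | zero => simp
  | add c d hc hd => rw [map_add, map_add]; exact add_mem hc hd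
  | single n x =>
    refine ⟨Finsupp.single (n + 1) x, ?_⟩
    rw [PF_single, PF_single, pow_succ']
    rfl

theorem PT_y (τ : EE g f t →ₗ[A] T) (c : ℕ →₀ EE g f t) :
    y (PT y τ c) ∈ LinearMap.range (PT y τ) := by
  induction c using Finsupp.induction_linear with
  | zero => simp
  | add c d hc hd => rw [map_add, map_add]; exact add_mem hc hd
  | single n x =>
    refine ⟨Finsupp.single (n + 1) x, ?_⟩
    rw [PT_single, PT_single, pow_succ']
    rfl

theorem surF (h : IsP1 e y g f t) (h0 : H0z f t) (h1 : H1z f t) :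
    Function.Surjective (PF e g f t) := by
  have key1 : ∀ (n : ℕ) (x : F) (z : T), f x = (g ^ n) (t z) →
      x ∈ LinearMap.range (PF e g f t) := by
    intro n
    induction n with
    | zero =>
      intro x z hx
      rw [(h0 x z hx).1]
      exact zero_mem _
    | succ n ih =>
      intro x z hx
      obtain ⟨x', y', hxy⟩ := h1 (g.symm (f x))
      have h2 : f x = g (f x') + g (t y') := by
        rw [← map_add, ← hxy, LinearEquiv.apply_symm_apply]
      have h3 : (x - e x') ∈ EE g f t := by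
        refine ⟨y', ?_⟩
        rw [map_sub, h.fe, h2, add_sub_cancel_left]
      have h4 : f x' = (g ^ n) (t (z - (y ^ n) y')) := by
        rw [map_sub, map_sub, t_pow h]
        have h5 : g.symm (f x) = (g ^ n) (t z) := by
          rw [hx, pow_succ', LinearEquiv.mul_apply, LinearEquiv.symm_apply_apply]
        rw [← h5, hxy, add_sub_cancel_right]
      obtain ⟨c, hc⟩ := ih x' _ h4
      have h6 : x = (x - e x') + e x' := by rw [sub_add_cancel]
      rw [h6]
      refine add_mem ⟨Finsupp.single 0 ⟨x - e x', h3⟩, ?_⟩ ?_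
      · rw [PF_single, pow_zero]
        rfl
      · rw [← hc]
        exact PF_e c
  intro x
  obtain ⟨n, z, hz⟩ := h.t1 (f x)
  exact key1 n x z hz

theorem surT (h : IsP1 e y g f t) (h0 : H0z f t) (h1 : H1z f t) (τ : EE g f t →ₗ[A] T)
    (hτ : ∀ x : EE g f t, f x = g (t (τ x))) : Function.Surjective (PT y τ) := by
  have ht := inj_t h0
  have key1 : ∀ (n : ℕ) (x : T) (z : F), (g ^ n) (t x) = f z →
      x ∈ LinearMap.range (PT y τ) := by
    intro n
    induction n with
    | zero =>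
      intro x z hx
      rw [(h0 z x hx.symm).2]
      exact zero_mem _
    | succ n ih =>
      intro x z hx
      obtain ⟨a, b, hab⟩ := h1 (g (t x))
      have h2 : f a = g (t (x - y b)) := by
        rw [map_sub, map_sub, h.ty, hab, add_sub_cancel_right]
      have h3 : a ∈ EE g f t := ⟨_, h2⟩
      have h4 : τ ⟨a, h3⟩ = x - y b := by
        apply ht
        apply g.injective
        rw [← hτ ⟨a, h3⟩, h2]
      have h5 : (g ^ n) (t b) = f (z - (e ^ n) a) := by
        rw [map_sub, f_pow h, ← hx, pow_succ, LinearEquiv.mul_apply, hab, map_add,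
          add_sub_cancel_left]
      obtain ⟨c, hc⟩ := ih b _ h5
      have h6 : x = τ ⟨a, h3⟩ + y b := by rw [h4, sub_add_cancel]
      rw [h6]
      refine add_mem ⟨Finsupp.single 0 ⟨a, h3⟩, ?_⟩ ?_
      · rw [PT_single, pow_zero]
        rfl
      · rw [← hc]
        exact PT_y τ c
  intro x
  obtain ⟨n, z, hz⟩ := h.f1 (t x)
  exact key1 n x z hz

theorem surB (h : IsP1 e y g f t) (h0 : H0z f t) (h1 : H1z f t) :
    Function.Surjective (PB g f t) := by
  intro b
  obtain ⟨τ, hτ⟩ := exTau (g := g) h0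
  obtain ⟨x, z, rfl⟩ := h1 b
  obtain ⟨c, rfl⟩ := surF h h0 h1 x
  obtain ⟨d, rfl⟩ := surT h h0 h1 τ hτ z
  rw [f_PF h, t_PT h τ hτ, ← map_add]
  exact ⟨_, rfl⟩

end PSI_

theorem psi_proof : Stmt_PSI := by
  intro A _ p q F T B _ _ _ _ _ _ e y g f t zf zt zb hC h0 h1
  have h : IsP1 e y g f t := hC.toIsP1
  obtain ⟨τ, hτ⟩ := PSI_.exTau (g := g) h0
  have hbF : Function.Bijective (PSI_.PF e g f t) := ⟨PSI_.injF h h0, PSI_.surF h h0 h1⟩
  let eF := LinearEquiv.ofBijective (PSI_.PF e g f t) hbF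
  -- decomposition of `zf x`
  have hdec : ∀ x : EE g f t, ∃ a b : EE g f t, zf x = (a : F) + e b := by
    intro x
    obtain ⟨a, b, hab⟩ := h1 (g.symm (f (zf x)))
    have h2 : f (zf x) = g (f a) + g (t b) := by
      rw [← map_add, ← hab, LinearEquiv.apply_symm_apply]
    have h3 : f (zf x) = g (g (t (zt (τ x)))) := by
      rw [hC.fz, hτ x, hC.zbg, hC.tz]
    have h4 : (zf x - e a) ∈ EE g f t := by
      refine ⟨b, ?_⟩
      rw [map_sub, h.fe, h2, add_sub_cancel_left]
    have h5 : a ∈ EE g f t := by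
      refine ⟨zt (τ x) - y b, ?_⟩
      rw [map_sub, map_sub, h.ty]
      have h6 : g.symm (f (zf x)) = g (t (zt (τ x))) := by
        rw [h3, LinearEquiv.symm_apply_apply]
      rw [← h6, hab, add_sub_cancel_right]
    exact ⟨⟨zf x - e a, h4⟩, ⟨a, h5⟩, by rw [sub_add_cancel]⟩
  have hun : ∀ (x : EE g f t) (a b : EE g f t), zf x = (a : F) + e b →
      eF.symm (zf x) = Finsupp.single 0 a + Finsupp.single 1 b := by
    intro x a b hx
    rw [LinearEquiv.symm_apply_eq]
    change zf x = PSI_.PF e g f t _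
    rw [map_add, PSI_.PF_single, PSI_.PF_single, pow_zero, pow_one, hx]
    rfl
  let P : Module.End A (EE g f t) :=
    (Finsupp.lapply 0) ∘ₗ (eF.symm : F →ₗ[A] _) ∘ₗ zf ∘ₗ (EE g f t).subtype
  let Q : Module.End A (EE g f t) :=
    (Finsupp.lapply 1) ∘ₗ (eF.symm : F →ₗ[A] _) ∘ₗ zf ∘ₗ (EE g f t).subtype
  have hPQ : ∀ x : EE g f t, zf x = (P x : F) + e (Q x) := by
    intro x
    obtain ⟨a, b, hab⟩ := hdec x
    have h2 := hun x a b hab
    have h3 : P x = a := by
      change (eF.symm (zf x)) 0 = a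
      rw [h2]
      simp
    have h4 : Q x = b := by
      change (eF.symm (zf x)) 1 = b
      rw [h2]
      simp
    rw [h3, h4, hab]
  have hsq : ∀ x : EE g f t,
      p • x = P (P x) ∧ 0 = Q (P x) + P (Q x) ∧ q • x = Q (Q x) := by
    intro x
    have h2 : zf (zf x) = (P (P x) : F) + e (Q (P x)) + e ((P (Q x) : F) + e (Q (Q x))) := by
      rw [← hPQ (P x), ← hPQ (Q x), ← hC.zfe, ← map_add, ← hPQ x]
    rw [hC.zf2] at h2
    have h3 : PSI_.PF e g f t (Finsupp.single 0 (p • x) + Finsupp.single 2 (q • x)) =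
        PSI_.PF e g f t (Finsupp.single 0 (P (P x)) + Finsupp.single 1 (Q (P x) + P (Q x)) +
          Finsupp.single 2 (Q (Q x))) := by
      simp only [map_add, PSI_.PF_single]
      have h4 : ∀ w : F, (e ^ 2) w = e (e w) := fun w => by rw [pow_two]; rfl
      rw [h4, h4, pow_zero, pow_one]
      change p • (x : F) + e (e (q • (x : F))) = (P (P x) : F) + e ((Q (P x) + P (Q x) : EE g f t) : F)
        + e (e (Q (Q x)))
      rw [map_smul, map_smul, h2, Submodule.coe_add, map_add, map_add]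
      abel
    have h4 := PSI_.injF h h0 h3
    refine ⟨?_, ?_, ?_⟩
    · have h5 := DFunLike.congr_fun h4 0
      simpa using h5
    · have h5 := DFunLike.congr_fun h4 1
      simpa using h5
    · have h5 := DFunLike.congr_fun h4 2
      simpa using h5
  refine ⟨P, Q, τ, ⟨fun x => (hsq x).1.symm, fun x => (hsq x).2.2.symm, fun x => ?_⟩, hPQ, hτ,
    hbF, ⟨PSI_.injT h h0 τ hτ, PSI_.surT h h0 h1 τ hτ⟩, ⟨PSI_.injB h h0, PSI_.surB h h0 h1⟩⟩
  have h2 := (hsq x).2.1
  exact eq_neg_of_add_eq_zero_right h2.symm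

end Pool.CRD.G
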