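import Pool.Agent.CRD.G.StmtsB
import Pool.Agent.CRD.G.DefsE

/-!
# CRD, area G: statements, stage C: modules on `X`, fibrewise over `S`
-/

open CategoryTheory Opposite Limits TensorProduct MonoidalCategory

namespace Pool.CRD.G

/-- CHP: the sections of a coherent module over the fibres over a chart of `S` -/
def Stmt_CHP : Prop :=
  ∀ (K : Type) [Field K] (c₁ c₂ : CurveData K) (S : SurfData c₁ c₂) (X : ConicData S)
    (M : PMod X.R), IsCoh X.R M → ∀ s : Ch2,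
    IsCon (pE S s) (qE S s) (mulr M s ca (etF X s)) (mulr M s cb (yT X s)) (gB M s)
      (rk M s (cab_bot ca)) (rk M s (cab_bot cb)) (mulr M s ca (zeF X s)) (mulr M s cb (zeT X s))
      (mulr M s cab (zeB X s)) ∧
    FGe (mulr M s ca (etF X s)) ∧ FGe (mulr M s cb (yT X s))

/-- SPL: the cohomology of the structure sheaf on the fibres, split form -/
def Stmt_SPL : Prop :=
  ∀ (K : Type) [Field K] (c₁ c₂ : CurveData K) (S : SurfData c₁ c₂) (X : ConicData S) (s : Ch2),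
    (∀ k, ∃ r : X.A s.i s.j k →ₗ[S.A s.i s.j] S.A s.i s.j, ∀ a, r (inc X s k a) = a) ∧
    ∃ (ρ : (X.A s.i s.j ca × X.A s.i s.j cb) →ₗ[S.A s.i s.j] S.A s.i s.j)
      (σ : X.A s.i s.j cab →ₗ[S.A s.i s.j] (X.A s.i s.j ca × X.A s.i s.j cb)),
      (∀ a, ρ (inc X s ca a, inc X s cb a) = a) ∧
      (∀ b : X.A s.i s.j cab,
        (((σ b).1 : X.A s.i s.j ca) : X.E) - ((σ b).2 : X.A s.i s.j cb) = (b : X.E)) ∧
      (∀ (x : X.A s.i s.j ca × X.A s.i s.j cb) (b : X.A s.i s.j cab), (b : X.E) = ((x.1 : X.A s.i s.j ca) : X.E) - (x.2 : X.A s.i s.j cb) →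
        inc X s ca (ρ x) + (σ b).1 = x.1 ∧ inc X s cb (ρ x) + (σ b).2 = x.2)

/-- FLX: the charts of `X` are flat over the charts of `S` -/
def Stmt_FLX : Prop :=
  ∀ (K : Type) [Field K] (c₁ c₂ : CurveData K) (S : SurfData c₁ c₂) (X : ConicData S)
    (t : Ch3ᵒᵖ), (X.pr.hom t).Flat

/-- FTU: the pull back is fibrewise `N ⊗ O` -/
def Stmt_FTU : Prop :=
  ∀ (K : Type) [Field K] (c₁ c₂ : CurveData K) (S : SurfData c₁ c₂) (X : ConicData S)
    (N : PMod S.R) (s : Ch2),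
    ∃ T : FT (𝟙_ (PMod X.R)) (X.pbS.obj N) s (Ss N s),
      ∀ (k : Cov Bool) (n : Ss N s), T.u k n (one1 X s k) = uni N s n k

/-- FTT: tensoring with a third module -/
def Stmt_FTT : Prop :=
  ∀ (K : Type) [Field K] (c₁ c₂ : CurveData K) (S : SurfData c₁ c₂) (X : ConicData S)
    (L M L' : PMod X.R) (s : Ch2) (N : Type) [AddCommGroup N] [Module (S.A s.i s.j) N],
    Nonempty (FT L M s N) → Nonempty (FT (L ⊗ L') (M ⊗ L') s N)

/-- FTI: transport along isomorphisms -/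
def Stmt_FTI : Prop :=
  ∀ (K : Type) [Field K] (c₁ c₂ : CurveData K) (S : SurfData c₁ c₂) (X : ConicData S)
    (L M L' M' : PMod X.R) (s : Ch2) (N : Type) [AddCommGroup N] [Module (S.A s.i s.j) N],
    Nonempty (FT L M s N) → Nonempty (L ≅ L') → Nonempty (M ≅ M') → Nonempty (FT L' M' s N)

/-- FTZ: vanishing of cohomology is preserved -/
def Stmt_FTZ : Prop :=
  ∀ (K : Type) [Field K] (c₁ c₂ : CurveData K) (S : SurfData c₁ c₂) (X : ConicData S)
    (L M : PMod X.R) (s : Ch2) (N : Type) [AddCommGroup N] [Module (S.A s.i s.j) N],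
    Nonempty (FT L M s N) → h0z L s → h1z L s → h0z M s ∧ h1z M s

/-- FTG: cohomology of a module which is fibrewise `N ⊗ O` -/
def Stmt_FTG : Prop :=
  ∀ (K : Type) [Field K] (c₁ c₂ : CurveData K) (S : SurfData c₁ c₂) (X : ConicData S)
    (M : PMod X.R) (s : Ch2) (N : Type) [AddCommGroup N] [Module (S.A s.i s.j) N]
    (T : FT (𝟙_ (PMod X.R)) M s N),
    h1z M s ∧ ∀ m ∈ Gam M s, ∃! n : N, ∀ k, T.u k n (one1 X s k) = m k

/-- FTC: for such a module the counit is bijective -/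
def Stmt_FTC : Prop :=
  ∀ (K : Type) [Field K] (c₁ c₂ : CurveData K) (S : SurfData c₁ c₂) (X : ConicData S)
    (M : PMod X.R) (s : Ch2) (N : Type) [AddCommGroup N] [Module (S.A s.i s.j) N],
    Nonempty (FT (𝟙_ (PMod X.R)) M s N) →
    ∀ k, Function.Bijective (fun x : Sc (X.pbS.obj (push M)) s k => apS (cou M) s k x)

/-- GDL: the line bundle `ℓ` on the fibres -/
def Stmt_GDL : Prop :=
  ∀ (K : Type) [Field K] [IsAlgClosed K] [CharZero K] (c₁ c₂ : CurveData K)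
    (S : SurfData c₁ c₂) [S.R.Good] (X : ConicData S) (a b : S.L)
    (I : FracD (K := K) (F := X.E) (fun t : Ch3 => X.A t.i t.j t.k)), IsEll X a b I →
    ∀ s : Ch2, h0z (lbX I) s ∧ h1z (lbX I) s ∧
    ∀ P Q : Module.End (S.A s.i s.j) (EE (gB (lbX I) s) (rk (lbX I) s (cab_bot ca))
      (rk (lbX I) s (cab_bot cb))), IsCliff (pE S s) (qE S s) P Q →
      (∀ x : EE (gB (lbX I) s) (rk (lbX I) s (cab_bot ca)) (rk (lbX I) s (cab_bot cb)),
        mulr (lbX I) s ca (zeF X s) (x : Sc (lbX I) s ca) = (P x : Sc (lbX I) s ca) +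
          mulr (lbX I) s ca (etF X s) (Q x : Sc (lbX I) s ca)) →
      IsGood2 (pE S s) (qE S s) P Q

/-- LBI: the modules of invertible diagrams on `X` -/
def Stmt_LBI : Prop :=
  ∀ (K : Type) [Field K] [IsAlgClosed K] [CharZero K] (c₁ c₂ : CurveData K)
    (S : SurfData c₁ c₂) (X : ConicData S) (a b : S.L), a ^ 2 - S.x₁ * b ^ 2 = S.x₂ →
    ∃ (I : FracD (K := K) (F := X.E) (fun t : Ch3 => X.A t.i t.j t.k)) (L' : PMod X.R),
      IsEll X a b I ∧ IsCoh X.R (lbX I) ∧ IsCoh X.R L' ∧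
      Nonempty (lbX I ⊗ L' ≅ 𝟙_ (PMod X.R)) ∧ Nonempty (L' ⊗ lbX I ≅ 𝟙_ (PMod X.R))

/-- FTL: a coherent module without cohomology on the fibres is fibrewise `N ⊗ ℓ` -/
def Stmt_FTL : Prop :=
  ∀ (K : Type) [Field K] [IsAlgClosed K] [CharZero K] (c₁ c₂ : CurveData K)
    (S : SurfData c₁ c₂) [S.R.Good] (X : ConicData S) (a b : S.L)
    (I : FracD (K := K) (F := X.E) (fun t : Ch3 => X.A t.i t.j t.k)), IsEll X a b I →
    IsCoh X.R (lbX I) → ∀ (M : PMod X.R), IsCoh X.R M → ∀ s : Ch2, h0z M s → h1z M s →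
    ∃ (N : Type) (_ : AddCommGroup N) (_ : Module (S.A s.i s.j) N), Nonempty (FT (lbX I) M s N)

/-- SYM: the tensor product is commutative -/
def Stmt_SYM : Prop :=
  ∀ (K : Type) [Field K] (C : Type) [SmallCategory C] (R : PAlg K C) (M N : PMod R),
    Nonempty (M ⊗ N ≅ N ⊗ M)

/-- DSC: descent of coherence -/
def Stmt_DSC : Prop :=
  ∀ (K : Type) [Field K] (c₁ c₂ : CurveData K) (S : SurfData c₁ c₂) (X : ConicData S)
    (N : PMod S.R), IsCoh X.R (X.pbS.obj N) → IsCoh S.R N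

/-- EFF: a coherent module without cohomology on the fibres is `p^* N ⊗ ℓ` -/
def Stmt_EFF : Prop :=
  ∀ (K : Type) [Field K] [IsAlgClosed K] [CharZero K] (c₁ c₂ : CurveData K)
    (S : SurfData c₁ c₂) [S.R.Good] (X : ConicData S) (a b : S.L)
    (I : FracD (K := K) (F := X.E) (fun t : Ch3 => X.A t.i t.j t.k)) (L' : PMod X.R),
    IsEll X a b I → IsCoh X.R (lbX I) → IsCoh X.R L' →
    Nonempty (lbX I ⊗ L' ≅ 𝟙_ (PMod X.R)) → ∀ (M : PMod X.R), IsCoh X.R M →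
    (∀ s, h0z M s ∧ h1z M s) →
    ∃ N : PMod S.R, IsCoh S.R N ∧ Nonempty (X.pbS.obj N ⊗ lbX I ≅ M)

/-- HPL: `p^* N ⊗ ℓ` has no cohomology on the fibres -/
def Stmt_HPL : Prop :=
  ∀ (K : Type) [Field K] [IsAlgClosed K] [CharZero K] (c₁ c₂ : CurveData K)
    (S : SurfData c₁ c₂) [S.R.Good] (X : ConicData S) (a b : S.L)
    (I : FracD (K := K) (F := X.E) (fun t : Ch3 => X.A t.i t.j t.k)), IsEll X a b I →
    ∀ (N : PMod S.R) (s : Ch2), h0z (X.pbS.obj N ⊗ lbX I) s ∧ h1z (X.pbS.obj N ⊗ lbX I) s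

/-- FGA: the global sections of a coherent module over the fibres over a chart are finitely
generated -/
def Stmt_FGA : Prop :=
  ∀ (K : Type) [Field K] (c₁ c₂ : CurveData K) (S : SurfData c₁ c₂) [S.R.Good] (X : ConicData S)
    (M : PMod X.R), IsCoh X.R M → ∀ s, (H0 (rk M s (cab_bot ca)) (rk M s (cab_bot cb))).FG

/-- PUC: the push forward of a coherent module is coherent -/
def Stmt_PUC : Prop :=
  ∀ (K : Type) [Field K] (c₁ c₂ : CurveData K) (S : SurfData c₁ c₂) [S.R.Good] (X : ConicData S)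
    (M : PMod X.R), IsCoh X.R M → IsCoh S.R (push M)

/-- CNT: a regular coherent module is a quotient of the pull back of its push forward, the kernel
has no cohomology on the fibres -/
def Stmt_CNT : Prop :=
  ∀ (K : Type) [Field K] (c₁ c₂ : CurveData K) (S : SurfData c₁ c₂) (X : ConicData S)
    (M : PMod X.R), IsCoh X.R M → (∀ s, regular M s) → Epi (cou M) ∧
    ∀ (Z : PMod X.R) (i : Z ⟶ X.pbS.obj (push M)) (w : i ≫ cou M = 0),
      (ShortComplex.mk i (cou M) w).ShortExact → ∀ s, h0z Z s ∧ h1z Z s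

/-- SEX: Serre's theorem on the fibres -/
def Stmt_SEX : Prop :=
  ∀ (K : Type) [Field K] (c₁ c₂ : CurveData K) (S : SurfData c₁ c₂) (X : ConicData S)
    (M : PMod X.R), IsCoh X.R M →
    ∃ d₀ : ℤ, ∀ d e : ℤ, d₀ ≤ d → ∀ s, regular ((WH X d e).twObj M) s

/-- KOS: the Koszul complex of the sections `1`, `η` -/
def Stmt_KOS : Prop :=
  ∀ (K : Type) [Field K] (c₁ c₂ : CurveData K) (S : SurfData c₁ c₂) (X : ConicData S)
    (M : PMod X.R) (d e : ℤ),
    ∃ Ω : ShortComplex (PMod X.R), Ω.ShortExact ∧ Nonempty (Ω.X₁ ≅ (WH X d e).twObj M) ∧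
      Nonempty (Ω.X₂ ≅ (WH X (d + 1) e).twObj M ⊞ (WH X (d + 1) (e + 1)).twObj M) ∧
      Nonempty (Ω.X₃ ≅ (WH X (d + 2) (e + 1)).twObj M)

/-- KCA: kernel and cokernel of a morphism `p^* N → M` inducing an isomorphism on the push forward,
if `R^1 p_* M = 0` -/
def Stmt_KCA : Prop :=
  ∀ (K : Type) [Field K] (c₁ c₂ : CurveData K) (S : SurfData c₁ c₂) (X : ConicData S)
    (N : PMod S.R) (M : PMod X.R) (a : X.pbS.obj N ⟶ M),
    (∀ s, h1z M s ∧ ∀ m ∈ Gam M s, ∃! n : Ss N s, ∀ k, apS a s k (uni N s n k) = m k) →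
    (∀ (Z : PMod X.R) (i : Z ⟶ X.pbS.obj N) (w : i ≫ a = 0), Mono i →
      (ShortComplex.mk i a w).Exact → ∀ s, h0z Z s ∧ h1z Z s) ∧
    (∀ (Z : PMod X.R) (q : M ⟶ Z) (w : a ≫ q = 0), Epi q →
      (ShortComplex.mk a q w).Exact → ∀ s, h0z Z s ∧ h1z Z s)

end Pool.CRD.G
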