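import Pool.Agent.CRD.G.StmtsC
import Pool.Agent.CRD.G.DefsF
import Pool.Agent.CRD.Br.DEQ
import Pool.Agent.CRD.Br.TSY

/-!
# CRD, area G: statements, stage D: derived categories
-/

open CategoryTheory Opposite Limits TensorProduct MonoidalCategory Pretriangulated

namespace Pool.CRD.G

/-! ### vanishing on the diagram with the rings of `S` -/

/-- PRA: restriction to the charts `(s,cab)` is left adjoint to the pull back -/
def Stmt_PRA : Prop :=
  ∀ (K : Type) [Field K] (c₁ c₂ : CurveData K) (S : SurfData c₁ c₂),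
    ∃ adj : res S cab ⊣ pbp S, IsIso adj.counit

/-- SKY: restriction to the charts `(s,k)`, `k` maximal, has an exact right adjoint -/
def Stmt_SKY : Prop :=
  ∀ (K : Type) [Field K] (c₁ c₂ : CurveData K) (S : SurfData c₁ c₂) (k : Cov Bool),
    k = ca ∨ k = cb →
    ∃ (G : PMod S.R ⥤ PMod (Rp S)) (_ : ExF G) (adj : res S k ⊣ G), IsIso adj.counit ∧
      ∀ Q : PMod (Rp S), (∀ s k', k' ≠ k → Subsingleton (Q.obj (op (c3 s k')))) →
        IsIso (adj.unit.app Q)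

/-- VN0: vanishing for halves -/
def Stmt_VN0 : Prop :=
  ∀ (K : Type) [Field K] (c₁ c₂ : CurveData K) (S : SurfData c₁ c₂) (k : Cov Bool),
    k = ca ∨ k = cb → ∀ C : PMod (Rp S), HalfP k C →
    ∀ (M : DPM S.R) (f : (mD (pbp S)).obj M ⟶ (sg (Rp S)).obj C), f = 0

/-- ACD: decomposition of an acyclic module into halves -/
def Stmt_ACD : Prop :=
  ∀ (K : Type) [Field K] (c₁ c₂ : CurveData K) (S : SurfData c₁ c₂) (C : PMod (Rp S)),
    (∀ s, Acy C s) → ∃ C₁ C₂ : PMod (Rp S), HalfP cb C₁ ∧ HalfP ca C₂ ∧ Nonempty (C ≅ C₁ ⊞ C₂)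

/-- VAN: vanishing for acyclic modules -/
def Stmt_VAN : Prop :=
  ∀ (K : Type) [Field K] (c₁ c₂ : CurveData K) (S : SurfData c₁ c₂) (C : PMod (Rp S)),
    (∀ s, Acy C s) → ∀ (M : DPM S.R) (f : (mD (pbp S)).obj M ⟶ (sg (Rp S)).obj C), f = 0

/-! ### base change -/

/-- BRA: base change is left adjoint to restriction of scalars -/
def Stmt_BRA : Prop :=
  ∀ (K : Type) [Field K] (C : Type) [SmallCategory C] (R R' : PAlg K C) (φ : R ⟶ R'),
    ∃ adj : bc φ ⊣ rsc φ, ∀ M, adj.unit.app M = bcU φ M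

/-- PBI: the pull back is the pull back of charts followed by base change -/
def Stmt_PBI : Prop :=
  ∀ (K : Type) [Field K] (c₁ c₂ : CurveData K) (S : SurfData c₁ c₂) (X : ConicData S),
    Nonempty (X.pbS ≅ pbp S ⋙ bcX X)

/-- EXB: these functors are exact -/
def Stmt_EXB : Prop :=
  ∀ (K : Type) [Field K] (c₁ c₂ : CurveData K) (S : SurfData c₁ c₂) (X : ConicData S),
    ExF (bcX X) ∧ ExF X.pbS

/-- RAC: restriction of scalars of a module without cohomology on the fibres -/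
def Stmt_RAC : Prop :=
  ∀ (K : Type) [Field K] (c₁ c₂ : CurveData K) (S : SurfData c₁ c₂) (X : ConicData S)
    (M : PMod X.R), (∀ s, h0z M s ∧ h1z M s) → ∀ s, Acy ((rsX X).obj M) s

/-- UAC: the cokernel of the unit -/
def Stmt_UAC : Prop :=
  ∀ (K : Type) [Field K] (c₁ c₂ : CurveData K) (S : SurfData c₁ c₂) (X : ConicData S)
    (N : PMod S.R), Mono (bcU (phX X) ((pbp S).obj N)) ∧
    ∀ (C : PMod (Rp S)) (q : (rsX X).obj ((bcX X).obj ((pbp S).obj N)) ⟶ C)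
      (w : bcU (phX X) ((pbp S).obj N) ≫ q = 0), Epi q →
      (ShortComplex.mk (bcU (phX X) ((pbp S).obj N)) q w).Exact → ∀ s, Acy C s

/-- LRA (Leray, vanishing): no morphisms from `p^* M` to a module without cohomology on the
fibres -/
def Stmt_LRA : Prop :=
  ∀ (K : Type) [Field K] (c₁ c₂ : CurveData K) (S : SurfData c₁ c₂) (X : ConicData S)
    [ExF (bcX X)] [ExF X.pbS] (N : PMod X.R), (∀ s, h0z N s ∧ h1z N s) →
    ∀ (M : DPM S.R) (f : (mD X.pbS).obj M ⟶ (sg X.R).obj N), f = 0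

/-- LRB (Leray for `p^* N`): the pull back is fully faithful -/
def Stmt_LRB : Prop :=
  ∀ (K : Type) [Field K] (c₁ c₂ : CurveData K) (S : SurfData c₁ c₂) (X : ConicData S)
    [ExF (bcX X)] [ExF X.pbS] (M : DPM S.R) (N : PMod S.R),
    Function.Bijective (fun f : M ⟶ (sg S.R).obj N => (mD X.pbS).map f)

/-- LRC (Leray): if `R^1 p_* N' = 0` and `a : p^* N → N'` induces `N = p_* N'` then
`Hom(p^* M, N') = Hom(M, N)` -/
def Stmt_LRC : Prop :=
  ∀ (K : Type) [Field K] (c₁ c₂ : CurveData K) (S : SurfData c₁ c₂) (X : ConicData S)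
    [ExF (bcX X)] [ExF X.pbS] (N : PMod S.R) (N' : PMod X.R) (a : X.pbS.obj N ⟶ N'),
    (∀ s, h1z N' s ∧ ∀ m ∈ Gam N' s, ∃! n : Ss N s, ∀ k, apS a s k (uni N s n k) = m k) →
    ∀ M : DPM S.R, Function.Bijective (fun f : M ⟶ (sg S.R).obj N =>
      (mD X.pbS).map f ≫ (X.pbS.mapDerivedCategorySingleFunctor 0).hom.app N ≫ (sg X.R).map a)

/-! ### from modules to bounded derived categories -/

/-- DFF: a criterion for full faithfulness -/
def Stmt_DFF : Prop :=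
  ∀ (K : Type) [Field K] (C C' : Type) [SmallCategory C] [SmallCategory C'] (R : PAlg K C)
    (R' : PAlg K C') [R.Good] [R'.Good] (F : PMod R ⥤ PMod R') [ExF F]
    (h : ∀ M, IsCoh R M → IsCoh R' (F.obj M)) [ExF (cohF F h)], Effac R → Effac R' →
    (∀ (M : DPM R) (N : PMod R), IsCoh R N →
      Function.Bijective (fun f : M ⟶ (sg R).obj N => (mD F).map f)) →
    (mB (cohF F h)).Full ∧ (mB (cohF F h)).Faithful

/-- DOR: a criterion for orthogonality -/
def Stmt_DOR : Prop :=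
  ∀ (K : Type) [Field K] (C C' : Type) [SmallCategory C] [SmallCategory C'] (R : PAlg K C)
    (R' : PAlg K C') [R.Good] [R'.Good] (F G : PMod R ⥤ PMod R') [ExF F] [ExF G]
    (hF : ∀ M, IsCoh R M → IsCoh R' (F.obj M)) (hG : ∀ M, IsCoh R M → IsCoh R' (G.obj M))
    [ExF (cohF F hF)] [ExF (cohF G hG)], Effac R' →
    (∀ (M : DPM R) (N : PMod R), IsCoh R N → ∀ f : (mD F).obj M ⟶ (sg R').obj (G.obj N), f = 0) →
    ∀ (x y : Db R) (f : (mB (cohF F hF)).obj x ⟶ (mB (cohF G hG)).obj y), f = 0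

/-- SBF: the value of the functor on modules -/
def Stmt_SBF : Prop :=
  ∀ (K : Type) [Field K] (C C' : Type) [SmallCategory C] [SmallCategory C'] (R : PAlg K C)
    (R' : PAlg K C') [R.Good] [R'.Good] (F : PMod R ⥤ PMod R')
    (h : ∀ M, IsCoh R M → IsCoh R' (F.obj M)) [ExF (cohF F h)] (M : Coh R),
    Nonempty ((mB (cohF F h)).obj ((sB R).obj M) ≅ (sB R').obj ((cohF F h).obj M))

/-- DVB: devissage in the bounded derived category -/
def Stmt_DVB : Prop :=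
  ∀ (K : Type) [Field K] (C : Type) [SmallCategory C] (R : PAlg K C) [R.Good]
    (P : ObjectProperty (Db R)), P.IsTriangulated → P.IsClosedUnderIsomorphisms →
    (∀ M : Coh R, P ((sB R).obj M)) → ∀ y, P y

/-- TTH: two out of three -/
def Stmt_TTH : Prop :=
  ∀ (K : Type) [Field K] (C : Type) [SmallCategory C] (R : PAlg K C) [R.Good]
    (P : ObjectProperty (Db R)), P.IsTriangulated → P.IsClosedUnderIsomorphisms →
    ∀ (Ω : ShortComplex (PMod R)), Ω.ShortExact → ∀ (h₁ : IsCoh R Ω.X₁) (h₂ : IsCoh R Ω.X₂)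
      (h₃ : IsCoh R Ω.X₃),
      (P ((sB R).obj ⟨Ω.X₁, h₁⟩) → P ((sB R).obj ⟨Ω.X₂, h₂⟩) → P ((sB R).obj ⟨Ω.X₃, h₃⟩)) ∧
      (P ((sB R).obj ⟨Ω.X₂, h₂⟩) → P ((sB R).obj ⟨Ω.X₃, h₃⟩) → P ((sB R).obj ⟨Ω.X₁, h₁⟩)) ∧
      (P ((sB R).obj ⟨Ω.X₁, h₁⟩) → P ((sB R).obj ⟨Ω.X₃, h₃⟩) → P ((sB R).obj ⟨Ω.X₂, h₂⟩))

/-- IMG: the essential image of a fully faithful exact functor -/
def Stmt_IMG : Prop :=
  ∀ (K : Type) [Field K] (T : Type 1) [Category.{1} T] [HasZeroObject T] [HasShift T ℤ]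
    [Preadditive T] [∀ (n : ℤ), (shiftFunctor T n).Additive] [Pretriangulated T] [Linear K T]
    (T' : Type 1) [Category.{1} T'] [HasZeroObject T'] [HasShift T' ℤ]
    [Preadditive T'] [∀ (n : ℤ), (shiftFunctor T' n).Additive] [Pretriangulated T']
    [Linear K T'] (F : T' ⥤ T) [F.CommShift ℤ] [F.IsTriangulated] [F.Linear K], F.Full →
    F.Faithful → F.essImage.IsClosedUnderIsomorphisms ∧
      ∃ h : F.essImage.IsTriangulated, haveI := h; AdmEmb K T' F.essImage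

/-! ### the two functors and generation -/

/-- TEX: tensoring with an invertible module is exact -/
def Stmt_TEX : Prop :=
  ∀ (K : Type) [Field K] (C : Type) [SmallCategory C] (R : PAlg K C) (L L' : PMod R),
    Nonempty (L ⊗ L' ≅ 𝟙_ (PMod R)) → ExF (tensorRight L)

/-- LRD: `p^*(-) ⊗ ℓ` is fully faithful -/
def Stmt_LRD : Prop :=
  ∀ (K : Type) [Field K] (c₁ c₂ : CurveData K) (S : SurfData c₁ c₂) (X : ConicData S)
    [ExF (bcX X)] [ExF X.pbS] (L L' : PMod X.R) [ExF (tensorRight L)],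
    Nonempty (L ⊗ L' ≅ 𝟙_ (PMod X.R)) → ∀ (M : DPM S.R) (N : PMod S.R),
    Function.Bijective (fun f : M ⟶ (sg S.R).obj N => (mD (X.pbS ⋙ tensorRight L)).map f)

/-- GRG: regular modules are generated by the two subcategories -/
def Stmt_GRG : Prop :=
  ∀ (K : Type) [Field K] [IsAlgClosed K] [CharZero K] (c₁ c₂ : CurveData K)
    (S : SurfData c₁ c₂) [S.R.Good] (X : ConicData S) [X.R.Good] (a b : S.L)
    (I : FracD (K := K) (F := X.E) (fun t : Ch3 => X.A t.i t.j t.k)) (L' : PMod X.R),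
    IsEll X a b I → IsCoh X.R (lbX I) → IsCoh X.R L' →
    Nonempty (lbX I ⊗ L' ≅ 𝟙_ (PMod X.R)) → ∀ P : ObjectProperty (Db X.R), P.IsTriangulated →
    P.IsClosedUnderIsomorphisms →
    (∀ (N : PMod S.R), IsCoh S.R N → ∀ h : IsCoh X.R (X.pbS.obj N),
      P ((sB X.R).obj ⟨X.pbS.obj N, h⟩)) →
    (∀ (N : PMod S.R), IsCoh S.R N → ∀ h : IsCoh X.R (X.pbS.obj N ⊗ lbX I),
      P ((sB X.R).obj ⟨X.pbS.obj N ⊗ lbX I, h⟩)) →
    ∀ (M : PMod X.R) (hM : IsCoh X.R M), (∀ s, regular M s) → P ((sB X.R).obj ⟨M, hM⟩)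

/-- GNA: all modules are generated by the two subcategories -/
def Stmt_GNA : Prop :=
  ∀ (K : Type) [Field K] [IsAlgClosed K] [CharZero K] (c₁ c₂ : CurveData K)
    (S : SurfData c₁ c₂) [S.R.Good] (X : ConicData S) [X.R.Good] (a b : S.L)
    (I : FracD (K := K) (F := X.E) (fun t : Ch3 => X.A t.i t.j t.k)) (L' : PMod X.R),
    IsEll X a b I → IsCoh X.R (lbX I) → IsCoh X.R L' →
    Nonempty (lbX I ⊗ L' ≅ 𝟙_ (PMod X.R)) → ∀ P : ObjectProperty (Db X.R), P.IsTriangulated →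
    P.IsClosedUnderIsomorphisms →
    (∀ (N : PMod S.R), IsCoh S.R N → ∀ h : IsCoh X.R (X.pbS.obj N),
      P ((sB X.R).obj ⟨X.pbS.obj N, h⟩)) →
    (∀ (N : PMod S.R), IsCoh S.R N → ∀ h : IsCoh X.R (X.pbS.obj N ⊗ lbX I),
      P ((sB X.R).obj ⟨X.pbS.obj N ⊗ lbX I, h⟩)) →
    ∀ (M : PMod X.R) (hM : IsCoh X.R M), P ((sB X.R).obj ⟨M, hM⟩)

/-- PCO: pull backs of coherent modules are coherent -/
def Stmt_PCO : Prop :=
  ∀ (K : Type) [Field K] (c₁ c₂ : CurveData K) (S : SurfData c₁ c₂) (X : ConicData S)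
    (N : PMod S.R), IsCoh S.R N → IsCoh X.R (X.pbS.obj N)

/-- RSE: Serre vanishing on the fibres -/
def Stmt_RSE : Prop :=
  ∀ (K : Type) [Field K] (c₁ c₂ : CurveData K) (S : SurfData c₁ c₂) (X : ConicData S)
    (M : PMod X.R), IsCoh X.R M → ∃ d₀ : ℕ, ∀ d : ℕ, d₀ ≤ d → ∀ s, h1z ((X.wi ^ d).tw.obj M) s

/-- FPD: the pull back `D^b(Coh S) ⥤ D^b(Coh X)` is fully faithful -/
def Stmt_FPD : Prop :=
  ∀ (K : Type) [Field K] (c₁ c₂ : CurveData K) (S : SurfData c₁ c₂) (X : ConicData S)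
    [S.R.Good] [X.R.Good] [X.POK], Effac S.R → Effac X.R → X.pbD.Full ∧ X.pbD.Faithful

/-- LER: Leray in the bounded derived categories -/
def Stmt_LER : Prop :=
  ∀ (K : Type) [Field K] (c₁ c₂ : CurveData K) (S : SurfData c₁ c₂) (X : ConicData S)
    [S.R.Good] [X.R.Good] [X.POK], Effac S.R → Effac X.R → ∀ M : Coh X.R, (∀ s, h1z M.obj s) →
    ∃ hM : IsCoh S.R (push M.obj),
      Nonempty ((X.pbD.op ⋙ yoneda.obj (sgC M)).RepresentableBy (sgC ⟨push M.obj, hM⟩))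

/-- EFS, EFX: effaceability (from Serre's theorems, areas B and D1) -/
def Stmt_EFS : Prop :=
  ∀ (K : Type) [Field K] [IsAlgClosed K] [CharZero K] (c₁ c₂ : CurveData K)
    (S : SurfData c₁ c₂) [S.R.Good], Effac S.R
/-- EFX -/
def Stmt_EFX : Prop :=
  ∀ (K : Type) [Field K] [IsAlgClosed K] [CharZero K] (c₁ c₂ : CurveData K)
    (S : SurfData c₁ c₂) (X : ConicData S) [X.R.Good], Effac X.R

end Pool.CRD.G
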