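import Pool.Agent.CRD.G.StmtsD

open CategoryTheory Opposite Limits TensorProduct MonoidalCategory Pretriangulated

namespace Pool.CRD.G

namespace TTH_

variable {K : Type} [Field K] {C : Type} [SmallCategory C] (R : PAlg K C) [R.Good]

/-- a short exact sequence of coherent modules in the category of coherent modules -/
def lft (Ω : ShortComplex (PMod R)) (h₁ : IsCoh R Ω.X₁) (h₂ : IsCoh R Ω.X₂)
    (h₃ : IsCoh R Ω.X₃) : ShortComplex (Coh R) where
  X₁ := ⟨Ω.X₁, h₁⟩
  X₂ := ⟨Ω.X₂, h₂⟩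
  X₃ := ⟨Ω.X₃, h₃⟩
  f := ObjectProperty.homMk Ω.f
  g := ObjectProperty.homMk Ω.g
  zero := by
    apply (IsCoh R).ι.map_injective
    rw [Functor.map_comp, Functor.map_zero]
    exact Ω.zero

lemma lft_se (Ω : ShortComplex (PMod R)) (h : Ω.ShortExact) (h₁ : IsCoh R Ω.X₁)
    (h₂ : IsCoh R Ω.X₂) (h₃ : IsCoh R Ω.X₃) : (lft R Ω h₁ h₂ h₃).ShortExact := by
  have e1 : ((lft R Ω h₁ h₂ h₃).map (IsCoh R).ι).ShortExact := h
  refine ShortComplex.ShortExact.mk' ?_ ?_ ?_
  · exact (ShortComplex.exact_map_iff_of_faithful (lft R Ω h₁ h₂ h₃) (IsCoh R).ι).1 e1.exact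
  · exact (IsCoh R).ι.mono_of_mono_map e1.mono_f
  · exact (IsCoh R).ι.epi_of_epi_map e1.epi_g

end TTH_

open TTH_ in
theorem tth_proof : Stmt_TTH := by
  intro K _ C _ R _ P hP hiso Ω hΩ h₁ h₂ h₃
  let P' : ObjectProperty (DerivedCategory (Coh R)) := P.map (DerivedCategory.Bounded.ι (C := Coh R))
  have hP' : P'.IsTriangulated := inferInstance
  have key : ∀ y : Db R, P' y.obj ↔ P y := by
    intro y
    constructor
    · intro h
      obtain ⟨z, hz, ⟨e⟩⟩ := (P.prop_map_iff _ _).1 h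
      exact P.prop_of_iso (DerivedCategory.TStructure.t.bounded.fullyFaithfulι.preimageIso e) hz
    · intro h
      exact P.prop_map_obj _ h
  have hT := (lft_se R Ω hΩ h₁ h₂ h₃).singleTriangle_distinguished
  rw [← key, ← key, ← key]
  exact ⟨fun a b => P'.ext_of_isTriangulatedClosed₃ _ hT a b,
    fun a b => P'.ext_of_isTriangulatedClosed₁ _ hT a b,
    fun a b => P'.ext_of_isTriangulatedClosed₂ _ hT a b⟩

end Pool.CRD.G
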