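import Pool.Agent.CRD.G.StmtsD
import Pool.Agent.CRD.Phi.Stmts

/-!
# CRD, area G: the statements of area PHI proved in area G
-/

open CategoryTheory Opposite Limits Pretriangulated

namespace Pool.CRD.G

lemma hi_eq {K : Type} [Field K] {c₁ c₂ : CurveData K} {S : SurfData c₁ c₂} (X : ConicData S) :
    hi X = X.nX := rfl

/-- regular modules have no `H^1` on the fibres -/
lemma h1z_of_regular {K : Type} [Field K] {c₁ c₂ : CurveData K} {S : SurfData c₁ c₂}
    {X : ConicData S} (M : PMod X.R) (s : Ch2) (h : regular M s) : h1z M s := by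
  intro b
  obtain ⟨x, y, hb⟩ := h b
  refine ⟨x, yT X s • y, ?_⟩
  rw [hb]
  congr 1
  rw [LinearEquiv.symm_apply_eq]
  change rk M s (cab_bot cb) y = etB X s • rk M s (cab_bot cb) (yT X s • y)
  have h1 : rk M s (cab_bot cb) (yT X s • y) = yB X s • rk M s (cab_bot cb) y :=
    rg_smul M (le_refl s) (cab_bot cb) (yT X s) y
  rw [h1, smul_smul, etB_yB, one_smul]

/-- RSV from SEX -/
theorem rsv_of (hSEX : Stmt_SEX) : Ph.Stmt_RSV := by
  intro K _ _ c₁ c₂ S X _ M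
  obtain ⟨d₀, h⟩ := hSEX K c₁ c₂ S X M.obj M.property
  refine ⟨d₀.toNat, fun d m hd s => ?_⟩
  exact h1z_of_regular _ s (h d m (by have := Int.self_le_toNat d₀; omega) s)

/-- LER from the version of area G -/
theorem ph_ler_of (hLER : Stmt_LER) (hEFS : Stmt_EFS) (hEFX : Stmt_EFX) : Ph.Stmt_LER := by
  intro K _ _ _ c₁ c₂ S X _ _ _ M hM
  exact hLER K c₁ c₂ S X (hEFS K c₁ c₂ S) (hEFX K c₁ c₂ S X) M hM

/-- FFP from the version of area G -/
theorem ph_ffp_of (hFPD : Stmt_FPD) (hEFS : Stmt_EFS) (hEFX : Stmt_EFX) : Ph.Stmt_FFP := by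
  intro K _ _ _ c₁ c₂ S X _ _ _
  exact hFPD K c₁ c₂ S X (hEFS K c₁ c₂ S) (hEFX K c₁ c₂ S X)

end Pool.CRD.G
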